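import Mathlib
import Pool.Agent.HDC.Basic
import Pool.Agent.Helper43.Arc

/-!
# Project HDA (MP_45a7b9_gt): homogeneous hereditarily decomposable continua containing an arc

Definitions. `X` is a compact metric space; continua, small homeomorphisms `Sm h ε`, indecomposable
continua are those of project HDC; `IsArc A a b` is `Pool.Agent.Helper43.IsArc`.
-/

set_option autoImplicit false

open Set Topology Filter Metric Pool.Agent.HDC Pool.Agent.Helper43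

namespace Pool.Agent.HDA

variable {X : Type*} [MetricSpace X]

/-- `x` and `y` lie in a path connected set of diameter `< ε` -/
def Near (ε : ℝ) (x y : X) : Prop :=
  ∃ A : Set X, IsPathConnected A ∧ x ∈ A ∧ y ∈ A ∧ diam A < ε

/-- `B` meets `h '' B` for all homeomorphisms `h` of size `< ε` that move `x` only by `< ε` inside
its path component -/
def Thick (ε : ℝ) (x : X) (B : Set X) : Prop :=
  ∀ h : X ≃ₜ X, Sm h ε → Near ε x (h x) → (h '' B ∩ B).Nonempty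

/-- `B` is a thick arc from `x` to `a` inside the ball of radius `s / 3` -/
def Th (s : ℝ) (x : X) (B : Set X) (a : X) : Prop :=
  IsArc B x a ∧ B ⊆ ball x (s / 3) ∧ ∃ ε > 0, Thick ε x B

/-- the points of the ball `ball x s` that can be joined to a thick arc at `x` inside the ball
without passing through `x` -/
def Up (s : ℝ) (x : X) : Set X :=
  {y | ∃ (B : Set X) (a : X), Th s x B a ∧ ∃ b ∈ B, b ≠ x ∧ JoinedIn (ball x s \ {x}) y b}

/-- `x` is below `z` (at scale `s`) -/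
def Dn (s : ℝ) (z x : X) : Prop :=
  x ≠ z ∧ x ∈ pathComponentIn (ball z s) z ∧ x ∉ Up s z

/-- all thick arcs at a point leave in the same direction (at scale `s`) -/
def Type1 (X : Type*) [MetricSpace X] (s : ℝ) : Prop :=
  ∀ (x : X) (B : Set X) (a : X) (B' : Set X) (a' : X), Th s x B a → Th s x B' a' →
    ∀ b ∈ B, b ≠ x → ∀ b' ∈ B', b' ≠ x → JoinedIn (ball x s \ {x}) b b'

/-- near `x` the path component of `x` is an arc with `x` in its interior -/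
def LineAt (x : X) : Prop :=
  ∃ (B B' : Set X) (a a' : X) (ε : ℝ), 0 < ε ∧ IsArc B x a ∧ IsArc B' x a' ∧ B ∩ B' = {x} ∧
    ∀ w, Near ε x w → w ∈ B ∪ B'

/-- the facts on the relation `Dn s` from which the tree structure is derived -/
structure TreeAx (X : Type*) [MetricSpace X] (s ε : ℝ) : Prop where
  pos : 0 < ε
  small : ε ≤ s / 20
  type1 : Type1 X s
  comp : ∀ x y : X, Near ε x y → Dn s x y → x ∈ Up s y
  below : ∀ x : X, ∀ t > 0, ∃ z, Near t x z ∧ Dn s z x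

/-- a Whitney map: the size of a set -/
noncomputable def wm [Nonempty X] [TopologicalSpace.SeparableSpace X] (A : Set X) : ℝ :=
  ∑' n : ℕ, (1 / 2 : ℝ) ^ n * diam ((fun y => dist (TopologicalSpace.denseSeq X n) y) '' A)

/-- a system of directed arcs: `Leg x A z` means that `A` is a legal arc from `x` to `z` -/
structure DL (X : Type*) [MetricSpace X] [Nonempty X] [TopologicalSpace.SeparableSpace X]
    (Leg : X → Set X → X → Prop) (c η : ℝ) : Prop where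
  c_pos : 0 < c
  η_pos : 0 < η
  arc : ∀ x A z, Leg x A z → IsArc A x z
  subl : ∀ x A z y, Leg x A z → y ∈ A → y ≠ x → ∃ A' ⊆ A, Leg x A' y
  subr : ∀ x A z y, Leg x A z → y ∈ A → y ≠ z → ∃ A' ⊆ A, Leg y A' z
  tri : ∀ x A z A' z', Leg x A z → Leg x A' z' → A ⊆ A' ∨ A' ⊆ A ∨ A ∩ A' = {x}
  two : ∀ x A₁ z₁ A₂ z₂ A₃ z₃, Leg x A₁ z₁ → Leg x A₂ z₂ → Leg x A₃ z₃ →
    A₁ ∩ A₂ ≠ {x} ∨ A₁ ∩ A₃ ≠ {x} ∨ A₂ ∩ A₃ ≠ {x}
  ex : ∀ x, ∃ A z, Leg x A z
  ext : ∀ x A z, Leg x A z → wm A ≤ c → ∃ A' z', Leg x A' z' ∧ A ⊆ A' ∧ wm A' = c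
  hom : ∀ (h : X ≃ₜ X) x A z, Sm h η → Leg x A z → wm A ≤ c → Leg (h x) (h '' A) (h z)

/-- forward invariant closed sets of a flow `m` -/
def Inv {Y : Type*} [MetricSpace Y] (m : Y → ℝ → Y) (M : Set Y) : Prop :=
  IsClosed M ∧ ∀ s ∈ M, ∀ u ∈ Icc (0 : ℝ) 1, m s u ∈ M

/-- the properties of the flow `m` on the space of states `Y` over `X` -/
structure FlowAx (X Y : Type*) [MetricSpace X] [MetricSpace Y] (p : Y → X) (m : Y → ℝ → Y)
    (κ : ℝ) : Prop where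
  κ_pos : 0 < κ
  p_cont : Continuous p
  p_open : IsOpenMap p
  p_inj : ∀ s s', p s = p s' → dist s s' < κ → s = s'
  m_cont : ContinuousOn (fun q : Y × ℝ => m q.1 q.2) (univ ×ˢ Icc 0 1)
  m_zero : ∀ s, m s 0 = s
  m_comp : ∀ s v u, 0 ≤ v → v ≤ u → u ≤ 1 → ∃ u', 0 ≤ u' ∧ u' ≤ u ∧ m s u = m (m s v) u' ∧
    (0 < v → u' < u) ∧ (v < u → 0 < u') ∧ ∀ w ∈ Icc 0 u', ∃ w' ∈ Icc v u, m (m s v) w = m s w'
  m_next : ∀ s, ∀ v ∈ Icc (0 : ℝ) 1, ∀ u ∈ Icc (0 : ℝ) 1,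
    (∃ w ∈ Icc v 1, m (m s v) u = m s w) ∨ (∃ w ∈ Icc (0 : ℝ) 1, m (m s v) u = m (m s 1) w)
  m_ne : ∀ s, ∀ u ∈ Ioc (0 : ℝ) 1, p (m s u) ≠ p s
  eff : ∀ ε > 0, ∃ δ > 0, ∀ s s', dist s s' < δ → ∃ g : Y ≃ₜ Y, Sm g ε ∧ g s = s' ∧
    (∀ M, Inv m M → Inv m (g '' M)) ∧ (∀ M, Inv m M → Inv m (g.symm '' M))

/-- the space of states: pairs (starting point, end point) of legal arcs of size `c / 4` -/
def St [Nonempty X] [TopologicalSpace.SeparableSpace X] (Leg : X → Set X → X → Prop) (c : ℝ) :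
    Set (X × X) :=
  {s | ∃ A, Leg s.1 A s.2 ∧ wm A = c / 4}

/-- `f` parametrises a legal arc of size `c` starting at `x` -/
def Par [Nonempty X] [TopologicalSpace.SeparableSpace X] (Leg : X → Set X → X → Prop) (c : ℝ)
    (x : X) (f : ℝ → X) : Prop :=
  ContinuousOn f (Icc 0 1) ∧ InjOn f (Icc 0 1) ∧ f 0 = x ∧ Leg x (f '' Icc 0 1) (f 1) ∧
    wm (f '' Icc 0 1) = c

/-- the state `s'` is reached from the state `s` after moving forward by `u * c / 4` -/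
def Mv [Nonempty X] [TopologicalSpace.SeparableSpace X] (Leg : X → Set X → X → Prop) (c : ℝ)
    (s : X × X) (u : ℝ) (s' : X × X) : Prop :=
  ∃ f : ℝ → X, Par Leg c s.1 f ∧ ∃ t₁ ∈ Icc (0 : ℝ) 1, ∃ t₂ ∈ Icc (0 : ℝ) 1, ∃ t₃ ∈ Icc t₂ 1,
    f t₁ = s.2 ∧ wm (f '' Icc 0 t₁) = c / 4 ∧ f t₂ = s'.1 ∧ wm (f '' Icc 0 t₂) = u * (c / 4) ∧
    f t₃ = s'.2 ∧ wm (f '' Icc t₂ t₃) = c / 4

/-- the state `s'` is the image of the state `s` under the homeomorphism `h` -/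
def Lf [Nonempty X] [TopologicalSpace.SeparableSpace X] (Leg : X → Set X → X → Prop) (c : ℝ)
    (h : X ≃ₜ X) (s s' : X × X) : Prop :=
  ∃ f : ℝ → X, Par Leg c s.1 f ∧ ∃ t₁ ∈ Icc (0 : ℝ) 1, ∃ t₂ ∈ Icc (0 : ℝ) 1,
    f t₁ = s.2 ∧ wm (f '' Icc 0 t₁) = c / 4 ∧ h (f 0) = s'.1 ∧ h (f t₂) = s'.2 ∧
    wm (h '' (f '' Icc 0 t₂)) = c / 4

/-- the forward path of a state, parametrised by `[0, ∞)` -/
noncomputable def rho {Y : Type*} (m : Y → ℝ → Y) (s : Y) (t : ℝ) : Y :=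
  m ((fun y => m y 1)^[⌊t⌋₊] s) (t - ⌊t⌋₊)

/-- `F` strictly decreases along the flow inside `O` -/
def Decr {Y : Type*} (m : Y → ℝ → Y) (O : Set Y) (F : Y → ℝ) : Prop :=
  ∀ s, ∀ v ∈ Ioc (0 : ℝ) 1, (∀ u ∈ Icc 0 v, m s u ∈ O) → F (m s v) < F s

/-- `C` is a closed, relatively open part of the level set `F = a` inside `O` -/
def Pc {Y : Type*} [TopologicalSpace Y] (O : Set Y) (F : Y → ℝ) (a : ℝ) (C : Set Y) : Prop :=
  IsClosed C ∧ ∃ V : Set Y, IsOpen V ∧ C ⊆ V ∧ V ⊆ O ∧ ∀ s ∈ V, F s = a ↔ s ∈ C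

end Pool.Agent.HDA
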