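import Mathlib
import Pool.Agent.HDA.Defs
import Pool.Agent.Helper43.CutLoops

/-!
# HDA module NEAR: elementary lemmas on the relation `Near`

Everything is elementary. In a compact space all sets are bounded (`isBounded_of_compactSpace`), so
`dist_le_diam_of_mem`, `diam_mono` and `diam_union` (for sets with a common point,
`diam (A ∪ B) ≤ diam A + diam B`) apply.
* `Near.trans`: union of the two path connected sets (`IsPathConnected.union`).
* `Near.image`: take `h '' A`; `Sm.diam_image_le` of HDC/Basic or directly `diam_le_of_forall_dist_le`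
  gives `diam (h '' A) ≤ diam A + 2 * η'` with `η' = sup dist (h x) x < η` (compactness), or avoid the
  supremum: `dist (h a) (h b) < diam A + 2 η` for all `a, b ∈ A`, and the continuous function
  `dist (h a) a` attains its maximum `η' < η` on the compact space, so
  `diam (h '' A) ≤ diam A + 2 η' < ε + 2 η`.
* `Near.of_homeo`: uniform continuity of `h` (compact space): choose `δ` with
  `dist a b < δ → dist (h a) (h b) < ε / 2`; then `diam (h '' A) ≤ ε / 2 < ε` when `diam A < δ`.
* `Near.mem_comp`: the set `A` lies in `ball z s` and is path connected, so `JoinedIn (ball z s) z x`.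
* `Near.exists_isArc`: `exists_isArc` (Helper43/CutLoops) applied to the path connected subspace `A`
  (separable metric), pushed to `X` by `Subtype.val` (as in HDC/StepA, `arc_step`); the arc is a
  subset of `A`, so its diameter is smaller.
-/

set_option autoImplicit false

open Set Topology Filter Metric Pool.Agent.HDC Pool.Agent.Helper43

namespace Pool.Agent.HDA

variable {X : Type*} [MetricSpace X]

theorem Near.mono {ε δ : ℝ} {x y : X} (h : Near ε x y) (hle : ε ≤ δ) : Near δ x y := by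
  obtain ⟨A, h1, h2, h3, h4⟩ := h
  exact ⟨A, h1, h2, h3, h4.trans_le hle⟩

theorem Near.symm {ε : ℝ} {x y : X} (h : Near ε x y) : Near ε y x := by
  obtain ⟨A, h1, h2, h3, h4⟩ := h
  exact ⟨A, h1, h3, h2, h4⟩

theorem Near.refl {ε : ℝ} (hε : 0 < ε) (x : X) : Near ε x x :=
  ⟨{x}, isPathConnected_singleton x, rfl, rfl, by rw [diam_singleton]; exact hε⟩

theorem near_bdd [CompactSpace X] (A : Set X) : Bornology.IsBounded A :=
  isCompact_univ.isBounded.subset (subset_univ A)

theorem Near.dist_lt [CompactSpace X] {ε : ℝ} {x y : X} (h : Near ε x y) : dist x y < ε := by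
  obtain ⟨A, h1, h2, h3, h4⟩ := h
  exact (dist_le_diam_of_mem (near_bdd A) h2 h3).trans_lt h4

theorem Near.trans [CompactSpace X] {ε δ : ℝ} {x y z : X} (h : Near ε x y) (h' : Near δ y z) :
    Near (ε + δ) x z := by
  obtain ⟨A, h1, h2, h3, h4⟩ := h
  obtain ⟨B, g1, g2, g3, g4⟩ := h'
  refine ⟨A ∪ B, h1.union g1 ⟨y, h3, g2⟩, Or.inl h2, Or.inr g3, ?_⟩
  have := diam_union' (s := A) (t := B) ⟨y, h3, g2⟩
  linarith

theorem diam_image_lt' [CompactSpace X] {h : X ≃ₜ X} {η : ℝ} (hh : Sm h η) (A : Set X)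
    (hA : A.Nonempty) : diam (h '' A) < diam A + 2 * η := by
  obtain ⟨a0, ha0⟩ := hA
  obtain ⟨x0, -, hx0⟩ := isCompact_univ.exists_isMaxOn (⟨a0, mem_univ _⟩ : (univ : Set X).Nonempty)
    (f := fun x => dist (h x) x) (by fun_prop)
  have hx0' : ∀ x, dist (h x) x ≤ dist (h x0) x0 := fun x => hx0 (mem_univ x)
  have h1 : diam (h '' A) ≤ diam A + 2 * dist (h x0) x0 := by
    apply diam_le_of_forall_dist_le
    · have := diam_nonneg (s := A)
      positivity
    · rintro _ ⟨x, hx, rfl⟩ _ ⟨y, hy, rfl⟩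
      have h2 : dist x y ≤ diam A := dist_le_diam_of_mem (near_bdd A) hx hy
      have h3 := hx0' x
      have h4 := hx0' y
      rw [dist_comm (h y) y] at h4
      calc dist (h x) (h y) ≤ dist (h x) x + dist x y + dist y (h y) := dist_triangle4 _ _ _ _
        _ ≤ diam A + 2 * dist (h x0) x0 := by linarith
  have := hh x0
  linarith

theorem Near.image [CompactSpace X] {ε η : ℝ} {x y : X} {h : X ≃ₜ X} (hh : Sm h η)
    (hn : Near ε x y) : Near (ε + 2 * η) (h x) (h y) := by
  obtain ⟨A, h1, h2, h3, h4⟩ := hn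
  refine ⟨h '' A, h1.image h.continuous, mem_image_of_mem h h2, mem_image_of_mem h h3, ?_⟩
  have := diam_image_lt' hh A ⟨x, h2⟩
  linarith

theorem Near.of_homeo [CompactSpace X] (h : X ≃ₜ X) {ε : ℝ} (hε : 0 < ε) :
    ∃ δ > 0, ∀ x y, Near δ x y → Near ε (h x) (h y) := by
  have hu := CompactSpace.uniformContinuous_of_continuous h.continuous
  obtain ⟨δ, hδ, hd⟩ := Metric.uniformContinuous_iff.1 hu (ε / 2) (half_pos hε)
  refine ⟨δ, hδ, ?_⟩
  rintro x y ⟨A, h1, h2, h3, h4⟩
  refine ⟨h '' A, h1.image h.continuous, mem_image_of_mem h h2, mem_image_of_mem h h3, ?_⟩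
  have : diam (h '' A) ≤ ε / 2 := by
    apply diam_le_of_forall_dist_le (half_pos hε).le
    rintro _ ⟨a, ha, rfl⟩ _ ⟨b, hb, rfl⟩
    exact (hd ((dist_le_diam_of_mem (near_bdd A) ha hb).trans_lt h4)).le
  linarith

theorem subset_ball_of_diam [CompactSpace X] {A : Set X} {z : X} {s : ℝ} (hz : z ∈ A)
    (hA : diam A < s) : A ⊆ ball z s := by
  intro y hy
  rw [mem_ball]
  exact (dist_le_diam_of_mem (near_bdd A) hy hz).trans_lt hA

theorem Near.mem_comp [CompactSpace X] {s : ℝ} {x z : X} (h : Near s z x) :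
    x ∈ pathComponentIn (ball z s) z := by
  obtain ⟨A, h1, h2, h3, h4⟩ := h
  exact (h1.joinedIn z h2 x h3).mono (subset_ball_of_diam h2 h4)

/-- an arc inside a path connected set -/
theorem exists_isArc_sub' {M : Set X} (hM : IsPathConnected M) [CompactSpace X] {x y : X}
    (hx : x ∈ M) (hy : y ∈ M) (hne : x ≠ y) : ∃ A ⊆ M, IsArc A x y := by
  have : PathConnectedSpace M := isPathConnected_iff_pathConnectedSpace.1 hM
  obtain ⟨A₀, hA₀⟩ := exists_isArc (X := M) (a := ⟨x, hx⟩) (b := ⟨y, hy⟩)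
    (fun h => hne (congrArg Subtype.val h))
  refine ⟨Subtype.val '' A₀, ?_, ?_⟩
  · rintro _ ⟨z, -, rfl⟩
    exact z.2
  · obtain ⟨g, gc, gi, g0, g1, gA⟩ := hA₀
    refine ⟨Subtype.val ∘ g, continuous_subtype_val.comp_continuousOn gc,
      Subtype.val_injective.comp_injOn gi, ?_, ?_, ?_⟩
    · rw [Function.comp_apply, g0]
    · rw [Function.comp_apply, g1]
    · rw [image_comp, gA]

theorem Near.exists_isArc [CompactSpace X] {ε : ℝ} {x y : X} (h : Near ε x y) (hne : x ≠ y) :
    ∃ A : Set X, IsArc A x y ∧ diam A < ε := by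
  obtain ⟨M, h1, h2, h3, h4⟩ := h
  obtain ⟨A, hAM, hA⟩ := exists_isArc_sub' h1 h2 h3 hne
  exact ⟨A, hA, (diam_mono hAM (near_bdd M)).trans_lt h4⟩

theorem isArc_isPathConnected {A : Set X} {a b : X} (hA : IsArc A a b) : IsPathConnected A := by
  obtain ⟨f, hc, hi, h0, h1, hA⟩ := hA
  rw [← hA]
  refine IsPathConnected.image' ?_ hc
  exact (convex_Icc (0 : ℝ) 1).isPathConnected ⟨0, by simp⟩

theorem isArc_near {A : Set X} {a b x y : X} {ε : ℝ} (hA : IsArc A a b) (hx : x ∈ A) (hy : y ∈ A)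
    (hd : diam A < ε) : Near ε x y :=
  ⟨A, isArc_isPathConnected hA, hx, hy, hd⟩

theorem isArc_joinedIn {A F : Set X} {a b x y : X} (hA : IsArc A a b) (hAF : A ⊆ F) (hx : x ∈ A)
    (hy : y ∈ A) : JoinedIn F x y :=
  ((isArc_isPathConnected hA).joinedIn x hx y hy).mono hAF

/-- an arc inside a path connected set -/
theorem exists_isArc_sub {M : Set X} (hM : IsPathConnected M) [CompactSpace X] {x y : X}
    (hx : x ∈ M) (hy : y ∈ M) (hne : x ≠ y) : ∃ A ⊆ M, IsArc A x y :=
  exists_isArc_sub' hM hx hy hne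

/-- the diameter of the image under a small homeomorphism -/
theorem diam_image_lt [CompactSpace X] {h : X ≃ₜ X} {η : ℝ} (hh : Sm h η) (A : Set X)
    (hA : A.Nonempty) : diam (h '' A) < diam A + 2 * η :=
  diam_image_lt' hh A hA

end Pool.Agent.HDA
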