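import Mathlib
import Pool.Agent.HDA.Near
import Pool.Agent.HDC.StepA

/-!
# HDA module FOLD: the doubling step at the end point of an arc

PROOF. By `isArc_irr` (HDC/StepA) `Irr A {x} {b}`, so `Irr.full` gives `Full (ε/2) A A {x} {b}` and
`full_stable` (HDC/FullStab, with `P = A`, `D = {x}`, `Z = {b}`, all closed) gives `η > 0` with
`Full ε A (cthickening η A) (cthickening η {x}) (cthickening η {b})`.
Take `δ = min (η / 2) (ε / 2)` (any smaller positive number works). Let `h, T` be given.
`M = A ∪ T ∪ h '' A` is path connected (`b ∈ A ∩ T`, `h b ∈ T ∩ h '' A`), so `exists_isArc_sub` gives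
an arc `A' ⊆ M` from `x` to `h x` (`x ≠ h x` because `A` and `h '' A` are disjoint).
`Step ε A A A' A'` with `P₁ = A`, `P₂ = h '' A`, `Z = T`, `D₁ = {x}`, `D₂ = {h x}`:
`A' ⊆ P₁ ∪ Z ∪ P₂`; `A' ⊆ thickening ε A` (`T ⊆ ball b δ`, `h '' A ⊆ thickening δ A` by
`Sm.image_subset`); `P₁, P₂` disjoint; `x ∈ A' ∩ (A ∩ {x})`, `h x ∈ A' ∩ (h '' A ∩ {h x})`; both
`Full` statements by `Full.mono` from the one above (`h '' A ⊆ cthickening η A`,
`{h x} ⊆ cthickening η {x}`, `T ⊆ cthickening η {b}`). About 70 lines.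
-/

set_option autoImplicit false

open Set Topology Filter Metric Pool.Agent.HDC Pool.Agent.Helper43

namespace Pool.Agent.HDA

theorem fold_step {X : Type*} [MetricSpace X] [CompactSpace X] {A : Set X} {x b : X}
    (hA : IsArc A x b) {ε : ℝ} (hε : 0 < ε) :
    ∃ δ > 0, ∀ h : X ≃ₜ X, Sm h δ → ∀ T : Set X, IsCompact T → IsPathConnected T → T ⊆ ball b δ →
      b ∈ T → h b ∈ T → Disjoint A (h '' A) →
      ∃ A' : Set X, IsArc A' x (h x) ∧ A' ⊆ A ∪ T ∪ h '' A ∧ Step ε A A A' A' := by
  have hfull : Full (ε / 2) A A {x} {b} := (isArc_irr hA).full (by linarith)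
  obtain ⟨η, hη, hF⟩ := full_stable hA.isClosed isClosed_singleton isClosed_singleton
    (half_pos hε) (half_lt_self hε) hfull
  have hxA := hA.left_mem
  have hbA := hA.right_mem
  refine ⟨min η ε, lt_min hη hε, ?_⟩
  intro h hh T hTc hTp hTb hbT hhbT hdis
  have hδη : min η ε ≤ η := min_le_left _ _
  have hδε : min η ε ≤ ε := min_le_right _ _
  have hAp := isArc_isPathConnected hA
  have hM1 : IsPathConnected (A ∪ T) := hAp.union hTp ⟨b, hbA, hbT⟩
  have hM : IsPathConnected (A ∪ T ∪ h '' A) :=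
    hM1.union (hAp.image h.continuous) ⟨h b, Or.inr hhbT, mem_image_of_mem h hbA⟩
  have hhx : h x ∈ h '' A := mem_image_of_mem h hxA
  have hne : x ≠ h x := fun he => Set.disjoint_left.1 hdis hxA (by rw [he]; exact hhx)
  obtain ⟨A', hA'M, hA'⟩ := exists_isArc_sub hM (Or.inl (Or.inl hxA)) (Or.inr hhx) hne
  refine ⟨A', hA', hA'M, A, h '' A, T, {x}, {h x}, hA.isClosed,
    h.isClosedMap _ hA.isClosed, hTc.isClosed, isClosed_singleton, isClosed_singleton,
    hA'M, ?_, hdis, ⟨x, hA'.left_mem, hxA, rfl⟩, ⟨h x, hA'.right_mem, hhx, rfl⟩, ?_, ?_⟩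
  · intro y hy
    rcases hA'M hy with (hy | hy) | hy
    · exact self_subset_thickening hε A hy
    · rw [mem_thickening_iff]
      exact ⟨b, hbA, (mem_ball.1 (hTb hy)).trans_le hδε⟩
    · exact thickening_mono hδε A (hh.image_subset A hy)
  · refine hF.mono le_rfl (self_subset_cthickening A) (self_subset_cthickening _) ?_
    intro y hy
    rw [cthickening_singleton b hη.le, mem_closedBall]
    exact ((mem_ball.1 (hTb hy)).trans_le hδη).le
  · refine hF.mono le_rfl ?_ ?_ ?_
    · exact (hh.image_subset A).trans ((thickening_mono hδη A).trans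
        (thickening_subset_cthickening _ _))
    · rintro _ rfl
      rw [cthickening_singleton x hη.le, mem_closedBall]
      exact ((hh x).trans_le hδη).le
    · intro y hy
      rw [cthickening_singleton b hη.le, mem_closedBall]
      exact ((mem_ball.1 (hTb hy)).trans_le hδη).le

end Pool.Agent.HDA
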