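import Mathlib
import Pool.Agent.HDA.Fold
import Pool.Agent.HDC.Effros
import Pool.Agent.HDC.Iter

/-!
# HDA module THICKEX: every point is the end point of small thick arcs

PROOF. Suppose not: for all arcs `B` from `x` (to any `a`) with `diam B < ρ` and all `ε > 0`,
`¬ Thick ε x B`, i.e. there is `h₀` with `Sm h₀ ε`, `Near ε x (h₀ x)`, `h₀ '' B ∩ B = ∅`. (*)
Apply `exists_indec` (HDC/Iter) with the type of states
`S = {(g, A) : (X ≃ₜ X) × Set X // IsArc A x (g x) ∧ diam A < ρ ∧ diam (g.symm '' A) < ρ}`,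
`L s = W s = A`; it produces a nondegenerate indecomposable continuum, contradicting `hnd`.
Step: given `(g, A)` and `ε > 0`. Let `δ` be given by `fold_step` for the arc `A` from `x` to
`b = g x`; also let `d₀ = ρ - diam A > 0` and `δ' = min δ (d₀ / 10)`. Choose `ε₀ > 0` such that
`dist u v < ε₀ → dist (g u) (g v) < δ' / 2` (uniform continuity) and `Near ε₀ u v → Near δ' (g u) (g v)`
(`Near.of_homeo`). `B = g.symm '' A` is an arc from `g.symm (g x) = x` to `g.symm x` (use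
`IsArc.image` and `IsArc.symm`), and `diam B < ρ`; (*) gives `h₀` with `Sm h₀ ε₀`,
`Near ε₀ x (h₀ x)` and `h₀ '' B ∩ B = ∅`. Put `h = (g.symm.trans h₀).trans g`, i.e.
`h z = g (h₀ (g.symm z))`. `Sm h δ'` (as `dist (g (h₀ w)) (g w) < δ'/2`, `w = g.symm z`).
`h b = g (h₀ x)`, and `Near δ' (g x) (g (h₀ x))`: take an arc `T` from `b` to `h b` with
`diam T < δ'` (`Near.exists_isArc`; `b ≠ h b` because otherwise `h₀ x = x ∈ B`, contradiction), so
`T ⊆ ball b δ'`. `h '' A = g '' (h₀ '' B)` and `A = g '' B` are disjoint. `fold_step` gives an arc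
`A'` from `x` to `h x`, `A' ⊆ A ∪ T ∪ h '' A` and `Step ε A A A' A'`. The new state is `(h, A')`:
`A ∪ T ∪ h '' A` has diameter `≤ diam A + 4 δ'` (every point of it is within `δ'` of a point of `A`:
`Sm.image_subset`), so `diam A' ≤ diam A + 4 δ' < ρ`, and
`diam (h.symm '' A') < diam A' + 2 δ' < ρ` (`diam_image_lt`, `Sm.symm`).
Initial state: let `IsArc A₁ a b` be the given arc, `k : X ≃ₜ X` with `k a = x` (homogeneity), so
`k '' A₁` is an arc from `x`, with parametrisation `f`. By `effros` choose `δ₁` for `ε₁ = ρ / 10`. For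
small `t > 0`, `y = f t ≠ x` has `dist x y < δ₁` and the subarc `A₀ = f '' Icc 0 t` has diameter
`< ρ / 2`; take `g₀` with `Sm g₀ (ρ/10)`, `g₀ x = y`. Then `(g₀, A₀)` is a state
(`diam (g₀.symm '' A₀) < ρ/2 + ρ/5`), and `A₀` is nontrivial.
`exists_thick_uniform`: for each `x₀` take `B₀` with `diam B₀ < ρ / 2` and `Thick ε₀ x₀ B₀`; for
`dist x x₀ < δ` (Effros with `η = min (ε₀/8) (ρ/8)`) take `g`, `Sm g η`, `g x₀ = x`, and `B = g '' B₀`
(`Thick.image_sm`, `diam_image_lt`): it works for `x` with `ε = ε₀ / 2`. Compactness of `X`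
(`isCompact_univ.elim_nhds_subcover`) gives a uniform `ε`, the minimum of finitely many.
`Thick.image_sm`: let `h'` with `Sm h' ε'`, `Near ε' (g x) (h' (g x))`; `h = g⁻¹ h' g` satisfies
`Sm h (ε' + 2 η)` and `Near (ε' + 2η) x (h x)` (`Near.image` with `g.symm`), so `h '' B` meets `B`;
apply `g`. `Thick.image`: the same with uniform continuity of `g.symm` instead of smallness.
-/

set_option autoImplicit false

open Set Topology Filter Metric Pool.Agent.HDC Pool.Agent.Helper43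

namespace Pool.Agent.HDA

theorem Thick.mono {X : Type*} [MetricSpace X] {ε ε' : ℝ} {x : X} {B : Set X} (h : Thick ε x B)
    (hle : ε' ≤ ε) : Thick ε' x B := by
  intro k hk hn
  exact h k (hk.mono hle) (hn.mono hle)

private theorem te_conj {X : Type*} [MetricSpace X] {B : Set X} {g h' : X ≃ₜ X}
    (hne : (((g.trans h').trans g.symm) '' B ∩ B).Nonempty) :
    (h' '' (g '' B) ∩ g '' B).Nonempty := by
  obtain ⟨_, ⟨b, hb, rfl⟩, hy⟩ := hne
  refine ⟨h' (g b), ⟨g b, ⟨b, hb, rfl⟩, rfl⟩, ?_⟩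
  refine ⟨((g.trans h').trans g.symm) b, hy, ?_⟩
  change g (g.symm (h' (g b))) = h' (g b)
  rw [g.apply_symm_apply]

theorem Thick.image_sm {X : Type*} [MetricSpace X] [CompactSpace X] {ε ε' η : ℝ} {x : X}
    {B : Set X} (h : Thick ε x B) {g : X ≃ₜ X} (hg : Sm g η) (hle : ε' + 2 * η ≤ ε) :
    Thick ε' (g x) (g '' B) := by
  intro h' hh' hn
  apply te_conj
  refine h _ ?_ ?_
  · exact ((hg.trans hh').trans hg.symm).mono (by linarith)
  · have h1 := Near.image (h := g.symm) hg.symm hn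
    rw [g.symm_apply_apply] at h1
    exact h1.mono hle

theorem Thick.image {X : Type*} [MetricSpace X] [CompactSpace X] {ε : ℝ} (hε : 0 < ε) {x : X}
    {B : Set X} (h : Thick ε x B) (g : X ≃ₜ X) : ∃ ε' > 0, Thick ε' (g x) (g '' B) := by
  have huc := CompactSpace.uniformContinuous_of_continuous g.symm.continuous
  rw [Metric.uniformContinuous_iff] at huc
  obtain ⟨δ₁, hδ₁, h1⟩ := huc ε hε
  obtain ⟨δ₂, hδ₂, h2⟩ := Near.of_homeo g.symm hε
  refine ⟨min δ₁ δ₂, lt_min hδ₁ hδ₂, fun h' hh' hn => ?_⟩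
  apply te_conj
  refine h _ ?_ ?_
  · intro z
    change dist (g.symm (h' (g z))) z < ε
    have h3 := h1 (a := h' (g z)) (b := g z) ((hh' (g z)).trans_le (min_le_left _ _))
    rwa [g.symm_apply_apply] at h3
  · have h3 := h2 _ _ (hn.mono (min_le_right _ _))
    rw [g.symm_apply_apply] at h3
    exact h3

private theorem te_step {X : Type*} [MetricSpace X] [CompactSpace X] {x : X} {ρ : ℝ}
    (hcon : ∀ (B : Set X) (a : X), IsArc B x a → diam B < ρ → ∀ ε > 0, ¬ Thick ε x B)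
    {g : X ≃ₜ X} {A : Set X} (hA : IsArc A x (g x)) (hd : diam A < ρ)
    (hd' : diam (g.symm '' A) < ρ) {ε : ℝ} (hε : 0 < ε) :
    ∃ (h : X ≃ₜ X) (A' : Set X), IsArc A' x (h x) ∧ diam A' < ρ ∧ diam (h.symm '' A') < ρ ∧
      Step ε A A A' A' := by
  obtain ⟨δ, hδ, hfold⟩ := fold_step hA hε
  obtain ⟨δ', hδ'0, hδ'1, hδ'2⟩ : ∃ δ' : ℝ, 0 < δ' ∧ δ' ≤ δ ∧ δ' ≤ (ρ - diam A) / 10 :=
    ⟨min δ ((ρ - diam A) / 10), lt_min hδ (by linarith), min_le_left _ _, min_le_right _ _⟩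
  have huc := CompactSpace.uniformContinuous_of_continuous g.continuous
  rw [Metric.uniformContinuous_iff] at huc
  obtain ⟨ε₁, hε₁, h1⟩ := huc δ' hδ'0
  obtain ⟨ε₂, hε₂, h2⟩ := Near.of_homeo g hδ'0
  have hB : IsArc (g.symm '' A) x (g.symm x) := by
    have h3 := (hA.image g.symm).symm
    rwa [g.symm_apply_apply] at h3
  have hnt := hcon _ _ hB hd' (min ε₁ ε₂) (lt_min hε₁ hε₂)
  unfold Thick at hnt
  push Not at hnt
  obtain ⟨h₀, hs₀, hn₀, hdis₀⟩ := hnt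
  have hdis : ∀ z, z ∈ h₀ '' (g.symm '' A) → z ∈ g.symm '' A → False := by
    intro z hz1 hz2
    have : z ∈ h₀ '' (g.symm '' A) ∩ g.symm '' A := ⟨hz1, hz2⟩
    rw [hdis₀] at this
    exact this
  obtain ⟨h, hhdef⟩ : ∃ h : X ≃ₜ X, h = (g.symm.trans h₀).trans g := ⟨_, rfl⟩
  have hh : ∀ z, h z = g (h₀ (g.symm z)) := by
    intro z
    rw [hhdef]
    rfl
  have hsm : Sm h δ' := by
    intro z
    have h3 := h1 (a := h₀ (g.symm z)) (b := g.symm z)
      ((hs₀ (g.symm z)).trans_le (min_le_left _ _))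
    rw [g.apply_symm_apply] at h3
    rw [hh]
    exact h3
  have hbb : h (g x) = g (h₀ x) := by rw [hh, g.symm_apply_apply]
  have hne : g x ≠ h (g x) := by
    intro he
    rw [hbb] at he
    have h3 : x = h₀ x := g.injective he
    refine hdis x ⟨x, hB.left_mem, h3.symm⟩ hB.left_mem
  have hnear : Near δ' (g x) (h (g x)) := by
    rw [hbb]
    exact h2 _ _ (hn₀.mono (min_le_right _ _))
  obtain ⟨T, hT, hTd⟩ := hnear.exists_isArc hne
  have hTb : T ⊆ ball (g x) δ' := subset_ball_of_diam hT.left_mem hTd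
  have hdisA : Disjoint A (h '' A) := by
    rw [Set.disjoint_left]
    rintro z hz ⟨a, ha, hza⟩
    rw [hh] at hza
    refine hdis (g.symm z) ?_ ⟨z, hz, rfl⟩
    refine ⟨g.symm a, ⟨a, ha, rfl⟩, ?_⟩
    rw [← hza, g.symm_apply_apply]
  obtain ⟨A', hA', hsub, hstep⟩ := hfold h (hsm.mono hδ'1) T hT.isCompact
    (isArc_isPathConnected hT) (hTb.trans (ball_subset_ball hδ'1)) hT.left_mem hT.right_mem hdisA
  have hclose : ∀ y ∈ A', ∃ p ∈ A, dist y p ≤ δ' := by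
    intro y hy
    rcases hsub hy with (hy1 | hy1) | hy1
    · exact ⟨y, hy1, by rw [dist_self]; exact hδ'0.le⟩
    · exact ⟨g x, hA.right_mem, (mem_ball.1 (hTb hy1)).le⟩
    · obtain ⟨a, ha, rfl⟩ := hy1
      exact ⟨a, ha, (hsm a).le⟩
  have hdA' : diam A' ≤ diam A + 2 * δ' := by
    apply diam_le_of_forall_dist_le
    · have := diam_nonneg (s := A)
      linarith
    · intro y hy y' hy'
      obtain ⟨p, hp, hyp⟩ := hclose y hy
      obtain ⟨p', hp', hyp'⟩ := hclose y' hy'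
      have h3 : dist p p' ≤ diam A := dist_le_diam_of_mem hA.isCompact.isBounded hp hp'
      calc dist y y' ≤ dist y p + dist p p' + dist p' y' := dist_triangle4 _ _ _ _
        _ ≤ diam A + 2 * δ' := by
            rw [dist_comm p' y']
            linarith
  refine ⟨h, A', hA', by linarith, ?_, hstep⟩
  have h3 := diam_image_lt (h := h.symm) hsm.symm A' ⟨x, hA'.left_mem⟩
  linarith

private theorem te_init {X : Type*} [MetricSpace X] [CompactSpace X] (hom : Hom X)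
    (harc : ∃ (A : Set X) (a b : X), IsArc A a b) (x : X) {ρ : ℝ} (hρ : 0 < ρ) :
    ∃ (g : X ≃ₜ X) (A : Set X), IsArc A x (g x) ∧ diam A < ρ ∧ diam (g.symm '' A) < ρ := by
  obtain ⟨A, a, b, hA⟩ := harc
  obtain ⟨k, hk⟩ := hom a x
  have hA1 := hA.image k
  rw [hk] at hA1
  obtain ⟨f, hc, hi, h0, -, -⟩ := hA1
  obtain ⟨δ₁, hδ₁, heff⟩ := effros hom (show 0 < ρ / 10 by linarith)
  obtain ⟨r, hr0, hr1, hr2⟩ : ∃ r : ℝ, 0 < r ∧ r ≤ δ₁ ∧ r ≤ ρ / 8 :=
    ⟨min δ₁ (ρ / 8), lt_min hδ₁ (by linarith), min_le_left _ _, min_le_right _ _⟩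
  have hcont := hc 0 (by simp)
  rw [Metric.continuousWithinAt_iff] at hcont
  obtain ⟨τ, hτ, hτ2⟩ := hcont r hr0
  obtain ⟨t, ht0, ht1, ht2⟩ : ∃ t : ℝ, 0 < t ∧ t ≤ 1 ∧ t < τ :=
    ⟨min 1 (τ / 2), lt_min one_pos (by linarith), min_le_left _ _,
      (min_le_right _ _).trans_lt (by linarith)⟩
  have hsub : Icc (0 : ℝ) t ⊆ Icc 0 1 := Icc_subset_Icc le_rfl ht1
  have hfr : ∀ s ∈ Icc 0 t, dist (f s) x < r := by
    intro s hs
    have h3 := hτ2 (hsub hs) (by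
      rw [Real.dist_eq, sub_zero, abs_of_nonneg hs.1]
      exact hs.2.trans_lt ht2)
    rwa [h0] at h3
  have harc0 := isArc_of_Icc ht0 (hc.mono hsub) (hi.mono hsub)
  rw [h0] at harc0
  have hy := hfr t ⟨ht0.le, le_rfl⟩
  obtain ⟨g, hg, hgx⟩ := heff x (f t) (by
    rw [dist_comm]
    exact hy.trans_le hr1)
  rw [← hgx] at harc0
  have hd : diam (f '' Icc 0 t) ≤ 2 * r := by
    apply diam_le_of_forall_dist_le (by linarith)
    rintro _ ⟨s, hs, rfl⟩ _ ⟨s', hs', rfl⟩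
    have h3 := hfr s hs
    have h4 := hfr s' hs'
    calc dist (f s) (f s') ≤ dist (f s) x + dist (f s') x := dist_triangle_right _ _ _
      _ ≤ 2 * r := by linarith
  refine ⟨g, f '' Icc 0 t, harc0, by linarith, ?_⟩
  have h3 := diam_image_lt (h := g.symm) hg.symm (f '' Icc 0 t) ⟨x, harc0.left_mem⟩
  linarith

theorem exists_thick {X : Type*} [MetricSpace X] [CompactSpace X] (hom : Hom X)
    (hnd : ¬ ∃ Y : Set X, Ctm Y ∧ Y.Nontrivial ∧ Indec Y)
    (harc : ∃ (A : Set X) (a b : X), IsArc A a b) (x : X) {ρ : ℝ} (hρ : 0 < ρ) :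
    ∃ (B : Set X) (a : X), IsArc B x a ∧ diam B < ρ ∧ ∃ ε > 0, Thick ε x B := by
  by_contra hno
  have hcon : ∀ (B : Set X) (a : X), IsArc B x a → diam B < ρ → ∀ ε > 0, ¬ Thick ε x B :=
    fun B a h1 h2 ε h3 h4 => hno ⟨B, a, h1, h2, ε, h3, h4⟩
  apply hnd
  obtain ⟨g₀, A₀, hA₀, hd₀, hd₀'⟩ := te_init hom harc x hρ
  refine exists_indec (S := {s : (X ≃ₜ X) × Set X // IsArc s.2 x (s.1 x) ∧ diam s.2 < ρ ∧
    diam (s.1.symm '' s.2) < ρ}) (fun s => s.1.2) (fun s => s.1.2) ?_ ?_ ?_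
    ⟨(g₀, A₀), hA₀, hd₀, hd₀'⟩ ?_ ?_
  · intro s
    exact ⟨s.2.1.isClosed, ⟨x, s.2.1.left_mem⟩, s.2.1.isPreconnected⟩
  · intro s
    exact subset_rfl
  · intro s
    exact s.2.1.isClosed
  · exact ⟨x, hA₀.left_mem, g₀ x, hA₀.right_mem, hA₀.ne⟩
  · rintro ⟨⟨g, A⟩, hA, hd, hd'⟩ ε hε
    obtain ⟨h, A', h1, h2, h3, h4⟩ := te_step hcon hA hd hd' hε
    exact ⟨⟨(h, A'), h1, h2, h3⟩, h4⟩

theorem exists_thick_uniform {X : Type*} [MetricSpace X] [CompactSpace X] (hom : Hom X)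
    (hnd : ¬ ∃ Y : Set X, Ctm Y ∧ Y.Nontrivial ∧ Indec Y)
    (harc : ∃ (A : Set X) (a b : X), IsArc A a b) {ρ : ℝ} (hρ : 0 < ρ) :
    ∃ ε > 0, ∀ x : X, ∃ (B : Set X) (a : X), IsArc B x a ∧ diam B < ρ ∧ Thick ε x B := by
  have key : ∃ ε > 0, ∀ x ∈ (univ : Set X), ∃ (B : Set X) (a : X), IsArc B x a ∧ diam B < ρ ∧
      Thick ε x B := by
    refine IsCompact.induction_on (p := fun s : Set X => ∃ ε > 0, ∀ x ∈ s, ∃ (B : Set X) (a : X),
      IsArc B x a ∧ diam B < ρ ∧ Thick ε x B) isCompact_univ ?_ ?_ ?_ ?_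
    · exact ⟨1, one_pos, fun x hx => absurd hx (notMem_empty x)⟩
    · rintro s t hst ⟨ε, hε, h⟩
      exact ⟨ε, hε, fun x hx => h x (hst hx)⟩
    · rintro s t ⟨ε, hε, h⟩ ⟨ε', hε', h'⟩
      refine ⟨min ε ε', lt_min hε hε', ?_⟩
      rintro x (hx | hx)
      · obtain ⟨B, a, h1, h2, h3⟩ := h x hx
        exact ⟨B, a, h1, h2, h3.mono (min_le_left _ _)⟩
      · obtain ⟨B, a, h1, h2, h3⟩ := h' x hx
        exact ⟨B, a, h1, h2, h3.mono (min_le_right _ _)⟩
    · intro x₀ _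
      obtain ⟨B₀, a₀, hB₀, hdB, ε₀, hε₀, hthick⟩ := exists_thick hom hnd harc x₀
        (show 0 < ρ / 2 by linarith)
      obtain ⟨η, hη0, hη1, hη2⟩ : ∃ η : ℝ, 0 < η ∧ η ≤ ε₀ / 8 ∧ η ≤ ρ / 8 :=
        ⟨min (ε₀ / 8) (ρ / 8), lt_min (by linarith) (by linarith), min_le_left _ _,
          min_le_right _ _⟩
      obtain ⟨δ, hδ, heff⟩ := effros hom hη0
      refine ⟨ball x₀ δ, mem_nhdsWithin_of_mem_nhds (ball_mem_nhds x₀ hδ), ε₀ / 2,
        by linarith, fun x hx => ?_⟩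
      obtain ⟨g, hg, hgx⟩ := heff x₀ x (by
        rw [dist_comm]
        exact mem_ball.1 hx)
      have h1 := hB₀.image g
      have h2 : Thick (ε₀ / 2) (g x₀) (g '' B₀) := hthick.image_sm hg (by linarith)
      have h3 := diam_image_lt hg B₀ ⟨x₀, hB₀.left_mem⟩
      rw [hgx] at h1 h2
      exact ⟨g '' B₀, g a₀, h1, by linarith, h2⟩
  obtain ⟨ε, hε, h⟩ := key
  exact ⟨ε, hε, fun x => h x (mem_univ x)⟩

end Pool.Agent.HDA
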