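import Mathlib
import Pool.Agent.HDA.ThickEx

/-!
# HDA module COMP: points below and above

PROOF of `comp_up`. `exists_thick_uniform` with `ρ = s / 10` gives `ε₁ > 0`: every `x` has an arc `B_x`
from `x` with `diam B_x < s / 10` and `Thick ε₁ x B_x`. Let `η = min (ε₁ / 2) (s / 40)`, `δ` from Effros
for `η`, `ε = min δ (min η (s/40))`. Let `Near ε x y`, `Dn s x y` (so `y ≠ x`, `y ∉ Up s x`); `h x = y`,
`Sm h η`. `Near ε₁ x (h x)`, so there is `b ∈ h '' B ∩ B` (`B = B_x`).
Claim: `x ∈ h '' B`. If `b = x` it is clear. Otherwise, if `x ∉ h '' B`, the path connected set `h '' B`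
(it contains `y = h x` and `b`) lies in `ball x s \ {x}` (`h '' B ⊆ ball y (s/3)` and `dist x y < ε`),
so `JoinedIn (ball x s \ {x}) y b` with `b ∈ B`, `b ≠ x` and `Th s x B a` (`B ⊆ ball x (s/3)` because
`x ∈ B`, `diam B < s / 10`): `y ∈ Up s x`, contradiction.
So `x ∈ h '' B`. `Th s y (h '' B) (h a)`: an arc from `y = h x` (`IsArc.image`), contained in
`ball y (s/3)` (`diam (h '' B) < s/10 + 2η`), thick (`Thick.image`). With `b' = x ∈ h '' B`, `x ≠ y`,
`JoinedIn (ball y s \ {y}) x x` (constant path; `dist x y < s`): `x ∈ Up s y`.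

PROOF of `dn_image` (transport). `h x ≠ h z`; `h x ∈ pathComponentIn (ball (h z) s) (h z)` is a
hypothesis. Suppose `h x ∈ Up s (h z)`: `Th s (h z) B a`, `b ∈ B`, `b ≠ h z`,
`JoinedIn (ball (h z) s \ {h z}) (h x) b`. Apply `h.symm`: `h.symm '' ball (h z) s ⊆ ball z (s + 2η)`
`⊆ ball z s'`, so `JoinedIn (ball z s' \ {z}) x (h.symm b)`; `Th s' z (h.symm '' B) (h.symm a)`: arc,
`h.symm '' B ⊆ ball z (s/3 + 2η) ⊆ ball z (s'/3)` (as `s + 6 η ≤ s'`), thick by `Thick.image`. So
`x ∈ Up s' z`, contradiction to `Dn s' z x`.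

PROOF of `below_ex`. Let `x`, `t > 0`; put `η = min ((s' - s)/12) (min (t/8) (s/8))`, `δ` from Effros
for `η`, `t' = min δ (min (t/2) (s/4))`. By `hcut` (at scale `s'`) there are `u, v` with `Near t' x u`,
`Near t' x v`, `u ≠ x ≠ v`, `¬ JoinedIn (ball x s' \ {x}) u v`. Not both are in `Up s' x` (if `u` is
joined to `b ∈ B \ {x}` and `v` to `b' ∈ B' \ {x}`, then `b, b'` are joined by `Type1 X s'`, so `u, v`
are joined). Say `u ∉ Up s' x`; then `Dn s' x u` (`Near.mem_comp`). Let `h u = x`, `Sm h η`,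
`z = h x`. `Near t x z`: `Near t' u x` goes to `Near (t' + 2η) x z`. `Dn s z x = Dn s (h x) (h u)` by
`dn_image` (`x = h u ∈ pathComponentIn (ball z s) z` by `Near.mem_comp` since `Near s z x`).
-/

set_option autoImplicit false

open Set Topology Filter Metric Pool.Agent.HDC Pool.Agent.Helper43

namespace Pool.Agent.HDA

theorem comp_up {X : Type*} [MetricSpace X] [CompactSpace X] (hom : Hom X)
    (hnd : ¬ ∃ Y : Set X, Ctm Y ∧ Y.Nontrivial ∧ Indec Y)
    (harc : ∃ (A : Set X) (a b : X), IsArc A a b) {s : ℝ} (hs : 0 < s) (h1 : Type1 X s) :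
    ∃ ε > 0, ε ≤ s / 20 ∧ ∀ x y : X, Near ε x y → Dn s x y → x ∈ Up s y := by
  obtain ⟨ε₁, hε₁, hth⟩ := exists_thick_uniform hom hnd harc (ρ := s / 10) (by positivity)
  set η := min (ε₁ / 2) (s / 40) with hη
  have hη0 : 0 < η := lt_min (by positivity) (by positivity)
  have hη1 : η ≤ ε₁ / 2 := min_le_left _ _
  have hη2 : η ≤ s / 40 := min_le_right _ _
  obtain ⟨δ, hδ, heff⟩ := effros hom hη0
  refine ⟨min δ (min η (s / 40)), lt_min hδ (lt_min hη0 (by positivity)), ?_, ?_⟩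
  · have : min δ (min η (s / 40)) ≤ s / 40 := (min_le_right _ _).trans (min_le_right _ _)
    linarith
  intro x y hn hd
  have hε1 : min δ (min η (s / 40)) ≤ δ := min_le_left _ _
  have hε2 : min δ (min η (s / 40)) ≤ η := (min_le_right _ _).trans (min_le_left _ _)
  obtain ⟨hyx, hcomp, hnup⟩ := hd
  have hdist := hn.dist_lt
  obtain ⟨h, hh, hhx⟩ := heff x y (hdist.trans_le hε1)
  obtain ⟨B, a, hB, hBd, hBt⟩ := hth x
  have hxB : x ∈ B := hB.left_mem
  have hyB : y ∈ h '' B := ⟨x, hxB, hhx⟩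
  have hBd' : diam (h '' B) < s / 10 + s / 20 := by
    have := diam_image_lt hh B ⟨x, hxB⟩
    linarith
  have hTh : Th s x B a :=
    ⟨hB, subset_ball_of_diam hxB (by linarith), ε₁, hε₁, hBt⟩
  obtain ⟨b, hb1, hb2⟩ := hBt h (hh.mono (by linarith)) (by
    rw [hhx]
    exact hn.mono (by linarith))
  have hpc : IsPathConnected (h '' B) := (isArc_isPathConnected hB).image h.continuous
  have hx : x ∈ h '' B := by
    by_contra hx
    have hbx : b ≠ x := fun hbx => hx (hbx ▸ hb1)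
    refine hnup ⟨B, a, hTh, b, hb2, hbx, (hpc.joinedIn y hyB b hb1).mono ?_⟩
    intro z hz
    refine ⟨?_, fun hzx => hx (by rw [mem_singleton_iff] at hzx; rwa [← hzx])⟩
    rw [mem_ball]
    have e1 : dist z y ≤ diam (h '' B) := dist_le_diam_of_mem (near_bdd _) hz hyB
    have e2 := dist_triangle z y x
    have e3 : dist y x < s / 40 := by
      rw [dist_comm]
      linarith
    linarith
  refine ⟨h '' B, h a, ⟨?_, subset_ball_of_diam hyB (by linarith), ?_⟩, x, hx, hyx.symm,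
    JoinedIn.refl ⟨?_, ?_⟩⟩
  · have := hB.image h
    rwa [hhx] at this
  · obtain ⟨ε', hε', ht⟩ := Thick.image hε₁ hBt h
    rw [hhx] at ht
    exact ⟨ε', hε', ht⟩
  · rw [mem_ball]
    linarith
  · rw [mem_singleton_iff]
    exact hyx.symm

theorem dn_image {X : Type*} [MetricSpace X] [CompactSpace X] {s s' η : ℝ} {h : X ≃ₜ X}
    (hh : Sm h η) (hs : s + 6 * η ≤ s') {x z : X} (hd : Dn s' z x)
    (hm : h x ∈ pathComponentIn (ball (h z) s) (h z)) : Dn s (h z) (h x) := by
  obtain ⟨hxz, hcomp, hnup⟩ := hd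
  refine ⟨fun e => hxz (h.injective e), hm, ?_⟩
  rintro ⟨B, a, ⟨hB, hBs, ε, hε, hBt⟩, b, hb, hbz, hj⟩
  have hη0 : 0 < η := dist_nonneg.trans_lt (hh x)
  have hdi : ∀ w, dist (h.symm w) z < dist w (h z) + 2 * η := by
    intro w
    have e1 := dist_triangle4 (h.symm w) w (h z) z
    have e2 := hh.symm w
    have e3 := hh z
    linarith
  refine hnup ⟨h.symm '' B, h.symm a, ⟨?_, ?_, ?_⟩, h.symm b, mem_image_of_mem _ hb, ?_, ?_⟩
  · have := hB.image h.symm
    rwa [h.symm_apply_apply] at this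
  · rintro _ ⟨w, hw, rfl⟩
    have e1 := hBs hw
    rw [mem_ball] at e1 ⊢
    have e2 := hdi w
    linarith
  · obtain ⟨ε', hε', ht⟩ := Thick.image hε hBt h.symm
    rw [h.symm_apply_apply] at ht
    exact ⟨ε', hε', ht⟩
  · intro e
    apply hbz
    rw [← e, h.apply_symm_apply]
  · obtain ⟨γ, hγ⟩ := hj
    have e0 : h.symm (h x) = x := h.symm_apply_apply x
    refine ⟨(γ.map h.symm.continuous).cast e0.symm rfl, fun t => ?_⟩
    have e1 := hγ t
    rw [Path.cast_coe, Path.map_coe, Function.comp_apply]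
    refine ⟨?_, ?_⟩
    · have e2 := e1.1
      rw [mem_ball] at e2 ⊢
      have e3 := hdi (γ t)
      linarith
    · intro e
      apply e1.2
      rw [mem_singleton_iff] at e ⊢
      rw [← e, h.apply_symm_apply]

theorem below_ex {X : Type*} [MetricSpace X] [CompactSpace X] (hom : Hom X) {s s' : ℝ}
    (hs : 0 < s) (hss : s < s') (h1 : Type1 X s')
    (hcut : ∀ x : X, ∀ t > 0, ∃ u v : X, u ≠ x ∧ v ≠ x ∧ Near t x u ∧ Near t x v ∧
      ¬ JoinedIn (ball x s' \ {x}) u v) (x : X) {t : ℝ} (ht : 0 < t) :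
    ∃ z, Near t x z ∧ Dn s z x := by
  set η := min ((s' - s) / 12) (min (t / 8) (s / 8)) with hη
  have hη0 : 0 < η := lt_min (by linarith) (lt_min (by positivity) (by positivity))
  have hη1 : η ≤ (s' - s) / 12 := min_le_left _ _
  have hη2 : η ≤ t / 8 := (min_le_right _ _).trans (min_le_left _ _)
  have hη3 : η ≤ s / 8 := (min_le_right _ _).trans (min_le_right _ _)
  obtain ⟨δ, hδ, heff⟩ := effros hom hη0
  set t' := min δ (min (t / 2) (s / 4)) with ht'
  have ht0 : 0 < t' := lt_min hδ (lt_min (by positivity) (by positivity))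
  have ht1 : t' ≤ δ := min_le_left _ _
  have ht2 : t' ≤ t / 2 := (min_le_right _ _).trans (min_le_left _ _)
  have ht3 : t' ≤ s / 4 := (min_le_right _ _).trans (min_le_right _ _)
  have key : ∀ u : X, u ≠ x → Near t' x u → u ∉ Up s' x → ∃ z, Near t x z ∧ Dn s z x := by
    intro u hux hn hup
    have hd : Dn s' x u := ⟨hux, (hn.mono (by linarith)).mem_comp, hup⟩
    obtain ⟨h, hh, hhu⟩ := heff u x (by
      have := hn.dist_lt
      rw [dist_comm] at this
      linarith)
    have hn' : Near (t' + 2 * η) x (h x) := by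
      have := hn.symm.image hh
      rwa [hhu] at this
    refine ⟨h x, hn'.mono (by linarith), ?_⟩
    have h3 := dn_image (s := s) hh (by linarith) hd (by
      rw [hhu]
      exact (hn'.symm.mono (by linarith)).mem_comp)
    rwa [hhu] at h3
  obtain ⟨u, v, hux, hvx, hnu, hnv, hnj⟩ := hcut x t' ht0
  by_cases hu : u ∈ Up s' x
  · by_cases hv : v ∈ Up s' x
    · exfalso
      obtain ⟨B, a, hTh, b, hb, hbx, hj⟩ := hu
      obtain ⟨B', a', hTh', b', hb', hbx', hj'⟩ := hv
      exact hnj ((hj.trans (h1 x B a B' a' hTh hTh' b hb hbx b' hb' hbx')).trans hj'.symm)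
    · exact key v hvx hnv hv
  · exact key u hux hnu hu

end Pool.Agent.HDA
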