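import Mathlib
import Pool.Agent.HDA.Defs

/-!
# HDA module COMPON: passing to a connected component of the space of states

PROOF. (1) If `Z` is clopen and nonempty in `Y` then `p '' Z` is open (`p_open`), compact, nonempty, so
`p '' Z = univ` (`X` connected).
(2) There is a clopen nonempty connected `Y₀`: if `Y` is connected take `univ`. Otherwise there is a
clopen `Z₁` with `Z₁`, `Z₁ᶜ` nonempty, and `Z₁` is connected: if `Z₁ = A ∪ B` with `A, B` disjoint,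
nonempty and clopen in `Y`, then by (1) there are `a ∈ A`, `b ∈ B`, `z ∈ Z₁ᶜ` with the same image,
contradicting `h2`. (`IsPreconnected Z₁` via `isPreconnected_closed_iff` or
`isPreconnected_iff_subset_of_disjoint_closed`: closed sets covering `Z₁` with disjoint traces have
traces on `Z₁` that are clopen in `Y`.)
(3) `m s u ∈ Y₀` for `s ∈ Y₀`, `u ∈ Icc 0 1`: `(fun u => m s u) '' Icc 0 1` is connected, contains
`m s 0 = s ∈ Y₀`, and `Y₀` is clopen (`IsPreconnected.subset_isClopen`).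
`m' s u = if h : u ∈ Icc 0 1 then ⟨m s u, _⟩ else s`.
(4) The fields of `FlowAx`: `κ_pos`, `p_cont`, `p_open` (`Y₀` is open: `IsOpen.isOpenMap_subtype_val`),
`p_inj`, `m_cont`, `m_zero`, `m_comp`, `m_next`, `m_ne` from those of `hf` (`Subtype.ext`; all parameters are
in `Icc 0 1`). `eff`: there is `d > 0` with `d ≤ dist a b` for all `a ∈ Y₀`, `b ∉ Y₀` (`Y₀` compact, `Y₀ᶜ`
closed; `d = 1` if `Y₀ᶜ` is empty). Given `ε`, take `δ` of `hf.eff` for `min ε d`. For `s, s' ∈ Y₀`, the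
homeomorphism `g` maps `Y₀` into `Y₀`, and so does `g.symm` (points move by less than `d`), so it
restricts to `g' : ↥Y₀ ≃ₜ ↥Y₀`. For `M ⊆ ↥Y₀`: `Inv m' M ↔ Inv m (Subtype.val '' M)` (`Y₀` closed), and
`val '' (g' '' M) = g '' (val '' M)`. So the last two statements follow. About 150 lines.
-/

set_option autoImplicit false

open Set Topology Filter Metric Pool.Agent.HDC

namespace Pool.Agent.HDA

private theorem clopen_image {X Y : Type*} [MetricSpace X] [ConnectedSpace X] [MetricSpace Y]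
    [CompactSpace Y] {p : Y → X} (hc : Continuous p) (ho : IsOpenMap p) {Z : Set Y}
    (hZ : IsClopen Z) (hne : Z.Nonempty) (x : X) : ∃ z ∈ Z, p z = x := by
  have h1 : IsClopen (p '' Z) :=
    ⟨(hZ.1.isCompact.image hc).isClosed, ho Z hZ.2⟩
  have h2 : p '' Z = univ := h1.eq_univ (hne.image p)
  have h3 : x ∈ p '' Z := by rw [h2]; exact mem_univ x
  exact h3

private theorem exists_clopen {X Y : Type*} [MetricSpace X] [ConnectedSpace X] [MetricSpace Y]
    [CompactSpace Y] [Nonempty Y] {p : Y → X} (hc : Continuous p) (ho : IsOpenMap p)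
    (h2 : ∀ s₁ s₂ s₃, p s₁ = p s₂ → p s₁ = p s₃ → s₁ = s₂ ∨ s₁ = s₃ ∨ s₂ = s₃) :
    ∃ Y₀ : Set Y, IsClopen Y₀ ∧ IsConnected Y₀ := by
  by_cases hcon : PreconnectedSpace Y
  · exact ⟨univ, isClopen_univ, univ_nonempty, isPreconnected_univ⟩
  · rw [preconnectedSpace_iff_clopen] at hcon
    push Not at hcon
    obtain ⟨Z, hZ, hZ1, hZ2⟩ := hcon
    have hZc : (Zᶜ).Nonempty := nonempty_compl.2 hZ2
    refine ⟨Z, hZ, hZ1, ?_⟩
    rw [isPreconnected_iff_preconnectedSpace, preconnectedSpace_iff_clopen]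
    intro S hS
    by_contra hcon
    push Not at hcon
    obtain ⟨hS1, hS2⟩ := hcon
    have hSc : (Sᶜ).Nonempty := nonempty_compl.2 hS2
    have key : ∀ T : Set Z, IsClopen T → IsClopen (Subtype.val '' T : Set Y) := fun T hT =>
      ⟨hZ.1.isClosedMap_subtype_val T hT.1, hZ.2.isOpenMap_subtype_val T hT.2⟩
    obtain ⟨s₀⟩ := (inferInstance : Nonempty Y)
    obtain ⟨_, ⟨a, ha, rfl⟩, ha2⟩ := clopen_image hc ho (key S hS) (hS1.image _) (p s₀)
    obtain ⟨_, ⟨b, hb, rfl⟩, hb2⟩ := clopen_image hc ho (key Sᶜ hS.compl) (hSc.image _) (p s₀)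
    obtain ⟨z, hz, hz2⟩ := clopen_image hc ho hZ.compl hZc (p s₀)
    rcases h2 a.1 b.1 z (ha2.trans hb2.symm) (ha2.trans hz2.symm) with h | h | h
    · exact hb (by rw [← Subtype.ext h]; exact ha)
    · exact hz (by rw [← h]; exact a.2)
    · exact hz (by rw [← h]; exact b.2)

theorem exists_component {X Y : Type*} [MetricSpace X] [ConnectedSpace X] [MetricSpace Y]
    [CompactSpace Y] [Nonempty Y] {p : Y → X} {m : Y → ℝ → Y} {κ : ℝ}
    (hf : FlowAx X Y p m κ)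
    (h2 : ∀ s₁ s₂ s₃, p s₁ = p s₂ → p s₁ = p s₃ → s₁ = s₂ ∨ s₁ = s₃ ∨ s₂ = s₃) :
    ∃ (Y₀ : Set Y) (m' : ↥Y₀ → ℝ → ↥Y₀), IsClosed Y₀ ∧ IsConnected Y₀ ∧
      FlowAx X ↥Y₀ (fun s => p s.1) m' κ := by
  classical
  obtain ⟨Y₀, hY, hYc⟩ := exists_clopen hf.p_cont hf.p_open h2
  have hm : ∀ s ∈ Y₀, ∀ u ∈ Icc (0 : ℝ) 1, m s u ∈ Y₀ := by
    intro s hs u hu
    have h1 : ContinuousOn (fun u => m s u) (Icc 0 1) := by
      have : ContinuousOn (fun u : ℝ => ((s, u) : Y × ℝ)) (Icc 0 1) := by fun_prop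
      exact hf.m_cont.comp this fun v hv => ⟨mem_univ _, hv⟩
    have h3 : IsPreconnected ((fun u => m s u) '' Icc (0 : ℝ) 1) := isPreconnected_Icc.image _ h1
    refine h3.subset_isClopen hY ⟨s, ⟨0, ⟨le_rfl, zero_le_one⟩, hf.m_zero s⟩, hs⟩ ⟨u, hu, rfl⟩
  let m' : ↥Y₀ → ℝ → ↥Y₀ := fun s u =>
    if h : u ∈ Icc (0 : ℝ) 1 then ⟨m s.1 u, hm s.1 s.2 u h⟩ else s
  have hm' : ∀ (s : Y₀) (u : ℝ), u ∈ Icc (0 : ℝ) 1 → (m' s u).1 = m s.1 u := by
    intro s u hu
    simp only [m', dif_pos hu]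
  have h01 : (0 : ℝ) ∈ Icc (0 : ℝ) 1 := ⟨le_rfl, zero_le_one⟩
  have h11 : (1 : ℝ) ∈ Icc (0 : ℝ) 1 := ⟨zero_le_one, le_rfl⟩
  obtain ⟨d, hd, hthick⟩ := hY.1.isCompact.exists_thickening_subset_open hY.2 Subset.rfl
  have hinv1 : ∀ M : Set Y₀, Inv m' M → Inv m (Subtype.val '' M) := by
    rintro M ⟨hM1, hM2⟩
    refine ⟨hY.1.isClosedMap_subtype_val M hM1, ?_⟩
    rintro _ ⟨s, hs, rfl⟩ u hu
    exact ⟨m' s u, hM2 s hs u hu, hm' s u hu⟩
  have hinv2 : ∀ M : Set Y₀, Inv m (Subtype.val '' M) → Inv m' M := by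
    rintro M ⟨hM1, hM2⟩
    refine ⟨?_, ?_⟩
    · rw [← preimage_image_eq M Subtype.val_injective]
      exact hM1.preimage continuous_subtype_val
    · intro s hs u hu
      obtain ⟨t, ht, hts⟩ := hM2 s.1 (mem_image_of_mem _ hs) u hu
      rw [← hm' s u hu] at hts
      rw [← Subtype.ext hts]
      exact ht
  refine ⟨Y₀, m', hY.1, hYc,
    { κ_pos := hf.κ_pos
      p_cont := hf.p_cont.comp continuous_subtype_val
      p_open := hf.p_open.comp hY.2.isOpenMap_subtype_val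
      p_inj := fun s s' h h' => Subtype.ext (hf.p_inj _ _ h h')
      m_cont := ?_
      m_zero := fun s => Subtype.ext (by rw [hm' s 0 h01, hf.m_zero])
      m_comp := ?_
      m_next := ?_
      m_ne := ?_
      eff := ?_ }⟩
  · rw [Topology.IsInducing.subtypeVal.continuousOn_iff]
    have h3 : ContinuousOn (fun q : Y₀ × ℝ => m q.1.1 q.2) (univ ×ˢ Icc 0 1) := by
      have : ContinuousOn (fun q : Y₀ × ℝ => ((q.1.1, q.2) : Y × ℝ)) (univ ×ˢ Icc 0 1) := by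
        fun_prop
      exact hf.m_cont.comp this fun v hv => ⟨mem_univ _, hv.2⟩
    refine h3.congr fun q hq => ?_
    exact hm' q.1 q.2 hq.2
  · intro s v u hv hvu hu
    obtain ⟨u', h1, h3, h4, h5, h6, h7⟩ := hf.m_comp s.1 v u hv hvu hu
    have hvI : v ∈ Icc (0 : ℝ) 1 := ⟨hv, hvu.trans hu⟩
    have huI : u ∈ Icc (0 : ℝ) 1 := ⟨hv.trans hvu, hu⟩
    have hu'I : u' ∈ Icc (0 : ℝ) 1 := ⟨h1, h3.trans hu⟩
    refine ⟨u', h1, h3, Subtype.ext ?_, h5, h6, fun w hw => ?_⟩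
    · rw [hm' s u huI, hm' _ u' hu'I, hm' s v hvI]
      exact h4
    · obtain ⟨w', hw', h8⟩ := h7 w hw
      refine ⟨w', hw', Subtype.ext ?_⟩
      rw [hm' _ w ⟨hw.1, hw.2.trans hu'I.2⟩, hm' s v hvI, hm' s w' ⟨hv.trans hw'.1, hw'.2.trans hu⟩]
      exact h8
  · intro s v hv u hu
    rcases hf.m_next s.1 v hv u hu with ⟨w, hw, h⟩ | ⟨w, hw, h⟩
    · left
      refine ⟨w, hw, Subtype.ext ?_⟩
      rw [hm' _ u hu, hm' s v hv, hm' s w ⟨hv.1.trans hw.1, hw.2⟩]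
      exact h
    · right
      refine ⟨w, hw, Subtype.ext ?_⟩
      rw [hm' _ u hu, hm' s v hv, hm' _ w hw, hm' s 1 h11]
      exact h
  · intro s u hu
    rw [hm' s u ⟨hu.1.le, hu.2⟩]
    exact hf.m_ne s.1 u hu
  · intro ε hε
    obtain ⟨δ, hδ, h3⟩ := hf.eff (min ε d) (lt_min hε hd)
    refine ⟨δ, hδ, fun s s' hss => ?_⟩
    obtain ⟨g, g1, g2, g3, g4⟩ := h3 s.1 s'.1 hss
    have hg : ∀ y : Y, y ∈ Y₀ ↔ g y ∈ Y₀ := by
      intro y
      constructor
      · intro hy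
        exact hthick (mem_thickening_iff.2 ⟨y, hy, (g1 y).trans_le (min_le_right _ _)⟩)
      · intro hy
        refine hthick (mem_thickening_iff.2 ⟨g y, hy, ?_⟩)
        rw [dist_comm]
        exact (g1 y).trans_le (min_le_right _ _)
    let g' : Y₀ ≃ₜ Y₀ := g.subtype hg
    have hg' : ∀ y : Y₀, (g' y).1 = g y.1 := fun y => rfl
    have hg's : ∀ y : Y₀, (g'.symm y).1 = g.symm y.1 := fun y => rfl
    refine ⟨g', fun y => (g1 y.1).trans_le (min_le_left _ _), Subtype.ext g2, ?_, ?_⟩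
    · intro M hM
      apply hinv2
      have h4 := g3 _ (hinv1 M hM)
      rw [image_image] at h4 ⊢
      exact h4
    · intro M hM
      apply hinv2
      have h4 := g4 _ (hinv1 M hM)
      rw [image_image] at h4 ⊢
      exact h4

end Pool.Agent.HDA
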