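import Mathlib
import Pool.Agent.HDA.Defs

/-!
# HDA module CROSS: a function decreasing along the flow near a given state

PROOF. Let `e = p (m q (1/2))`, `L = dist (p q) e > 0` (`m_ne`), `Λ = 4 / L` and
`F s = ⨅ u : unitInterval, (u + Λ * dist (p (m s u)) e)`, i.e. the minimum of the function
`G (s, u) = u + Λ dist (p (m s u)) e` over `u ∈ [0,1]`. `G` is continuous on `Y × [0,1]` (`m_cont`,
`p_cont`), so `F` is continuous (`IsCompact.continuous_sInf`, or
`IsCompact.continuous_iInf`-type lemmas; or directly by uniform continuity on the compact space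
`Y × unitInterval`), and the minimum is attained. Let
`O = {s | dist s q < ε ∧ dist (p s) (p q) < L / 2 ∧ F s < 1}`, open. `q ∈ O`: `F q ≤ G (q, 1/2) = 1/2`.
`Decr m O F`: let `s`, `v ∈ Ioc 0 1`, `m s u ∈ O` for `u ∈ Icc 0 v`. In particular `s = m s 0 ∈ O`. Let
`u₀` be a minimiser for `s`: `F s = G (s, u₀) < 1`. For `u ∈ Icc 0 v`, `dist (p (m s u)) e ≥ L / 2` so
`G (s, u) ≥ Λ * L / 2 = 2`; hence `v < u₀`. `m_comp s v u₀` gives `u'` with `0 ≤ u' < u₀` and
`m s u₀ = m (m s v) u'`. So `F (m s v) ≤ u' + Λ dist (p (m s u₀)) e < G (s, u₀) = F s`. About 70 lines.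
-/

set_option autoImplicit false

open Set Topology Filter Metric Pool.Agent.HDC

namespace Pool.Agent.HDA

theorem exists_cross {X Y : Type*} [MetricSpace X] [MetricSpace Y] [CompactSpace Y] {p : Y → X}
    {m : Y → ℝ → Y} {κ : ℝ} (hf : FlowAx X Y p m κ) (q : Y) {ε : ℝ} (hε : 0 < ε) :
    ∃ (O : Set Y) (F : Y → ℝ), IsOpen O ∧ q ∈ O ∧ O ⊆ ball q ε ∧ Continuous F ∧ Decr m O F := by
  set e : X := p (m q (1 / 2)) with he
  have hne : p q ≠ e := (hf.m_ne q (1 / 2) ⟨by norm_num, by norm_num⟩).symm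
  set L : ℝ := dist (p q) e with hLd
  have hL : 0 < L := dist_pos.2 hne
  set Λ : ℝ := 4 / L with hΛ
  have hΛ0 : 0 < Λ := by positivity
  let f : Y → Icc (0 : ℝ) 1 → ℝ := fun s u => (u : ℝ) + Λ * dist (p (m s u)) e
  have hfc : Continuous fun x : Y × Icc (0 : ℝ) 1 => f x.1 x.2 := by
    have h1 : Continuous fun x : Y × Icc (0 : ℝ) 1 => (x.1, (x.2 : ℝ)) := by fun_prop
    have h2 : Continuous fun x : Y × Icc (0 : ℝ) 1 => m x.1 x.2 :=
      hf.m_cont.comp_continuous h1 fun x => ⟨mem_univ _, x.2.2⟩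
    have h3 : Continuous fun x : Y × Icc (0 : ℝ) 1 => dist (p (m x.1 x.2)) e :=
      (hf.p_cont.comp h2).dist continuous_const
    exact (continuous_subtype_val.comp continuous_snd).add (continuous_const.mul h3)
  let F : Y → ℝ := fun s => sInf (f s '' univ)
  have hFc : Continuous F := isCompact_univ.continuous_sInf hfc
  have hbd : ∀ s, BddBelow (f s '' univ) := by
    intro s
    refine ⟨0, ?_⟩
    rintro _ ⟨u, -, rfl⟩
    have := u.2.1
    positivity
  have hF1 : ∀ s u, F s ≤ f s u := fun s u => csInf_le (hbd s) (mem_image_of_mem _ (mem_univ u))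
  have hF2 : ∀ s, ∃ u, F s = f s u := by
    intro s
    have h1 : Continuous (f s) := hfc.comp (Continuous.prodMk continuous_const continuous_id)
    obtain ⟨u, -, hu⟩ := isCompact_univ.exists_isMinOn ⟨⟨0, by norm_num⟩, mem_univ _⟩
      h1.continuousOn
    refine ⟨u, le_antisymm (hF1 s u) (le_csInf ⟨_, mem_image_of_mem _ (mem_univ u)⟩ ?_)⟩
    rintro _ ⟨v, hv, rfl⟩
    exact hu hv
  refine ⟨{s | dist s q < ε} ∩ ({s | dist (p s) (p q) < L / 2} ∩ {s | F s < 1}), F, ?_, ?_, ?_,
    hFc, ?_⟩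
  · exact (isOpen_lt (continuous_id.dist continuous_const) continuous_const).inter
      ((isOpen_lt (hf.p_cont.dist continuous_const) continuous_const).inter
        (isOpen_lt hFc continuous_const))
  · refine ⟨?_, ?_, ?_⟩
    · rw [mem_ofPred_eq, dist_self]
      exact hε
    · rw [mem_ofPred_eq, dist_self]
      positivity
    · have h1 := hF1 q ⟨1 / 2, by norm_num, by norm_num⟩
      have h2 : f q ⟨1 / 2, by norm_num, by norm_num⟩ = 1 / 2 := by
        change (1 / 2 : ℝ) + Λ * dist (p (m q (1 / 2))) e = 1 / 2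
        rw [← he, dist_self, mul_zero, add_zero]
      rw [h2] at h1
      rw [mem_ofPred_eq]
      linarith
  · intro s hs
    exact hs.1
  · intro s v hv h
    have hs : F s < 1 := by
      have h1 := (h 0 ⟨le_rfl, hv.1.le⟩).2.2
      rw [hf.m_zero] at h1
      exact h1
    obtain ⟨u₀, hu₀⟩ := hF2 s
    have hvu : v < (u₀ : ℝ) := by
      by_contra hcon
      push Not at hcon
      have h1 := (h u₀ ⟨u₀.2.1, hcon⟩).2.1
      rw [mem_ofPred_eq] at h1
      have h2 : L ≤ dist (p q) (p (m s u₀)) + dist (p (m s u₀)) e := dist_triangle _ _ _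
      rw [dist_comm (p q)] at h2
      have h3 : L / 2 ≤ dist (p (m s u₀)) e := by linarith
      have h4 : Λ * (L / 2) ≤ Λ * dist (p (m s u₀)) e := mul_le_mul_of_nonneg_left h3 hΛ0.le
      have h5 : Λ * (L / 2) = 2 := by
        rw [hΛ]
        field_simp
        norm_num
      have h6 : F s = (u₀ : ℝ) + Λ * dist (p (m s u₀)) e := hu₀
      have h7 := u₀.2.1
      linarith
    obtain ⟨u', h0, h1, h2, h3, -⟩ := hf.m_comp s v u₀ hv.1.le hvu.le u₀.2.2
    have h4 := h3 hv.1
    have h5 := hF1 (m s v) ⟨u', h0, h1.trans u₀.2.2⟩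
    have h6 : f (m s v) ⟨u', h0, h1.trans u₀.2.2⟩ = u' + Λ * dist (p (m s u₀)) e := by
      change u' + Λ * dist (p (m (m s v) u')) e = _
      rw [← h2]
    have h7 : F s = (u₀ : ℝ) + Λ * dist (p (m s u₀)) e := hu₀
    linarith

end Pool.Agent.HDA
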