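import Mathlib
import Pool.Agent.HDA.Defs

/-!
# HDA module RHO: the forward path of a state

`rho m s t = m (f^[⌊t⌋₊] s) (t - ⌊t⌋₊)` with `f y = m y 1`. Write `s_n = f^[n] s`.
* `rho_zero`: `m s 0 = s`.
* `rho_eq`: for `t ∈ Icc n (n+1)`, `rho m s t = m s_n (t - n)`: clear for `t < n + 1` (`⌊t⌋₊ = n`); for
  `t = n + 1`: `⌊t⌋₊ = n + 1` and `m s_{n+1} 0 = s_{n+1} = m s_n 1` (`Function.iterate_succ_apply'`).
* `rho_add_nat`: `⌊n + t⌋₊ = n + ⌊t⌋₊`, `Function.iterate_add_apply`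
  (`(f^[⌊t⌋₊]) (s_n) = f^[n + ⌊t⌋₊] s`).
* `rho_cont`: `f` is continuous (`m_cont` at `u = 1`), so `s ↦ s_n` is continuous; on the closed set
  `univ ×ˢ Icc n (n+1)`, `rho` equals `m s_n (t - n)`, which is continuous there. These closed sets are
  locally finite and cover `univ ×ˢ Ici 0`; concretely at a point `(s, t)` use the two sets for
  `n = ⌊t⌋₊` and `n - 1` (gluing of two closed sets), which cover a neighbourhood of `(s,t)` in
  `univ ×ˢ Ici 0`.
* `rho_mem`: `s_n ∈ M` by induction, then `m s_n (t - n) ∈ M`.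
* `rho_joined`: `p ∘ (fun u => m y u)` is continuous on `Icc 0 1`, so `Joined (p y) (p (m y u))` for
  `u ∈ Icc 0 1` (path component of the image of an interval); induction on `n`.
* `rho_decr`: first suppose `[a, b] ⊆ [n, n+1]`: with `y = s_n`, `v = a - n`, `u = b - n`,
  `m y u = m (m y v) u'` with `0 < u' ≤ 1` and for every `w ∈ Icc 0 u'`, `m (m y v) w = m y w'` with
  `w' ∈ Icc v u` (`m_comp`), so `m (m y v) w = rho m s (n + w') ∈ O`; `Decr` gives
  `F (m y u) < F (m y v)`. In general `[a, b]` is a finite union of such intervals: the function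
  `t ↦ F (rho m s t)` is strictly decreasing on each `[a,b] ∩ [n, n+1]`; chain through the integers
  between `a` and `b` (induction on `⌊b⌋₊ - ⌊a⌋₊`, or `StrictAntiOn.union`).
* `rho_inv`: let `S = rho m s '' Ici T`. For `x = rho m s t ∈ S`, `u ∈ Icc 0 1`: `t = n + v`,
  `n = ⌊t⌋₊`, `0 ≤ v < 1`, `x = m s_n v`; by `m_next s_n v u` either `m x u = m s_n w` with
  `w ∈ Icc v 1`, so `m x u = rho m s (n + w)` and `n + w ≥ t` (`rho_eq`), or `m x u = m s_{n+1} w` with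
  `w ∈ Icc 0 1`, so `m x u = rho m s (n + 1 + w)`. So `m x u ∈ S`. For `x ∈ closure S` use continuity of
  `y ↦ m y u` (`m_cont`; `map_mem_closure`).
-/

set_option autoImplicit false

open Set Topology Filter Metric Pool.Agent.HDC

namespace Pool.Agent.HDA

variable {X Y : Type*} [MetricSpace X] [MetricSpace Y] {p : Y → X} {m : Y → ℝ → Y} {κ : ℝ}

theorem rho_zero (hf : FlowAx X Y p m κ) (s : Y) : rho m s 0 = s := by
  unfold rho
  rw [Nat.floor_zero, Nat.cast_zero, sub_zero, Function.iterate_zero, id]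
  exact hf.m_zero s

theorem rho_eq (hf : FlowAx X Y p m κ) (s : Y) (n : ℕ) {t : ℝ} (h1 : (n : ℝ) ≤ t)
    (h2 : t ≤ n + 1) : rho m s t = m ((fun y => m y 1)^[n] s) (t - n) := by
  have ht0 : 0 ≤ t := (Nat.cast_nonneg n).trans h1
  unfold rho
  rcases lt_or_eq_of_le h2 with h | h
  · have : ⌊t⌋₊ = n := (Nat.floor_eq_iff ht0).2 ⟨h1, h⟩
    rw [this]
  · have h3 : ⌊t⌋₊ = n + 1 := by
      rw [Nat.floor_eq_iff ht0]
      push_cast
      constructor <;> linarith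
    rw [h3, Function.iterate_succ_apply']
    have h4 : t - ((n + 1 : ℕ) : ℝ) = 0 := by push_cast; linarith
    have h5 : t - (n : ℝ) = 1 := by linarith
    rw [h4, h5, hf.m_zero]

theorem rho_floor (t : ℝ) (ht : 0 ≤ t) : (⌊t⌋₊ : ℝ) ≤ t ∧ t ≤ ⌊t⌋₊ + 1 :=
  ⟨Nat.floor_le ht, (Nat.lt_floor_add_one t).le⟩

theorem rho_nat (hf : FlowAx X Y p m κ) (s : Y) (n : ℕ) :
    rho m s n = (fun y => m y 1)^[n] s := by
  rw [rho_eq hf s n le_rfl (by linarith), sub_self, hf.m_zero]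

theorem rho_add_nat (hf : FlowAx X Y p m κ) (s : Y) (n : ℕ) {t : ℝ} (ht : 0 ≤ t) :
    rho m s (n + t) = rho m (rho m s n) t := by
  obtain ⟨h1, h2⟩ := rho_floor t ht
  rw [rho_eq hf (rho m s n) ⌊t⌋₊ h1 h2, rho_nat hf,
    rho_eq hf s (⌊t⌋₊ + n) (by push_cast; linarith) (by push_cast; linarith),
    Function.iterate_add_apply]
  congr 1
  push_cast
  ring

theorem rho_contf (hf : FlowAx X Y p m κ) {u : ℝ} (hu : u ∈ Icc (0 : ℝ) 1) :
    Continuous (fun y => m y u) := by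
  have h := hf.m_cont.comp (f := fun y : Y => (y, u)) (s := univ) (by fun_prop)
    (fun y _ => ⟨mem_univ _, hu⟩)
  exact continuousOn_univ.1 h

theorem rho_contu (hf : FlowAx X Y p m κ) (y : Y) :
    ContinuousOn (fun u => m y u) (Icc 0 1) :=
  hf.m_cont.comp (f := fun u : ℝ => (y, u)) (s := Icc 0 1) (by fun_prop)
    (fun u hu => ⟨mem_univ _, hu⟩)

theorem rho_cont (hf : FlowAx X Y p m κ) :
    ContinuousOn (fun q : Y × ℝ => rho m q.1 q.2) (univ ×ˢ Ici 0) := by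
  have h1 : ∀ n : ℕ, ContinuousOn (fun q : Y × ℝ => rho m q.1 q.2)
      (univ ×ˢ Icc (n : ℝ) (n + 1)) := by
    intro n
    have h2 : ContinuousOn (fun q : Y × ℝ => m ((fun y => m y 1)^[n] q.1) (q.2 - n))
        (univ ×ˢ Icc (n : ℝ) (n + 1)) := by
      have hit : Continuous ((fun y => m y 1)^[n]) :=
        (rho_contf hf (u := 1) (by simp)).iterate n
      refine hf.m_cont.comp (f := fun q : Y × ℝ => ((fun y => m y 1)^[n] q.1, q.2 - (n : ℝ)))
        (Continuous.continuousOn ?_) ?_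
      · exact (hit.comp continuous_fst).prodMk (continuous_snd.sub continuous_const)
      · rintro ⟨y, t⟩ ⟨-, ht⟩
        exact ⟨mem_univ _, by
          dsimp only at ht ⊢
          constructor <;> linarith [ht.1, ht.2]⟩
    refine h2.congr ?_
    rintro ⟨y, t⟩ ⟨-, ht⟩
    exact rho_eq hf y n ht.1 ht.2
  have h3 : LocallyFinite fun n : ℕ => (univ : Set Y) ×ˢ Icc (n : ℝ) (n + 1) := by
    rintro ⟨y, t⟩
    refine ⟨univ ×ˢ Iio (t + 1), prod_mem_nhds univ_mem (Iio_mem_nhds (by linarith)), ?_⟩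
    refine (finite_Iio (⌈t + 1⌉₊)).subset ?_
    rintro n ⟨⟨y', t'⟩, ⟨-, ht1⟩, ⟨-, ht2⟩⟩
    have h4 : (n : ℝ) < t + 1 := lt_of_le_of_lt ht1.1 ht2
    exact Nat.lt_ceil.2 h4
  have h5 := h3.continuousOn_iUnion (fun n => isClosed_univ.prod isClosed_Icc) h1
  refine h5.mono ?_
  rintro ⟨y, t⟩ ⟨-, ht⟩
  exact mem_iUnion.2 ⟨⌊t⌋₊, mem_univ _, rho_floor t ht⟩

theorem rho_mem (hf : FlowAx X Y p m κ) {M : Set Y} (hM : Inv m M) {s : Y} (hs : s ∈ M) {t : ℝ}
    (ht : 0 ≤ t) : rho m s t ∈ M := by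
  have h1 : ∀ n : ℕ, (fun y => m y 1)^[n] s ∈ M := by
    intro n
    induction n with
    | zero => exact hs
    | succ n ih =>
      rw [Function.iterate_succ_apply']
      exact hM.2 _ ih 1 (by simp)
  obtain ⟨h2, h3⟩ := rho_floor t ht
  rw [rho_eq hf s ⌊t⌋₊ h2 h3]
  exact hM.2 _ (h1 _) _ ⟨by linarith, by linarith⟩

theorem rho_joined (hf : FlowAx X Y p m κ) (s : Y) {t : ℝ} (ht : 0 ≤ t) :
    Joined (p s) (p (rho m s t)) := by
  have h0 : ∀ (y : Y) (u : ℝ), u ∈ Icc (0 : ℝ) 1 → Joined (p y) (p (m y u)) := by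
    intro y u hu
    have h1 : IsPathConnected ((fun u => p (m y u)) '' Icc 0 1) :=
      IsPathConnected.image' ((convex_Icc (0 : ℝ) 1).isPathConnected ⟨0, by simp⟩)
        (hf.p_cont.comp_continuousOn (rho_contu hf y))
    have h2 := (h1.joinedIn _ (mem_image_of_mem _ (by simp : (0 : ℝ) ∈ Icc (0 : ℝ) 1)) _
      (mem_image_of_mem _ hu)).joined
    rwa [hf.m_zero] at h2
  have h1 : ∀ n : ℕ, Joined (p s) (p ((fun y => m y 1)^[n] s)) := by
    intro n
    induction n with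
    | zero => exact Joined.refl _
    | succ n ih =>
      rw [Function.iterate_succ_apply']
      exact ih.trans (h0 _ 1 (by simp))
  obtain ⟨h2, h3⟩ := rho_floor t ht
  rw [rho_eq hf s ⌊t⌋₊ h2 h3]
  exact (h1 _).trans (h0 _ _ ⟨by linarith, by linarith⟩)

theorem rho_decr_step (hf : FlowAx X Y p m κ) {O : Set Y} {F : Y → ℝ} (hd : Decr m O F) {s : Y}
    {a b : ℝ} (n : ℕ) (ha : (n : ℝ) ≤ a) (hab : a < b) (hb : b ≤ n + 1)
    (hO : ∀ r ∈ Icc a b, rho m s r ∈ O) :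
    F (rho m s b) < F (rho m s a) := by
  obtain ⟨u', h0, hu', he, -, hpos, hw⟩ := hf.m_comp ((fun y => m y 1)^[n] s) (a - n) (b - n)
    (by linarith) (by linarith) (by linarith)
  rw [rho_eq hf s n (by linarith) hb, rho_eq hf s n ha (by linarith), he]
  refine hd _ u' ⟨hpos (by linarith), by linarith⟩ ?_
  intro w hw1
  obtain ⟨w', hw', he'⟩ := hw w hw1
  rw [he']
  have h1 := hO (n + w') ⟨by linarith [hw'.1], by linarith [hw'.2]⟩
  rw [rho_eq hf s n (by linarith [hw'.1]) (by linarith [hw'.2])] at h1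
  rwa [show (n : ℝ) + w' - n = w' by ring] at h1

theorem rho_decr (hf : FlowAx X Y p m κ) {O : Set Y} {F : Y → ℝ} (hd : Decr m O F) {s : Y}
    {a b : ℝ} (ha : 0 ≤ a) (hab : a < b) (hO : ∀ r ∈ Icc a b, rho m s r ∈ O) :
    F (rho m s b) < F (rho m s a) := by
  obtain ⟨h1, h2⟩ := rho_floor a ha
  have h2' : a < ⌊a⌋₊ + 1 := Nat.lt_floor_add_one a
  have key : ∀ (k : ℕ) (b : ℝ), a < b → b ≤ (⌊a⌋₊ + 1 + k : ℕ) → (∀ r ∈ Icc a b, rho m s r ∈ O) →
      F (rho m s b) < F (rho m s a) := by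
    intro k
    induction k with
    | zero =>
      intro b hab hb hO
      push_cast at hb
      exact rho_decr_step hf hd ⌊a⌋₊ h1 hab (by linarith) hO
    | succ k ih =>
      intro b hab hb hO
      by_cases hbk : b ≤ (⌊a⌋₊ + 1 + k : ℕ)
      · exact ih b hab hbk hO
      · rw [not_le] at hbk
        have hac : a < (⌊a⌋₊ + 1 + k : ℕ) := by
          push_cast
          have : (0 : ℝ) ≤ k := Nat.cast_nonneg k
          linarith
        have h3 := ih _ hac le_rfl (fun r hr => hO r ⟨hr.1, hr.2.trans hbk.le⟩)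
        have h4 := rho_decr_step hf hd (s := s) (⌊a⌋₊ + 1 + k) le_rfl hbk
          (by push_cast at hb ⊢; linarith) (fun r hr => hO r ⟨hac.le.trans hr.1, hr.2⟩)
        exact h4.trans h3
  refine key ⌈b⌉₊ b hab ?_ hO
  have h5 := Nat.le_ceil b
  push_cast
  have : (0 : ℝ) ≤ ⌊a⌋₊ := Nat.cast_nonneg _
  linarith

theorem rho_inv (hf : FlowAx X Y p m κ) (s : Y) {T : ℝ} (hT : 0 ≤ T) :
    Inv m (closure (rho m s '' Ici T)) := by
  refine ⟨isClosed_closure, ?_⟩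
  intro x hx u hu
  refine map_mem_closure (f := fun y => m y u) (rho_contf hf hu) hx ?_
  rintro _ ⟨t, ht, rfl⟩
  dsimp only
  have ht0 : 0 ≤ t := hT.trans ht
  obtain ⟨h1, h2⟩ := rho_floor t ht0
  rw [rho_eq hf s ⌊t⌋₊ h1 h2]
  rcases hf.m_next ((fun y => m y 1)^[⌊t⌋₊] s) (t - ⌊t⌋₊) ⟨by linarith, by linarith⟩ u hu with
    ⟨w, hw, he⟩ | ⟨w, hw, he⟩
  · refine ⟨⌊t⌋₊ + w, ?_, ?_⟩
    · have ht' : T ≤ t := ht
      show T ≤ ⌊t⌋₊ + w
      linarith [hw.1]
    · show rho m s (⌊t⌋₊ + w) = m (m ((fun y => m y 1)^[⌊t⌋₊] s) (t - ⌊t⌋₊)) u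
      rw [he, rho_eq hf s ⌊t⌋₊ (by linarith [hw.1]) (by linarith [hw.2])]
      congr 1
      ring
  · refine ⟨⌊t⌋₊ + 1 + w, ?_, ?_⟩
    · have ht' : T ≤ t := ht
      show T ≤ ⌊t⌋₊ + 1 + w
      linarith [hw.1]
    · show rho m s (⌊t⌋₊ + 1 + w) = m (m ((fun y => m y 1)^[⌊t⌋₊] s) (t - ⌊t⌋₊)) u
      rw [he, rho_eq hf s (⌊t⌋₊ + 1) (by push_cast; linarith [hw.1])
        (by push_cast; linarith [hw.2]), Function.iterate_succ_apply']
      congr 1
      push_cast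
      ring

end Pool.Agent.HDA
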