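import Mathlib
import Pool.Agent.HDA.Rho

/-!
# HDA module CROSSING: a forward path passing near a piece of a level set crosses it

PROOF. We may assume `ε' ≤ 1`. FIRST for `r ∈ Icc ε' 2`. Let `V` be the open set of `Pc`. `C` is compact
(`Y` is compact), `C ⊆ V`; choose `ρ > 0` with `cthickening ρ C ⊆ V`
(`IsCompact.exists_cthickening_subset_open`). `rho` is uniformly continuous on the compact set
`univ ×ˢ Icc 0 3` (`rho_cont`), so there is `t ∈ (0, ε')` with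
`dist (rho m z r) (rho m z r') ≤ ρ / 2` for `r, r' ∈ Icc 0 3`, `|r - r'| ≤ t`.
`K = {(z, r) | r ∈ Icc ε' 2 ∧ rho m z r ∈ cthickening (ρ / 2) C}` is compact; for `(z, r) ∈ K` all points
`rho m z r'`, `r' ∈ Icc (r - t) (r + t)`, lie in `cthickening ρ C ⊆ V ⊆ O`, so by `rho_decr`
`F (rho m z (r - t)) > F (rho m z r) > F (rho m z (r + t))`. By compactness (continuous positive
functions on `K`; if `K` is empty anything works) there is `γ > 0` with
`F (rho m z (r - t)) - F (rho m z r) ≥ γ` and `F (rho m z r) - F (rho m z (r + t)) ≥ γ` on `K`. By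
uniform continuity of `F` choose `δ ∈ (0, ρ / 2)` with `dist x y < δ → |F x - F y| < γ`. If `v ∈ C`,
`dist (rho m z r) v < δ`, then `(z, r) ∈ K` and `|F (rho m z r) - a| < γ` (`F v = a` as `v ∈ C ⊆ V`), so
`F (rho m z (r + t)) < a < F (rho m z (r - t))`, and the intermediate value theorem gives
`r' ∈ Icc (r - t) (r + t)` with `F (rho m z r') = a`; as `rho m z r' ∈ V`, it lies in `C`.
GENERAL `r ≥ ε'`: if `r > 2` write `r = n + r₁` with `n : ℕ`, `r₁ ∈ Icc 1 2` (`n = ⌊r⌋₊ - 1`); by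
`rho_add_nat` `rho m z r = rho m (rho m z n) r₁`; the first part gives `r₁' > r₁ - ε' ≥ 0` and
`r' = n + r₁'`. About 130 lines.
-/

set_option autoImplicit false

open Set Topology Filter Metric Pool.Agent.HDC

namespace Pool.Agent.HDA

private theorem cr_core {X Y : Type*} [MetricSpace X] [MetricSpace Y] [CompactSpace Y] {p : Y → X}
    {m : Y → ℝ → Y} {κ : ℝ} (hf : FlowAx X Y p m κ) {O : Set Y} {F : Y → ℝ} (hF : Continuous F)
    (hd : Decr m O F) {a : ℝ} {C : Set Y} (hC : Pc O F a C) {e : ℝ} (he : 0 < e) (he1 : e ≤ 1) :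
    ∃ δ > 0, ∀ (z : Y) (r : ℝ), e ≤ r → r ≤ 2 → ∀ v ∈ C, dist (rho m z r) v < δ →
      ∃ r', r - e < r' ∧ r' < r + e ∧ 0 ≤ r' ∧ rho m z r' ∈ C := by
  obtain ⟨hCc, V, hV, hCV, hVO, hVF⟩ := hC
  obtain ⟨ρ, hρ, hρV⟩ := hCc.isCompact.exists_cthickening_subset_open hV hCV
  have hrc := rho_cont hf
  have huc : UniformContinuousOn (fun q : Y × ℝ => rho m q.1 q.2)
      ((univ : Set Y) ×ˢ Icc (0 : ℝ) 3) :=
    (isCompact_univ.prod isCompact_Icc).uniformContinuousOn_of_continuous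
      (hrc.mono (prod_mono subset_rfl Icc_subset_Ici_self))
  rw [Metric.uniformContinuousOn_iff] at huc
  obtain ⟨τ, hτ, hτ2⟩ := huc (ρ / 2) (by linarith)
  obtain ⟨t, ht0, ht1, ht2⟩ : ∃ t : ℝ, 0 < t ∧ t < τ ∧ t ≤ e / 2 :=
    ⟨min (τ / 2) (e / 2), lt_min (by linarith) (by linarith),
      (min_le_left _ _).trans_lt (by linarith), min_le_right _ _⟩
  have hclose : ∀ (z : Y) (r r' : ℝ), r ∈ Icc (0 : ℝ) 3 → r' ∈ Icc (0 : ℝ) 3 → |r' - r| ≤ t →
      dist (rho m z r') (rho m z r) < ρ / 2 := by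
    intro z r r' hr hr' hrr
    refine hτ2 (z, r') ⟨mem_univ _, hr'⟩ (z, r) ⟨mem_univ _, hr⟩ ?_
    rw [Prod.dist_eq, dist_self, Real.dist_eq]
    exact max_lt hτ (hrr.trans_lt ht1)
  obtain ⟨K, hK⟩ : ∃ K : Set (Y × ℝ), K = ((univ : Set Y) ×ˢ Icc e 2) ∩
      (fun q : Y × ℝ => rho m q.1 q.2) ⁻¹' cthickening (ρ / 2) C := ⟨_, rfl⟩
  have hKc : IsCompact K := by
    rw [hK]
    refine (isCompact_univ.prod isCompact_Icc).of_isClosed_subset ?_ inter_subset_left
    refine ContinuousOn.preimage_isClosed_of_isClosed ?_ (isClosed_univ.prod isClosed_Icc)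
      isClosed_cthickening
    refine hrc.mono (prod_mono subset_rfl ?_)
    intro r hr
    exact he.le.trans hr.1
  have hKV : ∀ q ∈ K, ∀ r' ∈ Icc (q.2 - t) (q.2 + t), rho m q.1 r' ∈ V := by
    rintro ⟨z, r⟩ hq r' hr'
    rw [hK] at hq
    obtain ⟨⟨-, hr⟩, hq2⟩ := hq
    simp only at hr hr' hq2
    have h1 : dist (rho m z r') (rho m z r) < ρ / 2 := by
      refine hclose z r r' ⟨by linarith [hr.1], by linarith [hr.2]⟩
        ⟨by linarith [hr.1, hr'.1], by linarith [hr.2, hr'.2]⟩ ?_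
      rw [abs_le]
      constructor <;> linarith [hr'.1, hr'.2]
    apply hρV
    have h2 : rho m z r' ∈ thickening (ρ / 2) (cthickening (ρ / 2) C) :=
      mem_thickening_iff.2 ⟨_, hq2, h1⟩
    have h3 := thickening_cthickening_subset (ρ / 2) (show 0 ≤ ρ / 2 by linarith) C h2
    rw [add_halves] at h3
    exact thickening_subset_cthickening _ _ h3
  have hcont : ∀ c : ℝ, -t ≤ c → ContinuousOn (fun q : Y × ℝ => F (rho m q.1 (q.2 + c))) K := by
    intro c hc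
    refine hF.comp_continuousOn ?_
    refine hrc.comp (f := fun q : Y × ℝ => (q.1, q.2 + c)) (by fun_prop) ?_
    rintro ⟨z, r⟩ hq
    rw [hK] at hq
    have h1 : e ≤ r := hq.1.2.1
    exact ⟨mem_univ _, by
      show (0 : ℝ) ≤ r + c
      linarith⟩
  have hpos1 : ∀ q ∈ K, 0 < F (rho m q.1 (q.2 + -t)) - F (rho m q.1 (q.2 + 0)) := by
    intro q hq
    have h0 : e ≤ q.2 := by
      rw [hK] at hq
      exact hq.1.2.1
    rw [sub_pos]
    refine rho_decr hf hd (by linarith) (by linarith) fun r hr => hVO (hKV q hq r ?_)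
    exact ⟨by linarith [hr.1], by linarith [hr.2]⟩
  have hpos2 : ∀ q ∈ K, 0 < F (rho m q.1 (q.2 + 0)) - F (rho m q.1 (q.2 + t)) := by
    intro q hq
    have h0 : e ≤ q.2 := by
      rw [hK] at hq
      exact hq.1.2.1
    rw [sub_pos]
    refine rho_decr hf hd (by linarith) (by linarith) fun r hr => hVO (hKV q hq r ?_)
    exact ⟨by linarith [hr.1], by linarith [hr.2]⟩
  obtain ⟨γ₁, hγ₁, hg1⟩ := hKc.exists_forall_le' ((hcont (-t) le_rfl).sub
    (hcont 0 (by linarith))) hpos1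
  obtain ⟨γ₂, hγ₂, hg2⟩ := hKc.exists_forall_le' ((hcont 0 (by linarith)).sub
    (hcont t (by linarith))) hpos2
  have hFu := CompactSpace.uniformContinuous_of_continuous hF
  rw [Metric.uniformContinuous_iff] at hFu
  obtain ⟨δ₂, hδ₂, hFu2⟩ := hFu (min γ₁ γ₂) (lt_min hγ₁ hγ₂)
  refine ⟨min δ₂ (ρ / 2), lt_min hδ₂ (by linarith), ?_⟩
  intro z r hr1 hr2 v hv hdist
  have hvF : F v = a := (hVF v (hCV hv)).2 hv
  have h1 := hFu2 (hdist.trans_le (min_le_left _ _))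
  rw [hvF, Real.dist_eq, abs_lt] at h1
  have hqK : (z, r) ∈ K := by
    rw [hK]
    refine ⟨⟨mem_univ _, hr1, hr2⟩, ?_⟩
    refine thickening_subset_cthickening _ _ ?_
    exact mem_thickening_iff.2 ⟨v, hv, hdist.trans_le (min_le_right _ _)⟩
  have h2 := hg1 (z, r) hqK
  have h3 := hg2 (z, r) hqK
  have h4 := min_le_left γ₁ γ₂
  have h5 := min_le_right γ₁ γ₂
  simp only [add_zero, Pi.sub_apply] at h2 h3
  rw [← sub_eq_add_neg] at h2
  have hcz : ContinuousOn (fun s => F (rho m z s)) (Icc (r - t) (r + t)) := by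
    refine hF.comp_continuousOn ?_
    refine hrc.comp (f := fun s : ℝ => (z, s)) (by fun_prop) ?_
    intro s hs
    exact ⟨mem_univ _, by
      show (0 : ℝ) ≤ s
      linarith [hs.1]⟩
  obtain ⟨r', hr', hr'a⟩ := intermediate_value_Icc' (by linarith) hcz
    (show a ∈ Icc (F (rho m z (r + t))) (F (rho m z (r - t))) from
      ⟨by linarith [h1.1, h1.2], by linarith [h1.1, h1.2]⟩)
  refine ⟨r', by linarith [hr'.1], by linarith [hr'.2], by linarith [hr'.1], ?_⟩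
  exact (hVF _ (hKV (z, r) hqK r' hr')).1 hr'a

theorem crossing {X Y : Type*} [MetricSpace X] [MetricSpace Y] [CompactSpace Y] {p : Y → X}
    {m : Y → ℝ → Y} {κ : ℝ} (hf : FlowAx X Y p m κ) {O : Set Y} {F : Y → ℝ} (hF : Continuous F)
    (hd : Decr m O F) {a : ℝ} {C : Set Y} (hC : Pc O F a C) {ε' : ℝ} (hε : 0 < ε') :
    ∃ δ > 0, ∀ (z : Y) (r : ℝ), ε' ≤ r → ∀ v ∈ C, dist (rho m z r) v < δ →
      ∃ r', r - ε' < r' ∧ r' < r + ε' ∧ 0 ≤ r' ∧ rho m z r' ∈ C := by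
  obtain ⟨e, he0, he1, he2⟩ : ∃ e : ℝ, 0 < e ∧ e ≤ 1 ∧ e ≤ ε' :=
    ⟨min 1 ε', lt_min one_pos hε, min_le_left _ _, min_le_right _ _⟩
  obtain ⟨δ, hδ, h⟩ := cr_core hf hF hd hC he0 he1
  refine ⟨δ, hδ, fun z r hr v hv hdist => ?_⟩
  rcases le_or_gt r 2 with h2 | h2
  · obtain ⟨r', h3, h4, h5, h6⟩ := h z r (he2.trans hr) h2 v hv hdist
    exact ⟨r', by linarith, by linarith, h5, h6⟩
  · have hfl1 : (⌊r⌋₊ : ℝ) ≤ r := Nat.floor_le (by linarith)
    have hfl2 : r < ⌊r⌋₊ + 1 := Nat.lt_floor_add_one r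
    have hfl3 : 1 ≤ ⌊r⌋₊ := by
      apply Nat.le_floor
      push_cast
      linarith
    obtain ⟨n, hn⟩ : ∃ n : ℕ, ⌊r⌋₊ = n + 1 := ⟨⌊r⌋₊ - 1, by omega⟩
    rw [hn] at hfl1 hfl2
    push_cast at hfl1 hfl2
    have hr1 : 0 ≤ r - n := by linarith
    have hrho : rho m z r = rho m (rho m z n) (r - n) := by
      rw [← rho_add_nat hf z n hr1, add_sub_cancel]
    rw [hrho] at hdist
    obtain ⟨r', h3, h4, h5, h6⟩ := h (rho m z n) (r - n) (by linarith) (by linarith) v hv hdist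
    refine ⟨n + r', by linarith, by linarith, by positivity, ?_⟩
    rw [rho_add_nat hf z n h5]
    exact h6

end Pool.Agent.HDA
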