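import Mathlib
import Pool.Agent.HDA.Near
import Pool.Agent.HDC.TwoPaths

/-!
# HDA module TWOPATHSPC: two disjoint paths along an arc inside a path component

PROOF. Define the topology `τ'` on `X`: `V` is `τ'`-open iff for all `x ∈ V` there is an open `U` with
`x ∈ U` and `pathComponentIn U x ⊆ V` (a structure `TopologicalSpace X`; use a type synonym
`def XP (X) := X` to keep both topologies apart, or `letI`/`@`). Facts:
1. it is a topology (`pathComponentIn (U₁ ∩ U₂) x ⊆ pathComponentIn U₁ x ∩ pathComponentIn U₂ x`);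
   every open set is `τ'`-open (so `id : XP → X` is continuous and `XP` is T2);
2. for `U` open every `pathComponentIn U x` is `τ'`-open (for `y` in it,
   `pathComponentIn U y = pathComponentIn U x`, `JoinedIn.trans`);
3. a continuous `γ : ℝ → X` on a set (`ContinuousOn γ J`, `J` an interval, or a `Path`) is
   `τ'`-continuous: if `γ t ∈ V`, `V` `τ'`-open, take `U`; near `t` the path stays in `U`, so it stays
   in `pathComponentIn U (γ t)` (the piece of the path between `t` and `t'` joins the points in `U`);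
   hence `JoinedIn F u v` in `X` implies `JoinedIn F u v` in `XP`, and conversely by 1;
4. `XP` is locally path connected: `pathComponentIn U x` (`U` open) is `τ'`-open and path connected
   in `XP`; these sets form a basis.
Apply `exists_two_paths` (HDC/TwoPaths) in `XP` to `U' = pathComponentIn U (f 0)`: it is `τ'`-open,
and for `y ∈ U'` the set `U' \ {y}` is preconnected in `XP` since any two of its points `u, v` are
joined in `U \ {y}` (hypothesis `hcut`), hence in `U' \ {y}` (the path stays in the path component).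
`f` maps `[0,1]` into `U'` (`f` joins `f 0` to `f t` inside `U`). The resulting sets `P, Q` are
compact and path connected in `XP`, hence in `X` (continuity of `id`). About 150 lines.
-/

set_option autoImplicit false

open Set Topology Filter Metric Pool.Agent.HDC Pool.Agent.Helper43

namespace Pool.Agent.HDA

/-- the space `X` with the topology generated by the continuous paths -/
private abbrev XP (X : Type*) [TopologicalSpace X] : Type _ :=
  WithGeneratedByTopology (fun _ : Unit => ℝ) X

private abbrev xe {X : Type*} [TopologicalSpace X] : XP X ≃ X :=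
  WithGeneratedByTopology.equiv (X := fun _ : Unit => ℝ) (Y := X)

private theorem xe_cont {X : Type*} [TopologicalSpace X] : Continuous (xe (X := X)) :=
  WithGeneratedByTopology.continuous_equiv

private theorem xp_lpc (X : Type*) [TopologicalSpace X] : LocallyPathConnectedSpace (XP X) := by
  rw [← IsGeneratedBy.generatedBy_eq (X := fun _ : Unit => ℝ) (Y := XP X),
    TopologicalSpace.generatedBy_eq_coinduced]
  exact LocallyPathConnectedSpace.coinduced _

private theorem xp_lift {X : Type*} [TopologicalSpace X] {g : ℝ → X} (hg : Continuous g) :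
    Continuous fun t => xe.symm (g t) := by
  rw [continuous_def]
  intro V hV
  rw [WithGeneratedByTopology.isOpen_iff] at hV
  exact hV (i := ()) ⟨g, hg⟩

private theorem xp_joined {X : Type*} [TopologicalSpace X] {F : Set X} {u v : XP X}
    (h : JoinedIn F (xe u) (xe v)) : JoinedIn (xe ⁻¹' F) u v := by
  obtain ⟨γ, hγ⟩ := h
  refine JoinedIn.ofLine (f := fun t => xe.symm (γ.extend t))
    (xp_lift γ.continuous_extend).continuousOn ?_ ?_ ?_
  · simp
  · simp
  · rintro _ ⟨t, ht, rfl⟩
    rw [mem_preimage, Equiv.apply_symm_apply, γ.extend_apply ht]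
    exact hγ _

theorem exists_two_paths_pc {X : Type*} [MetricSpace X] {U : Set X} (hU : IsOpen U) {f : ℝ → X}
    (hf : ContinuousOn f (Icc 0 1)) (hi : InjOn f (Icc 0 1)) (hfU : MapsTo f (Icc 0 1) U)
    (hcut : ∀ y ∈ pathComponentIn U (f 0), ∀ u ∈ pathComponentIn U (f 0),
      ∀ v ∈ pathComponentIn U (f 0), u ≠ y → v ≠ y → JoinedIn (U \ {y}) u v)
    {η : ℝ} (hη : 0 < η) (hη' : η < 1 / 2) :
    ∃ P Q : Set X, IsCompact P ∧ IsCompact Q ∧ IsPathConnected P ∧ IsPathConnected Q ∧
      P ⊆ U ∧ Q ⊆ U ∧ Disjoint P Q ∧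
      (P ∩ f '' Icc 0 η).Nonempty ∧ (Q ∩ f '' Icc 0 η).Nonempty ∧
      (P ∩ f '' Icc (1 - η) 1).Nonempty ∧ (Q ∩ f '' Icc (1 - η) 1).Nonempty := by
  have hlpc : LocallyPathConnectedSpace (XP X) := xp_lpc X
  have hT2 : T2Space (XP X) := T2Space.of_injective_continuous xe.injective xe_cont
  -- the lift of `f`
  set f' : ℝ → XP X := fun t => xe.symm (f t) with hf'
  have hfc : ContinuousOn f' (Icc 0 1) := by
    have h1 : Continuous (fun t : ℝ => IccExtend (zero_le_one (α := ℝ)) ((Icc 0 1).domRestrict f) t) :=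
      (continuousOn_iff_continuous_domRestrict.1 hf).Icc_extend'
    refine (xp_lift h1).continuousOn.congr fun t ht => ?_
    change xe.symm (f t) = xe.symm (IccExtend _ _ t)
    rw [IccExtend_of_mem _ _ ht]
    rfl
  have hfi : InjOn f' (Icc 0 1) := fun s hs t ht h => hi hs ht (xe.symm.injective h)
  have h0 : (0 : ℝ) ∈ Icc (0 : ℝ) 1 := ⟨le_rfl, zero_le_one⟩
  set W : Set (XP X) := pathComponentIn (xe ⁻¹' U) (f' 0) with hW
  have hUo : IsOpen (xe ⁻¹' U : Set (XP X)) := hU.preimage xe_cont
  have hWo : IsOpen W := hUo.pathComponentIn _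
  have hWU : W ⊆ xe ⁻¹' U := pathComponentIn_subset
  have hWx : ∀ u ∈ W, xe u ∈ pathComponentIn U (f 0) := by
    intro u hu
    obtain ⟨γ, hγ⟩ := hu
    have e0 : xe (f' 0) = f 0 := xe.apply_symm_apply _
    refine ⟨(γ.map xe_cont).cast e0.symm rfl, fun t => ?_⟩
    exact hγ t
  have hfW : MapsTo f' (Icc 0 1) W := by
    have h1 : IsPathConnected (f' '' Icc 0 1) :=
      ((convex_Icc (0 : ℝ) 1).isPathConnected ⟨0, h0⟩).image' hfc
    have h2 : f' '' Icc 0 1 ⊆ xe ⁻¹' U := by
      rintro _ ⟨t, ht, rfl⟩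
      rw [mem_preimage, Equiv.apply_symm_apply]
      exact hfU ht
    have h3 := h1.subset_pathComponentIn ⟨0, h0, rfl⟩ h2
    exact fun t ht => h3 ⟨t, ht, rfl⟩
  have hcut' : ∀ y ∈ W, IsPreconnected (W \ {y}) := by
    intro y hy
    refine isPreconnected_of_forall_pair fun u hu v hv => ?_
    have hu' : xe u ≠ xe y := fun h => hu.2 (xe.injective h)
    have hv' : xe v ≠ xe y := fun h => hv.2 (xe.injective h)
    have h1 := xp_joined (hcut _ (hWx y hy) _ (hWx u hu.1) _ (hWx v hv.1) hu' hv')
    refine ⟨pathComponentIn (xe ⁻¹' (U \ {xe y})) u, ?_, mem_pathComponentIn_self h1.source_mem, h1,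
      (isPathConnected_pathComponentIn h1.source_mem).isConnected.isPreconnected⟩
    intro z hz
    refine ⟨?_, ?_⟩
    · rw [hW, ← pathComponentIn_congr hu.1]
      exact pathComponentIn_mono (preimage_mono sdiff_subset) hz
    · rintro rfl
      exact (pathComponentIn_subset hz).2 rfl
  obtain ⟨P, Q, cP, cQ, pP, pQ, uP, uQ, dj, m1, m2, m3, m4⟩ :=
    exists_two_paths hWo hcut' hfc hfi hfW hη hη'
  have hmeet : ∀ (R : Set (XP X)) (I : Set ℝ), (R ∩ f' '' I).Nonempty →
      (xe '' R ∩ f '' I).Nonempty := by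
    rintro R I ⟨_, hz, t, ht, rfl⟩
    exact ⟨f t, ⟨_, hz, xe.apply_symm_apply _⟩, t, ht, rfl⟩
  refine ⟨xe '' P, xe '' Q, cP.image xe_cont, cQ.image xe_cont, pP.image xe_cont,
    pQ.image xe_cont, ?_, ?_, (disjoint_image_iff xe.injective).2 dj, hmeet _ _ m1, hmeet _ _ m2,
    hmeet _ _ m3, hmeet _ _ m4⟩
  · rintro _ ⟨z, hz, rfl⟩
    exact hWU (uP hz)
  · rintro _ ⟨z, hz, rfl⟩
    exact hWU (uQ hz)

end Pool.Agent.HDA
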