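import Mathlib
import Pool.Agent.HDA.TwoPathsPC
import Pool.Agent.HDC.StepA
import Pool.Agent.HDC.Iter

/-!
# HDA module CUTEX: there is a local cut point of the path component topology

PROOF. By contradiction assume (push_neg) for all open `U`, `y ∈ U`, `u, v ∈ pathComponentIn U y`,
`u ≠ y`, `v ≠ y`: `JoinedIn (U \ {y}) u v`. Then for every arc `A` from `a` to `b` and `ε > 0` there
is an arc `A'` (some end points) with `Step ε A A A' A'`: repeat the proof of `arc_step` (HDC/StepA)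
word for word with `U = thickening τ A` (no connected component needed), and `exists_two_paths_pc`
instead of `exists_two_paths` (its hypothesis `hcut` for `y, u, v ∈ pathComponentIn U (f 0)`: then
`u, v ∈ pathComponentIn U y`). Then `exists_indec` (HDC/Iter) with the type of arcs as states, as in
HDC/MainL (`circle_of_locallyConnected`), contradicts `hnd`. About 120 lines.
-/

set_option autoImplicit false

open Set Topology Filter Metric Pool.Agent.HDC Pool.Agent.Helper43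

namespace Pool.Agent.HDA

private theorem arc_step_pc {X : Type*} [MetricSpace X] [CompactSpace X]
    (hcut : ∀ (U : Set X) (y u v : X), IsOpen U → y ∈ U → u ∈ pathComponentIn U y →
      v ∈ pathComponentIn U y → u ≠ y → v ≠ y → JoinedIn (U \ {y}) u v)
    {A : Set X} {a b : X} (hA : IsArc A a b) {ε : ℝ} (hε : 0 < ε) :
    ∃ (A' : Set X) (a' b' : X), IsArc A' a' b' ∧ Step ε A A A' A' := by
  have hfull : Full (ε / 2) A A {a} {b} := (isArc_irr hA).full (by linarith)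
  obtain ⟨ε₁, hε₁, hF⟩ := full_stable hA.isClosed isClosed_singleton isClosed_singleton
    (half_pos hε) (half_lt_self hε) hfull
  have hAp := hA.isPreconnected
  have haA := hA.left_mem
  obtain ⟨f, hc, hi, h0, h1, hA'⟩ := hA
  set τ : ℝ := min ε ε₁ / 2 with hτ
  have hm : 0 < min ε ε₁ := lt_min hε hε₁
  have hτ0 : 0 < τ := by rw [hτ]; linarith
  have hτε : τ ≤ ε := by
    have := min_le_left ε ε₁
    rw [hτ]
    linarith
  have hτε₁ : τ ≤ ε₁ := by
    have := min_le_right ε ε₁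
    rw [hτ]
    linarith
  have hAT : A ⊆ thickening τ A := self_subset_thickening hτ0 A
  set U : Set X := thickening τ A with hU
  have hUo : IsOpen U := isOpen_thickening
  have hAU : A ⊆ U := hAT
  have hUT : U ⊆ thickening τ A := subset_rfl
  have i0 : (0 : ℝ) ∈ Icc (0 : ℝ) 1 := by simp
  have i1 : (1 : ℝ) ∈ Icc (0 : ℝ) 1 := by simp
  obtain ⟨δ₀, hδ₀, hd0⟩ := Metric.continuousWithinAt_iff.1 (hc 0 i0) ε₁ hε₁
  obtain ⟨δ₁, hδ₁, hd1⟩ := Metric.continuousWithinAt_iff.1 (hc 1 i1) ε₁ hε₁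
  set η : ℝ := min (min (δ₀ / 2) (δ₁ / 2)) (1 / 4) with hη
  have hη0 : 0 < η := lt_min (lt_min (half_pos hδ₀) (half_pos hδ₁)) (by norm_num)
  have hη1 : η ≤ δ₀ / 2 := (min_le_left _ _).trans (min_le_left _ _)
  have hη2 : η ≤ δ₁ / 2 := (min_le_left _ _).trans (min_le_right _ _)
  have hη3 : η ≤ 1 / 4 := min_le_right _ _
  have hs1 : Icc 0 η ⊆ Icc (0 : ℝ) 1 := Icc_subset_Icc le_rfl (by linarith)
  have hs2 : Icc (1 - η) 1 ⊆ Icc (0 : ℝ) 1 := Icc_subset_Icc (by linarith) le_rfl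
  obtain ⟨P, Q, hPc, hQc, hPp, hQp, hPU, hQU, hPQ, hPD, hQD, hPZ, hQZ⟩ :=
    exists_two_paths_pc hUo hc hi
      (fun t ht => hAU (hA' ▸ mem_image_of_mem f ht)) (fun y hy u hu v hv huy hvy =>
        hcut U y u v hUo (JoinedIn.target_mem hy) ((JoinedIn.symm hy).trans hu)
          ((JoinedIn.symm hy).trans hv) huy hvy) hη0 (by linarith)
  set D : Set X := f '' Icc 0 η with hD
  set Z : Set X := f '' Icc (1 - η) 1 with hZ
  have hDc : IsClosed D := (isCompact_Icc.image_of_continuousOn (hc.mono hs1)).isClosed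
  have hZc : IsClosed Z := (isCompact_Icc.image_of_continuousOn (hc.mono hs2)).isClosed
  have hZp : IsPathConnected Z := by
    refine IsPathConnected.image' ?_ (hc.mono hs2)
    exact (convex_Icc (1 - η) 1).isPathConnected ⟨1, by linarith, le_rfl⟩
  have hDa : D ⊆ cthickening ε₁ {a} := by
    rw [cthickening_singleton a hε₁.le]
    rintro _ ⟨t, ht, rfl⟩
    rw [mem_closedBall, ← h0]
    refine (hd0 (hs1 ht) ?_).le
    rw [Real.dist_eq, sub_zero, abs_of_nonneg ht.1]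
    linarith [ht.2]
  have hZb : Z ⊆ cthickening ε₁ {b} := by
    rw [cthickening_singleton b hε₁.le]
    rintro _ ⟨t, ht, rfl⟩
    rw [mem_closedBall, ← h1]
    refine (hd1 (hs2 ht) ?_).le
    rw [Real.dist_eq, abs_sub_comm, abs_of_nonneg (by linarith [ht.2])]
    linarith [ht.1]
  have hZA : Z ⊆ A := by
    rw [← hA']
    exact image_mono hs2
  have hM1 : IsPathConnected (P ∪ Z) := hPp.union hZp hPZ
  have hM : IsPathConnected (P ∪ Z ∪ Q) := by
    refine hM1.union hQp ?_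
    obtain ⟨y, hy1, hy2⟩ := hQZ
    exact ⟨y, Or.inr hy2, hy1⟩
  obtain ⟨x₁, hx₁P, hx₁D⟩ := hPD
  obtain ⟨x₂, hx₂Q, hx₂D⟩ := hQD
  have hne : x₁ ≠ x₂ := by
    rintro rfl
    exact Set.disjoint_left.1 hPQ hx₁P hx₂Q
  have : PathConnectedSpace (P ∪ Z ∪ Q : Set X) := isPathConnected_iff_pathConnectedSpace.1 hM
  obtain ⟨A₀, hA₀⟩ := exists_isArc (X := (P ∪ Z ∪ Q : Set X))
    (a := ⟨x₁, Or.inl (Or.inl hx₁P)⟩) (b := ⟨x₂, Or.inr hx₂Q⟩)
    (fun h => hne (congrArg Subtype.val h))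
  have hA₁ : IsArc (Subtype.val '' A₀) x₁ x₂ := by
    obtain ⟨g, gc, gi, g0, g1, gA⟩ := hA₀
    refine ⟨Subtype.val ∘ g, continuous_subtype_val.comp_continuousOn gc,
      Subtype.val_injective.comp_injOn gi, ?_, ?_, ?_⟩
    · rw [Function.comp_apply, g0]
    · rw [Function.comp_apply, g1]
    · rw [image_comp, gA]
  have hsub : Subtype.val '' A₀ ⊆ P ∪ Z ∪ Q := by
    rintro _ ⟨y, -, rfl⟩
    exact y.2
  have hPA : P ⊆ cthickening ε₁ A :=
    hPU.trans (hUT.trans ((thickening_subset_cthickening _ _).trans (cthickening_mono hτε₁ A)))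
  have hQA : Q ⊆ cthickening ε₁ A :=
    hQU.trans (hUT.trans ((thickening_subset_cthickening _ _).trans (cthickening_mono hτε₁ A)))
  refine ⟨Subtype.val '' A₀, x₁, x₂, hA₁, P, Q, Z, D, D, hPc.isClosed, hQc.isClosed, hZc, hDc, hDc,
    hsub, ?_, hPQ, ⟨x₁, hA₁.left_mem, hx₁P, hx₁D⟩, ⟨x₂, hA₁.right_mem, hx₂Q, hx₂D⟩,
    hF.mono le_rfl hPA hDa hZb, hF.mono le_rfl hQA hDa hZb⟩
  intro y hy
  rcases hsub hy with (h | h) | h
  · exact thickening_mono hτε A (hUT (hPU h))
  · exact self_subset_thickening hε A (hZA h)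
  · exact thickening_mono hτε A (hUT (hQU h))

theorem exists_cut {X : Type*} [MetricSpace X] [CompactSpace X]
    (hnd : ¬ ∃ Y : Set X, Ctm Y ∧ Y.Nontrivial ∧ Indec Y)
    (harc : ∃ (A : Set X) (a b : X), IsArc A a b) :
    ∃ (U : Set X) (y u v : X), IsOpen U ∧ y ∈ U ∧ u ∈ pathComponentIn U y ∧
      v ∈ pathComponentIn U y ∧ u ≠ y ∧ v ≠ y ∧ ¬ JoinedIn (U \ {y}) u v := by
  by_contra hcut
  push Not at hcut
  obtain ⟨A, a, b, hA⟩ := harc
  apply hnd
  let S := {A : Set X // ∃ a b : X, IsArc A a b}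
  refine exists_indec (S := S) (fun s => s.1) (fun s => s.1) (fun s => ?_) (fun s => subset_rfl)
    (fun s => ?_) ⟨A, a, b, hA⟩ ⟨a, hA.left_mem, b, hA.right_mem, hA.ne⟩ (fun s ε hε => ?_)
  · obtain ⟨A, a, b, hA⟩ := s
    exact ⟨hA.isClosed, ⟨a, hA.left_mem⟩, hA.isPreconnected⟩
  · obtain ⟨A, a, b, hA⟩ := s
    exact hA.isClosed
  · obtain ⟨A, a, b, hA⟩ := s
    obtain ⟨A', a', b', hA', hs⟩ := arc_step_pc hcut hA hε
    exact ⟨⟨A', a', b', hA'⟩, hs⟩

end Pool.Agent.HDA
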