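import Mathlib
import Pool.Agent.HDA.CutEx
import Pool.Agent.HDC.Effros

/-!
# HDA module CUTUNIF: all points are cut points at all small scales

PROOF. (1) Localisation. Let `U, y, u, v` be as in `exists_cut`, `ball y r ⊆ U`, `0 < r`, `t > 0`.
There are `u', v'` with `Near t y u'`, `Near t y v'`, `u' ≠ y ≠ v'`, `¬ JoinedIn (ball y r \ {y}) u' v'`:
let `γ` be a path in `U` from `u` to `y`, `t₁` the first time with `γ t₁ = y` (`u ≠ y` so `t₁ > 0`). By
continuity there is `t₀ < t₁` with `γ '' Icc t₀ t₁ ⊆ ball y (min r t / 4)`; `u' = γ t₀`; the set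
`γ '' Icc t₀ t₁` is path connected of diameter `≤ t / 2 < t`: `Near t y u'`. Moreover `u` and `u'` are
joined in `U \ {y}` (by `γ` on `[0, t₀]`). Same for `v'`. If `JoinedIn (ball y r \ {y}) u' v'`, then
`u, u', v', v` are joined in `U \ {y}`: contradiction.
(2) Let `r₁` be such that (1) holds for all `r ≤ r₁` (`ball y r₁ ⊆ U`) at the point `y`. By homogeneity
every point `x` has such a radius: for `g y = x` use the open set `g '' U`, the points `g u`, `g v`.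
(3) Uniformity. Let `x₀` with radius `r(x₀)` (i.e. for `U = ball x₀ r(x₀)` there are `u, v` as in
`exists_cut`); for `x = h x₀`, `Sm h (r(x₀)/8)`, the open set `h '' ball x₀ r(x₀)` contains
`ball x (r(x₀)/2)`, so by (1) every `r ≤ r(x₀)/2` is good for `x`. Effros (`effros`) and compactness of
`X` give a uniform `r₀ > 0`. About 120 lines.
-/

set_option autoImplicit false

open Set Topology Filter Metric Pool.Agent.HDC Pool.Agent.Helper43

namespace Pool.Agent.HDA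

/-- a point near `y` on a path from `y` to `u` -/
private theorem cutu_one {X : Type*} [MetricSpace X] [CompactSpace X] {U : Set X} {y u : X}
    (h : JoinedIn U y u) (hne : u ≠ y) {t : ℝ} (ht : 0 < t) :
    ∃ u', u' ≠ y ∧ Near t y u' ∧ JoinedIn (U \ {y}) u u' := by
  obtain ⟨γ, hγ⟩ := h
  obtain ⟨f, hf⟩ : ∃ f : ℝ → X, ∀ s, f s = γ.extend s := ⟨fun s => γ.extend s, fun s => rfl⟩
  have hfc : Continuous f := by
    have : f = fun s => γ.extend s := funext hf
    rw [this]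
    exact γ.continuous_extend
  have hf0 : f 0 = y := by rw [hf]; exact γ.extend_zero
  have hf1 : f 1 = u := by rw [hf]; exact γ.extend_one
  have hfU : ∀ s ∈ Icc (0 : ℝ) 1, f s ∈ U := by
    intro s hs
    rw [hf, Path.extend_apply γ hs]
    exact hγ _
  -- the last time at `y`
  set S : Set ℝ := Icc 0 1 ∩ f ⁻¹' {y} with hS
  have hSc : IsCompact S := isCompact_Icc.inter_right (isClosed_singleton.preimage hfc)
  have hSne : S.Nonempty := ⟨0, ⟨le_rfl, zero_le_one⟩, hf0⟩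
  obtain ⟨t₁, ht₁, hmax⟩ := hSc.exists_isGreatest hSne
  have ht₁y : f t₁ = y := ht₁.2
  have ht₁1 : t₁ < 1 := by
    rcases ht₁.1.2.lt_or_eq with h | h
    · exact h
    · exfalso
      apply hne
      rw [← hf1, ← h, ht₁y]
  have hafter : ∀ s, t₁ < s → s ≤ 1 → f s ≠ y := by
    intro s hs hs1 hsy
    have : s ≤ t₁ := hmax ⟨⟨ht₁.1.1.trans hs.le, hs1⟩, hsy⟩
    exact absurd hs (not_lt.2 this)
  -- continuity at `t₁`
  have hcont : ∀ᶠ s in 𝓝 t₁, f s ∈ ball y (t / 4) := by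
    apply hfc.continuousAt.eventually_mem
    rw [ht₁y]
    exact ball_mem_nhds _ (by positivity)
  obtain ⟨η, hη, hball⟩ := Metric.eventually_nhds_iff.1 hcont
  set t₀ : ℝ := min (t₁ + η / 2) 1 with ht₀
  have h10 : t₁ < t₀ := lt_min (by linarith) ht₁1
  have h01 : t₀ ≤ 1 := min_le_right _ _
  have h0η : t₀ ≤ t₁ + η / 2 := min_le_left _ _
  have hA : f '' Icc t₁ t₀ ⊆ ball y (t / 4) := by
    rintro _ ⟨s, hs, rfl⟩
    apply hball
    rw [Real.dist_eq, abs_of_nonneg (by linarith [hs.1])]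
    linarith [hs.2]
  refine ⟨f t₀, hafter t₀ h10 h01, ⟨f '' Icc t₁ t₀, ?_, ?_, ?_, ?_⟩, ?_⟩
  · exact ((convex_Icc t₁ t₀).isPathConnected ⟨t₁, le_rfl, h10.le⟩).image hfc
  · exact ⟨t₁, ⟨le_rfl, h10.le⟩, ht₁y⟩
  · exact ⟨t₀, ⟨h10.le, le_rfl⟩, rfl⟩
  · refine lt_of_le_of_lt (diam_mono hA isBounded_ball) (lt_of_le_of_lt (diam_ball (by positivity)) ?_)
    linarith
  · have hpc : IsPathConnected (f '' Icc t₀ 1) :=
      ((convex_Icc t₀ 1).isPathConnected ⟨t₀, le_rfl, h01⟩).image hfc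
    have hj := hpc.joinedIn (f 1) ⟨1, ⟨h01, le_rfl⟩, rfl⟩ (f t₀) ⟨t₀, ⟨le_rfl, h01⟩, rfl⟩
    rw [hf1] at hj
    refine hj.mono ?_
    rintro _ ⟨s, hs, rfl⟩
    refine ⟨hfU s ⟨?_, hs.2⟩, hafter s (lt_of_lt_of_le h10 hs.1) hs.2⟩
    exact (ht₁.1.1.trans h10.le).trans hs.1

/-- localisation -/
private theorem cutu_loc {X : Type*} [MetricSpace X] [CompactSpace X] {U : Set X} {y u v : X}
    (hu : u ∈ pathComponentIn U y) (hv : v ∈ pathComponentIn U y) (huy : u ≠ y) (hvy : v ≠ y)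
    (hn : ¬ JoinedIn (U \ {y}) u v) {r : ℝ} (hr : ball y r ⊆ U) {t : ℝ} (ht : 0 < t) :
    ∃ u' v' : X, u' ≠ y ∧ v' ≠ y ∧ Near t y u' ∧ Near t y v' ∧
      ¬ JoinedIn (ball y r \ {y}) u' v' := by
  obtain ⟨u', hu'y, hu't, hju⟩ := cutu_one (show JoinedIn U y u from hu) huy ht
  obtain ⟨v', hv'y, hv't, hjv⟩ := cutu_one (show JoinedIn U y v from hv) hvy ht
  refine ⟨u', v', hu'y, hv'y, hu't, hv't, fun hj => hn ?_⟩
  exact (hju.trans (hj.mono (sdiff_subset_sdiff_left hr))).trans hjv.symm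

/-- transport by a homeomorphism -/
private theorem cutu_map {X : Type*} [TopologicalSpace X] (k : X ≃ₜ X) {U : Set X} {y u v : X}
    (hn : ¬ JoinedIn (U \ {y}) u v) : ¬ JoinedIn (k '' U \ {k y}) (k u) (k v) := by
  intro h
  apply hn
  have h1 := h.map k.symm.continuous
  rw [k.symm_apply_apply, k.symm_apply_apply] at h1
  refine h1.mono ?_
  rintro _ ⟨z, ⟨⟨w, hw, rfl⟩, hz⟩, rfl⟩
  rw [k.symm_apply_apply]
  refine ⟨hw, fun hwy => hz ?_⟩
  rw [mem_singleton_iff] at hwy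
  rw [hwy]
  rfl

theorem exists_cut_uniform {X : Type*} [MetricSpace X] [CompactSpace X] [Nonempty X] (hom : Hom X)
    (hc : ∃ (U : Set X) (y u v : X), IsOpen U ∧ y ∈ U ∧ u ∈ pathComponentIn U y ∧
      v ∈ pathComponentIn U y ∧ u ≠ y ∧ v ≠ y ∧ ¬ JoinedIn (U \ {y}) u v) :
    ∃ r₀ > 0, ∀ r > 0, r ≤ r₀ → ∀ x : X, ∀ t > 0, ∃ u v : X, u ≠ x ∧ v ≠ x ∧ Near t x u ∧
      Near t x v ∧ ¬ JoinedIn (ball x r \ {x}) u v := by
  obtain ⟨U, y, u, v, hU, hy, hu, hv, huy, hvy, hn⟩ := hc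
  have hloc : ∀ x₀ : X, ∃ δ > 0, ∃ ρ > 0, ∀ x ∈ ball x₀ δ, ∀ r ≤ ρ, ∀ t > 0,
      ∃ u v : X, u ≠ x ∧ v ≠ x ∧ Near t x u ∧ Near t x v ∧ ¬ JoinedIn (ball x r \ {x}) u v := by
    intro x₀
    obtain ⟨g, hg⟩ := hom y x₀
    have hV : IsOpen (g '' U) := g.isOpenMap U hU
    have hx₀ : x₀ ∈ g '' U := ⟨y, hy, hg⟩
    obtain ⟨ρ, hρ, hball⟩ := Metric.isOpen_iff.1 hV x₀ hx₀
    obtain ⟨δ, hδ, heff⟩ := effros hom (show 0 < ρ / 4 by positivity)
    refine ⟨δ, hδ, ρ / 4, by positivity, ?_⟩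
    intro x hx r hr t ht
    obtain ⟨h, hh, hhx⟩ := heff x₀ x (by rw [dist_comm]; exact hx)
    set k : X ≃ₜ X := g.trans h with hk
    have hky : k y = x := by
      rw [hk, Homeomorph.trans_apply, hg, hhx]
    have hsub : ball x r ⊆ k '' U := by
      intro z hz
      have h1 : h.symm z ∈ ball x₀ ρ := by
        rw [mem_ball]
        have h2 := hh (h.symm z)
        rw [h.apply_symm_apply] at h2
        have h3 := hh x₀
        rw [hhx] at h3
        have h4 : dist z x < ρ / 4 := lt_of_lt_of_le hz hr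
        have h5 := dist_triangle (h.symm z) z x₀
        have h6 := dist_triangle z x x₀
        rw [dist_comm z (h.symm z)] at h2
        linarith
      obtain ⟨w, hw, hwz⟩ := hball h1
      refine ⟨w, hw, ?_⟩
      rw [hk, Homeomorph.trans_apply, hwz, h.apply_symm_apply]
    have hu' : k u ∈ pathComponentIn (k '' U) (k y) :=
      (show JoinedIn U y u from hu).map k.continuous
    have hv' : k v ∈ pathComponentIn (k '' U) (k y) :=
      (show JoinedIn U y v from hv).map k.continuous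
    have hres := cutu_loc hu' hv' (fun h => huy (k.injective h)) (fun h => hvy (k.injective h))
      (cutu_map k hn) (r := r) (by rw [hky]; exact hsub) ht
    rw [hky] at hres
    exact hres
  choose δ hδ ρ hρ hgood using hloc
  obtain ⟨T, hT⟩ := isCompact_univ.elim_nhds_subcover (fun x => ball x (δ x))
    (fun x _ => ball_mem_nhds x (hδ x))
  have hTne : T.Nonempty := by
    obtain ⟨x⟩ := (inferInstance : Nonempty X)
    obtain ⟨x₀, hx₀, _⟩ := mem_iUnion₂.1 (hT.2 (mem_univ x))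
    exact ⟨x₀, hx₀⟩
  obtain ⟨x₁, hx₁, hmin⟩ := T.exists_min_image ρ hTne
  refine ⟨ρ x₁, hρ x₁, ?_⟩
  intro r _ hr x t ht
  obtain ⟨x₀, hx₀, hx⟩ := mem_iUnion₂.1 (hT.2 (mem_univ x))
  exact hgood x₀ x hx r (hr.trans (hmin x₀ hx₀)) t ht

end Pool.Agent.HDA
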