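import Mathlib
import Pool.Agent.HDA.Crossing

/-!
# HDA module HIT: the first hitting time of a piece of a level set

PROOF. For `s : Y` let `H s = {t | 0 ≤ t ∧ rho m s t ∈ C}`: closed (`rho_cont`, `C` closed), bounded
below by `0`. It is nonempty: `closure (rho m s '' Ici 1) = univ` (`rho_inv`, `hinv`), so for `v ∈ C` and
`δ` from `crossing` (`ε' = 1`) there is `t ≥ 1` with `dist (rho m s t) v < δ`, and `crossing` gives
`r' ≥ 0` with `rho m s r' ∈ C`. Put `τ s = sInf (H s)`; `τ s ∈ H s` (`IsClosed.csInf_mem`). For `s ∉ C`,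
`τ s > 0` (`rho m s 0 = s`).
Continuity at `s ∉ C` (even as a function on `Y`): let `ε > 0`, `ε ≤ τ s / 2`. UPPER: `crossing` with
`ε' = ε` gives `δ`; `s' ↦ rho m s' (τ s)` is continuous, so for `s'` near `s`,
`dist (rho m s' (τ s)) (rho m s (τ s)) < δ` and (`v = rho m s (τ s) ∈ C`) there is `r' < τ s + ε`,
`0 ≤ r'`, `rho m s' r' ∈ C`, so `τ s' ≤ r' < τ s + ε`. LOWER: for `t ∈ Icc 0 (τ s - ε)`,
`rho m s t ∉ C`; by compactness of the interval (`generalized_tube_lemma` or sequences) for `s'` near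
`s` we have `rho m s' t ∉ C` for all `t ∈ Icc 0 (τ s - ε)`, so `τ s' > τ s - ε`. About 90 lines.
-/

set_option autoImplicit false

open Set Topology Filter Metric Pool.Agent.HDC

namespace Pool.Agent.HDA

theorem exists_hit {X Y : Type*} [MetricSpace X] [MetricSpace Y] [CompactSpace Y] {p : Y → X}
    {m : Y → ℝ → Y} {κ : ℝ} (hf : FlowAx X Y p m κ)
    (hinv : ∀ M : Set Y, Inv m M → M.Nonempty → M = univ) {O : Set Y} {F : Y → ℝ}
    (hF : Continuous F) (hd : Decr m O F) {a : ℝ} {C : Set Y} (hC : Pc O F a C)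
    (hne : C.Nonempty) :
    ∃ τ : Y → ℝ, (∀ s, 0 ≤ τ s) ∧ (∀ s, rho m s (τ s) ∈ C) ∧ ContinuousOn τ Cᶜ := by
  have hcont := rho_cont hf
  have hc1 : ∀ s : Y, ContinuousOn (fun t => rho m s t) (Ici 0) := fun s =>
    hcont.comp (Continuous.continuousOn (by fun_prop) : ContinuousOn (fun t : ℝ => (s, t)) (Ici 0))
      (fun t ht => ⟨mem_univ _, ht⟩)
  have hc2 : ∀ t : ℝ, 0 ≤ t → Continuous (fun s => rho m s t) := by
    intro t ht
    rw [← continuousOn_univ]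
    exact hcont.comp
      (Continuous.continuousOn (by fun_prop) : ContinuousOn (fun s : Y => (s, t)) univ)
      (fun s _ => ⟨mem_univ _, ht⟩)
  let H : Y → Set ℝ := fun s => Ici 0 ∩ (fun t => rho m s t) ⁻¹' C
  have hHc : ∀ s, IsClosed (H s) := fun s =>
    (hc1 s).preimage_isClosed_of_isClosed isClosed_Ici hC.1
  have hHb : ∀ s, BddBelow (H s) := fun s => ⟨0, fun t ht => ht.1⟩
  have hHn : ∀ s, (H s).Nonempty := by
    intro s
    obtain ⟨v, hv⟩ := hne
    obtain ⟨δ, hδ, hcr⟩ := crossing hf hF hd hC (ε' := 1) one_pos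
    have h1 : closure (rho m s '' Ici 1) = univ := by
      apply hinv _ (rho_inv hf s zero_le_one)
      exact ⟨rho m s 1, subset_closure ⟨1, mem_Ici.2 le_rfl, rfl⟩⟩
    have h2 : v ∈ closure (rho m s '' Ici 1) := by rw [h1]; exact mem_univ v
    obtain ⟨y, ⟨t, ht, rfl⟩, hy⟩ := Metric.mem_closure_iff.1 h2 δ hδ
    obtain ⟨r', -, -, h3, h4⟩ := hcr s t ht v hv (by rw [dist_comm]; exact hy)
    exact ⟨r', h3, h4⟩
  have hτ : ∀ s, sInf (H s) ∈ H s := fun s => (hHc s).csInf_mem (hHn s) (hHb s)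
  refine ⟨fun s => sInf (H s), fun s => (hτ s).1, fun s => (hτ s).2, ?_⟩
  intro s hs
  apply ContinuousAt.continuousWithinAt
  have hpos : 0 < sInf (H s) := by
    rcases lt_or_eq_of_le (mem_Ici.1 (hτ s).1) with h | h
    · exact h
    · exfalso
      apply hs
      have h1 := (hτ s).2
      simp only [mem_preimage] at h1
      rw [← h, rho_zero hf] at h1
      exact h1
  rw [Metric.continuousAt_iff']
  intro ε₀ hε₀
  obtain ⟨ε, hε, hε1, hε2⟩ : ∃ ε : ℝ, 0 < ε ∧ ε ≤ sInf (H s) ∧ ε ≤ ε₀ :=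
    ⟨min (sInf (H s)) ε₀, lt_min hpos hε₀, min_le_left _ _, min_le_right _ _⟩
  have hup : ∀ᶠ s' in 𝓝 s, sInf (H s') < sInf (H s) + ε := by
    obtain ⟨δ, hδ, hcr⟩ := crossing hf hF hd hC hε
    have h0 : ContinuousAt (fun s' => rho m s' (sInf (H s))) s :=
      (hc2 (sInf (H s)) hpos.le).continuousAt
    have h1 := Metric.continuousAt_iff'.1 h0 δ hδ
    filter_upwards [h1] with s' hs'
    obtain ⟨r', -, h2, h3, h4⟩ := hcr s' (sInf (H s)) hε1 _ (hτ s).2 hs'
    exact lt_of_le_of_lt (csInf_le (hHb s') ⟨h3, h4⟩) h2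
  have hlow : ∀ᶠ s' in 𝓝 s, sInf (H s) - ε < sInf (H s') := by
    have hsub : (univ : Set Y) ×ˢ Icc (0 : ℝ) (sInf (H s) - ε) ⊆ univ ×ˢ Ici 0 :=
      prod_mono subset_rfl (fun t ht => ht.1)
    have hcl : IsClosed ((univ : Set Y) ×ˢ Icc (0 : ℝ) (sInf (H s) - ε) ∩
        (fun q : Y × ℝ => rho m q.1 q.2) ⁻¹' C) :=
      (hcont.mono hsub).preimage_isClosed_of_isClosed (isClosed_univ.prod isClosed_Icc) hC.1
    have hco := (isCompact_univ.prod isCompact_Icc).of_isClosed_subset hcl inter_subset_left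
    have hpr : IsClosed (Prod.fst '' ((univ : Set Y) ×ˢ Icc (0 : ℝ) (sInf (H s) - ε) ∩
        (fun q : Y × ℝ => rho m q.1 q.2) ⁻¹' C)) := (hco.image continuous_fst).isClosed
    have hns : s ∉ (Prod.fst '' ((univ : Set Y) ×ˢ Icc (0 : ℝ) (sInf (H s) - ε) ∩
        (fun q : Y × ℝ => rho m q.1 q.2) ⁻¹' C)) := by
      rintro ⟨⟨s₁, t⟩, ⟨⟨-, ht⟩, h2⟩, rfl⟩
      have h3 := csInf_le (hHb s₁) (show t ∈ H s₁ from ⟨ht.1, h2⟩)
      have h4 := ht.2
      simp only at h4 h3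
      linarith
    filter_upwards [hpr.isOpen_compl.mem_nhds hns] with s' hs'
    by_contra hcon
    apply hs'
    exact ⟨(s', sInf (H s')), ⟨⟨mem_univ _, (hτ s').1, not_lt.1 hcon⟩, (hτ s').2⟩, rfl⟩
  filter_upwards [hup, hlow] with s' h1 h2
  rw [Real.dist_eq, abs_lt]
  exact ⟨by linarith, by linarith⟩

end Pool.Agent.HDA
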