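import Mathlib

/-!
# HDA module HEX: separation and a connected set crossing a square

PROOF of `exists_split`. Work in the compact Hausdorff space `↥D`. For `a ∈ D ∩ A` the connected
component of `a` in `↥D` is the intersection of the clopen sets containing `a`
(`connectedComponent_eq_iInter_isClopen`); its image in `Z` is a closed connected subset of `D` meeting
`A`, so it does not meet `B`. By compactness of `B ∩ D` (the clopen sets containing `a` are directed
downwards; e.g. `IsCompact.elim_directed_family_closed_of_isCompact` or finite intersections) some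
clopen `Q a ∋ a` is disjoint from `B`. Finitely many `Q a` cover the compact set `D ∩ A`; `D₁` is their
union, `D₂` the complement in `D`; both are images of closed subsets of the compact space `↥D`.

PROOF of `hex`. `Z = T × unitInterval`, `D = {z | V z ∈ Icc (1/3) (2/3)}`, `A = {z | z.1 = p}`,
`B = {z | z.1 = q}`. If there is no `M`, `exists_split` gives `D₁`, `D₂`. Put
`k y = max 0 (min 1 (3 * y - 1))` (continuous, `0` for `y ≤ 1/3`, `1` for `y ≥ 2/3`) and
`θ z = (k (V z) : AddCircle (1 : ℝ))` for `z ∈ D₁`, `θ z = 0` for `z ∉ D₁`. `θ` is continuous: the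
closed sets `D₁` and `E = D₂ ∪ {V ≤ 1/3} ∪ {V ≥ 2/3}` cover `Z`, `θ` is continuous on `D₁`, and `θ = 0`
on `E` (on `D₁ ∩ E` the value of `V` is `1/3` or `2/3`, so `k (V z)` is `0` or `1`, which is `0` in
`AddCircle 1`); use `ContinuousOn.union_of_isClosed`-type gluing or `IsClosed` preimages.
Lift: `(AddCircle.isCoveringMap_coe (1:ℝ))` (Mathlib.Topology.Covering.AddCircle) and
`IsCoveringMap.liftHomotopy` (Mathlib.Topology.Homotopy.Lifting) for `H (u, t) = θ (t, u)` and the
constant lift `0` at `u = 0` (`V (t, 0) = 0`, so `θ (t, 0) = 0`) give a continuous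
`L : C(unitInterval × T, ℝ)` with `(L (u, t) : AddCircle 1) = θ (t, u)`, `L (0, t) = 0`.
`t ↦ L (1, t)` is continuous with integer values (`θ (t, 1) = 0` since `k 1 = 1` or `0`), so it is
constant on the connected space `T`. At `t = p` every point `(p, u)` of `D` lies in `D₁`, so
`θ (p, u) = (k (V (p, u)) : AddCircle 1)` for all `u` (outside `D` the value `k (V z)` is `0` or `1`);
by uniqueness of lifts (`IsCoveringMap.eq_liftPath_iff'` or: `L (u, p) - k (V (p, u))` is continuous,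
integer valued, `0` at `u = 0`) `L (1, p) = k 1 = 1`. At `t = q`: `θ (q, u) = 0` for all `u` (`D ∩ B ⊆ D₂`),
so `L (1, q) = 0`. Contradiction. About 150 lines.
-/

set_option autoImplicit false

open Set Topology Filter

namespace Pool.Agent.HDA

theorem exists_split {Z : Type*} [TopologicalSpace Z] [T2Space Z] {D A B : Set Z}
    (hD : IsCompact D) (hA : IsClosed A) (hB : IsClosed B)
    (h : ∀ M ⊆ D, IsClosed M → IsConnected M → ¬ ((M ∩ A).Nonempty ∧ (M ∩ B).Nonempty)) :
    ∃ D₁ D₂ : Set Z, IsClosed D₁ ∧ IsClosed D₂ ∧ Disjoint D₁ D₂ ∧ D₁ ∪ D₂ = D ∧ D ∩ A ⊆ D₁ ∧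
      D ∩ B ⊆ D₂ := by
  haveI : CompactSpace ↥D := isCompact_iff_compactSpace.1 hD
  have hA' : IsClosed ((↑) ⁻¹' A : Set ↥D) := hA.preimage continuous_subtype_val
  have hB' : IsClosed ((↑) ⁻¹' B : Set ↥D) := hB.preimage continuous_subtype_val
  -- a clopen set around a point of `A`
  have hone : ∀ a : ↥D, (a : Z) ∈ A → ∃ Q : Set ↥D, IsClopen Q ∧ a ∈ Q ∧
      ((↑) ⁻¹' B : Set ↥D) ∩ Q = ∅ := by
    intro a ha
    have hM : ¬ ((((↑) '' connectedComponent a : Set Z) ∩ A).Nonempty ∧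
        (((↑) '' connectedComponent a : Set Z) ∩ B).Nonempty) := by
      refine h _ ?_ ?_ ?_
      · rintro _ ⟨x, _, rfl⟩
        exact x.2
      · exact (isClosed_connectedComponent.isCompact.image continuous_subtype_val).isClosed
      · exact isConnected_connectedComponent.image _ continuous_subtype_val.continuousOn
    have hMB : ((↑) ⁻¹' B : Set ↥D) ∩ connectedComponent a = ∅ := by
      rw [eq_empty_iff_forall_notMem]
      rintro x ⟨hxB, hx⟩
      exact hM ⟨⟨a, ⟨a, mem_connectedComponent, rfl⟩, ha⟩, ⟨x, ⟨x, hx, rfl⟩, hxB⟩⟩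
    rw [connectedComponent_eq_iInter_isClopen] at hMB
    haveI : Nonempty {s : Set ↥D // IsClopen s ∧ a ∈ s} := ⟨⟨univ, isClopen_univ, mem_univ a⟩⟩
    obtain ⟨Q, hQ⟩ := hB'.isCompact.elim_directed_family_closed
      (fun s : {s : Set ↥D // IsClopen s ∧ a ∈ s} => (s : Set ↥D)) (fun s => s.2.1.1) hMB
      (fun s t => ⟨⟨s ∩ t, s.2.1.inter t.2.1, s.2.2, t.2.2⟩, inter_subset_left, inter_subset_right⟩)
    exact ⟨Q, Q.2.1, Q.2.2, hQ⟩
  obtain ⟨Q, hQ, hAQ, hBQ⟩ : ∃ Q : Set ↥D, IsClopen Q ∧ ((↑) ⁻¹' A : Set ↥D) ⊆ Q ∧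
      ((↑) ⁻¹' B : Set ↥D) ∩ Q = ∅ := by
    refine hA'.isCompact.induction_on (p := fun s => ∃ Q : Set ↥D, IsClopen Q ∧ s ⊆ Q ∧
      ((↑) ⁻¹' B : Set ↥D) ∩ Q = ∅) ?_ ?_ ?_ ?_
    · exact ⟨∅, isClopen_empty, subset_rfl, inter_empty _⟩
    · rintro s t hst ⟨Q, h1, h2, h3⟩
      exact ⟨Q, h1, hst.trans h2, h3⟩
    · rintro s t ⟨Q, h1, h2, h3⟩ ⟨R, h4, h5, h6⟩
      exact ⟨Q ∪ R, h1.union h4, union_subset_union h2 h5, by rw [inter_union_distrib_left, h3, h6,
        union_empty]⟩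
    · intro a ha
      obtain ⟨Q, h1, h2, h3⟩ := hone a ha
      exact ⟨Q, mem_nhdsWithin_of_mem_nhds (h1.2.mem_nhds h2), Q, h1, subset_rfl, h3⟩
  refine ⟨(↑) '' Q, (↑) '' Qᶜ, ?_, ?_, ?_, ?_, ?_, ?_⟩
  · exact (hQ.1.isCompact.image continuous_subtype_val).isClosed
  · exact (hQ.compl.1.isCompact.image continuous_subtype_val).isClosed
  · exact (disjoint_image_iff Subtype.val_injective).2 disjoint_compl_right
  · rw [← image_union, union_compl_self, image_univ, Subtype.range_coe]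
  · rintro z ⟨hzD, hzA⟩
    exact ⟨⟨z, hzD⟩, hAQ hzA, rfl⟩
  · rintro z ⟨hzD, hzB⟩
    refine ⟨⟨z, hzD⟩, fun hzQ => ?_, rfl⟩
    have : (⟨z, hzD⟩ : ↥D) ∈ ((↑) ⁻¹' B : Set ↥D) ∩ Q := ⟨hzB, hzQ⟩
    rw [hBQ] at this
    exact this

/-- a continuous real function with integer values on a connected space is constant -/
theorem int_const {S : Type*} [TopologicalSpace S] [PreconnectedSpace S] {f : S → ℝ}
    (hf : Continuous f) (hi : ∀ s, ((f s : ℝ) : AddCircle (1 : ℝ)) = 0) (x y : S) : f x = f y := by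
  have h1 : ∀ s, ∃ n : ℤ, (n : ℝ) = f s := by
    intro s
    obtain ⟨n, hn⟩ := (AddCircle.coe_eq_zero_iff (1 : ℝ)).1 (hi s)
    exact ⟨n, by rw [← hn]; simp⟩
  choose n hn using h1
  have h2 : Continuous n := by
    rw [Int.isClosedEmbedding_coe_real.isEmbedding.continuous_iff]
    have h3 : (fun m : ℤ => (m : ℝ)) ∘ n = f := funext hn
    exact h3 ▸ hf
  rw [← hn x, ← hn y, PreconnectedSpace.constant (inferInstance : PreconnectedSpace S) h2
    (x := x) (y := y)]

/-- the ramp function -/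
private noncomputable def ramp (y : ℝ) : ℝ := max 0 (min 1 (3 * y - 1))

private theorem ramp_cont : Continuous ramp := by
  unfold ramp
  fun_prop

private theorem ramp_low {y : ℝ} (h : y ≤ 1 / 3) : ramp y = 0 := by
  unfold ramp
  rw [max_eq_left]
  exact (min_le_right _ _).trans (by linarith)

private theorem ramp_high {y : ℝ} (h : 2 / 3 ≤ y) : ramp y = 1 := by
  unfold ramp
  rw [min_eq_left (by linarith), max_eq_right (by norm_num)]

private theorem ramp_coe {y : ℝ} (h : y ≤ 1 / 3 ∨ 2 / 3 ≤ y) :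
    ((ramp y : ℝ) : AddCircle (1 : ℝ)) = 0 := by
  rcases h with h | h
  · rw [ramp_low h, AddCircle.coe_zero]
  · rw [ramp_high h, AddCircle.coe_eq_zero_iff]
    exact ⟨1, by simp⟩

theorem hex {T : Type*} [TopologicalSpace T] [CompactSpace T] [T2Space T] [ConnectedSpace T]
    {V : T × unitInterval → ℝ} (hV : Continuous V) (h0 : ∀ t, V (t, 0) = 0)
    (h1 : ∀ t, V (t, 1) = 1) (p q : T) :
    ∃ M : Set (T × unitInterval), IsClosed M ∧ IsConnected M ∧
      (∀ z ∈ M, V z ∈ Icc (1 / 3 : ℝ) (2 / 3)) ∧ (∃ u, (p, u) ∈ M) ∧ ∃ u, (q, u) ∈ M := by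
  classical
  by_contra hno
  have hDc : IsClosed {z : T × unitInterval | V z ∈ Icc (1 / 3 : ℝ) (2 / 3)} :=
    isClosed_Icc.preimage hV
  have hAc : IsClosed {z : T × unitInterval | z.1 = p} :=
    isClosed_singleton.preimage continuous_fst
  have hBc : IsClosed {z : T × unitInterval | z.1 = q} :=
    isClosed_singleton.preimage continuous_fst
  obtain ⟨D₁, D₂, hD₁, hD₂, hdis, hun, hA1, hB2⟩ := exists_split hDc.isCompact hAc hBc (by
    rintro M hM hMc hMconn ⟨⟨⟨a, u⟩, ha, ha'⟩, ⟨⟨b, v⟩, hb, hb'⟩⟩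
    refine hno ⟨M, hMc, hMconn, fun z hz => hM hz, ⟨u, ?_⟩, ⟨v, ?_⟩⟩
    · have h2 : a = p := ha'
      rw [← h2]
      exact ha
    · have h2 : b = q := hb'
      rw [← h2]
      exact hb)
  have hsub1 : ∀ z ∈ D₁, V z ∈ Icc (1 / 3 : ℝ) (2 / 3) := fun z hz => by
    have : z ∈ D₁ ∪ D₂ := Or.inl hz
    rw [hun] at this
    exact this
  have hout : ∀ z, z ∉ D₁ ∪ D₂ → V z ≤ 1 / 3 ∨ 2 / 3 ≤ V z := by
    intro z hz
    rw [hun] at hz
    by_contra hcon
    push Not at hcon
    exact hz ⟨hcon.1.le, hcon.2.le⟩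
  -- the map to the circle
  obtain ⟨θ, hθ⟩ : ∃ θ : T × unitInterval → AddCircle (1 : ℝ),
      θ = fun z => if z ∈ D₁ then ((ramp (V z) : ℝ) : AddCircle (1 : ℝ)) else 0 := ⟨_, rfl⟩
  have hθ1 : ∀ z ∈ D₁, θ z = ((ramp (V z) : ℝ) : AddCircle (1 : ℝ)) := fun z hz => by
    rw [hθ]
    exact if_pos hz
  have hθ0 : ∀ z ∉ D₁, θ z = 0 := fun z hz => by
    rw [hθ]
    exact if_neg hz
  have hθE : ∀ z, z ∈ D₂ ∪ {z | V z ≤ 1 / 3} ∪ {z | 2 / 3 ≤ V z} → θ z = 0 := by
    intro z hz
    by_cases hz1 : z ∈ D₁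
    · rw [hθ1 z hz1]
      apply ramp_coe
      rcases hz with (hz | hz) | hz
      · exact absurd hz (disjoint_left.1 hdis hz1)
      · exact Or.inl hz
      · exact Or.inr hz
    · exact hθ0 z hz1
  have hθc : Continuous θ := by
    rw [continuous_iff_isClosed]
    intro K hK
    have hf : Continuous (fun z => ((ramp (V z) : ℝ) : AddCircle (1 : ℝ))) :=
      (AddCircle.continuous_mk' (1 : ℝ)).comp (ramp_cont.comp hV)
    have hE : IsClosed (D₂ ∪ {z | V z ≤ 1 / 3} ∪ {z | 2 / 3 ≤ V z}) :=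
      (hD₂.union (isClosed_le hV continuous_const)).union (isClosed_le continuous_const hV)
    have h2 : θ ⁻¹' K = (D₁ ∩ (fun z => ((ramp (V z) : ℝ) : AddCircle (1 : ℝ))) ⁻¹' K) ∪
        ((D₂ ∪ {z | V z ≤ 1 / 3} ∪ {z | 2 / 3 ≤ V z}) ∩ (fun _ => (0 : AddCircle (1 : ℝ))) ⁻¹' K) := by
      ext z
      constructor
      · intro hz
        by_cases hz1 : z ∈ D₁
        · left
          refine ⟨hz1, ?_⟩
          have h3 := hθ1 z hz1
          show ((ramp (V z) : ℝ) : AddCircle (1 : ℝ)) ∈ K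
          rw [← h3]
          exact hz
        · right
          refine ⟨?_, ?_⟩
          · by_cases hz2 : z ∈ D₂
            · exact Or.inl (Or.inl hz2)
            · rcases hout z (fun h => h.elim hz1 hz2) with h | h
              · exact Or.inl (Or.inr h)
              · exact Or.inr h
          · show (0 : AddCircle (1 : ℝ)) ∈ K
            rw [← hθ0 z hz1]
            exact hz
      · rintro (⟨hz1, hz⟩ | ⟨hzE, hz⟩)
        · show θ z ∈ K
          rw [hθ1 z hz1]
          exact hz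
        · show θ z ∈ K
          rw [hθE z hzE]
          exact hz
    rw [h2]
    exact (hD₁.inter (hK.preimage hf)).union (hE.inter (hK.preimage continuous_const))
  have hθ00 : ∀ t, θ (t, 0) = 0 := fun t =>
    hθE _ (Or.inl (Or.inr (by show V (t, 0) ≤ 1 / 3; rw [h0]; norm_num)))
  have hθ01 : ∀ t, θ (t, 1) = 0 := fun t =>
    hθE _ (Or.inr (by show 2 / 3 ≤ V (t, 1); rw [h1]; norm_num))
  -- the lift
  have cov := AddCircle.isCoveringMap_coe (1 : ℝ)
  let H : C(unitInterval × T, AddCircle (1 : ℝ)) :=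
    ⟨fun x => θ (x.2, x.1), hθc.comp (continuous_snd.prodMk continuous_fst)⟩
  have hH0 : ∀ t, H (0, t) = (((ContinuousMap.const T (0 : ℝ)) t : ℝ) : AddCircle (1 : ℝ)) := by
    intro t
    show θ (t, 0) = ((0 : ℝ) : AddCircle (1 : ℝ))
    rw [hθ00, AddCircle.coe_zero]
  obtain ⟨L, hL, hLz⟩ : ∃ L : C(unitInterval × T, ℝ),
      (∀ u t, ((L (u, t) : ℝ) : AddCircle (1 : ℝ)) = θ (t, u)) ∧ ∀ t, L (0, t) = 0 := by
    refine ⟨cov.liftHomotopy H (ContinuousMap.const T (0 : ℝ)) hH0, fun u t => ?_, fun t => ?_⟩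
    · exact congrFun (cov.liftHomotopy_lifts H (ContinuousMap.const T (0 : ℝ)) hH0) (u, t)
    · exact cov.liftHomotopy_zero H (ContinuousMap.const T (0 : ℝ)) hH0 t
  have hc1 : L (1, p) = L (1, q) := by
    refine int_const (f := fun t => L (1, t)) (L.continuous.comp (continuous_const.prodMk
      continuous_id)) (fun t => ?_) p q
    rw [hL, hθ01]
  have hp : L (1, p) = 1 := by
    have hcont : Continuous (fun u : unitInterval => L (u, p) - ramp (V (p, u))) :=
      (L.continuous.comp (continuous_id.prodMk continuous_const)).sub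
        (ramp_cont.comp (hV.comp (continuous_const.prodMk continuous_id)))
    have h2 := int_const (f := fun u : unitInterval => L (u, p) - ramp (V (p, u))) hcont
      (fun u => by
        rw [AddCircle.coe_sub, hL, sub_eq_zero]
        by_cases hz : (p, u) ∈ D₁
        · exact hθ1 _ hz
        · rw [hθ0 _ hz]
          refine (ramp_coe (hout _ ?_)).symm
          rw [hun]
          exact fun h => hz (hA1 ⟨h, rfl⟩)) 1 0
    simp only [hLz, h0, h1] at h2
    rw [ramp_low (by norm_num : (0 : ℝ) ≤ 1 / 3), ramp_high (by norm_num : (2 / 3 : ℝ) ≤ 1)] at h2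
    linarith
  have hq : L (1, q) = 0 := by
    have h2 := int_const (f := fun u : unitInterval => L (u, q))
      (L.continuous.comp (continuous_id.prodMk continuous_const)) (fun u => by
        rw [hL]
        refine hθ0 _ (fun hz => ?_)
        exact disjoint_left.1 hdis hz (hB2 ⟨hsub1 _ hz, rfl⟩)) 1 0
    rw [hLz] at h2
    exact h2
  rw [hp, hq] at hc1
  exact one_ne_zero hc1

end Pool.Agent.HDA
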