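import Mathlib

/-!
# HDA module WFUN: a zigzag function

PROOF. With `cl x = max 0 (min 1 x)` put
`lR u = cl ((u - (1 - ε)) / ε)` (`0` for `u ≤ 1 - ε`, `1` for `u = 1`),
`lL u = cl ((ε - u) / ε)` (`1` for `u = 0`, `0` for `u ≥ ε`),
`z y = max 0 (max (min (9 y - 3) (5 - 9 y)) (min 1 (9 y - 5)))` (`0` for `y ≤ 1/3`, `1` at `4/9`, `0` at
`5/9`, `1` for `y ≥ 2/3`), `α y = cl (6 - 9 y)` (`1` for `y ≤ 5/9`, `0` for `y ≥ 2/3`),
`β y = cl (9 y - 3)` (`0` for `y ≤ 1/3`, `1` for `y ≥ 4/9`), and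
`w (u, y) = (1 - lR u * α y) * (1 - (1 - z y) * (1 - lL u * β y))`.
Checks. `y ≤ 1/3`: `z = 0`, `β = 0`, second factor `0`. `y ≥ 2/3`: `α = 0`, `z = 1`, `w = 1`.
`y = 4/9`: `z = 1`, `w = 1 - lR u`; in `[1/3, 2/3]` only if `lR u > 0`, so `u > 1 - ε`.
`y = 5/9`: `z = 0`, `α = β = 1`, `w = (1 - lR u) * lL u`; nonzero only if `lL u > 0`, so `u < ε`.
`u = 0`: `lR = 0` (as `ε < 1`), `lL = 1`, `w = 1 - (1 - z) (1 - β)`, which is `1` if `y ≥ 4/9` (`β = 1`).
`u = 1`: `lR = 1`, `lL = 0`, `w = (1 - α) z`, which is `0` if `y ≤ 5/9` (`α = 1`).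
-/

set_option autoImplicit false

open Set Topology Filter Metric

namespace Pool.Agent.HDA

private noncomputable def cl (x : ℝ) : ℝ := max 0 (min 1 x)

private theorem cl_cont : Continuous cl := by
  unfold cl
  fun_prop

private theorem cl_zero {x : ℝ} (h : x ≤ 0) : cl x = 0 :=
  max_eq_left ((min_le_right _ _).trans h)

private theorem cl_one {x : ℝ} (h : 1 ≤ x) : cl x = 1 := by
  unfold cl
  rw [min_eq_left h]
  exact max_eq_right zero_le_one

private noncomputable def zz (y : ℝ) : ℝ :=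
  max 0 (max (min (9 * y - 3) (5 - 9 * y)) (min 1 (9 * y - 5)))

private theorem zz_cont : Continuous zz := by
  unfold zz
  fun_prop

theorem exists_wfun {ε : ℝ} (hε : 0 < ε) (hε' : ε < 1 / 2) :
    ∃ w : ℝ × ℝ → ℝ, Continuous w ∧
      (∀ u y : ℝ, y ≤ 1 / 3 → w (u, y) = 0) ∧
      (∀ u y : ℝ, 2 / 3 ≤ y → w (u, y) = 1) ∧
      (∀ u : ℝ, w (u, 4 / 9) ∈ Icc (1 / 3 : ℝ) (2 / 3) → 1 - ε ≤ u) ∧
      (∀ u : ℝ, w (u, 5 / 9) ∈ Icc (1 / 3 : ℝ) (2 / 3) → u ≤ ε) ∧
      (∀ y : ℝ, w (0, y) ∈ Icc (1 / 3 : ℝ) (2 / 3) → y ≤ 4 / 9) ∧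
      (∀ y : ℝ, w (1, y) ∈ Icc (1 / 3 : ℝ) (2 / 3) → 5 / 9 ≤ y) := by
  have c1 := cl_cont
  have c2 := zz_cont
  refine ⟨fun p => (1 - cl ((p.1 - (1 - ε)) / ε) * cl (6 - 9 * p.2)) *
    (1 - (1 - zz p.2) * (1 - cl ((ε - p.1) / ε) * cl (9 * p.2 - 3))), ?_, ?_, ?_, ?_, ?_, ?_, ?_⟩
  · fun_prop
  · intro u y hy
    have h1 : zz y = 0 := by
      unfold zz
      refine max_eq_left (max_le ((min_le_left _ _).trans (by linarith))
        ((min_le_right _ _).trans (by linarith)))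
    have h2 : cl (9 * y - 3) = 0 := cl_zero (by linarith)
    simp only [h1, h2]
    ring
  · intro u y hy
    have h1 : zz y = 1 := by
      unfold zz
      rw [min_eq_left (by linarith : (1 : ℝ) ≤ 9 * y - 5),
        max_eq_right ((min_le_right _ _).trans (by linarith)), max_eq_right zero_le_one]
    have h2 : cl (6 - 9 * y) = 0 := cl_zero (by linarith)
    simp only [h1, h2]
    ring
  · intro u hu
    by_contra hc
    push Not at hc
    have h1 : zz (4 / 9) = 1 := by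
      unfold zz
      norm_num
    have h2 : cl ((u - (1 - ε)) / ε) = 0 := cl_zero (div_nonpos_of_nonpos_of_nonneg (by linarith) hε.le)
    simp only [h1, h2] at hu
    have := hu.2
    norm_num at this
  · intro u hu
    by_contra hc
    push Not at hc
    have h1 : zz (5 / 9) = 0 := by
      unfold zz
      norm_num
    have h2 : cl ((ε - u) / ε) = 0 := cl_zero (div_nonpos_of_nonpos_of_nonneg (by linarith) hε.le)
    simp only [h1, h2] at hu
    have := hu.1
    norm_num at this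
  · intro y hy
    by_contra hc
    push Not at hc
    have h1 : cl ((0 - (1 - ε)) / ε) = 0 :=
      cl_zero (div_nonpos_of_nonpos_of_nonneg (by linarith) hε.le)
    have h2 : cl ((ε - 0) / ε) = 1 := by
      rw [sub_zero, div_self hε.ne']
      exact cl_one le_rfl
    have h3 : cl (9 * y - 3) = 1 := cl_one (by linarith)
    simp only [h1, h2, h3] at hy
    have := hy.2
    norm_num at this
  · intro y hy
    by_contra hc
    push Not at hc
    have h1 : cl ((1 - (1 - ε)) / ε) = 1 := by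
      rw [sub_sub_cancel, div_self hε.ne']
      exact cl_one le_rfl
    have h2 : cl ((ε - 1) / ε) = 0 :=
      cl_zero (div_nonpos_of_nonpos_of_nonneg (by linarith) hε.le)
    have h3 : cl (6 - 9 * y) = 1 := cl_one (by linarith)
    simp only [h1, h2, h3] at hy
    have := hy.1
    norm_num at this

end Pool.Agent.HDA
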