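import Mathlib
import Pool.Agent.HDA.Wfun
import Pool.Agent.HDA.Hex
import Pool.Agent.HDC.Hyper
import Pool.Agent.HDC.IrrEx

/-!
# HDA module SQ: a square gives an indecomposable continuum

PROOF. The sets `φ '' ({p} × I)`, `φ '' ({q} × I)` are compact and disjoint (`h2`), and so are
`φ '' (T × {0})`, `φ '' (T × {1})` (`h1`). Urysohn (`exists_continuous_zero_one_of_isClosed`) gives
continuous `F₁, F₂ : X → ℝ` with values in `[0,1]`, `F₁ = 0` on the first, `F₁ = 1` on the second,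
`F₂ = 0` on the third and `F₂ = 1` on the fourth set. Let `ε k = 1 / (k + 3)`, `w k = exists_wfun (ε k)`,
and `V 0 = F₂`, `V (k+1) x = w k (F₁ x, V k x)`, `D k = {x | V k x ∈ Icc (1/3) (2/3)}` (closed).
* `V k (φ (t, 0)) = 0`, `V k (φ (t, 1)) = 1` for all `k` (`0 ≤ 1/3`, `1 ≥ 2/3`).
* `D (k+1) ⊆ D k`: if `V k x ≤ 1/3` then `V (k+1) x = 0`; if `V k x ≥ 2/3` then `V (k+1) x = 1`.
* By `hex` for `V k ∘ φ` there is a closed connected `M k ⊆ T × I`; `K k = φ '' M k` satisfies `Ctm`,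
  `K k ⊆ D k`, and it meets `{F₁ = 0}` and `{F₁ = 1}`.
* `exists_limit` gives `K'` and `ψ`; `Ctm K'`; `K' ⊆ D k` for all `k` (`K (ψ n) ⊆ D k` for large `n`, and
  `K' ⊆ thickening ε (K (ψ n)) ⊆ thickening ε (D k)` for all `ε`, `D k` closed); `K'` meets `{F₁ = 0}`:
  take `x n ∈ K (ψ n)` with `F₁ (x n) = 0`, a limit point of a subsequence lies in `K'` (closed, and
  `K (ψ n) ⊆ thickening ε K'`) and in `{F₁ = 0}`. Same for `{F₁ = 1}`.
* `exists_irr` gives `L ⊆ K'` with `Irr L {F₁ = 0} {F₁ = 1}`. It is nontrivial. CLAIM `Indec L`: let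
  `E, F` be `Ctm`, `E ∪ F = L`, `E ≠ L`, `F ≠ L`. By minimality neither `E` nor `F` meets both sets.
  Since `L` meets both, we may assume (swap) that `E` meets `{F₁ = 0}` and not `{F₁ = 1}`, `F` meets
  `{F₁ = 1}` and not `{F₁ = 0}`. By compactness there is `ε' > 0` with `F₁ < 1 - ε'` on `E` and
  `F₁ > ε'` on `F` (`F₁` has values in `[0,1]`). Let `k` with `ε k < ε'`. On `L ⊆ D (k+1)`:
  `V k x = 4/9 → 1 - ε k ≤ F₁ x`, so `V k ≠ 4/9` on `E`; `V k x = 5/9 → F₁ x ≤ ε k`, so `V k ≠ 5/9` on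
  `F`. `E` has a point with `F₁ = 0`, where `V k ≤ 4/9`, so `V k < 4/9` on `E` (`E` preconnected,
  `IsPreconnected.intermediate_value`). `F` has a point with `F₁ = 1`, where `5/9 ≤ V k`, so
  `V k > 5/9` on `F`. So `E ∩ F = ∅`, and `L = E ∪ F` is connected, `E`, `F` closed nonempty:
  contradiction (`isPreconnected_closed_iff`). About 170 lines.
-/

set_option autoImplicit false

open Set Topology Filter Metric Pool.Agent.HDC

namespace Pool.Agent.HDA

private theorem sq_meet {X : Type*} [MetricSpace X] [CompactSpace X] {K : ℕ → Set X}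
    {K' : Set X} (hK' : IsCompact K') {ψ : ℕ → ℕ} {A : Set X} (hA : IsClosed A)
    (hKA : ∀ n, (K n ∩ A).Nonempty)
    (hlim : ∀ ε > 0, ∀ᶠ n in atTop, K (ψ n) ⊆ thickening ε K' ∧ K' ⊆ thickening ε (K (ψ n))) :
    (K' ∩ A).Nonempty := by
  by_contra hcon
  rw [not_nonempty_iff_eq_empty] at hcon
  have hsub : K' ⊆ Aᶜ := by
    intro x hx hxA
    have : x ∈ K' ∩ A := ⟨hx, hxA⟩
    rw [hcon] at this
    exact this
  obtain ⟨δ, hδ, hd⟩ := hK'.exists_thickening_subset_open hA.isOpen_compl hsub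
  obtain ⟨n, hn, -⟩ := (hlim δ hδ).exists
  obtain ⟨x, hx, hxA⟩ := hKA (ψ n)
  exact hd (hn hx) hxA

private theorem sq_side {X : Type*} [TopologicalSpace X] {E : Set X} (hE : IsPreconnected E)
    {V : X → ℝ} (hV : Continuous V) {c : ℝ} {a : X} (ha : a ∈ E) (hac : V a < c)
    (hne : ∀ x ∈ E, V x ≠ c) : ∀ x ∈ E, V x < c := by
  intro x hx
  by_contra h
  push Not at h
  obtain ⟨y, hy, hyc⟩ := hE.intermediate_value ha hx hV.continuousOn ⟨hac.le, h⟩
  exact hne y hy hyc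

private theorem sq_side' {X : Type*} [TopologicalSpace X] {E : Set X} (hE : IsPreconnected E)
    {V : X → ℝ} (hV : Continuous V) {c : ℝ} {a : X} (ha : a ∈ E) (hac : c < V a)
    (hne : ∀ x ∈ E, V x ≠ c) : ∀ x ∈ E, c < V x := by
  intro x hx
  by_contra h
  push Not at h
  obtain ⟨y, hy, hyc⟩ := hE.intermediate_value hx ha hV.continuousOn ⟨h, hac.le⟩
  exact hne y hy hyc

theorem square {T X : Type*} [TopologicalSpace T] [CompactSpace T] [T2Space T] [ConnectedSpace T]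
    [MetricSpace X] [CompactSpace X] {φ : T × unitInterval → X} (hφ : Continuous φ)
    (h1 : ∀ s t, φ (s, 0) ≠ φ (t, 1)) {p q : T} (h2 : ∀ u v, φ (p, u) ≠ φ (q, v)) :
    ∃ Y : Set X, Ctm Y ∧ Y.Nontrivial ∧ Indec Y := by
  -- the functions
  have hcl : ∀ (S : Set (T × unitInterval)), IsClosed S → IsClosed (φ '' S) := fun S hS =>
    (hS.isCompact.image hφ).isClosed
  have hc1 : ∀ p : T, IsClosed {z : T × unitInterval | z.1 = p} := fun p =>
    isClosed_eq continuous_fst continuous_const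
  have hc2 : ∀ u : unitInterval, IsClosed {z : T × unitInterval | z.2 = u} := fun u =>
    isClosed_eq continuous_snd continuous_const
  obtain ⟨F₁, hF0, hF1, hF⟩ := exists_continuous_zero_one_of_isClosed (hcl _ (hc1 p))
    (hcl _ (hc1 q)) (by
      rw [Set.disjoint_left]
      rintro _ ⟨⟨a, u⟩, ha, rfl⟩ ⟨⟨b, v⟩, hb, hab⟩
      simp only [mem_setOf_eq] at ha hb
      subst ha hb
      exact h2 _ _ hab.symm)
  obtain ⟨F₂, hG0, hG1, hG⟩ := exists_continuous_zero_one_of_isClosed (hcl _ (hc2 0))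
    (hcl _ (hc2 1)) (by
      rw [Set.disjoint_left]
      rintro _ ⟨⟨a, u⟩, ha, rfl⟩ ⟨⟨b, v⟩, hb, hab⟩
      simp only [mem_setOf_eq] at ha hb
      subst ha hb
      exact h1 _ _ hab.symm)
  have hε : ∀ k : ℕ, (0 : ℝ) < 1 / ((k : ℝ) + 3) := fun k => by positivity
  have hε' : ∀ k : ℕ, 1 / ((k : ℝ) + 3) < 1 / 2 := fun k => by
    rw [div_lt_div_iff₀ (by positivity) (by norm_num)]
    have : (0 : ℝ) ≤ k := Nat.cast_nonneg k
    linarith
  choose w hwc hw1 hw2 hw3 hw4 hw5 hw6 using fun k : ℕ => exists_wfun (hε k) (hε' k)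
  let V : ℕ → X → ℝ := fun k => Nat.rec (fun x => F₂ x) (fun k v x => w k (F₁ x, v x)) k
  have hV0 : ∀ x, V 0 x = F₂ x := fun x => rfl
  have hVs : ∀ k x, V (k + 1) x = w k (F₁ x, V k x) := fun k x => rfl
  have hVc : ∀ k, Continuous (V k) := by
    intro k
    induction k with
    | zero => exact F₂.continuous
    | succ k ih => exact (hwc k).comp (F₁.continuous.prodMk ih)
  have hVt0 : ∀ k t, V k (φ (t, 0)) = 0 := by
    intro k t
    cases k with
    | zero =>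
      rw [hV0]
      exact hG0 ⟨(t, 0), rfl, rfl⟩
    | succ k =>
      induction k with
      | zero =>
        rw [hVs]
        refine hw1 0 _ _ ?_
        rw [hV0, show F₂ (φ (t, 0)) = 0 from hG0 ⟨(t, 0), rfl, rfl⟩]
        norm_num
      | succ k ih =>
        rw [hVs]
        refine hw1 _ _ _ ?_
        rw [ih]
        norm_num
  have hVt1 : ∀ k t, V k (φ (t, 1)) = 1 := by
    intro k t
    cases k with
    | zero =>
      rw [hV0]
      exact hG1 ⟨(t, 1), rfl, rfl⟩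
    | succ k =>
      induction k with
      | zero =>
        rw [hVs]
        refine hw2 0 _ _ ?_
        rw [hV0, show F₂ (φ (t, 1)) = 1 from hG1 ⟨(t, 1), rfl, rfl⟩]
        norm_num
      | succ k ih =>
        rw [hVs]
        refine hw2 _ _ _ ?_
        rw [ih]
        norm_num
  -- the decreasing sets
  let D : ℕ → Set X := fun k => {x | V k x ∈ Icc (1 / 3 : ℝ) (2 / 3)}
  have hDc : ∀ k, IsClosed (D k) := fun k => isClosed_Icc.preimage (hVc k)
  have hDs : ∀ k, D (k + 1) ⊆ D k := by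
    intro k x hx
    have hx' : V (k + 1) x ∈ Icc (1 / 3 : ℝ) (2 / 3) := hx
    rw [hVs] at hx'
    refine ⟨?_, ?_⟩
    · by_contra h
      push Not at h
      rw [hw1 k _ _ h.le] at hx'
      have := hx'.1
      norm_num at this
    · by_contra h
      push Not at h
      rw [hw2 k _ _ h.le] at hx'
      have := hx'.2
      norm_num at this
  have hDa : ∀ {i j : ℕ}, i ≤ j → D j ⊆ D i := fun {i j} hij => antitone_nat_of_succ_le hDs hij
  -- the crossing sets
  choose M hMc hMk hMV hMp hMq using fun k => hex (V := fun z => V k (φ z))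
    ((hVc k).comp hφ) (hVt0 k) (hVt1 k) p q
  let K : ℕ → Set X := fun k => φ '' M k
  have hK : ∀ k, Ctm (K k) := fun k => ⟨hcl _ (hMc k), (hMk k).image φ hφ.continuousOn⟩
  have hKD : ∀ k, K k ⊆ D k := by
    rintro k _ ⟨z, hz, rfl⟩
    exact hMV k z hz
  obtain ⟨K', ψ, hK', hψ, hlim⟩ := exists_limit K hK
  have hA : IsClosed {x | F₁ x = 0} := isClosed_eq F₁.continuous continuous_const
  have hH : IsClosed {x | F₁ x = 1} := isClosed_eq F₁.continuous continuous_const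
  have hK'c := hK'.1.isCompact
  have hmA : (K' ∩ {x | F₁ x = 0}).Nonempty := by
    refine sq_meet hK'c hA (fun n => ?_) hlim
    obtain ⟨u, hu⟩ := hMp n
    exact ⟨φ (p, u), ⟨_, hu, rfl⟩, hF0 ⟨(p, u), rfl, rfl⟩⟩
  have hmH : (K' ∩ {x | F₁ x = 1}).Nonempty := by
    refine sq_meet hK'c hH (fun n => ?_) hlim
    obtain ⟨u, hu⟩ := hMq n
    exact ⟨φ (q, u), ⟨_, hu, rfl⟩, hF1 ⟨(q, u), rfl, rfl⟩⟩
  have hK'D : ∀ k, K' ⊆ D k := by
    intro k x hx
    rw [← (hDc k).closure_eq, Metric.mem_closure_iff]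
    intro ε hε
    obtain ⟨n, ⟨-, hn⟩, hkn⟩ := ((hlim ε hε).and (eventually_ge_atTop k)).exists
    obtain ⟨y, hy, hxy⟩ := mem_thickening_iff.1 (hn hx)
    exact ⟨y, hDa (hkn.trans (hψ.id_le n)) (hKD _ hy), hxy⟩
  obtain ⟨L, hLK, hL⟩ := exists_irr hK' hA hH hmA hmH
  obtain ⟨hLc, ⟨a, haL, haA⟩, ⟨b, hbL, hbH⟩, hmin⟩ := hL
  have haA' : F₁ a = 0 := haA
  have hbH' : F₁ b = 1 := hbH
  refine ⟨L, hLc, ⟨a, haL, b, hbL, fun hab => ?_⟩, ?_⟩
  · rw [hab, hbH'] at haA'
    exact one_ne_zero haA'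
  -- the main claim
  have aux : ∀ E F : Set X, Ctm E → Ctm F → E ∪ F = L → (∀ x ∈ E, F₁ x ≠ 1) →
      (∀ x ∈ F, F₁ x ≠ 0) → a ∈ E → b ∈ F → False := by
    intro E F hE hF' hEF hE1 hF0' haE hbF
    have hEL : E ⊆ L := by
      rw [← hEF]
      exact subset_union_left
    have hFL : F ⊆ L := by
      rw [← hEF]
      exact subset_union_right
    obtain ⟨xE, hxE, hxE'⟩ := hE.1.isCompact.exists_isMaxOn ⟨a, haE⟩ F₁.continuous.continuousOn
    obtain ⟨xF, hxF, hxF'⟩ := hF'.1.isCompact.exists_isMinOn ⟨b, hbF⟩ F₁.continuous.continuousOn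
    have hm1 : F₁ xE < 1 := lt_of_le_of_ne (hF xE).2 (hE1 xE hxE)
    have hm2 : 0 < F₁ xF := lt_of_le_of_ne (hF xF).1 (Ne.symm (hF0' xF hxF))
    obtain ⟨k, hk⟩ := exists_nat_one_div_lt (lt_min (sub_pos.2 hm1) hm2)
    have hk' : 1 / ((k : ℝ) + 3) ≤ 1 / ((k : ℝ) + 1) := by
      apply one_div_le_one_div_of_le (by positivity)
      linarith
    have hk1 : 1 / ((k : ℝ) + 3) < 1 - F₁ xE := hk'.trans_lt (hk.trans_le (min_le_left _ _))
    have hk2 : 1 / ((k : ℝ) + 3) < F₁ xF := hk'.trans_lt (hk.trans_le (min_le_right _ _))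
    have hmem : ∀ x ∈ L, w k (F₁ x, V k x) ∈ Icc (1 / 3 : ℝ) (2 / 3) := by
      intro x hx
      have := hK'D (k + 1) (hLK hx)
      change V (k + 1) x ∈ Icc (1 / 3 : ℝ) (2 / 3) at this
      rwa [hVs] at this
    have hEne : ∀ x ∈ E, V k x ≠ 4 / 9 := by
      intro x hx h
      have h3 := hmem x (hEL hx)
      rw [h] at h3
      have h4 := hw3 k _ h3
      have h5 : F₁ x ≤ F₁ xE := hxE' hx
      linarith
    have hFne : ∀ x ∈ F, V k x ≠ 5 / 9 := by
      intro x hx h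
      have h3 := hmem x (hFL hx)
      rw [h] at h3
      have h4 := hw4 k _ h3
      have h5 : F₁ xF ≤ F₁ x := hxF' hx
      linarith
    have hVa : V k a < 4 / 9 := by
      have h3 := hmem a haL
      rw [haA'] at h3
      exact lt_of_le_of_ne (hw5 k _ h3) (hEne a haE)
    have hVb : 5 / 9 < V k b := by
      have h3 := hmem b hbL
      rw [hbH'] at h3
      exact lt_of_le_of_ne (hw6 k _ h3) (Ne.symm (hFne b hbF))
    have hE' := sq_side hE.2.isPreconnected (hVc k) haE hVa hEne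
    have hF'' := sq_side' hF'.2.isPreconnected (hVc k) hbF hVb hFne
    obtain ⟨x, -, hx1, hx2⟩ := isPreconnected_closed_iff.1 hLc.2.isPreconnected E F hE.1 hF'.1
      (by rw [hEF]) ⟨a, haL, haE⟩ ⟨b, hbL, hbF⟩
    have h3 := hE' x hx1
    have h4 := hF'' x hx2
    linarith
  intro E F hE hF' hEF
  by_contra hcon
  push Not at hcon
  obtain ⟨hEL, hFL⟩ := hcon
  have hEs : E ⊆ L := by
    rw [← hEF]
    exact subset_union_left
  have hFs : F ⊆ L := by
    rw [← hEF]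
    exact subset_union_right
  have hE2 : ∀ x ∈ E, F₁ x = 0 → ∀ y ∈ E, F₁ y ≠ 1 := fun x hx hx0 y hy hy1 =>
    hEL (hmin E hE hEs ⟨x, hx, hx0⟩ ⟨y, hy, hy1⟩)
  have hF2 : ∀ x ∈ F, F₁ x = 0 → ∀ y ∈ F, F₁ y ≠ 1 := fun x hx hx0 y hy hy1 =>
    hFL (hmin F hF' hFs ⟨x, hx, hx0⟩ ⟨y, hy, hy1⟩)
  rw [← hEF] at haL hbL
  rcases haL with haE | haF
  · have h3 := hE2 a haE haA'
    have hbF : b ∈ F := hbL.resolve_left fun hbE => h3 b hbE hbH'
    exact aux E F hE hF' hEF h3 (fun x hx hx0 => hF2 x hx hx0 b hbF hbH') haE hbF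
  · have h3 := hF2 a haF haA'
    have hbE : b ∈ E := hbL.resolve_right fun hbF => h3 b hbF hbH'
    exact aux F E hF' hE (by rw [union_comm, hEF]) h3
      (fun x hx hx0 => hE2 x hx hx0 b hbE hbH') haF hbE

end Pool.Agent.HDA
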