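import Mathlib
import Pool.Agent.HDA.Defs
import Pool.Agent.HDA.Sq

/-!
# HDA module TD: closed connected sets inside a level set are points

PROOF. Suppose `s₀ ≠ s₁` in `T`. `T` is compact and connected; `p` is injective on `O` (two points of
`O` have distance `< κ`, `p_inj`). Choose `t ∈ (0, 1]` with
(1) `m s u ∈ O` for all `s ∈ T`, `u ∈ Icc 0 t` (compactness of `T`, `O` open, `m s 0 = s ∈ O`, `m_cont`;
    `generalized_tube_lemma` for the compact sets `T`, `{0}`);
(2) `p (m s₀ u) ≠ p (m s₁ v)` for all `u, v ∈ Icc 0 t` (continuity at `0`: `p (m s₀ 0) = p s₀ ≠ p s₁`).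
Apply `square` with the space `↥T` (compact, connected) and
`φ (s, u) = p (m s (u * t))`, continuous. `h2` is (2) for `p = s₀`, `q = s₁`.
`h1`: suppose `p (m s 0) = p (m s' t)`, `s, s' ∈ T`. Both `m s 0 = s` and `m s' t` are in `O`, so
`s = m s' t` and `a = F s = F (m s' t) < F s' = a` by `Decr` (with (1)), a contradiction. `square`
contradicts `hnd`. About 80 lines.
-/

set_option autoImplicit false

open Set Topology Filter Metric Pool.Agent.HDC

namespace Pool.Agent.HDA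

theorem level_subsingleton {X Y : Type*} [MetricSpace X] [CompactSpace X] [MetricSpace Y]
    [CompactSpace Y] {p : Y → X} {m : Y → ℝ → Y} {κ : ℝ}
    (hnd : ¬ ∃ Y : Set X, Ctm Y ∧ Y.Nontrivial ∧ Indec Y) (hf : FlowAx X Y p m κ) {q : Y}
    {O : Set Y} (hO : IsOpen O) (hOq : O ⊆ ball q (κ / 2)) {F : Y → ℝ}
    (hd : Decr m O F) {T : Set Y} (hT : IsClosed T) (hTc : IsPreconnected T) (hTO : T ⊆ O)
    {a : ℝ} (hTF : ∀ s ∈ T, F s = a) : T.Subsingleton := by
  intro s₀ hs₀ s₁ hs₁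
  by_contra hne
  have hinj : ∀ s ∈ O, ∀ s' ∈ O, p s = p s' → s = s' := by
    intro s hs s' hs' h
    apply hf.p_inj s s' h
    have h1 := mem_ball.1 (hOq hs)
    have h2 := mem_ball.1 (hOq hs')
    have h3 := dist_triangle_right s s' q
    linarith
  have hTcomp : IsCompact T := hT.isCompact
  -- first bound
  have hK1 : IsCompact ((T ×ˢ Icc (0 : ℝ) 1) ∩ (fun w : Y × ℝ => m w.1 w.2) ⁻¹' Oᶜ) := by
    refine (hTcomp.prod isCompact_Icc).of_isClosed_subset ?_ inter_subset_left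
    exact (hf.m_cont.mono (prod_mono (subset_univ _) Subset.rfl)).preimage_isClosed_of_isClosed
      (hT.prod isClosed_Icc) hO.isClosed_compl
  obtain ⟨a1, ha1, hb1⟩ := hK1.exists_forall_le' (f := fun w : Y × ℝ => w.2) (a := 0)
    continuous_snd.continuousOn (by
      rintro ⟨s, u⟩ ⟨⟨hs, hu⟩, hm⟩
      refine lt_of_le_of_ne hu.1 fun h0 => hm ?_
      change m s u ∈ O
      have h0' : (0 : ℝ) = u := h0
      rw [← h0', hf.m_zero]
      exact hTO hs)
  -- second bound
  have hpath : ∀ s : Y, ContinuousOn (fun u : ℝ => p (m s u)) (Icc 0 1) := by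
    intro s
    refine hf.p_cont.comp_continuousOn ?_
    exact hf.m_cont.comp (f := fun u : ℝ => (s, u)) (by fun_prop)
      (fun u hu => ⟨mem_univ _, hu⟩)
  have hK2 : IsCompact ((Icc (0 : ℝ) 1 ×ˢ Icc (0 : ℝ) 1) ∩
      (fun w : ℝ × ℝ => (p (m s₀ w.1), p (m s₁ w.2))) ⁻¹' (diagonal X)) := by
    refine (isCompact_Icc.prod isCompact_Icc).of_isClosed_subset ?_ inter_subset_left
    refine ContinuousOn.preimage_isClosed_of_isClosed ?_ (isClosed_Icc.prod isClosed_Icc)
      isClosed_diagonal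
    refine ContinuousOn.prodMk ?_ ?_
    · exact (hpath s₀).comp continuous_fst.continuousOn (fun w hw => hw.1)
    · exact (hpath s₁).comp continuous_snd.continuousOn (fun w hw => hw.2)
  obtain ⟨a2, ha2, hb2⟩ := hK2.exists_forall_le' (f := fun w : ℝ × ℝ => max w.1 w.2) (a := 0)
    (by fun_prop) (by
      rintro ⟨u, v⟩ ⟨⟨hu, hv⟩, hm⟩
      have hm' : p (m s₀ u) = p (m s₁ v) := hm
      by_contra hle
      push Not at hle
      have hu0 : u = 0 := le_antisymm ((le_max_left _ _).trans hle) hu.1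
      have hv0 : v = 0 := le_antisymm ((le_max_right _ _).trans hle) hv.1
      rw [hu0, hv0, hf.m_zero, hf.m_zero] at hm'
      exact hne (hinj _ (hTO hs₀) _ (hTO hs₁) hm'))
  set t := min (min (a1 / 2) (a2 / 2)) 1 with ht
  have ht0 : 0 < t := by
    rw [ht]
    exact lt_min (lt_min (by linarith) (by linarith)) one_pos
  have ht1 : t ≤ 1 := min_le_right _ _
  have hta1 : t < a1 := by
    have : t ≤ a1 / 2 := (min_le_left _ _).trans (min_le_left _ _)
    linarith
  have hta2 : t < a2 := by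
    have : t ≤ a2 / 2 := (min_le_left _ _).trans (min_le_right _ _)
    linarith
  have hmO : ∀ s ∈ T, ∀ u ∈ Icc (0 : ℝ) t, m s u ∈ O := by
    intro s hs u hu
    by_contra hno
    have := hb1 (s, u) ⟨⟨hs, hu.1, hu.2.trans ht1⟩, hno⟩
    have h2 : a1 ≤ u := this
    linarith [hu.2]
  have hmN : ∀ u ∈ Icc (0 : ℝ) t, ∀ v ∈ Icc (0 : ℝ) t, p (m s₀ u) ≠ p (m s₁ v) := by
    intro u hu v hv h
    have := hb2 (u, v) ⟨⟨⟨hu.1, hu.2.trans ht1⟩, hv.1, hv.2.trans ht1⟩, h⟩
    have h2 : a2 ≤ max u v := this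
    have h3 : max u v ≤ t := max_le hu.2 hv.2
    linarith
  haveI : CompactSpace T := isCompact_iff_compactSpace.1 hTcomp
  haveI : ConnectedSpace T := isConnected_iff_connectedSpace.1 ⟨⟨s₀, hs₀⟩, hTc⟩
  have hut : ∀ u : unitInterval, (u : ℝ) * t ∈ Icc (0 : ℝ) t := by
    intro u
    exact ⟨mul_nonneg u.2.1 ht0.le, mul_le_of_le_one_left ht0.le u.2.2⟩
  have hφ : Continuous fun w : T × unitInterval => p (m (w.1 : Y) ((w.2 : ℝ) * t)) := by
    refine hf.p_cont.comp ?_
    refine hf.m_cont.comp_continuous (f := fun w : T × unitInterval =>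
      (((w.1 : Y), (w.2 : ℝ) * t) : Y × ℝ)) (by fun_prop) ?_
    intro w
    exact ⟨mem_univ _, (hut w.2).1, (hut w.2).2.trans ht1⟩
  apply hnd
  refine square hφ ?_ (p := (⟨s₀, hs₀⟩ : T)) (q := (⟨s₁, hs₁⟩ : T)) ?_
  · intro s s' h
    have h1 : p (m (s : Y) (((0 : unitInterval) : ℝ) * t)) =
        p (m (s' : Y) (((1 : unitInterval) : ℝ) * t)) := h
    rw [Set.Icc.coe_zero, Set.Icc.coe_one, zero_mul, one_mul, hf.m_zero] at h1
    have h2 := hinj _ (hTO s.2) _ (hmO s' s'.2 t ⟨ht0.le, le_rfl⟩) h1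
    have h3 := hd s' t ⟨ht0, ht1⟩ (hmO s' s'.2)
    rw [← h2, hTF s s.2, hTF s' s'.2] at h3
    exact lt_irrefl _ h3
  · intro u v h
    exact hmN _ (hut u) _ (hut v) h

end Pool.Agent.HDA
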