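import Mathlib
import Pool.Agent.HDA.Td

/-!
# HDA module PIECE: small closed open pieces of level sets

PROOF of `exists_piece`. Let `r > 0` with `closedBall w r ⊆ O ∩ U`, and
`K = closedBall w r ∩ {s | F s = F w}`, compact. Every closed preconnected subset of `K` is a
subsingleton (`level_subsingleton`). So in the compact Hausdorff space `↥K` the connected component of
`w` is `{w}` and it is the intersection of the clopen sets containing `w`
(`connectedComponent_eq_iInter_isClopen`); by compactness some clopen `Q ∋ w` lies in the open set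
`ball w r` (or use `exists_split` of HDA/Hex with `D = K`, `A = {w}`, `B = K \ ball w r`: a closed
connected `M ⊆ K` meeting both would have two points; take `C = D₁`). `C`, the image of `Q`, is closed,
`w ∈ C ⊆ ball w r`, and `K \ C` is closed (compact). `V = ball w r \ (K \ C)` is open, `C ⊆ V ⊆ O`, and
for `s ∈ V`: `F s = F w ↔ s ∈ K` (as `s ∈ ball w r`) `↔ s ∈ C`.

PROOF of `piece_subsingleton`: `C ⊆ V ⊆ O` and `F = a` on `C`; `level_subsingleton`.
-/

set_option autoImplicit false

open Set Topology Filter Metric Pool.Agent.HDC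

namespace Pool.Agent.HDA

theorem exists_piece {X Y : Type*} [MetricSpace X] [CompactSpace X] [MetricSpace Y]
    [CompactSpace Y] {p : Y → X} {m : Y → ℝ → Y} {κ : ℝ}
    (hnd : ¬ ∃ Y : Set X, Ctm Y ∧ Y.Nontrivial ∧ Indec Y) (hf : FlowAx X Y p m κ) {q : Y}
    {O : Set Y} (hO : IsOpen O) (hOq : O ⊆ ball q (κ / 2)) {F : Y → ℝ} (hF : Continuous F)
    (hd : Decr m O F) {w : Y} (hw : w ∈ O) {U : Set Y} (hU : U ∈ 𝓝 w) :
    ∃ C : Set Y, Pc O F (F w) C ∧ w ∈ C ∧ C ⊆ U := by
  obtain ⟨r, hr, hball⟩ := (Metric.nhds_basis_closedBall.mem_iff).1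
    (Filter.inter_mem (hO.mem_nhds hw) hU)
  set K : Set Y := closedBall w r ∩ {s | F s = F w} with hK
  have hKc : IsClosed K := isClosed_closedBall.inter (isClosed_eq hF continuous_const)
  have hKO : K ⊆ O := fun s hs => (hball hs.1).1
  have hwb : w ∈ ball w r := mem_ball_self hr
  have hwK : w ∈ K := ⟨ball_subset_closedBall hwb, rfl⟩
  have hBc : IsClosed (K \ ball w r) := hKc.inter isOpen_ball.isClosed_compl
  obtain ⟨D₁, D₂, hD₁, hD₂, hdis, hun, hA, hB⟩ := exists_split hKc.isCompact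
    (isClosed_singleton (x := w)) hBc (by
      intro M hM hMc hMconn hmeet
      obtain ⟨⟨a, haM, ha⟩, ⟨b, hbM, hb⟩⟩ := hmeet
      rw [mem_singleton_iff] at ha
      rw [ha] at haM
      have h1 := level_subsingleton hnd hf hO hOq hd hMc hMconn.isPreconnected (hM.trans hKO)
        (a := F w) (fun s hs => (hM hs).2)
      have h2 : b = w := h1 hbM haM
      apply hb.2
      rw [h2]
      exact hwb)
  have hD₁K : D₁ ⊆ K := by
    rw [← hun]
    exact subset_union_left
  have hCb : D₁ ⊆ ball w r := by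
    intro x hx
    by_contra hxb
    exact Set.disjoint_left.1 hdis hx (hB ⟨hD₁K hx, hD₁K hx, hxb⟩)
  refine ⟨D₁, ⟨hD₁, ball w r \ D₂, isOpen_ball.sdiff hD₂, ?_, ?_, ?_⟩, hA ⟨hwK, rfl⟩, ?_⟩
  · intro x hx
    exact ⟨hCb hx, fun hx2 => Set.disjoint_left.1 hdis hx hx2⟩
  · intro x hx
    exact (hball (ball_subset_closedBall hx.1)).1
  · intro s hs
    constructor
    · intro hFs
      have h1 : s ∈ D₁ ∪ D₂ := by
        rw [hun]
        exact ⟨ball_subset_closedBall hs.1, hFs⟩
      exact h1.resolve_right hs.2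
    · intro hs1
      exact (hD₁K hs1).2
  · intro x hx
    exact (hball (ball_subset_closedBall (hCb hx))).2

theorem piece_subsingleton {X Y : Type*} [MetricSpace X] [CompactSpace X] [MetricSpace Y]
    [CompactSpace Y] {p : Y → X} {m : Y → ℝ → Y} {κ : ℝ}
    (hnd : ¬ ∃ Y : Set X, Ctm Y ∧ Y.Nontrivial ∧ Indec Y) (hf : FlowAx X Y p m κ) {q : Y}
    {O : Set Y} (hO : IsOpen O) (hOq : O ⊆ ball q (κ / 2)) {F : Y → ℝ}
    (hd : Decr m O F) {a : ℝ} {C : Set Y} (hC : Pc O F a C) {T : Set Y} (hT : IsClosed T)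
    (hTc : IsPreconnected T) (hTC : T ⊆ C) : T.Subsingleton := by
  obtain ⟨_, V, _, hCV, hVO, hV⟩ := hC
  exact level_subsingleton hnd hf hO hOq hd hT hTc (fun s hs => hVO (hCV (hTC hs)))
    (fun s hs => (hV s (hCV (hTC hs))).2 (hTC hs))

end Pool.Agent.HDA
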