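import Mathlib
import Pool.Agent.HDA.Cross
import Pool.Agent.HDA.Piece
import Pool.Agent.HDA.Crossing

/-!
# HDA module MINIM: the flow is minimal on a connected space of states

Call `M` minimal if `Inv m M`, `M` nonempty and every nonempty `Inv` subset of `M` is `M`.
PROOF.
1. Every nonempty `Inv` set contains a minimal one (Zorn, `zorn_superset_nonempty`; the intersection
   of a nonempty chain of nonempty closed sets in the compact space `Y` is nonempty, and an
   intersection of `Inv` sets is `Inv`). Two minimal sets with a common point are equal.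
2. If `g` is as in `hf.eff` then `g '' M` is minimal for `M` minimal: for `N ⊆ g '' M` nonempty `Inv`,
   `g.symm '' N ⊆ M` is `Inv` nonempty, so it is `M`.
3. `P = ⋃ {M | M minimal}` is nonempty (1). It is open and its complement is open: if `s ∈ P` and
   `dist s s' < δ` then `s' = g s ∈ P` by 2 (`eff` with `ε = 1`), and if `s ∉ P` and `dist s' s < δ`
   then `s' ∉ P` (otherwise `s = g s' ∈ P`). `Y` is connected: `P = univ`. Let `M s` be the minimal set
   containing `s`.
4. Let `Pc O F a C` be as below with `C` nonempty, `Y_C = {s | (M s ∩ C).Nonempty}`. Nonempty: `c ∈ C`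
   gives `c ∈ Y_C`. CLOSED: let `s_n → s`, `c_n ∈ M s_n ∩ C`; by `eff` (choose `ε_n → 0`) there are `g_n`
   with `Sm g_n ε_n`, `g_n s = s_n` (for a subsequence), so `M s_n = g_n '' M s` and
   `g_n.symm c_n ∈ M s`; `dist (g_n.symm c_n) c_n < ε_n`; a subsequence of `c_n` converges to `c ∈ C`
   (`C` compact), `g_n.symm c_n → c`, so `c ∈ M s`. OPEN: let `c ∈ M s ∩ C` and `δ₁` from `crossing`
   with `ε' = 1`; `δ` from `eff` for `ε = δ₁ / 2`. For `dist s s' < δ` take `g`, `g s = s'`; `c' = g c`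
   lies in `M s' = g '' M s`, `dist c' c < δ₁ / 2`. `closure (rho m c' '' Ici 1)` is `Inv` (`rho_inv`),
   nonempty and contained in `M s'` (`rho_mem`, `M s'` closed), so it equals `M s'` and contains `c'`;
   hence there is `t ≥ 1` with `dist (rho m c' t) c' < δ₁ / 2`, so `dist (rho m c' t) c < δ₁`;
   `crossing` gives `r' ≥ 0` with `rho m c' r' ∈ C`; it is in `M s'` (`rho_mem`). So `s' ∈ Y_C`.
   Since `Y` is connected, `Y_C = univ`: every minimal set meets `C`.
5. Let `s : Y`, `w : Y` and `U` open, `w ∈ U`. `exists_cross` at `q = w` with `ε = κ / 2` gives `O, F`;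
   `exists_piece` gives `C ∋ w`, `C ⊆ U`. By 4, `M s` meets `C ⊆ U`. So `M s` is dense and closed:
   `M s = univ`. The given nonempty `Inv` set `M` contains a minimal set, which is `univ`.
About 180 lines.
-/

set_option autoImplicit false

open Set Topology Filter Metric Pool.Agent.HDC

namespace Pool.Agent.HDA

section

variable {Y : Type*} [MetricSpace Y] {m : Y → ℝ → Y}

/-- minimal invariant sets -/
private def Mnl (m : Y → ℝ → Y) (M : Set Y) : Prop :=
  Inv m M ∧ M.Nonempty ∧ ∀ N, N ⊆ M → Inv m N → N.Nonempty → N = M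

private theorem mi_sInter {c : Set (Set Y)} (hc : ∀ M ∈ c, Inv m M) : Inv m (⋂₀ c) :=
  ⟨isClosed_sInter fun M hM => (hc M hM).1, fun s hs u hu => mem_sInter.2 fun M hM =>
    (hc M hM).2 s (mem_sInter.1 hs M hM) u hu⟩

private theorem mi_exists [CompactSpace Y] {M : Set Y} (hM : Inv m M) (hne : M.Nonempty) :
    ∃ N ⊆ M, Mnl m N := by
  obtain ⟨N, hNM, hN⟩ := zorn_superset_nonempty {N : Set Y | Inv m N ∧ N.Nonempty}
    (fun c hc hch hcn => by
      refine ⟨⋂₀ c, ⟨mi_sInter fun M hM => (hc hM).1, ?_⟩, fun s hs => sInter_subset_of_mem hs⟩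
      have : Nonempty c := hcn.to_subtype
      refine IsCompact.nonempty_sInter_of_directed_nonempty_isCompact_isClosed ?_
        (fun U hU => (hc hU).2) (fun U hU => (hc hU).1.1.isCompact) (fun U hU => (hc hU).1.1)
      intro a ha b hb
      rcases hch.total ha hb with h | h
      · exact ⟨a, ha, Subset.rfl, h⟩
      · exact ⟨b, hb, h, Subset.rfl⟩) M ⟨hM, hne⟩
  refine ⟨N, hNM, hN.prop.1, hN.prop.2, fun K hKN hK hKn => ?_⟩
  exact Subset.antisymm hKN (hN.le_of_le ⟨hK, hKn⟩ hKN)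

private theorem mi_eq {M N : Set Y} (hM : Mnl m M) (hN : Mnl m N) {s : Y} (h1 : s ∈ M)
    (h2 : s ∈ N) : M = N := by
  have h3 : Inv m (M ∩ N) := ⟨hM.1.1.inter hN.1.1, fun x hx u hu =>
    ⟨hM.1.2 x hx.1 u hu, hN.1.2 x hx.2 u hu⟩⟩
  have h4 : (M ∩ N).Nonempty := ⟨s, h1, h2⟩
  rw [← hM.2.2 _ inter_subset_left h3 h4, hN.2.2 _ inter_subset_right h3 h4]

private theorem mi_image {M : Set Y} (hM : Mnl m M) {g : Y ≃ₜ Y}
    (h1 : ∀ M, Inv m M → Inv m (g '' M)) (h2 : ∀ M, Inv m M → Inv m (g.symm '' M)) :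
    Mnl m (g '' M) := by
  refine ⟨h1 M hM.1, hM.2.1.image g, fun N hN hNi hNn => ?_⟩
  have h3 : g.symm '' N ⊆ M := by
    rintro _ ⟨y, hy, rfl⟩
    obtain ⟨x, hx, rfl⟩ := hN hy
    rwa [g.symm_apply_apply]
  have h4 := hM.2.2 _ h3 (h2 N hNi) (hNn.image g.symm)
  rw [← h4, ← image_comp]
  simp

end

theorem inv_eq_univ {X Y : Type*} [MetricSpace X] [CompactSpace X] [MetricSpace Y]
    [CompactSpace Y] [ConnectedSpace Y] {p : Y → X} {m : Y → ℝ → Y} {κ : ℝ}
    (hnd : ¬ ∃ Y : Set X, Ctm Y ∧ Y.Nontrivial ∧ Indec Y) (hf : FlowAx X Y p m κ) {M : Set Y}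
    (hM : Inv m M) (hne : M.Nonempty) : M = univ := by
  -- every state is in a minimal set
  have hP : {s : Y | ∃ N, Mnl m N ∧ s ∈ N} = univ := by
    obtain ⟨δ, hδ, hg⟩ := hf.eff 1 one_pos
    refine IsClopen.eq_univ ⟨?_, ?_⟩ ?_
    · rw [← isOpen_compl_iff, Metric.isOpen_iff]
      intro s hs
      refine ⟨δ, hδ, fun s' hs' hcon => hs ?_⟩
      obtain ⟨N, hN, hsN⟩ := hcon
      obtain ⟨g, -, hgs, h1, h2⟩ := hg s' s hs'
      exact ⟨g '' N, mi_image hN h1 h2, s', hsN, hgs⟩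
    · rw [Metric.isOpen_iff]
      intro s hs
      refine ⟨δ, hδ, fun s' hs' => ?_⟩
      obtain ⟨N, hN, hsN⟩ := hs
      obtain ⟨g, -, hgs, h1, h2⟩ := hg s s' (by rw [dist_comm]; exact hs')
      exact ⟨g '' N, mi_image hN h1 h2, s, hsN, hgs⟩
    · obtain ⟨N, -, hN⟩ := mi_exists hM hne
      obtain ⟨s, hs⟩ := hN.2.1
      exact ⟨s, N, hN, hs⟩
  have hex : ∀ s : Y, ∃ N, Mnl m N ∧ s ∈ N := fun s => by
    have : s ∈ {s : Y | ∃ N, Mnl m N ∧ s ∈ N} := by rw [hP]; trivial
    exact this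
  choose Ms hMs hsM using hex
  have himg : ∀ (s s' : Y) (g : Y ≃ₜ Y), g s = s' → (∀ M, Inv m M → Inv m (g '' M)) →
      (∀ M, Inv m M → Inv m (g.symm '' M)) → Ms s' = g '' Ms s := fun s s' g hgs h1 h2 =>
    mi_eq (hMs s') (mi_image (hMs s) h1 h2) (hsM s') ⟨s, hsM s, hgs⟩
  -- every minimal set meets every piece of a cross section
  have hC : ∀ (O : Set Y) (F : Y → ℝ) (a : ℝ) (C : Set Y), Continuous F → Decr m O F →
      Pc O F a C → C.Nonempty → ∀ s, (Ms s ∩ C).Nonempty := by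
    intro O F a C hF hd hPc hCn
    have h0 : {s : Y | (Ms s ∩ C).Nonempty} = univ := by
      refine IsClopen.eq_univ ⟨?_, ?_⟩ ?_
      · rw [← isOpen_compl_iff, Metric.isOpen_iff]
        intro s hs
        have hdis : Disjoint (Ms s) C := by
          rw [Set.disjoint_iff_inter_eq_empty]
          exact not_nonempty_iff_eq_empty.1 hs
        obtain ⟨ε, hε, hth⟩ := hdis.exists_thickenings (hMs s).1.1.isCompact hPc.1
        obtain ⟨δ, hδ, hg⟩ := hf.eff ε hε
        refine ⟨δ, hδ, fun s' hs' hcon => ?_⟩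
        obtain ⟨g, hgε, hgs, h1, h2⟩ := hg s s' (by rw [dist_comm]; exact hs')
        obtain ⟨c, hc, hcC⟩ := hcon
        rw [himg s s' g hgs h1 h2] at hc
        obtain ⟨x, hx, rfl⟩ := hc
        refine Set.disjoint_left.1 hth ?_ (self_subset_thickening hε C hcC)
        exact mem_thickening_iff.2 ⟨x, hx, hgε x⟩
      · rw [Metric.isOpen_iff]
        rintro s ⟨c, hc, hcC⟩
        obtain ⟨δ₁, hδ₁, hcr⟩ := crossing hf hF hd hPc (ε' := 1) one_pos
        obtain ⟨δ, hδ, hg⟩ := hf.eff (δ₁ / 2) (by linarith)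
        refine ⟨δ, hδ, fun s' hs' => ?_⟩
        obtain ⟨g, hgε, hgs, h1, h2⟩ := hg s s' (by rw [dist_comm]; exact hs')
        have hc' : g c ∈ Ms s' := by
          rw [himg s s' g hgs h1 h2]
          exact ⟨c, hc, rfl⟩
        have hR : closure (rho m (g c) '' Ici 1) = Ms s' := by
          refine (hMs s').2.2 _ ?_ (rho_inv hf (g c) zero_le_one) ?_
          · refine closure_minimal ?_ (hMs s').1.1
            rintro _ ⟨t, ht, rfl⟩
            exact rho_mem hf (hMs s').1 hc' (zero_le_one.trans ht)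
          · exact (Set.Nonempty.image _ ⟨1, mem_Ici.2 le_rfl⟩).closure
        rw [← hR, Metric.mem_closure_iff] at hc'
        obtain ⟨_, ⟨t, ht, rfl⟩, hdt⟩ := hc' (δ₁ / 2) (by linarith)
        have hd2 : dist (rho m (g c) t) c < δ₁ := by
          calc dist (rho m (g c) t) c ≤ dist (rho m (g c) t) (g c) + dist (g c) c :=
                dist_triangle _ _ _
            _ < δ₁ := by
                rw [dist_comm (rho m (g c) t)]
                linarith [hgε c]
        obtain ⟨r', -, -, hr0, hr⟩ := hcr (g c) t ht c hcC hd2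
        refine ⟨rho m (g c) r', rho_mem hf (hMs s').1 ?_ hr0, hr⟩
        rw [himg s s' g hgs h1 h2]
        exact ⟨c, hc, rfl⟩
      · obtain ⟨c, hc⟩ := hCn
        exact ⟨c, c, hsM c, hc⟩
    intro s
    have : s ∈ {s : Y | (Ms s ∩ C).Nonempty} := by rw [h0]; trivial
    exact this
  obtain ⟨N, hNM, hN⟩ := mi_exists hM hne
  obtain ⟨s, hs⟩ := hN.2.1
  have hNs : Ms s = N := mi_eq (hMs s) hN (hsM s) hs
  rw [← univ_subset_iff]
  refine Subset.trans ?_ hNM
  intro w _
  rw [← hN.1.1.closure_eq, mem_closure_iff_nhds]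
  intro U hU
  obtain ⟨O, F, hO, hwO, hOb, hF, hd⟩ := exists_cross hf w (ε := κ / 2) (by linarith [hf.κ_pos])
  obtain ⟨C, hPc, hwC, hCU⟩ := exists_piece hnd hf hO hOb hF hd hwO hU
  obtain ⟨x, hx1, hx2⟩ := hC O F _ C hF hd hPc ⟨w, hwC⟩ s
  exact ⟨x, hCU hx2, hNs ▸ hx1⟩

end Pool.Agent.HDA
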