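import Mathlib
import Pool.Agent.HDA.Minim
import Pool.Agent.HDA.Hit

/-!
# HDA module FINALW: a path component with nonempty interior

PROOF. `p` is surjective: its range is open (`p_open`), compact, nonempty, and `X` is connected.
`X` (as the set `univ`) is a nondegenerate continuum, so by `hnd` it is not indecomposable: there are
`W, W'` with `Ctm W`, `Ctm W'`, `W ∪ W' = univ`, `W ≠ univ`, `W' ≠ univ`. `W ⊇ W'ᶜ`, nonempty open, so
`W` has nonempty interior. Let `q : Y` with `p q ∉ W`. `p ⁻¹' Wᶜ` is an open neighbourhood of `q`; let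
`ε ≤ κ / 2` with `ball q ε ⊆ p ⁻¹' Wᶜ`; `exists_cross` gives `O, F`; `exists_piece` at `w = q`, `U = O`
gives `C ∋ q`, `C ⊆ O`, `Pc O F (F q) C`. `exists_hit` (with `inv_eq_univ`) gives `τ`. Let
`S = p ⁻¹' W`, compact and disjoint from `C` (`C ⊆ O ⊆ p ⁻¹' Wᶜ`), `l s = rho m s (τ s) ∈ C`, continuous
on `S` (`rho_cont`).
`C` is compact and its closed connected subsets are points (`piece_subsingleton`), so `↥C` is a
totally disconnected compact Hausdorff space: the clopen subsets of `↥C` containing a point `w₀` have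
intersection `{w₀}`.
CLAIM: for `C' ⊆ C`, `C'` and `C \ C'` closed, `S' = {s ∈ S | l s ∈ C'}`: `p '' S' = ∅` or `W ⊆ p '' S'`.
`S'` and `S \ S'` are closed in `Y` (continuity of `l` on the closed set `S`), so `p '' S'` is compact.
`G = Y \ (S \ S')` is open and `G ∩ S = S'`, so `p '' S' = p '' G ∩ W` (as `S = p ⁻¹' W`) is relatively
open in `W`. `W` is connected: the closed sets `p '' S'` and `W \ p '' G` cover `W` and are disjoint.
Fix `x₁ ∈ W`, `s₁` with `p s₁ = x₁`, `w₀ = l s₁ ∈ C`. Let `x ∈ W`. For every clopen `C' ∋ w₀` of `C` the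
set `p '' S'` contains `x₁`, so it contains `x`: the closed set `{s | p s = x ∧ l s ∈ C'}` (compact) is
nonempty; these sets are directed (intersections of clopen sets), so by compactness
(`IsCompact.nonempty_iInter_of_directed_nonempty_isCompact_isClosed`) there is `s` with `p s = x` and
`l s ∈ ⋂ C' = {w₀}`. So `Joined x (p w₀)` (`rho_joined`), i.e. `W ⊆ pathComponent (p w₀)`. About 170
lines.
-/

set_option autoImplicit false

open Set Topology Filter Metric Pool.Agent.HDC

namespace Pool.Agent.HDA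

theorem exists_interior {X Y : Type*} [MetricSpace X] [CompactSpace X] [ConnectedSpace X]
    [Nontrivial X] [MetricSpace Y] [CompactSpace Y] [ConnectedSpace Y] {p : Y → X}
    {m : Y → ℝ → Y} {κ : ℝ} (hnd : ¬ ∃ Y : Set X, Ctm Y ∧ Y.Nontrivial ∧ Indec Y)
    (hf : FlowAx X Y p m κ) : ∃ x : X, (interior (pathComponent x)).Nonempty := by
  classical
  have hsurj : Function.Surjective p := by
    have h1 : IsClopen (range p) := ⟨(isCompact_range hf.p_cont).isClosed, hf.p_open.isOpen_range⟩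
    have h2 : (range p).Nonempty := range_nonempty p
    exact range_eq_univ.1 (h1.eq_univ h2)
  have hind : ¬ Indec (univ : Set X) := fun h =>
    hnd ⟨univ, ⟨isClosed_univ, isConnected_univ⟩, nontrivial_univ, h⟩
  unfold Indec at hind
  push Not at hind
  obtain ⟨W, W', hW, hW', hWW, hWn, hWn'⟩ := hind
  -- a point outside of `W`
  obtain ⟨x₀, hx₀⟩ : ∃ x, x ∉ W := by
    by_contra h
    push Not at h
    exact hWn (eq_univ_of_forall h)
  obtain ⟨q, rfl⟩ := hsurj x₀
  have hopen : IsOpen (p ⁻¹' Wᶜ) := hW.1.isOpen_compl.preimage hf.p_cont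
  obtain ⟨ε₀, hε₀, hball⟩ := Metric.isOpen_iff.1 hopen q hx₀
  have hκ := hf.κ_pos
  obtain ⟨O, F, hO, hqO, hOb, hF, hd⟩ :=
    exists_cross hf q (ε := min ε₀ (κ / 2)) (lt_min hε₀ (by positivity))
  have hOκ : O ⊆ ball q (κ / 2) := hOb.trans (ball_subset_ball (min_le_right _ _))
  have hOW : O ⊆ p ⁻¹' Wᶜ := (hOb.trans (ball_subset_ball (min_le_left _ _))).trans hball
  obtain ⟨C, hC, hqC, hCO⟩ := exists_piece hnd hf hO hOκ hF hd hqO (hO.mem_nhds hqO)
  obtain ⟨τ, hτ0, hτC, hτc⟩ := exists_hit hf (fun M hM hne => inv_eq_univ hnd hf hM hne) hF hd hC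
    ⟨q, hqC⟩
  set l : Y → Y := fun s => rho m s (τ s) with hl
  set S : Set Y := p ⁻¹' W with hS
  have hSc : IsClosed S := hW.1.preimage hf.p_cont
  have hSC : S ⊆ Cᶜ := fun s hs hsC => hOW (hCO hsC) hs
  have hlc : ContinuousOn l S := by
    have h1 : ContinuousOn (fun s : Y => ((s, τ s) : Y × ℝ)) S :=
      continuousOn_id.prodMk (hτc.mono hSC)
    exact (rho_cont hf).comp h1 fun s _ => ⟨mem_univ _, hτ0 s⟩
  have hlC : ∀ s, l s ∈ C := hτC
  have hCcl : IsClosed C := hC.1
  have hCtd : IsTotallyDisconnected C := by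
    intro t ht htc
    have h1 : closure t ⊆ C := closure_minimal ht hCcl
    exact (piece_subsingleton hnd hf hO hOκ hd hC isClosed_closure htc.closure h1).anti
      subset_closure
  have : CompactSpace C := isCompact_iff_compactSpace.1 hCcl.isCompact
  have : TotallyDisconnectedSpace C := totallyDisconnectedSpace_subtype_iff.2 hCtd
  -- the claim
  have claim : ∀ C' C'' : Set Y, IsClosed C' → IsClosed C'' → C' ∪ C'' = C → Disjoint C' C'' →
      ∀ x₁ ∈ W, ∀ s₁, p s₁ = x₁ → l s₁ ∈ C' → ∀ x ∈ W, ∃ s, p s = x ∧ l s ∈ C' := by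
    intro C' C'' h1 h2 h3 h4 x₁ hx₁ s₁ hs₁ hls x hx
    set S' : Set Y := S ∩ l ⁻¹' C' with hS'
    set S'' : Set Y := S ∩ l ⁻¹' C'' with hS''
    have k1 : IsClosed S' := hlc.preimage_isClosed_of_isClosed hSc h1
    have k2 : IsClosed S'' := hlc.preimage_isClosed_of_isClosed hSc h2
    have k3 : IsClosed (p '' S') := (k1.isCompact.image hf.p_cont).isClosed
    have k4 : IsOpen (p '' S''ᶜ) := hf.p_open _ k2.isOpen_compl
    have k5 : S''ᶜ ∩ p ⁻¹' W = S' := by
      ext s
      constructor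
      · rintro ⟨a, b⟩
        refine ⟨b, ?_⟩
        have h5 : l s ∈ C' ∪ C'' := h3 ▸ hlC s
        rcases h5 with h5 | h5
        · exact h5
        · exact absurd ⟨b, h5⟩ a
      · rintro ⟨a, b⟩
        exact ⟨fun h5 => disjoint_left.1 h4 b h5.2, a⟩
    have k6 : p '' S''ᶜ ∩ W = p '' S' := by
      rw [← image_inter_preimage, k5]
    have k7 := isPreconnected_closed_iff.1 hW.2.isPreconnected (p '' S') (p '' S''ᶜ)ᶜ k3
      k4.isClosed_compl (by
        intro y hy
        by_cases h5 : y ∈ p '' S''ᶜ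
        · left
          rw [← k6]
          exact ⟨h5, hy⟩
        · exact Or.inr h5)
      ⟨x₁, hx₁, s₁, ⟨by rw [hS, mem_preimage, hs₁]; exact hx₁, hls⟩, hs₁⟩
    have k8 : x ∈ p '' S' := by
      by_contra h5
      have h6 : x ∈ (p '' S''ᶜ)ᶜ := by
        intro h7
        exact h5 (k6 ▸ ⟨h7, hx⟩)
      obtain ⟨y, -, hy1, hy2⟩ := k7 ⟨x, hx, h6⟩
      rw [← k6] at hy1
      exact hy2 hy1.1
    obtain ⟨s, hs, hsx⟩ := k8
    exact ⟨s, hsx, hs.2⟩
  obtain ⟨x₁, hx₁⟩ := hW.2.nonempty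
  obtain ⟨s₁, hs₁⟩ := hsurj x₁
  set w₀ : Y := l s₁ with hw₀
  -- every point of `W` is joined to `p w₀`
  have hjoin : W ⊆ pathComponent (p w₀) := by
    intro x hx
    have hKc : IsCompact (p ⁻¹' {x}) := (isClosed_singleton.preimage hf.p_cont).isCompact
    have hKS : p ⁻¹' {x} ⊆ S := by
      intro s hs
      have : p s = x := hs
      rw [hS, mem_preimage, this]
      exact hx
    have hlK : IsCompact (l '' (p ⁻¹' {x})) := hKc.image_of_continuousOn (hlc.mono hKS)
    have hmem : w₀ ∈ l '' (p ⁻¹' {x}) := by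
      by_contra hnot
      have hU : IsOpen ((Subtype.val : C → Y) ⁻¹' (l '' (p ⁻¹' {x}))ᶜ) :=
        hlK.isClosed.isOpen_compl.preimage continuous_subtype_val
      obtain ⟨V, hV, hwV, hVU⟩ := compact_exists_isClopen_in_isOpen hU
        (show (⟨w₀, hlC s₁⟩ : C) ∈ (Subtype.val : C → Y) ⁻¹' (l '' (p ⁻¹' {x}))ᶜ from hnot)
      have c1 : IsClosed ((Subtype.val : C → Y) '' V) :=
        hCcl.isClosedEmbedding_subtypeVal.isClosedMap _ hV.1
      have c2 : IsClosed ((Subtype.val : C → Y) '' Vᶜ) :=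
        hCcl.isClosedEmbedding_subtypeVal.isClosedMap _ hV.compl.1
      have c3 : (Subtype.val : C → Y) '' V ∪ (Subtype.val : C → Y) '' Vᶜ = C := by
        rw [← image_union, union_compl_self, image_univ, Subtype.range_coe]
      have c4 : Disjoint ((Subtype.val : C → Y) '' V) ((Subtype.val : C → Y) '' Vᶜ) :=
        (disjoint_image_iff Subtype.val_injective).2 disjoint_compl_right
      obtain ⟨s, hs, hls⟩ := claim _ _ c1 c2 c3 c4 x₁ hx₁ s₁ hs₁ ⟨⟨w₀, hlC s₁⟩, hwV, rfl⟩ x hx
      obtain ⟨y, hy, hyl⟩ := hls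
      have h5 := hVU hy
      apply h5
      rw [hyl]
      exact ⟨s, hs, rfl⟩
    obtain ⟨s, hs, hsw⟩ := hmem
    have h1 := rho_joined hf s (hτ0 s)
    have h2 : p s = x := hs
    rw [h2] at h1
    change Joined (p w₀) x
    rw [← hsw]
    exact h1.symm
  refine ⟨p w₀, ?_⟩
  obtain ⟨y, hy⟩ : ∃ y, y ∉ W' := by
    by_contra h
    push Not at h
    exact hWn' (eq_univ_of_forall h)
  have h1 : W'ᶜ ⊆ pathComponent (p w₀) := by
    intro z hz
    refine hjoin ?_
    have : z ∈ W ∪ W' := hWW ▸ mem_univ z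
    rcases this with h | h
    · exact h
    · exact absurd h hz
  exact ⟨y, mem_interior.2 ⟨W'ᶜ, h1, hW'.1.isOpen_compl, hy⟩⟩

end Pool.Agent.HDA
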