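import Mathlib
import Pool.Agent.Helper43.Arc

/-!
# HDA module REPARAM: arcs inside an arc

PROOF of `reparam`. `f` is injective and continuous on the compact set `Icc 0 1`, so it restricts to a
homeomorphism onto its image (`Continuous.isClosedEmbedding`-type lemma for the subtype
`↥(Icc 0 1)`, or: preimages of closed sets under the inverse are images of compact sets). Let
`θ r ∈ Icc 0 1` with `f (θ r) = g r` for `r ∈ Icc a b` (choice, unique by injectivity). `θ` is continuous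
and injective on `Icc a b`. If `a = b` everything is trivial; otherwise `θ` is strictly monotone or
strictly antitone on the interval (`ContinuousOn.strictMonoOn_of_injOn_Icc'` or
`Continuous.strictMono_of_inj`-type lemma), and since `θ a = 0` is the minimum of `Icc 0 1` it is strictly
monotone. `θ '' Icc r r' = Icc (θ r) (θ r')` (intermediate value theorem and monotonicity), so
`g '' Icc r r' = f '' Icc (θ r) (θ r')`.

PROOF of `arc_in_arc`. Let `g` parametrise `A`, `g 0 = F u`, `g 1 = F v`. As above `θ = F⁻¹ ∘ g` is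
continuous and injective on `Icc 0 1`, `θ 0 = u < v = θ 1`, so it is strictly monotone and
`θ '' Icc 0 1 = Icc u v`. About 90 lines.
-/

set_option autoImplicit false

open Set Topology Filter Pool.Agent.Helper43

namespace Pool.Agent.HDA

private theorem inv_cont {X : Type*} [TopologicalSpace X] [T2Space X] {f : ℝ → X} {S : Set ℝ}
    (hS : IsCompact S) (hf : ContinuousOn f S) (hi : InjOn f S) :
    ContinuousOn (Function.invFunOn f S) (f '' S) := by
  rw [continuousOn_iff_isClosed]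
  intro t ht
  refine ⟨f '' (S ∩ t), ((hS.inter_right ht).image_of_continuousOn
    (hf.mono inter_subset_left)).isClosed, ?_⟩
  ext x
  constructor
  · rintro ⟨h1, h2⟩
    have h3 : Function.invFunOn f S x ∈ S := Function.invFunOn_mem h2
    have h4 : f (Function.invFunOn f S x) = x := Function.invFunOn_eq h2
    exact ⟨⟨_, ⟨h3, h1⟩, h4⟩, h2⟩
  · rintro ⟨⟨s, ⟨hs, hst⟩, rfl⟩, h2⟩
    have h5 : Function.invFunOn f S (f s) = s := hi.leftInvOn_invFunOn hs
    refine ⟨?_, h2⟩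
    show Function.invFunOn f S (f s) ∈ t
    rwa [h5]

private theorem lift_path {X : Type*} [TopologicalSpace X] [T2Space X] {f g : ℝ → X}
    (hf : ContinuousOn f (Icc 0 1)) (hfi : InjOn f (Icc 0 1)) {a b : ℝ}
    (hg : ContinuousOn g (Icc a b)) (hgi : InjOn g (Icc a b)) (hsub : g '' Icc a b ⊆ f '' Icc 0 1) :
    ∃ θ : ℝ → ℝ, ContinuousOn θ (Icc a b) ∧ InjOn θ (Icc a b) ∧ MapsTo θ (Icc a b) (Icc 0 1) ∧
      ∀ r ∈ Icc a b, g r = f (θ r) := by
  have hm : ∀ r ∈ Icc a b, g r ∈ f '' Icc 0 1 := fun r hr => hsub (mem_image_of_mem _ hr)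
  have he : ∀ r ∈ Icc a b, g r = f (Function.invFunOn f (Icc 0 1) (g r)) := fun r hr =>
    (Function.invFunOn_eq (hm r hr)).symm
  refine ⟨fun r => Function.invFunOn f (Icc 0 1) (g r), ?_, ?_, ?_, he⟩
  · exact (inv_cont isCompact_Icc hf hfi).comp hg hm
  · intro r hr r' hr' h
    refine hgi hr hr' ?_
    rw [he r hr, he r' hr']
    exact congrArg f h
  · intro r hr
    exact Function.invFunOn_mem (hm r hr)

private theorem img_mono {θ : ℝ → ℝ} {a b r r' : ℝ} (hc : ContinuousOn θ (Icc a b))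
    (hm : StrictMonoOn θ (Icc a b)) (h1 : a ≤ r) (h2 : r ≤ r') (h3 : r' ≤ b) :
    θ '' Icc r r' = Icc (θ r) (θ r') := by
  have hs : Icc r r' ⊆ Icc a b := Icc_subset_Icc h1 h3
  apply Subset.antisymm
  · rintro _ ⟨s, hs', rfl⟩
    exact ⟨hm.monotoneOn (hs ⟨le_rfl, h2⟩) (hs hs') hs'.1,
      hm.monotoneOn (hs hs') (hs ⟨h2, le_rfl⟩) hs'.2⟩
  · exact intermediate_value_Icc h2 (hc.mono hs)

theorem reparam {X : Type*} [TopologicalSpace X] [T2Space X] {f g : ℝ → X}
    (hf : ContinuousOn f (Icc 0 1)) (hfi : InjOn f (Icc 0 1)) {a b : ℝ} (hab : a ≤ b)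
    (hg : ContinuousOn g (Icc a b)) (hgi : InjOn g (Icc a b)) (hsub : g '' Icc a b ⊆ f '' Icc 0 1)
    (h0 : g a = f 0) :
    ∃ θ : ℝ → ℝ, ContinuousOn θ (Icc a b) ∧ StrictMonoOn θ (Icc a b) ∧ θ a = 0 ∧
      MapsTo θ (Icc a b) (Icc 0 1) ∧ (∀ r ∈ Icc a b, g r = f (θ r)) ∧
      ∀ r r', a ≤ r → r ≤ r' → r' ≤ b → g '' Icc r r' = f '' Icc (θ r) (θ r') := by
  obtain ⟨θ, h1, h2, h3, h4⟩ := lift_path hf hfi hg hgi hsub
  have ha : a ∈ Icc a b := ⟨le_rfl, hab⟩
  have hb : b ∈ Icc a b := ⟨hab, le_rfl⟩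
  have hθa : θ a = 0 := hfi (h3 ha) ⟨le_rfl, zero_le_one⟩ (by rw [← h4 a ha, h0])
  have hm : StrictMonoOn θ (Icc a b) := by
    rcases hab.eq_or_lt with h | h
    · subst h
      intro x hx y hy hxy
      rw [Icc_self, mem_singleton_iff] at hx hy
      rw [hx, hy] at hxy
      exact absurd hxy (lt_irrefl _)
    · rcases h1.strictMonoOn_of_injOn_Icc' hab h2 with h5 | h5
      · exact h5
      · have h6 := h5 ha hb h
        rw [hθa] at h6
        exact absurd (h3 hb).1 (not_le.2 h6)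
  refine ⟨θ, h1, hm, hθa, h3, h4, ?_⟩
  intro r r' hr hrr hr'
  rw [← img_mono h1 hm hr hrr hr', image_image]
  exact image_congr fun s hs => h4 s ⟨hr.trans hs.1, hs.2.trans hr'⟩

theorem arc_in_arc {X : Type*} [TopologicalSpace X] [T2Space X] {F : ℝ → X}
    (hF : ContinuousOn F (Icc 0 1)) (hi : InjOn F (Icc 0 1)) {A : Set X} {u v : ℝ} (hu : 0 ≤ u)
    (huv : u < v) (hv : v ≤ 1) (hA : IsArc A (F u) (F v)) (hAF : A ⊆ F '' Icc 0 1) :
    A = F '' Icc u v := by
  obtain ⟨g, hg, hgi, hg0, hg1, rfl⟩ := hA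
  obtain ⟨θ, h1, h2, h3, h4⟩ := lift_path hF hi hg hgi hAF
  have i0 : (0 : ℝ) ∈ Icc (0 : ℝ) 1 := ⟨le_rfl, zero_le_one⟩
  have i1 : (1 : ℝ) ∈ Icc (0 : ℝ) 1 := ⟨zero_le_one, le_rfl⟩
  have e0 : θ 0 = u := hi (h3 i0) ⟨hu, huv.le.trans hv⟩ (by rw [← h4 0 i0, hg0])
  have e1 : θ 1 = v := hi (h3 i1) ⟨hu.trans huv.le, hv⟩ (by rw [← h4 1 i1, hg1])
  have hm : StrictMonoOn θ (Icc 0 1) := by
    rcases h1.strictMonoOn_of_injOn_Icc' zero_le_one h2 with h5 | h5
    · exact h5
    · have h6 := h5 i0 i1 zero_lt_one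
      rw [e0, e1] at h6
      exact absurd huv (not_lt.2 h6.le)
  have h7 := img_mono h1 hm le_rfl zero_le_one le_rfl
  rw [e0, e1] at h7
  rw [← h7, image_image]
  exact image_congr fun s hs => h4 s hs

end Pool.Agent.HDA
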