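import Mathlib
import Pool.Agent.HDA.Defs

/-!
# HDA module WHIT: the size function `wm`

Write `d n = denseSeq X n`, `φ n y = dist (d n) y` (1-Lipschitz), `D = diam (univ : Set X)`.
`diam (φ n '' A) ≤ diam A ≤ D` (all sets are bounded), so the series defining `wm` is summable
(comparison with `(1/2)^n * D`, `summable_geometric_two`, `tsum_geometric_two`).
* `wm_nonneg`, `wm_singleton`, `wm_mono` (`diam_mono` of bounded sets, `Summable.tsum_le_tsum`).
* `wm_union_le`: `diam_union` in `ℝ` for two sets with a common point, termwise.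
* `wm_le_diam`: termwise `≤ (1/2)^n * diam A`, sum `2`.
* `wm_close`: termwise the diameters of `φ n '' (g₁ '' Z)` and `φ n '' (g₂ '' Z)` differ by at most
  `2 δ` (`diam_le_of_forall_dist_le`, `dist_le_diam_of_mem`; `Z` empty: both are `0`).
* `wm_strict`: let `b ∈ B \ A`, `r = infDist b A > 0`, `n` with `dist (d n) b < r / 4`. On the compact set
  `A`, `φ n` has a minimum `α ≥ 3 r / 4` and a maximum `β`; `diam (φ n '' A) ≤ β - α`, while
  `φ n '' B` contains `β` and `φ n b < r / 4`, so `diam (φ n '' B) ≥ β - r / 4 > β - α`. The other terms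
  are monotone (`Summable.tsum_lt_tsum`).
* `diam_lt_of_wm`: the balls `ball (d n) (ε / 8)` cover the compact space, finitely many, `n < N`,
  suffice. Let `δ = (1/2)^N * (ε / 4)`. If `wm A < δ` and `a, b ∈ A`, choose `n < N` with
  `dist (d n) a < ε / 8`; `(1/2)^n * |φ n a - φ n b| ≤ wm A < δ`, so `|φ n a - φ n b| < ε / 4` and
  `dist a b ≤ φ n a + φ n b < ε / 8 + ε / 8 + ε / 4 = ε / 2`. So `diam A ≤ ε / 2 < ε`.
About 160 lines.
-/

set_option autoImplicit false

open Set Topology Filter Metric Pool.Agent.HDC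

namespace Pool.Agent.HDA

variable {X : Type*} [MetricSpace X] [CompactSpace X] [Nonempty X]
  [TopologicalSpace.SeparableSpace X]

/-- the coordinate functions are nonexpansive -/
theorem ph_lip (d : X) (x y : X) : |dist d x - dist d y| ≤ dist x y := by
  rw [abs_le]
  have h1 := dist_triangle d y x
  have h2 := dist_triangle d x y
  rw [dist_comm y x] at h1
  constructor <;> linarith

theorem bdd_img (d : X) (A : Set X) : Bornology.IsBounded ((fun y => dist d y) '' A) := by
  have h : Continuous (fun y : X => dist d y) := continuous_const.dist continuous_id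
  exact (isCompact_univ.image h).isBounded.subset (image_mono (subset_univ A))

theorem bdd_any (A : Set X) : Bornology.IsBounded A :=
  isCompact_univ.isBounded.subset (subset_univ A)

theorem diam_img_le (d : X) (A : Set X) : diam ((fun y => dist d y) '' A) ≤ diam A := by
  refine diam_le_of_forall_dist_le diam_nonneg ?_
  rintro _ ⟨x, hx, rfl⟩ _ ⟨y, hy, rfl⟩
  rw [Real.dist_eq]
  exact (ph_lip d x y).trans (dist_le_diam_of_mem (bdd_any A) hx hy)

theorem term_nonneg (n : ℕ) (A : Set X) :
    0 ≤ (1 / 2 : ℝ) ^ n * diam ((fun y => dist (TopologicalSpace.denseSeq X n) y) '' A) :=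
  mul_nonneg (by positivity) diam_nonneg

theorem wm_summable (A : Set X) : Summable (fun n : ℕ =>
    (1 / 2 : ℝ) ^ n * diam ((fun y => dist (TopologicalSpace.denseSeq X n) y) '' A)) := by
  refine Summable.of_nonneg_of_le (fun n => term_nonneg n A)
    (fun n => mul_le_mul_of_nonneg_left (diam_img_le _ A) (by positivity))
    (summable_geometric_two.mul_right (diam A))

theorem wm_term_le (n : ℕ) (A : Set X) :
    (1 / 2 : ℝ) ^ n * diam ((fun y => dist (TopologicalSpace.denseSeq X n) y) '' A) ≤ wm A :=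
  (wm_summable A).le_tsum n (fun m _ => term_nonneg m A)

theorem wm_nonneg (A : Set X) : 0 ≤ wm A := by
  exact tsum_nonneg (fun n => term_nonneg n A)

theorem wm_singleton (x : X) : wm ({x} : Set X) = 0 := by
  unfold wm
  simp

theorem term_mono (n : ℕ) {A B : Set X} (h : A ⊆ B) :
    (1 / 2 : ℝ) ^ n * diam ((fun y => dist (TopologicalSpace.denseSeq X n) y) '' A) ≤
    (1 / 2 : ℝ) ^ n * diam ((fun y => dist (TopologicalSpace.denseSeq X n) y) '' B) :=
  mul_le_mul_of_nonneg_left (diam_mono (image_mono h) (bdd_img _ B)) (by positivity)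

theorem wm_mono {A B : Set X} (h : A ⊆ B) : wm A ≤ wm B := by
  exact (wm_summable A).tsum_le_tsum (fun n => term_mono n h) (wm_summable B)

theorem wm_union_le {A B : Set X} (h : (A ∩ B).Nonempty) : wm (A ∪ B) ≤ wm A + wm B := by
  obtain ⟨x, hxA, hxB⟩ := h
  unfold wm
  rw [← (wm_summable A).tsum_add (wm_summable B)]
  refine (wm_summable (A ∪ B)).tsum_le_tsum (fun n => ?_) ((wm_summable A).add (wm_summable B))
  rw [← mul_add]
  refine mul_le_mul_of_nonneg_left ?_ (by positivity)
  rw [image_union]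
  refine diam_union' ⟨_, mem_image_of_mem _ hxA, mem_image_of_mem _ hxB⟩

theorem wm_le_diam (A : Set X) : wm A ≤ 2 * diam A := by
  have h : wm A ≤ ∑' n : ℕ, (1 / 2 : ℝ) ^ n * diam A :=
    (wm_summable A).tsum_le_tsum
      (fun n => mul_le_mul_of_nonneg_left (diam_img_le _ A) (by positivity))
      (summable_geometric_two.mul_right (diam A))
  rw [tsum_mul_right, tsum_geometric_two] at h
  exact h

theorem wm_close {ι : Type*} {g₁ g₂ : ι → X} {δ : ℝ} (hδ : 0 ≤ δ) {Z : Set ι}
    (h : ∀ z ∈ Z, dist (g₁ z) (g₂ z) ≤ δ) : |wm (g₁ '' Z) - wm (g₂ '' Z)| ≤ 4 * δ := by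
  have key : ∀ k₁ k₂ : ι → X, (∀ z ∈ Z, dist (k₁ z) (k₂ z) ≤ δ) →
      wm (k₁ '' Z) ≤ wm (k₂ '' Z) + 4 * δ := by
    intro k₁ k₂ hk
    have hs : Summable (fun n : ℕ => (1 / 2 : ℝ) ^ n * (2 * δ)) :=
      summable_geometric_two.mul_right (2 * δ)
    have h1 : wm (k₁ '' Z) ≤ ∑' n : ℕ, ((1 / 2 : ℝ) ^ n *
        diam ((fun y => dist (TopologicalSpace.denseSeq X n) y) '' (k₂ '' Z)) +
        (1 / 2 : ℝ) ^ n * (2 * δ)) := by
      refine (wm_summable (k₁ '' Z)).tsum_le_tsum (fun n => ?_) ((wm_summable (k₂ '' Z)).add hs)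
      rw [← mul_add]
      refine mul_le_mul_of_nonneg_left ?_ (by positivity)
      refine diam_le_of_forall_dist_le (by positivity) ?_
      rintro _ ⟨_, ⟨z, hz, rfl⟩, rfl⟩ _ ⟨_, ⟨w, hw, rfl⟩, rfl⟩
      have h2 := ph_lip (TopologicalSpace.denseSeq X n) (k₁ z) (k₂ z)
      have h3 := ph_lip (TopologicalSpace.denseSeq X n) (k₁ w) (k₂ w)
      have h4 : dist (dist (TopologicalSpace.denseSeq X n) (k₂ z))
          (dist (TopologicalSpace.denseSeq X n) (k₂ w)) ≤
          diam ((fun y => dist (TopologicalSpace.denseSeq X n) y) '' (k₂ '' Z)) :=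
        dist_le_diam_of_mem (bdd_img _ _) (mem_image_of_mem _ (mem_image_of_mem _ hz))
          (mem_image_of_mem _ (mem_image_of_mem _ hw))
      have h5 := hk z hz
      have h6 := hk w hw
      rw [Real.dist_eq, abs_le] at h4
      rw [abs_le] at h2 h3
      simp only []
      rw [Real.dist_eq, abs_le]
      constructor <;> linarith [h2.1, h2.2, h3.1, h3.2, h4.1, h4.2]
    rw [(wm_summable (k₂ '' Z)).tsum_add hs, tsum_mul_right, tsum_geometric_two] at h1
    have h7 : wm (k₂ '' Z) = ∑' n : ℕ, (1 / 2 : ℝ) ^ n *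
        diam ((fun y => dist (TopologicalSpace.denseSeq X n) y) '' (k₂ '' Z)) := rfl
    rw [h7]
    linarith
  rw [abs_le]
  have h1 := key g₁ g₂ h
  have h2 := key g₂ g₁ (fun z hz => by rw [dist_comm]; exact h z hz)
  constructor <;> linarith

/-- the form used for small homeomorphisms -/
theorem wm_image_close {h : X ≃ₜ X} {δ : ℝ} (hh : Sm h δ) (A : Set X) :
    |wm (h '' A) - wm A| ≤ 4 * δ := by
  have hpos : 0 ≤ δ := by
    obtain ⟨x⟩ := ‹Nonempty X›
    exact dist_nonneg.trans (hh x).le
  have h1 := wm_close (g₁ := h) (g₂ := id) hpos (Z := A) (fun z _ => (hh z).le)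
  rwa [image_id] at h1

theorem wm_strict {A B : Set X} (hA : IsClosed A) (hne : A.Nonempty) (hAB : A ⊂ B) :
    wm A < wm B := by
  obtain ⟨hsub, b, hbB, hbA⟩ := (ssubset_iff_exists.1 hAB)
  have hr : 0 < infDist b A := (hA.notMem_iff_infDist_pos hne).1 hbA
  obtain ⟨n, hn⟩ : ∃ n, dist (TopologicalSpace.denseSeq X n) b < infDist b A / 4 := by
    have h1 := TopologicalSpace.denseRange_denseSeq X
    obtain ⟨n, hn⟩ := h1.exists_dist_lt b (by positivity : 0 < infDist b A / 4)
    exact ⟨n, by rw [dist_comm]; exact hn⟩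
  have hAc : IsCompact A := hA.isCompact
  have hcont : Continuous (fun y => dist (TopologicalSpace.denseSeq X n) y) :=
    continuous_const.dist continuous_id
  obtain ⟨p, hpA, hp⟩ := hAc.exists_isMinOn hne hcont.continuousOn
  obtain ⟨q, hqA, hq⟩ := hAc.exists_isMaxOn hne hcont.continuousOn
  have hpb : infDist b A ≤ dist b p := infDist_le_dist_of_mem hpA
  have h2 : dist b p ≤ dist (TopologicalSpace.denseSeq X n) b +
      dist (TopologicalSpace.denseSeq X n) p := by
    exact dist_triangle_left b p (TopologicalSpace.denseSeq X n)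
  have h3 : diam ((fun y => dist (TopologicalSpace.denseSeq X n) y) '' A) ≤
      dist (TopologicalSpace.denseSeq X n) q - dist (TopologicalSpace.denseSeq X n) p := by
    refine diam_le_of_forall_dist_le (sub_nonneg.2 (hp hqA)) ?_
    rintro _ ⟨x, hx, rfl⟩ _ ⟨y, hy, rfl⟩
    have h4 : dist (TopologicalSpace.denseSeq X n) p ≤ dist (TopologicalSpace.denseSeq X n) x :=
      hp hx
    have h5 : dist (TopologicalSpace.denseSeq X n) p ≤ dist (TopologicalSpace.denseSeq X n) y :=
      hp hy
    have h6 : dist (TopologicalSpace.denseSeq X n) x ≤ dist (TopologicalSpace.denseSeq X n) q :=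
      hq hx
    have h7 : dist (TopologicalSpace.denseSeq X n) y ≤ dist (TopologicalSpace.denseSeq X n) q :=
      hq hy
    simp only []
    rw [Real.dist_eq, abs_le]
    constructor <;> linarith
  have h4 : dist (TopologicalSpace.denseSeq X n) q - dist (TopologicalSpace.denseSeq X n) b ≤
      diam ((fun y => dist (TopologicalSpace.denseSeq X n) y) '' B) := by
    have h5 : dist (dist (TopologicalSpace.denseSeq X n) q)
        (dist (TopologicalSpace.denseSeq X n) b) ≤
        diam ((fun y => dist (TopologicalSpace.denseSeq X n) y) '' B) :=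
      dist_le_diam_of_mem (bdd_img _ _) (mem_image_of_mem _ (hAB.1 hqA)) (mem_image_of_mem _ hbB)
    rw [Real.dist_eq] at h5
    exact (le_abs_self _).trans h5
  have h5 : diam ((fun y => dist (TopologicalSpace.denseSeq X n) y) '' A) <
      diam ((fun y => dist (TopologicalSpace.denseSeq X n) y) '' B) := by linarith
  exact (wm_summable A).tsum_lt_tsum (i := n) (fun m => term_mono m hAB.1)
    (mul_lt_mul_of_pos_left h5 (by positivity)) (wm_summable B)

theorem diam_lt_of_wm {ε : ℝ} (hε : 0 < ε) : ∃ δ > 0, ∀ A : Set X, wm A < δ → diam A < ε := by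
  obtain ⟨t, ht⟩ := (isCompact_univ (X := X)).elim_finite_subcover
    (fun n : ℕ => ball (TopologicalSpace.denseSeq X n) (ε / 8)) (fun n => isOpen_ball)
    (fun x _ => by
      obtain ⟨n, hn⟩ := (TopologicalSpace.denseRange_denseSeq X).exists_dist_lt x
        (by positivity : 0 < ε / 8)
      exact mem_iUnion.2 ⟨n, hn⟩)
  obtain ⟨N, hN⟩ : ∃ N, ∀ n ∈ t, n ≤ N := ⟨t.sup id, fun n hn => Finset.le_sup (f := id) hn⟩
  refine ⟨(1 / 2) ^ N * (ε / 4), by positivity, fun A hA => ?_⟩
  have h1 : diam A ≤ ε / 2 := by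
    refine diam_le_of_forall_dist_le (by positivity) (fun a ha b hb => ?_)
    obtain ⟨n, hn, han⟩ := mem_iUnion₂.1 (ht (mem_univ a))
    have h2 : dist a (TopologicalSpace.denseSeq X n) < ε / 8 := han
    have h3 := (wm_term_le n A).trans_lt hA
    have h4 : dist (dist (TopologicalSpace.denseSeq X n) b)
        (dist (TopologicalSpace.denseSeq X n) a) ≤
        diam ((fun y => dist (TopologicalSpace.denseSeq X n) y) '' A) :=
      dist_le_diam_of_mem (bdd_img _ _) (mem_image_of_mem _ hb) (mem_image_of_mem _ ha)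
    rw [Real.dist_eq] at h4
    have h5 : (1 / 2 : ℝ) ^ N ≤ (1 / 2 : ℝ) ^ n :=
      pow_le_pow_of_le_one (by norm_num) (by norm_num) (hN n hn)
    have h6 : diam ((fun y => dist (TopologicalSpace.denseSeq X n) y) '' A) < ε / 4 := by
      by_contra hcon
      push Not at hcon
      have h7 : (1 / 2 : ℝ) ^ N * (ε / 4) ≤ (1 / 2 : ℝ) ^ n *
          diam ((fun y => dist (TopologicalSpace.denseSeq X n) y) '' A) :=
        mul_le_mul h5 hcon (by positivity) (by positivity)
      linarith
    have h7 := (le_abs_self _).trans h4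
    have h8 := dist_triangle a (TopologicalSpace.denseSeq X n) b
    rw [dist_comm] at h2
    rw [dist_comm a (TopologicalSpace.denseSeq X n)] at h8
    linarith
  linarith

end Pool.Agent.HDA
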