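import Mathlib
import Pool.Agent.HDA.Whit

/-!
# HDA module SIZE: sizes of subarcs

* `size_cont`: for `q = (t, t')`, `q₀ = (u, u')` in the set,
  `Icc t t' ⊆ Icc (min t u) (max t u) ∪ Icc u u' ∪ Icc (min t' u') (max t' u')`, consecutive images
  meet (in `f u`, `f u'`), so by `wm_union_le`, `wm_mono` and `wm_le_diam`
  `wm (f '' Icc t t') ≤ wm (f '' Icc u u') + 2 diam (f '' Icc (min t u) (max t u)) + 2 diam (...)`,
  and the same with `q`, `q₀` exchanged. `f` is uniformly continuous on the compact interval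
  (`IsCompact.uniformContinuousOn_of_continuous`), so the diameters are small for `q` near `q₀`.
* `size_self`: `Icc t t = {t}`, `wm_singleton`.
* `size_lt`: `f '' Icc a' b' ⊂ f '' Icc a b` (`f a` or `f b` is missing by injectivity), the first set is
  compact and nonempty: `wm_strict`.
* `size_add`: `Icc a c = Icc a b ∪ Icc b c`, `wm_union_le`.
* `size_ivt`: intermediate value theorem for `b ↦ wm (f '' Icc a b)` on `Icc a 1`.
* `size_inj`: from `size_lt`. `size_le` from `wm_mono`.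
* `size_close`: the function `b ↦ wm (f '' Icc 0 b)` is continuous and injective on the compact
  interval `Icc 0 1`; so for fixed `v` and `ε` the values at points with `|b - v| ≥ ε` stay away from the
  value at `v` (compactness).
About 130 lines.
-/

set_option autoImplicit false

open Set Topology Filter Metric Pool.Agent.HDC

namespace Pool.Agent.HDA

variable {X : Type*} [MetricSpace X] [CompactSpace X] [Nonempty X]
  [TopologicalSpace.SeparableSpace X]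

theorem size_near {f : ℝ → X} {ε δ : ℝ} (hε : 0 ≤ ε)
    (hu : ∀ x ∈ Icc (0 : ℝ) 1, ∀ y ∈ Icc (0 : ℝ) 1, |x - y| < δ → dist (f x) (f y) ≤ ε)
    {t t' u u' : ℝ} (ht : 0 ≤ t) (htt : t ≤ t') (ht' : t' ≤ 1) (hu0 : 0 ≤ u) (huu : u ≤ u')
    (hu' : u' ≤ 1) (h1 : |t - u| < δ) (h2 : |t' - u'| < δ) :
    wm (f '' Icc t t') ≤ wm (f '' Icc u u') + 4 * ε := by
  have hd : ∀ a b : ℝ, 0 ≤ a → a ≤ 1 → 0 ≤ b → b ≤ 1 → |a - b| < δ →
      wm (f '' Icc (min a b) (max a b)) ≤ 2 * ε := by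
    intro a b ha ha1 hb hb1 hab
    refine (wm_le_diam _).trans (mul_le_mul_of_nonneg_left ?_ (by norm_num))
    refine diam_le_of_forall_dist_le hε ?_
    rintro _ ⟨x, hx, rfl⟩ _ ⟨y, hy, rfl⟩
    have hmin : 0 ≤ min a b := le_min ha hb
    have hmax : max a b ≤ 1 := max_le ha1 hb1
    refine hu x ⟨hmin.trans hx.1, hx.2.trans hmax⟩ y ⟨hmin.trans hy.1, hy.2.trans hmax⟩ ?_
    have h3 : |a - b| = max a b - min a b := by
      rw [max_sub_min_eq_abs]
      exact abs_sub_comm a b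
    rw [h3] at hab
    rw [abs_lt]
    constructor <;> linarith [hx.1, hx.2, hy.1, hy.2]
  have h3 := hd t u ht (htt.trans ht') hu0 (huu.trans hu') h1
  have h4 := hd t' u' (ht.trans htt) ht' (hu0.trans huu) hu' h2
  have hsub : f '' Icc t t' ⊆ (f '' Icc (min t u) (max t u) ∪ f '' Icc u u') ∪
      f '' Icc (min t' u') (max t' u') := by
    rw [← image_union, ← image_union]
    refine image_mono (fun x hx => ?_)
    by_cases hxu : x < u
    · exact Or.inl (Or.inl ⟨(min_le_left _ _).trans hx.1, hxu.le.trans (le_max_right _ _)⟩)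
    · push Not at hxu
      by_cases hxu' : u' < x
      · exact Or.inr ⟨(min_le_right _ _).trans hxu'.le, hx.2.trans (le_max_left _ _)⟩
      · push Not at hxu'
        exact Or.inl (Or.inr ⟨hxu, hxu'⟩)
  have h5 := wm_mono hsub
  have h6 : wm ((f '' Icc (min t u) (max t u) ∪ f '' Icc u u') ∪
      f '' Icc (min t' u') (max t' u')) ≤ wm (f '' Icc (min t u) (max t u) ∪ f '' Icc u u') +
      wm (f '' Icc (min t' u') (max t' u')) :=
    wm_union_le ⟨f u', Or.inr (mem_image_of_mem f ⟨huu, le_rfl⟩),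
      mem_image_of_mem f ⟨min_le_right _ _, le_max_right _ _⟩⟩
  have h7 : wm (f '' Icc (min t u) (max t u) ∪ f '' Icc u u') ≤
      wm (f '' Icc (min t u) (max t u)) + wm (f '' Icc u u') :=
    wm_union_le ⟨f u, mem_image_of_mem f ⟨min_le_right _ _, le_max_right _ _⟩,
      mem_image_of_mem f ⟨le_rfl, huu⟩⟩
  linarith

theorem unif_f {f : ℝ → X} (hf : ContinuousOn f (Icc 0 1)) {ε : ℝ} (hε : 0 < ε) :
    ∃ δ > 0, ∀ x ∈ Icc (0 : ℝ) 1, ∀ y ∈ Icc (0 : ℝ) 1, |x - y| < δ → dist (f x) (f y) ≤ ε := by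
  have h := (isCompact_Icc (a := (0 : ℝ)) (b := 1)).uniformContinuousOn_of_continuous hf
  rw [Metric.uniformContinuousOn_iff] at h
  obtain ⟨δ, hδ, h⟩ := h ε hε
  exact ⟨δ, hδ, fun x hx y hy hxy => (h x hx y hy (by rw [Real.dist_eq]; exact hxy)).le⟩

theorem size_cont {f : ℝ → X} (hf : ContinuousOn f (Icc 0 1)) :
    ContinuousOn (fun q : ℝ × ℝ => wm (f '' Icc q.1 q.2)) {q | 0 ≤ q.1 ∧ q.1 ≤ q.2 ∧ q.2 ≤ 1} := by
  rw [Metric.continuousOn_iff]
  rintro ⟨u, u'⟩ hq₀ ε hε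
  obtain ⟨hu0, huu, hu'⟩ := hq₀
  simp only at hu0 huu hu'
  obtain ⟨δ, hδ, h⟩ := unif_f hf (by positivity : 0 < ε / 8)
  refine ⟨δ, hδ, ?_⟩
  rintro ⟨t, t'⟩ hq hd
  obtain ⟨ht0, htt, ht'⟩ := hq
  simp only at ht0 htt ht'
  rw [Prod.dist_eq, max_lt_iff] at hd
  simp only [Real.dist_eq] at hd
  obtain ⟨hd1, hd2⟩ := hd
  have h1 := size_near (by positivity : 0 ≤ ε / 8) h ht0 htt ht' hu0 huu hu' hd1 hd2
  have h2 := size_near (by positivity : 0 ≤ ε / 8) h hu0 huu hu' ht0 htt ht'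
    (by rw [abs_sub_comm]; exact hd1) (by rw [abs_sub_comm]; exact hd2)
  simp only [Real.dist_eq]
  rw [abs_lt]
  constructor <;> linarith

theorem size_self (f : ℝ → X) (t : ℝ) : wm (f '' Icc t t) = 0 := by
  rw [Icc_self, image_singleton, wm_singleton]

theorem size_le {f : ℝ → X} {a b a' b' : ℝ} (haa : a ≤ a') (hbb : b' ≤ b) :
    wm (f '' Icc a' b') ≤ wm (f '' Icc a b) := by
  exact wm_mono (image_mono (Icc_subset_Icc haa hbb))

theorem size_lt {f : ℝ → X} (hf : ContinuousOn f (Icc 0 1)) (hi : InjOn f (Icc 0 1))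
    {a b a' b' : ℝ} (ha : 0 ≤ a) (haa : a ≤ a') (hab : a' ≤ b') (hbb : b' ≤ b) (hb : b ≤ 1)
    (hne : a < a' ∨ b' < b) : wm (f '' Icc a' b') < wm (f '' Icc a b) := by
  have hsub : Icc a' b' ⊆ Icc a b := Icc_subset_Icc haa hbb
  have hsub1 : Icc a b ⊆ Icc 0 1 := Icc_subset_Icc ha hb
  have hcl : IsClosed (f '' Icc a' b') :=
    (isCompact_Icc.image_of_continuousOn (hf.mono (hsub.trans hsub1))).isClosed
  refine wm_strict hcl ((nonempty_Icc.2 hab).image f) ?_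
  have hex : ∃ x ∈ Icc a b, x ∉ Icc a' b' := by
    rcases hne with h | h
    · exact ⟨a, ⟨le_rfl, haa.trans (hab.trans hbb)⟩, fun hx => absurd hx.1 (not_le.2 h)⟩
    · exact ⟨b, ⟨haa.trans (hab.trans hbb), le_rfl⟩, fun hx => absurd hx.2 (not_le.2 h)⟩
  obtain ⟨x, hx, hx'⟩ := hex
  rw [ssubset_iff_exists]
  refine ⟨image_mono hsub, f x, mem_image_of_mem f hx, ?_⟩
  rintro ⟨y, hy, hyx⟩
  exact hx' ((hi (hsub1 (hsub hy)) (hsub1 hx) hyx) ▸ hy)

theorem size_add {f : ℝ → X} {a b c : ℝ} (hab : a ≤ b) (hbc : b ≤ c) :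
    wm (f '' Icc a c) ≤ wm (f '' Icc a b) + wm (f '' Icc b c) := by
  rw [← Icc_union_Icc_eq_Icc hab hbc, image_union]
  exact wm_union_le ⟨f b, mem_image_of_mem f ⟨hab, le_rfl⟩, mem_image_of_mem f ⟨le_rfl, hbc⟩⟩

theorem size_ivt {f : ℝ → X} (hf : ContinuousOn f (Icc 0 1)) {a : ℝ} (ha : 0 ≤ a) (ha1 : a ≤ 1)
    {r : ℝ} (hr : 0 ≤ r) (hr1 : r ≤ wm (f '' Icc a 1)) :
    ∃ b ∈ Icc a 1, wm (f '' Icc a b) = r := by
  have hc : ContinuousOn (fun b => wm (f '' Icc a b)) (Icc a 1) := by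
    have h := (size_cont hf).comp (s := Icc a 1) (f := fun b => (a, b))
      (continuous_const.prodMk continuous_id).continuousOn (fun b hb => ⟨ha, hb.1, hb.2⟩)
    exact h
  have h := intermediate_value_Icc ha1 hc
  obtain ⟨b, hb, hbr⟩ := h (show r ∈ Icc (wm (f '' Icc a a)) (wm (f '' Icc a 1)) from
    ⟨by rw [size_self]; exact hr, hr1⟩)
  exact ⟨b, hb, hbr⟩

theorem size_inj {f : ℝ → X} (hf : ContinuousOn f (Icc 0 1)) (hi : InjOn f (Icc 0 1))
    {a b b' : ℝ} (ha : 0 ≤ a) (hb : b ∈ Icc a 1) (hb' : b' ∈ Icc a 1)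
    (h : wm (f '' Icc a b) = wm (f '' Icc a b')) : b = b' := by
  rcases lt_trichotomy b b' with hlt | heq | hlt
  · exact absurd h (size_lt hf hi ha le_rfl hb.1 hlt.le hb'.2 (Or.inr hlt)).ne
  · exact heq
  · exact absurd h (size_lt hf hi ha le_rfl hb'.1 hlt.le hb.2 (Or.inr hlt)).ne'

theorem size_pos {f : ℝ → X} (hf : ContinuousOn f (Icc 0 1)) (hi : InjOn f (Icc 0 1))
    {a b : ℝ} (ha : 0 ≤ a) (hab : a < b) (hb : b ≤ 1) : 0 < wm (f '' Icc a b) := by
  have h := size_lt hf hi ha (le_refl a) (le_refl a) hab.le hb (Or.inr hab)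
  rwa [size_self] at h

theorem size_close {f : ℝ → X} (hf : ContinuousOn f (Icc 0 1)) (hi : InjOn f (Icc 0 1))
    {v : ℝ} (hv : v ∈ Icc (0 : ℝ) 1) {ε : ℝ} (hε : 0 < ε) :
    ∃ δ > 0, ∀ b ∈ Icc (0 : ℝ) 1, |wm (f '' Icc 0 b) - wm (f '' Icc 0 v)| < δ → |b - v| < ε := by
  have hc : ContinuousOn (fun b => wm (f '' Icc 0 b)) (Icc 0 1) := by
    have h := (size_cont hf).comp (s := Icc 0 1) (f := fun b => ((0 : ℝ), b))
      (continuous_const.prodMk continuous_id).continuousOn (fun b hb => ⟨le_rfl, hb.1, hb.2⟩)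
    exact h
  have hK : IsCompact (Icc (0 : ℝ) 1 ∩ {b | ε ≤ |b - v|}) := by
    refine isCompact_Icc.inter_right ?_
    exact isClosed_le continuous_const ((continuous_id.sub continuous_const).abs)
  by_cases hne : (Icc (0 : ℝ) 1 ∩ {b | ε ≤ |b - v|}).Nonempty
  · obtain ⟨p, hp, hmin⟩ := hK.exists_isMinOn hne
      (((hc.sub continuousOn_const).abs).mono inter_subset_left :
        ContinuousOn (fun b => |wm (f '' Icc 0 b) - wm (f '' Icc 0 v)|)
          (Icc (0 : ℝ) 1 ∩ {b | ε ≤ |b - v|}))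
    refine ⟨|wm (f '' Icc 0 p) - wm (f '' Icc 0 v)|, ?_, fun b hb hlt => ?_⟩
    · rw [gt_iff_lt, abs_pos, sub_ne_zero]
      intro h
      have h1 := size_inj hf hi le_rfl hp.1 hv h
      have h2 : ε ≤ |p - v| := hp.2
      rw [h1, sub_self, abs_zero] at h2
      linarith
    · by_contra hcon
      push Not at hcon
      have h1 : |wm (f '' Icc 0 p) - wm (f '' Icc 0 v)| ≤ |wm (f '' Icc 0 b) - wm (f '' Icc 0 v)| :=
        hmin ⟨hb, hcon⟩
      linarith
  · refine ⟨1, one_pos, fun b hb _ => ?_⟩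
    by_contra hcon
    push Not at hcon
    exact hne ⟨b, hb, hcon⟩

end Pool.Agent.HDA
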