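import Mathlib
import Pool.Agent.HDA.Size
import Pool.Agent.HDA.Reparam

/-!
# HDA module PARL: parametrised legal arcs of size `c`

Let `hL : DL X Leg c η`.
* `par_leg`: `hL.subl` for the arc `f '' Icc 0 1` and `y = f v` (`≠ f 0 = x`) gives `A' ⊆ f '' Icc 0 1` with
  `Leg (f 0) A' (f v)`; `A' = f '' Icc 0 v` (`arc_in_arc`). `hL.subr` for it and `y = f u` (`≠ f v`) gives
  `A'' ⊆ f '' Icc 0 v` with `Leg (f u) A'' (f v)`; `A'' = f '' Icc u v` (`arc_in_arc`). (If `v = 1`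
  use the arc itself or the same argument.)
* `exists_par`: `hL.ext` gives `A' ⊇ A`, `Leg x A' z'`, `wm A' = c`; let `f` parametrise `A'` with
  `f 0 = x` (`hL.arc`). `z ∈ A`, so `z = f v`, `v > 0` as `z ≠ x` (`IsArc.ne`); `A = f '' Icc 0 v` by
  `arc_in_arc`.
* `exists_par'`: `hL.ex x` gives `Leg x A z`; let `g` parametrise `A`. By continuity and
  `size_self` there is `t ∈ Ioc 0 1` with `wm (g '' Icc 0 t) ≤ c` (`size_cont`). `hL.subl` at `y = g t`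
  gives `Leg x A' (g t)`, `A' = g '' Icc 0 t` (`arc_in_arc`). Apply `exists_par`.
* `par_eq`: if `f t = g t'` with `t, t' > 0` then the arcs `f '' Icc 0 1`, `g '' Icc 0 1` have a common
  point `≠ x`; by `hL.tri` one contains the other, both have size `c`, and they are closed, so they
  are equal by `wm_strict`. Then `reparam` (with `a = 0`, `b = 1`) gives `θ`; `θ 1 = 1` since the images
  are equal.
* `exists_loc`: take `F₁` from `exists_par'`. If every `Par Leg c x f` has `f '' Icc 0 1 = F₁ '' Icc 0 1`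
  put `F₂ = F₁`; otherwise let `F₂` be one with a different image; by `hL.tri` and `wm_strict` (equal
  sizes) `F₁ '' Icc 0 1 ∩ F₂ '' Icc 0 1 = {x}`. If `Leg x A z`, `wm A ≤ c`, let `f` be as in
  `exists_par`: `A = f '' Icc 0 v`, `z = f v`. The image of `f` equals that of `F₁` or of `F₂`:
  otherwise the three arcs would meet pairwise only in `x` (`hL.tri`, `wm_strict`), contradicting
  `hL.two`. If the images of `f` and `F` are equal, then `z = F v'`, `v' > 0`, and `A = F '' Icc 0 v'`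
  by `arc_in_arc`.
About 170 lines.
-/

set_option autoImplicit false

open Set Topology Filter Metric Pool.Agent.HDC Pool.Agent.Helper43

namespace Pool.Agent.HDA

variable {X : Type*} [MetricSpace X] [CompactSpace X] [Nonempty X]
  [TopologicalSpace.SeparableSpace X] {Leg : X → Set X → X → Prop} {c η : ℝ}

omit [CompactSpace X] [Nonempty X] [TopologicalSpace.SeparableSpace X] in
private lemma sub_of_arc {F : ℝ → X} (hc : ContinuousOn F (Icc 0 1)) (hi : InjOn F (Icc 0 1))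
    {A : Set X} {z : X} (hA : IsArc A (F 0) z) (hs : A ⊆ F '' Icc 0 1) :
    ∃ v ∈ Ioc (0 : ℝ) 1, A = F '' Icc 0 v ∧ F v = z := by
  obtain ⟨v, hv, hvz⟩ := hs hA.right_mem
  have hv0 : 0 < v := by
    rcases hv.1.eq_or_lt with h | h
    · exfalso
      apply hA.ne
      rw [← hvz, ← h]
    · exact h
  refine ⟨v, ⟨hv0, hv.2⟩, ?_, hvz⟩
  rw [← hvz] at hA
  exact arc_in_arc hc hi le_rfl hv0 hv.2 hA hs

private lemma loc_aux (hL : DL X Leg c η) {x z : X} {F : ℝ → X} (hF : Par Leg c x F) {A : Set X}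
    (hA : Leg x A z) (hs : A ⊆ F '' Icc 0 1) :
    ∃ v ∈ Ioc (0 : ℝ) 1, A = F '' Icc 0 v ∧ F v = z := by
  have h1 := hL.arc _ _ _ hA
  rw [← hF.2.2.1] at h1
  exact sub_of_arc hF.1 hF.2.1 h1 hs

private lemma img_le {x : X} {f g : ℝ → X} (hf : Par Leg c x f) (hg : Par Leg c x g)
    (h : f '' Icc 0 1 ⊆ g '' Icc 0 1) : f '' Icc 0 1 = g '' Icc 0 1 := by
  by_contra hne
  have h1 : f '' Icc 0 1 ⊂ g '' Icc 0 1 := lt_of_le_of_ne h hne
  have h2 := wm_strict (isCompact_Icc.image_of_continuousOn hf.1).isClosed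
    ⟨f 0, mem_image_of_mem f (left_mem_Icc.2 zero_le_one)⟩ h1
  rw [hf.2.2.2.2, hg.2.2.2.2] at h2
  exact lt_irrefl _ h2

private lemma img_eq (hL : DL X Leg c η) {x : X} {f g : ℝ → X} (hf : Par Leg c x f)
    (hg : Par Leg c x g) (h : f '' Icc 0 1 ∩ g '' Icc 0 1 ≠ {x}) :
    f '' Icc 0 1 = g '' Icc 0 1 := by
  rcases hL.tri x _ _ _ _ hf.2.2.2.1 hg.2.2.2.1 with h1 | h1 | h1
  · exact img_le hf hg h1
  · exact (img_le hg hf h1).symm
  · exact absurd h1 h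

theorem par_leg (hL : DL X Leg c η) {x : X} {f : ℝ → X} (hf : Par Leg c x f) {u v : ℝ}
    (hu : 0 ≤ u) (huv : u < v) (hv : v ≤ 1) : Leg (f u) (f '' Icc u v) (f v) := by
  obtain ⟨hc, hi, h0, hleg, -⟩ := hf
  have hv0 : 0 < v := hu.trans_lt huv
  have hne : f v ≠ x := by
    intro h
    rw [← h0] at h
    have := hi ⟨hv0.le, hv⟩ (left_mem_Icc.2 zero_le_one) h
    linarith
  obtain ⟨A', hA'sub, hA'⟩ := hL.subl _ _ _ (f v) hleg (mem_image_of_mem f ⟨hv0.le, hv⟩) hne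
  have h1 : A' = f '' Icc 0 v := by
    have h2 := hL.arc _ _ _ hA'
    rw [← h0] at h2
    exact arc_in_arc hc hi le_rfl hv0 hv h2 hA'sub
  rw [h1] at hA'
  have hne' : f u ≠ f v := by
    intro h
    have := hi ⟨hu, (huv.le.trans hv)⟩ ⟨hv0.le, hv⟩ h
    linarith
  obtain ⟨A'', hA''sub, hA''⟩ := hL.subr _ _ _ (f u) hA' (mem_image_of_mem f ⟨hu, huv.le⟩) hne'
  have h3 : A'' = f '' Icc u v := by
    have h2 := hL.arc _ _ _ hA''
    exact arc_in_arc hc hi hu huv hv h2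
      (hA''sub.trans (image_mono (Icc_subset_Icc le_rfl hv)))
  rwa [h3] at hA''

theorem exists_par (hL : DL X Leg c η) {x z : X} {A : Set X} (hA : Leg x A z) (hs : wm A ≤ c) :
    ∃ f : ℝ → X, Par Leg c x f ∧ ∃ v ∈ Ioc (0 : ℝ) 1, A = f '' Icc 0 v ∧ f v = z := by
  obtain ⟨A', z', hA', hsub, hw⟩ := hL.ext _ _ _ hA hs
  obtain ⟨f, hc, hi, h0, h1, hfA⟩ := hL.arc _ _ _ hA'
  have hP : Par Leg c x f := by
    refine ⟨hc, hi, h0, ?_, ?_⟩
    · rw [hfA, h1]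
      exact hA'
    · rw [hfA]
      exact hw
  exact ⟨f, hP, loc_aux hL hP hA (by rw [hfA]; exact hsub)⟩

theorem exists_par' (hL : DL X Leg c η) (x : X) : ∃ f : ℝ → X, Par Leg c x f := by
  obtain ⟨A, z, hA⟩ := hL.ex x
  obtain ⟨g, hc, hi, h0, h1, hgA⟩ := hL.arc _ _ _ hA
  have ht : ∃ t ∈ Ioc (0 : ℝ) 1, wm (g '' Icc 0 t) ≤ c := by
    by_cases h2 : wm (g '' Icc 0 1) ≤ c
    · exact ⟨1, ⟨zero_lt_one, le_rfl⟩, h2⟩
    · push Not at h2
      obtain ⟨b, hb, hbc⟩ := size_ivt hc le_rfl zero_le_one hL.c_pos.le h2.le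
      refine ⟨b, ⟨?_, hb.2⟩, hbc.le⟩
      rcases hb.1.eq_or_lt with h | h
      · exfalso
        rw [← h, size_self] at hbc
        have := hL.c_pos
        linarith
      · exact h
  obtain ⟨t, ht, htc⟩ := ht
  have hne : g t ≠ x := by
    intro h
    rw [← h0] at h
    have := hi ⟨ht.1.le, ht.2⟩ (left_mem_Icc.2 zero_le_one) h
    have := ht.1
    linarith
  obtain ⟨A', hA'sub, hA'⟩ := hL.subl _ _ _ (g t) hA
    (by rw [← hgA]; exact mem_image_of_mem g ⟨ht.1.le, ht.2⟩) hne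
  have h3 : A' = g '' Icc 0 t := by
    have h2 := hL.arc _ _ _ hA'
    rw [← h0] at h2
    exact arc_in_arc hc hi le_rfl ht.1 ht.2 h2 (by rw [hgA]; exact hA'sub)
  obtain ⟨f, hf, -⟩ := exists_par hL hA' (by rw [h3]; exact htc)
  exact ⟨f, hf⟩

theorem par_eq (hL : DL X Leg c η) {x : X} {f g : ℝ → X} (hf : Par Leg c x f)
    (hg : Par Leg c x g) {t t' : ℝ} (ht : t ∈ Ioc (0 : ℝ) 1) (ht' : t' ∈ Ioc (0 : ℝ) 1)
    (h : f t = g t') :
    ∃ θ : ℝ → ℝ, StrictMonoOn θ (Icc 0 1) ∧ θ 0 = 0 ∧ θ 1 = 1 ∧ MapsTo θ (Icc 0 1) (Icc 0 1) ∧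
      (∀ r ∈ Icc (0 : ℝ) 1, g r = f (θ r)) ∧
      ∀ r r', 0 ≤ r → r ≤ r' → r' ≤ 1 → g '' Icc r r' = f '' Icc (θ r) (θ r') := by
  have himg : f '' Icc 0 1 = g '' Icc 0 1 := by
    apply img_eq hL hf hg
    intro h1
    have h2 : f t ∈ f '' Icc 0 1 ∩ g '' Icc 0 1 :=
      ⟨mem_image_of_mem f ⟨ht.1.le, ht.2⟩, by rw [h]; exact mem_image_of_mem g ⟨ht'.1.le, ht'.2⟩⟩
    rw [h1, mem_singleton_iff, ← hf.2.2.1] at h2
    have h3 := hf.2.1 ⟨ht.1.le, ht.2⟩ (left_mem_Icc.2 zero_le_one) h2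
    have := ht.1
    linarith
  obtain ⟨θ, -, hmono, hθ0, hmaps, hθ, himage⟩ := reparam hf.1 hf.2.1 zero_le_one hg.1 hg.2.1
    himg.symm.subset (by rw [hg.2.2.1, hf.2.2.1])
  refine ⟨θ, hmono, hθ0, ?_, hmaps, hθ, himage⟩
  have h1 := himage 0 1 le_rfl zero_le_one le_rfl
  have h2 : f 1 ∈ f '' Icc (θ 0) (θ 1) := by
    rw [← h1, ← himg]
    exact mem_image_of_mem f (right_mem_Icc.2 zero_le_one)
  have h3 := hmaps (right_mem_Icc.2 (zero_le_one' ℝ))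
  obtain ⟨s, hs, hs1⟩ := h2
  rw [hθ0] at hs
  have h4 : s = 1 := hf.2.1 ⟨hs.1, hs.2.trans h3.2⟩ (right_mem_Icc.2 zero_le_one) hs1
  rw [h4] at hs
  exact le_antisymm h3.2 hs.2

theorem exists_loc (hL : DL X Leg c η) (x : X) :
    ∃ F₁ F₂ : ℝ → X, Par Leg c x F₁ ∧ Par Leg c x F₂ ∧
      (F₁ = F₂ ∨ F₁ '' Icc 0 1 ∩ F₂ '' Icc 0 1 = {x}) ∧
      ∀ A z, Leg x A z → wm A ≤ c → ∃ F, (F = F₁ ∨ F = F₂) ∧ ∃ v ∈ Ioc (0 : ℝ) 1,
        A = F '' Icc 0 v ∧ F v = z := by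
  obtain ⟨F₁, hF₁⟩ := exists_par' hL x
  by_cases hall : ∀ f, Par Leg c x f → f '' Icc 0 1 = F₁ '' Icc 0 1
  · refine ⟨F₁, F₁, hF₁, hF₁, Or.inl rfl, ?_⟩
    intro A z hA hs
    obtain ⟨f, hf, v, hv, hAv, -⟩ := exists_par hL hA hs
    refine ⟨F₁, Or.inl rfl, loc_aux hL hF₁ hA ?_⟩
    rw [← hall f hf, hAv]
    exact image_mono (Icc_subset_Icc le_rfl hv.2)
  · push Not at hall
    obtain ⟨F₂, hF₂, hne⟩ := hall
    have h12 : F₁ '' Icc 0 1 ∩ F₂ '' Icc 0 1 = {x} := by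
      by_contra h
      exact hne (img_eq hL hF₁ hF₂ h).symm
    refine ⟨F₁, F₂, hF₁, hF₂, Or.inr h12, ?_⟩
    intro A z hA hs
    obtain ⟨f, hf, v, hv, hAv, -⟩ := exists_par hL hA hs
    have hsub : A ⊆ f '' Icc 0 1 := by
      rw [hAv]
      exact image_mono (Icc_subset_Icc le_rfl hv.2)
    rcases hL.two x _ _ _ _ _ _ hF₁.2.2.2.1 hF₂.2.2.2.1 hf.2.2.2.1 with h1 | h1 | h1
    · exact absurd h12 h1
    · have h2 := img_eq hL hF₁ hf h1
      exact ⟨F₁, Or.inl rfl, loc_aux hL hF₁ hA (by rw [h2]; exact hsub)⟩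
    · have h2 := img_eq hL hF₂ hf h1
      exact ⟨F₂, Or.inr rfl, loc_aux hL hF₂ hA (by rw [h2]; exact hsub)⟩

end Pool.Agent.HDA
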