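import Mathlib
import Pool.Agent.HDA.ParL
import Pool.Agent.HDC.Effros

/-!
# HDA module PULL: pulling legal arcs back to a fixed point

PROOF of `pull`. `F₁, F₂` from `exists_loc`. Given `e > 0` let `e' = min e (min η (c / 16))` and `δ` from
`effros` for `e'`. For `dist x x' < δ` let `k x = x'`, `Sm k e'`. Let `Par Leg c x' f`, and `τ ∈ Ioc 0 1`
with `wm (f '' Icc 0 τ) = 3 c / 4` (`size_ivt`; `wm (f '' Icc 0 1) = c`). `D = f '' Icc 0 τ` is legal from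
`x'` to `f τ` (`par_leg`). `hL.hom k.symm` (`Sm.symm`) gives `Leg x (k.symm '' D) (k.symm (f τ))`
(`k.symm x' = x`), and its size is at most `3c/4 + 4 e' ≤ c` (`wm_image_close`), so
`k.symm '' D = F '' Icc 0 v` for `F = F₁` or `F₂`, `v ∈ Ioc 0 1`. So `D = k '' (F '' Icc 0 v)`.
`reparam` for `k ∘ F` (in the role of `f`) and `f` on `Icc 0 τ` (in the role of `g`;
`f 0 = x' = k (F 0)`) gives `θ`. If `wm (f '' Icc 0 t) ≤ 3 c / 4` then `t ≤ τ` (`size_lt`), and all claims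
follow from the properties of `θ` (`image_comp`).

PROOF of `size_unif`. Suppose not: for some `ε'` and all `n` there are `x n`, `f n`, `t n ≤ t' n` with
`wm (f n '' Icc 0 (t' n)) ≤ 3c/4`, `wm (f n '' Icc 0 (t' n)) < wm (f n '' Icc 0 (t n)) + 1/(n+1)`,
`wm (f n '' Icc (t n) (t' n)) ≥ ε'`. A subsequence of `x n` converges to `x`; use `pull` at `x` with
`e = 1/(j+1)`: pass to a sequence `n j → ∞` with homeomorphisms `k j`, `Sm (k j) (1/(j+1))`,
functions `F` (the same for all `j` after passing to a subsequence) and numbers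
`a j = θ (t (n j)) ≤ b j = θ (t' (n j))` in `[0,1]`, converging to `a ≤ b` (subsequence). By
`wm_image_close`, `|wm (F '' Icc 0 (b j)) - wm (f '' Icc 0 t')| ≤ 4/(j+1)` etc., so in the limit
(`size_cont`) `wm (F '' Icc 0 b) ≤ wm (F '' Icc 0 a)`, so `b ≤ a` (`size_lt`), `a = b`; but
`wm (F '' Icc (a j) (b j)) ≥ ε' - 4/(j+1)` gives `0 = wm (F '' Icc a b) ≥ ε'`. Contradiction.
About 170 lines in total.
-/

set_option autoImplicit false

open Set Topology Filter Metric Pool.Agent.HDC Pool.Agent.Helper43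

namespace Pool.Agent.HDA

variable {X : Type*} [MetricSpace X] [CompactSpace X] [Nonempty X]
  [TopologicalSpace.SeparableSpace X] {Leg : X → Set X → X → Prop} {c η : ℝ}

theorem pull (hom : Hom X) (hL : DL X Leg c η) (x : X) :
    ∃ F₁ F₂ : ℝ → X, Par Leg c x F₁ ∧ Par Leg c x F₂ ∧
      (F₁ = F₂ ∨ F₁ '' Icc 0 1 ∩ F₂ '' Icc 0 1 = {x}) ∧
      ∀ e > 0, ∃ δ > 0, ∀ x', dist x x' < δ → ∃ k : X ≃ₜ X, Sm k e ∧ k x = x' ∧
        ∀ f : ℝ → X, Par Leg c x' f → ∃ F, (F = F₁ ∨ F = F₂) ∧ ∃ θ : ℝ → ℝ, θ 0 = 0 ∧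
          ∀ t ∈ Icc (0 : ℝ) 1, wm (f '' Icc 0 t) ≤ 3 * c / 4 →
            θ t ∈ Icc (0 : ℝ) 1 ∧ f t = k (F (θ t)) ∧
            ∀ t' ∈ Icc 0 t, θ t' ≤ θ t ∧ f '' Icc t' t = k '' (F '' Icc (θ t') (θ t)) := by
  obtain ⟨F₁, F₂, hF₁, hF₂, hor, hloc⟩ := exists_loc hL x
  refine ⟨F₁, F₂, hF₁, hF₂, hor, ?_⟩
  intro e he
  have hc := hL.c_pos
  have hη := hL.η_pos
  set e' := min e (min η (c / 16)) with he'
  have he'0 : 0 < e' := lt_min he (lt_min hη (by positivity))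
  have he'1 : e' ≤ e := min_le_left _ _
  have he'2 : e' ≤ η := (min_le_right _ _).trans (min_le_left _ _)
  have he'3 : e' ≤ c / 16 := (min_le_right _ _).trans (min_le_right _ _)
  obtain ⟨δ, hδ, hδ'⟩ := effros hom he'0
  refine ⟨δ, hδ, ?_⟩
  intro x' hxx'
  obtain ⟨k, hk, hkx⟩ := hδ' x x' hxx'
  refine ⟨k, hk.mono he'1, hkx, ?_⟩
  intro f hf
  have hf' := hf
  obtain ⟨hfc, hfi, hf0, hfL, hfw⟩ := hf'
  obtain ⟨τ, hτ, hτw⟩ := size_ivt hfc (le_refl 0) zero_le_one (r := 3 * c / 4) (by positivity)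
    (by rw [hfw]; linarith)
  have hτ0 : 0 < τ := by
    rcases lt_or_eq_of_le hτ.1 with h | h
    · exact h
    · exfalso
      rw [← h, size_self] at hτw
      linarith
  have hD := par_leg hL hf le_rfl hτ0 hτ.2
  rw [hf0] at hD
  have hksx : k.symm x' = x := by rw [← hkx, k.symm_apply_apply]
  have hD' := hL.hom k.symm x' (f '' Icc 0 τ) (f τ) (hk.symm.mono he'2) hD (by rw [hτw]; linarith)
  rw [hksx] at hD'
  have hwD : wm (k.symm '' (f '' Icc 0 τ)) ≤ c := by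
    have := wm_image_close hk.symm (f '' Icc 0 τ)
    rw [abs_le] at this
    linarith [this.2]
  obtain ⟨F, hF, v, hv, hDv, -⟩ := hloc _ _ hD' hwD
  have hFP : Par Leg c x F := by
    rcases hF with rfl | rfl
    · exact hF₁
    · exact hF₂
  obtain ⟨hFc, hFi, hF0, -, -⟩ := hFP
  have hDk : f '' Icc 0 τ = k '' (F '' Icc 0 v) := by
    rw [← hDv, ← image_comp]
    have : (k : X → X) ∘ k.symm = id := by
      funext y
      exact k.apply_symm_apply y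
    rw [this, image_id]
  obtain ⟨θ, -, hθm, hθ0, hθmaps, hθf, hθim⟩ := reparam (f := k ∘ F) (g := f)
    (k.continuous.comp_continuousOn hFc) (k.injective.comp_injOn hFi) hτ.1
    (hfc.mono (Icc_subset_Icc le_rfl hτ.2)) (hfi.mono (Icc_subset_Icc le_rfl hτ.2))
    (by
      rw [hDk, image_comp]
      exact image_mono (image_mono (Icc_subset_Icc le_rfl hv.2)))
    (by rw [Function.comp_apply, hF0, hkx, hf0])
  refine ⟨F, hF, θ, hθ0, ?_⟩
  intro t ht hw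
  have htτ : t ≤ τ := by
    by_contra hcon
    rw [not_le] at hcon
    have := size_lt hfc hfi (a := 0) (b := t) (a' := 0) (b' := τ) le_rfl le_rfl hτ.1 hcon.le ht.2
      (Or.inr hcon)
    linarith
  have ht' : t ∈ Icc 0 τ := ⟨ht.1, htτ⟩
  refine ⟨hθmaps ht', hθf t ht', ?_⟩
  intro t' hst
  have hst' : t' ∈ Icc 0 τ := ⟨hst.1, hst.2.trans htτ⟩
  refine ⟨hθm.monotoneOn hst' ht' hst.2, ?_⟩
  rw [hθim t' t hst.1 hst.2 htτ, image_comp]

theorem size_unif_one {F : ℝ → X} (hF : ContinuousOn F (Icc 0 1)) (hi : InjOn F (Icc 0 1))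
    {ε : ℝ} (hε : 0 < ε) : ∃ δ > 0, ∀ a b : ℝ, 0 ≤ a → a ≤ b → b ≤ 1 →
      wm (F '' Icc 0 b) < wm (F '' Icc 0 a) + δ → wm (F '' Icc a b) < ε := by
  set T : Set (ℝ × ℝ) := {q | 0 ≤ q.1 ∧ q.1 ≤ q.2 ∧ q.2 ≤ 1} with hT
  have hTc : IsClosed T := by
    have h1 : IsClosed {q : ℝ × ℝ | 0 ≤ q.1} := isClosed_le continuous_const continuous_fst
    have h2 : IsClosed {q : ℝ × ℝ | q.1 ≤ q.2} := isClosed_le continuous_fst continuous_snd
    have h3 : IsClosed {q : ℝ × ℝ | q.2 ≤ 1} := isClosed_le continuous_snd continuous_const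
    exact h1.inter (h2.inter h3)
  have hs := size_cont hF
  set K : Set (ℝ × ℝ) := T ∩ (fun q : ℝ × ℝ => wm (F '' Icc q.1 q.2)) ⁻¹' Ici ε with hK
  have hKcl : IsClosed K := hs.preimage_isClosed_of_isClosed hTc isClosed_Ici
  have hKc : IsCompact K := by
    refine (isCompact_Icc.prod isCompact_Icc).of_isClosed_subset hKcl
      (s := Icc (0 : ℝ) 1 ×ˢ Icc (0 : ℝ) 1) ?_
    rintro ⟨a, b⟩ ⟨⟨h1, h2, h3⟩, -⟩
    exact ⟨⟨h1, h2.trans h3⟩, ⟨h1.trans h2, h3⟩⟩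
  have hg : ContinuousOn (fun q : ℝ × ℝ => wm (F '' Icc 0 q.2) - wm (F '' Icc 0 q.1)) K := by
    have h1 : ContinuousOn (fun q : ℝ × ℝ => wm (F '' Icc 0 q.2)) K :=
      hs.comp (f := fun q : ℝ × ℝ => ((0 : ℝ), q.2)) (by fun_prop) (by
        rintro ⟨a, b⟩ ⟨⟨h1, h2, h3⟩, -⟩
        exact ⟨le_rfl, h1.trans h2, h3⟩)
    have h2 : ContinuousOn (fun q : ℝ × ℝ => wm (F '' Icc 0 q.1)) K :=
      hs.comp (f := fun q : ℝ × ℝ => ((0 : ℝ), q.1)) (by fun_prop) (by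
        rintro ⟨a, b⟩ ⟨⟨h1, h2, h3⟩, -⟩
        exact ⟨le_rfl, h1, h2.trans h3⟩)
    exact h1.sub h2
  rcases K.eq_empty_or_nonempty with hKe | hKn
  · refine ⟨1, one_pos, ?_⟩
    intro a b ha hab hb _
    by_contra hcon
    rw [not_lt] at hcon
    have : (a, b) ∈ K := ⟨⟨ha, hab, hb⟩, hcon⟩
    rw [hKe] at this
    exact this
  · obtain ⟨⟨a0, b0⟩, hq0, hmin⟩ := hKc.exists_isMinOn hKn hg
    have hlt : a0 < b0 := by
      rcases lt_or_eq_of_le hq0.1.2.1 with h | h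
      · exact h
      · exfalso
        have h' : a0 = b0 := h
        have h2 : ε ≤ wm (F '' Icc a0 b0) := hq0.2
        rw [h', size_self] at h2
        linarith
    refine ⟨wm (F '' Icc 0 b0) - wm (F '' Icc 0 a0), ?_, ?_⟩
    · have := size_lt hF hi (a := 0) (b := b0) (a' := 0) (b' := a0) le_rfl le_rfl hq0.1.1 hlt.le
        hq0.1.2.2 (Or.inr hlt)
      linarith
    · intro a b ha hab hb h
      by_contra hcon
      rw [not_lt] at hcon
      have h1 : (a, b) ∈ K := ⟨⟨ha, hab, hb⟩, hcon⟩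
      have h2 := isMinOn_iff.1 hmin (a, b) h1
      dsimp only at h2
      linarith

theorem size_unif (hom : Hom X) (hL : DL X Leg c η) {ε' : ℝ} (hε : 0 < ε') :
    ∃ δ > 0, ∀ (x : X) (f : ℝ → X), Par Leg c x f → ∀ t t', 0 ≤ t → t ≤ t' → t' ≤ 1 →
      wm (f '' Icc 0 t') ≤ 3 * c / 4 → wm (f '' Icc 0 t') < wm (f '' Icc 0 t) + δ →
      wm (f '' Icc t t') < ε' := by
  have hloc : ∀ x : X, ∃ ρ > 0, ∃ δ > 0, ∀ x', dist x x' < ρ → ∀ f : ℝ → X, Par Leg c x' f →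
      ∀ t t', 0 ≤ t → t ≤ t' → t' ≤ 1 →
      wm (f '' Icc 0 t') ≤ 3 * c / 4 → wm (f '' Icc 0 t') < wm (f '' Icc 0 t) + δ →
      wm (f '' Icc t t') < ε' := by
    intro x
    obtain ⟨F₁, F₂, hF₁, hF₂, -, hp⟩ := pull hom hL x
    obtain ⟨δ₁, hδ₁, h1⟩ := size_unif_one hF₁.1 hF₁.2.1 (half_pos hε)
    obtain ⟨δ₂, hδ₂, h2⟩ := size_unif_one hF₂.1 hF₂.2.1 (half_pos hε)
    set δ := min δ₁ δ₂ with hδ
    have hδ0 : 0 < δ := lt_min hδ₁ hδ₂
    have hF12 : ∀ F, (F = F₁ ∨ F = F₂) → ∀ a b : ℝ, 0 ≤ a → a ≤ b → b ≤ 1 →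
        wm (F '' Icc 0 b) < wm (F '' Icc 0 a) + δ → wm (F '' Icc a b) < ε' / 2 := by
      rintro F (rfl | rfl) a b ha hab hb h
      · exact h1 a b ha hab hb (h.trans_le (by linarith [min_le_left δ₁ δ₂]))
      · exact h2 a b ha hab hb (h.trans_le (by linarith [min_le_right δ₁ δ₂]))
    set e := min (δ / 16) (ε' / 16) with he
    have he0 : 0 < e := lt_min (by positivity) (by positivity)
    have he1 : e ≤ δ / 16 := min_le_left _ _
    have he2 : e ≤ ε' / 16 := min_le_right _ _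
    obtain ⟨ρ, hρ, hρ'⟩ := hp e he0
    refine ⟨ρ, hρ, δ / 4, by positivity, ?_⟩
    intro x' hx' f hf t t' ht htt ht1 hw hlt
    obtain ⟨k, hk, -, hkf⟩ := hρ' x' hx'
    obtain ⟨F, hF, θ, hθ0, hθ⟩ := hkf f hf
    obtain ⟨a1, -, a3⟩ := hθ t' ⟨ht.trans htt, ht1⟩ hw
    have hw' : wm (f '' Icc 0 t) ≤ 3 * c / 4 := (size_le le_rfl htt).trans hw
    obtain ⟨b1, -, b3⟩ := hθ t ⟨ht, htt.trans ht1⟩ hw'
    obtain ⟨-, c1⟩ := a3 0 ⟨le_rfl, ht.trans htt⟩
    obtain ⟨-, c2⟩ := b3 0 ⟨le_rfl, ht⟩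
    obtain ⟨c3, c4⟩ := a3 t ⟨ht, htt⟩
    rw [hθ0] at c1 c2
    have d1 := wm_image_close hk (F '' Icc 0 (θ t'))
    have d2 := wm_image_close hk (F '' Icc 0 (θ t))
    have d3 := wm_image_close hk (F '' Icc (θ t) (θ t'))
    rw [← c1, abs_le] at d1
    rw [← c2, abs_le] at d2
    rw [← c4, abs_le] at d3
    have d4 := hF12 F hF (θ t) (θ t') b1.1 c3 a1.2 (by linarith [d1.1, d1.2, d2.1, d2.2])
    linarith [d3.1, d3.2]
  choose ρ hρ δ hδ hprop using hloc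
  obtain ⟨s, -, hs⟩ := isCompact_univ.elim_nhds_subcover (fun x => ball x (ρ x))
    (fun x _ => ball_mem_nhds x (hρ x))
  have hsne : s.Nonempty := by
    obtain ⟨x0⟩ := (inferInstance : Nonempty X)
    have := hs (mem_univ x0)
    simp only [mem_iUnion] at this
    obtain ⟨y, hy, -⟩ := this
    exact ⟨y, hy⟩
  obtain ⟨x0, hx0, hmin⟩ := s.exists_min_image δ hsne
  refine ⟨δ x0, hδ x0, ?_⟩
  intro x f hf t t' ht htt ht1 hw hlt
  have := hs (mem_univ x)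
  simp only [mem_iUnion] at this
  obtain ⟨y, hy, hxy⟩ := this
  rw [mem_ball, dist_comm] at hxy
  exact hprop y x hxy f hf t t' ht htt ht1 hw (hlt.trans_le (by linarith [hmin y hy]))

end Pool.Agent.HDA
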