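import Mathlib
import Pool.Agent.HDA.Pull

/-!
# HDA module STATE: the space of states

* `st_par`: `exists_par` (`c / 4 ≤ c`).
* `par_st`: `par_leg` (`b < e` because the size `c / 4` is positive, `size_self`).
* `st_surj`: `exists_par'` and `size_ivt` (`c / 4 ≤ c`), `par_st` with `b = 0`.
* `st_two`: let `A_i` be the legal arcs from `x` to `y_i` of size `c / 4`; by `exists_loc` each is
  `F '' Icc 0 v` with `F = F₁` or `F = F₂`; two of the three have the same `F`, hence the same `v`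
  (`size_inj`) and the same `y`.
* `st_closed`: let `(x n, y n) ∈ St` converge to `(x, y)`. `pull` at `x`: after passing to a
  subsequence there are `k j` with `Sm (k j) (1/(j+1))`, `k j x = x (n j)`, `Par` functions `f` at
  `x (n j)` with `f t = y (n j)`, `wm (f '' Icc 0 t) = c / 4` (`st_par`), the same `F` for all `j`, and
  `b j = θ t ∈ [0,1]` converging to `b`. `wm (F '' Icc 0 (b j))` differs from `c / 4` by at most
  `4/(j+1)` (`wm_image_close`, `f '' Icc 0 t = k j '' (F '' Icc 0 (b j))`), so `wm (F '' Icc 0 b) = c/4`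
  (`size_cont`); `y (n j) = k j (F (b j))`, so `F (b j) → y` and `F b = y`. `par_st`.
* `st_inj`: suppose not: `(x n, y n), (x n, y' n) ∈ St`, `y n ≠ y' n`, `dist (y n) (y' n) → 0`. As before
  (the homeomorphism `k j` in `pull` does not depend on `f`) `y = k (F b_j)`, `y' = k (F' b'_j)` with
  `F, F' ∈ {F₁, F₂}` constant along the subsequence. If `F = F'` then for each `j` the two arcs
  `k '' (F '' Icc 0 b_j)`, `k '' (F '' Icc 0 b'_j)` are nested and of the same size `c / 4`, so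
  `b_j = b'_j` (`size_inj` for `k ∘ F`), so `y = y'`: contradiction. If `F ≠ F'` then the images of `F`
  and `F'` meet only in `x`; the limits satisfy `F b = lim y n = lim y' n = F' b'` and `b > 0`
  (`wm (F '' Icc 0 b) = c / 4 > 0`), so `F b = x = F 0`, contradicting injectivity.
* `st_open`: let `s = (x, y)`, `f, t₁` from `st_par`. `size_close` for `f`, `v = t₁` and continuity of `f`
  at `t₁` give `δ₁` such that `|wm (f '' Icc 0 b) - c/4| < δ₁` implies `dist (f b) y < e / 2`. Let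
  `e' = min (e/2) (min η (min (c / 16) (δ₁ / 8)))`, `δ` from `effros`, `k x = x'`, `Sm k e'`.
  `wm ((k ∘ f) '' Icc 0 1) ≥ c - 4 e' ≥ c / 4`; `size_ivt` for `k ∘ f` gives `b` with
  `wm (k '' (f '' Icc 0 b)) = c / 4`; `b > 0`; `hL.hom` for `f '' Icc 0 b` (`par_leg`, size `≤ c`) gives
  that `(x', k (f b)) ∈ St`; `|wm (f '' Icc 0 b) - c / 4| ≤ 4 e' < δ₁`.
About 220 lines.
-/

set_option autoImplicit false

open Set Topology Filter Metric Pool.Agent.HDC Pool.Agent.Helper43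

namespace Pool.Agent.HDA

variable {X : Type*} [MetricSpace X] [CompactSpace X] [Nonempty X]
  [TopologicalSpace.SeparableSpace X] {Leg : X → Set X → X → Prop} {c η : ℝ}

theorem st_par (hL : DL X Leg c η) {s : X × X} (hs : s ∈ St Leg c) :
    ∃ f : ℝ → X, Par Leg c s.1 f ∧ ∃ t₁ ∈ Icc (0 : ℝ) 1, f t₁ = s.2 ∧
      wm (f '' Icc 0 t₁) = c / 4 := by
  obtain ⟨A, hA, hw⟩ := hs
  have hc := hL.c_pos
  obtain ⟨f, hf, v, hv, hAv, hfv⟩ := exists_par hL hA (by rw [hw]; linarith)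
  exact ⟨f, hf, v, ⟨hv.1.le, hv.2⟩, hfv, by rw [← hAv, hw]⟩

theorem par_st (hL : DL X Leg c η) {x : X} {f : ℝ → X} (hf : Par Leg c x f) {b e : ℝ}
    (hb : 0 ≤ b) (hbe : b ≤ e) (he : e ≤ 1) (hs : wm (f '' Icc b e) = c / 4) :
    (f b, f e) ∈ St Leg c := by
  have hc := hL.c_pos
  have hne : b ≠ e := by
    rintro rfl
    rw [size_self] at hs
    linarith
  exact ⟨f '' Icc b e, par_leg hL hf hb (lt_of_le_of_ne hbe hne) he, hs⟩

theorem st_surj (hL : DL X Leg c η) (x : X) : ∃ y, (x, y) ∈ St Leg c := by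
  have hc := hL.c_pos
  obtain ⟨f, hf⟩ := exists_par' hL x
  obtain ⟨b, hb, hw⟩ := size_ivt hf.1 (a := 0) le_rfl zero_le_one (r := c / 4) (by positivity)
    (by rw [hf.2.2.2.2]; linarith)
  have h := par_st hL hf le_rfl hb.1 hb.2 hw
  rw [hf.2.2.1] at h
  exact ⟨_, h⟩

theorem st_two (hL : DL X Leg c η) {x y₁ y₂ y₃ : X} (h1 : (x, y₁) ∈ St Leg c)
    (h2 : (x, y₂) ∈ St Leg c) (h3 : (x, y₃) ∈ St Leg c) : y₁ = y₂ ∨ y₁ = y₃ ∨ y₂ = y₃ := by
  have hc := hL.c_pos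
  obtain ⟨F₁, F₂, hF₁, hF₂, -, hloc⟩ := exists_loc hL x
  have key : ∀ y, (x, y) ∈ St Leg c → ∃ F, (F = F₁ ∨ F = F₂) ∧ ∃ v ∈ Icc (0 : ℝ) 1,
      wm (F '' Icc 0 v) = c / 4 ∧ F v = y := by
    rintro y ⟨A, hA, hw⟩
    obtain ⟨F, hF, v, hv, hAv, hFv⟩ := hloc A y hA (by rw [hw]; linarith)
    exact ⟨F, hF, v, ⟨hv.1.le, hv.2⟩, by rw [← hAv, hw], hFv⟩
  have same : ∀ F, (F = F₁ ∨ F = F₂) → ∀ v ∈ Icc (0 : ℝ) 1, ∀ v' ∈ Icc (0 : ℝ) 1,
      wm (F '' Icc 0 v) = c / 4 → wm (F '' Icc 0 v') = c / 4 → F v = F v' := by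
    intro F hF v hv v' hv' hw hw'
    have hP : Par Leg c x F := by
      rcases hF with rfl | rfl
      · exact hF₁
      · exact hF₂
    rw [size_inj hP.1 hP.2.1 le_rfl hv hv' (hw.trans hw'.symm)]
  obtain ⟨G₁, hG₁, v₁, hv₁, hw₁, rfl⟩ := key y₁ h1
  obtain ⟨G₂, hG₂, v₂, hv₂, hw₂, rfl⟩ := key y₂ h2
  obtain ⟨G₃, hG₃, v₃, hv₃, hw₃, rfl⟩ := key y₃ h3
  by_cases e12 : G₁ = G₂
  · subst e12
    exact Or.inl (same _ hG₁ _ hv₁ _ hv₂ hw₁ hw₂)
  by_cases e13 : G₁ = G₃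
  · subst e13
    exact Or.inr (Or.inl (same _ hG₁ _ hv₁ _ hv₃ hw₁ hw₃))
  have e23 : G₂ = G₃ := by
    rcases hG₁ with h | h <;> rcases hG₂ with h' | h' <;> rcases hG₃ with h'' | h''
    · exact h'.trans h''.symm
    · exact absurd (h.trans h'.symm) e12
    · exact absurd (h.trans h''.symm) e13
    · exact h'.trans h''.symm
    · exact h'.trans h''.symm
    · exact absurd (h.trans h''.symm) e13
    · exact absurd (h.trans h'.symm) e12
    · exact h'.trans h''.symm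
  subst e23
  exact Or.inr (Or.inr (same _ hG₂ _ hv₂ _ hv₃ hw₂ hw₃))

/-- the states over points near `x` in terms of the two functions at `x` -/
private theorem pull_st (hom : Hom X) (hL : DL X Leg c η) (x : X) :
    ∃ F₁ F₂ : ℝ → X, Par Leg c x F₁ ∧ Par Leg c x F₂ ∧
      (F₁ = F₂ ∨ F₁ '' Icc 0 1 ∩ F₂ '' Icc 0 1 = {x}) ∧
      ∀ e > 0, ∃ δ > 0, ∀ x', dist x x' < δ → ∃ k : X ≃ₜ X, Sm k e ∧ k x = x' ∧
        ∀ y', (x', y') ∈ St Leg c → ∃ F, (F = F₁ ∨ F = F₂) ∧ ∃ b ∈ Icc (0 : ℝ) 1,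
          y' = k (F b) ∧ wm (k '' (F '' Icc 0 b)) = c / 4 := by
  have hc := hL.c_pos
  obtain ⟨F₁, F₂, h1, h2, h3, hp⟩ := pull hom hL x
  refine ⟨F₁, F₂, h1, h2, h3, fun e he => ?_⟩
  obtain ⟨δ, hδ, hpp⟩ := hp e he
  refine ⟨δ, hδ, fun x' hx' => ?_⟩
  obtain ⟨k, hk, hkx, hkf⟩ := hpp x' hx'
  refine ⟨k, hk, hkx, fun y' hy' => ?_⟩
  obtain ⟨f, hf, t₁, ht₁, hft, hw⟩ := st_par hL hy'
  obtain ⟨F, hF, θ, hθ0, hθ⟩ := hkf f hf
  have hθt := hθ t₁ ht₁ (by rw [hw]; linarith)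
  refine ⟨F, hF, θ t₁, hθt.1, ?_, ?_⟩
  · rw [← hθt.2.1]
    exact hft.symm
  · have h4 := (hθt.2.2 0 ⟨le_rfl, ht₁.1⟩).2
    rw [hθ0] at h4
    rw [← h4, hw]

private theorem size_cont0 {f : ℝ → X} (hf : ContinuousOn f (Icc 0 1)) :
    ∃ φ : ℝ → ℝ, ContinuousOn φ (Icc 0 1) ∧ ∀ b, φ b = wm (f '' Icc 0 b) := by
  have h1 : ContinuousOn (fun b : ℝ => ((0, b) : ℝ × ℝ)) (Icc 0 1) := by fun_prop
  have h2 : MapsTo (fun b : ℝ => ((0, b) : ℝ × ℝ)) (Icc 0 1)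
      {q : ℝ × ℝ | 0 ≤ q.1 ∧ q.1 ≤ q.2 ∧ q.2 ≤ 1} := by
    intro b hb
    exact ⟨le_rfl, hb.1, hb.2⟩
  have h3 := ContinuousOn.comp (size_cont hf) h1 h2
  refine ⟨fun b => wm (f '' Icc 0 b), ?_, fun b => rfl⟩
  simpa only [Function.comp_def] using h3

theorem st_closed (hom : Hom X) (hL : DL X Leg c η) : IsClosed (St Leg c) := by
  have hc := hL.c_pos
  refine isClosed_of_closure_subset fun s hs => ?_
  obtain ⟨x, y⟩ := s
  obtain ⟨F₁, F₂, h1, h2, -, hp⟩ := pull_st hom hL x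
  -- approximate solutions
  have happ : ∀ e > 0, ∃ F, (F = F₁ ∨ F = F₂) ∧ ∃ b ∈ Icc (0 : ℝ) 1,
      |wm (F '' Icc 0 b) - c / 4| + dist (F b) y ≤ 6 * e := by
    intro e he
    obtain ⟨δ, hδ, hpp⟩ := hp e he
    obtain ⟨⟨x', y'⟩, hst, hdist⟩ := Metric.mem_closure_iff.1 hs (min δ e) (lt_min hδ he)
    rw [Prod.dist_eq] at hdist
    have d1 : dist x x' < δ := (le_max_left _ _).trans_lt (hdist.trans_le (min_le_left _ _))
    have d2 : dist y y' < e := (le_max_right _ _).trans_lt (hdist.trans_le (min_le_right _ _))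
    obtain ⟨k, hk, -, hkf⟩ := hpp x' d1
    obtain ⟨F, hF, b, hb, hy, hw⟩ := hkf y' hst
    refine ⟨F, hF, b, hb, ?_⟩
    have h3 := wm_image_close hk (F '' Icc 0 b)
    rw [hw, abs_sub_comm] at h3
    have h4 : dist (F b) y ≤ dist (k (F b)) (F b) + dist y y' := by
      rw [hy, dist_comm (k (F b)) (F b), dist_comm y (k (F b))]
      exact dist_triangle _ _ _
    have h5 := hk (F b)
    linarith
  have hmin : ∀ F : ℝ → X, Par Leg c x F → ∃ b₀ ∈ Icc (0 : ℝ) 1, ∀ b ∈ Icc (0 : ℝ) 1,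
      |wm (F '' Icc 0 b₀) - c / 4| + dist (F b₀) y ≤
        |wm (F '' Icc 0 b) - c / 4| + dist (F b) y := by
    intro F hF
    obtain ⟨φ, hφ, hφe⟩ := size_cont0 hF.1
    have hcont : ContinuousOn (fun b : ℝ => |φ b - c / 4| + dist (F b) y) (Icc 0 1) :=
      ContinuousOn.add (ContinuousOn.abs (ContinuousOn.sub hφ continuousOn_const))
        (continuous_dist.comp_continuousOn (ContinuousOn.prodMk hF.1 continuousOn_const))
    obtain ⟨b₀, hb₀, hm⟩ := isCompact_Icc.exists_isMinOn (nonempty_Icc.2 zero_le_one) hcont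
    refine ⟨b₀, hb₀, fun b hb => ?_⟩
    rw [← hφe, ← hφe]
    exact hm hb
  have hzero : ∀ F : ℝ → X, Par Leg c x F → ∀ b ∈ Icc (0 : ℝ) 1,
      |wm (F '' Icc 0 b) - c / 4| + dist (F b) y ≤ 0 → (x, y) ∈ St Leg c := by
    intro F hF b hb h
    have h3 := abs_nonneg (wm (F '' Icc 0 b) - c / 4)
    have h4 : 0 ≤ dist (F b) y := dist_nonneg
    have h5 : wm (F '' Icc 0 b) = c / 4 := by
      have : |wm (F '' Icc 0 b) - c / 4| = 0 := by linarith
      linarith [abs_eq_zero.1 this]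
    have h6 : F b = y := dist_eq_zero.1 (by linarith)
    have h7 := par_st hL hF le_rfl hb.1 hb.2 h5
    rw [hF.2.2.1, h6] at h7
    exact h7
  obtain ⟨b₁, hb₁, hm₁⟩ := hmin F₁ h1
  obtain ⟨b₂, hb₂, hm₂⟩ := hmin F₂ h2
  by_contra hnot
  have p1 : 0 < |wm (F₁ '' Icc 0 b₁) - c / 4| + dist (F₁ b₁) y := by
    by_contra h
    exact hnot (hzero F₁ h1 b₁ hb₁ (not_lt.1 h))
  have p2 : 0 < |wm (F₂ '' Icc 0 b₂) - c / 4| + dist (F₂ b₂) y := by
    by_contra h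
    exact hnot (hzero F₂ h2 b₂ hb₂ (not_lt.1 h))
  set m₁ := |wm (F₁ '' Icc 0 b₁) - c / 4| + dist (F₁ b₁) y with hm₁d
  set m₂ := |wm (F₂ '' Icc 0 b₂) - c / 4| + dist (F₂ b₂) y with hm₂d
  have hmm : 0 < min m₁ m₂ := lt_min p1 p2
  obtain ⟨F, hF, b, hb, hle⟩ := happ (min m₁ m₂ / 12) (by positivity)
  have hlt : 6 * (min m₁ m₂ / 12) < min m₁ m₂ := by linarith
  rcases hF with rfl | rfl
  · have := hm₁ b hb
    have := min_le_left m₁ m₂
    linarith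
  · have := hm₂ b hb
    have := min_le_right m₁ m₂
    linarith

/-- local form of `st_inj` -/
private theorem st_inj_loc (hom : Hom X) (hL : DL X Leg c η) (x : X) :
    ∃ δ > 0, ∃ κ > 0, ∀ x', dist x x' < δ → ∀ y y' : X, (x', y) ∈ St Leg c →
      (x', y') ∈ St Leg c → dist y y' < κ → y = y' := by
  have hc := hL.c_pos
  obtain ⟨F₁, F₂, h1, h2, h3, hp⟩ := pull_st hom hL x
  have same : ∀ F : ℝ → X, Par Leg c x F → ∀ (k : X ≃ₜ X) (b b' : ℝ), b ∈ Icc (0 : ℝ) 1 →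
      b' ∈ Icc (0 : ℝ) 1 → wm (k '' (F '' Icc 0 b)) = c / 4 →
      wm (k '' (F '' Icc 0 b')) = c / 4 → b = b' := by
    intro F hF k b b' hb hb' hw hw'
    refine size_inj (f := k ∘ F) (k.continuous.comp_continuousOn hF.1)
      (k.injective.comp_injOn hF.2.1) le_rfl hb hb' ?_
    rw [image_comp, image_comp, hw, hw']
  have samey : ∀ F : ℝ → X, (F = F₁ ∨ F = F₂) → ∀ (k : X ≃ₜ X) (b b' : ℝ) (y y' : X),
      b ∈ Icc (0 : ℝ) 1 → b' ∈ Icc (0 : ℝ) 1 → y = k (F b) → y' = k (F b') →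
      wm (k '' (F '' Icc 0 b)) = c / 4 → wm (k '' (F '' Icc 0 b')) = c / 4 → y = y' := by
    intro F hF k b b' y y' hb hb' hy hy' hw hw'
    have hP : Par Leg c x F := by
      rcases hF with rfl | rfl
      · exact h1
      · exact h2
    rw [hy, hy', same F hP k b b' hb hb' hw hw']
  by_cases h12 : F₁ = F₂
  · obtain ⟨δ, hδ, hpp⟩ := hp 1 one_pos
    refine ⟨δ, hδ, 1, one_pos, fun x' hx' y y' hy hy' _ => ?_⟩
    obtain ⟨k, -, -, hkf⟩ := hpp x' hx'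
    obtain ⟨F, hF, b, hb, hyb, hw⟩ := hkf y hy
    obtain ⟨F', hF', b', hb', hyb', hw'⟩ := hkf y' hy'
    have hFF : F = F' := by
      rcases hF with rfl | rfl <;> rcases hF' with rfl | rfl
      · rfl
      · exact h12
      · exact h12.symm
      · rfl
    subst hFF
    exact samey F hF k b b' y y' hb hb' hyb hyb' hw hw'
  · have hint : F₁ '' Icc 0 1 ∩ F₂ '' Icc 0 1 = {x} := h3.resolve_left h12
    -- the minimum of the distance
    obtain ⟨φ₁, hφ₁, hφe₁⟩ := size_cont0 h1.1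
    obtain ⟨φ₂, hφ₂, hφe₂⟩ := size_cont0 h2.1
    have hcont : ContinuousOn (fun q : ℝ × ℝ => |φ₁ q.1 - c / 4| +
        |φ₂ q.2 - c / 4| + dist (F₁ q.1) (F₂ q.2)) (Icc 0 1 ×ˢ Icc 0 1) := by
      have g1 : ContinuousOn (fun q : ℝ × ℝ => q.1) (Icc (0 : ℝ) 1 ×ˢ Icc (0 : ℝ) 1) :=
        continuousOn_fst
      have g2 : ContinuousOn (fun q : ℝ × ℝ => q.2) (Icc (0 : ℝ) 1 ×ˢ Icc (0 : ℝ) 1) :=
        continuousOn_snd
      have m1 : MapsTo (fun q : ℝ × ℝ => q.1) (Icc (0 : ℝ) 1 ×ˢ Icc (0 : ℝ) 1) (Icc 0 1) :=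
        fun q hq => hq.1
      have m2 : MapsTo (fun q : ℝ × ℝ => q.2) (Icc (0 : ℝ) 1 ×ˢ Icc (0 : ℝ) 1) (Icc 0 1) :=
        fun q hq => hq.2
      have a1 : ContinuousOn (fun q : ℝ × ℝ => φ₁ q.1)
          (Icc (0 : ℝ) 1 ×ˢ Icc (0 : ℝ) 1) := ContinuousOn.comp hφ₁ g1 m1
      have a2 : ContinuousOn (fun q : ℝ × ℝ => φ₂ q.2)
          (Icc (0 : ℝ) 1 ×ˢ Icc (0 : ℝ) 1) := ContinuousOn.comp hφ₂ g2 m2
      have a3 : ContinuousOn (fun q : ℝ × ℝ => F₁ q.1)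
          (Icc (0 : ℝ) 1 ×ˢ Icc (0 : ℝ) 1) := ContinuousOn.comp h1.1 g1 m1
      have a4 : ContinuousOn (fun q : ℝ × ℝ => F₂ q.2)
          (Icc (0 : ℝ) 1 ×ˢ Icc (0 : ℝ) 1) := ContinuousOn.comp h2.1 g2 m2
      exact ContinuousOn.add (ContinuousOn.add
        (ContinuousOn.abs (ContinuousOn.sub a1 continuousOn_const))
        (ContinuousOn.abs (ContinuousOn.sub a2 continuousOn_const))) (continuous_dist.comp_continuousOn (ContinuousOn.prodMk a3 a4))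
    obtain ⟨q₀, hq₀, hmin⟩ := (isCompact_Icc.prod isCompact_Icc).exists_isMinOn
      (⟨(0, 0), ⟨⟨le_rfl, zero_le_one⟩, ⟨le_rfl, zero_le_one⟩⟩⟩ :
        (Icc (0 : ℝ) 1 ×ˢ Icc (0 : ℝ) 1).Nonempty) hcont
    set M : ℝ := |wm (F₁ '' Icc 0 q₀.1) - c / 4| + |wm (F₂ '' Icc 0 q₀.2) - c / 4| +
      dist (F₁ q₀.1) (F₂ q₀.2) with hM
    have hM' : ∀ b ∈ Icc (0 : ℝ) 1, ∀ b' ∈ Icc (0 : ℝ) 1, M ≤ |wm (F₁ '' Icc 0 b) - c / 4| +
        |wm (F₂ '' Icc 0 b') - c / 4| + dist (F₁ b) (F₂ b') := by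
      intro b hb b' hb'
      rw [hM, ← hφe₁, ← hφe₁, ← hφe₂, ← hφe₂]
      exact hmin (show ((b, b') : ℝ × ℝ) ∈ Icc (0 : ℝ) 1 ×ˢ Icc (0 : ℝ) 1 from ⟨hb, hb'⟩)
    have hMpos : 0 < M := by
      by_contra hle
      have e1 := abs_nonneg (wm (F₁ '' Icc 0 q₀.1) - c / 4)
      have e2 := abs_nonneg (wm (F₂ '' Icc 0 q₀.2) - c / 4)
      have e3 : 0 ≤ dist (F₁ q₀.1) (F₂ q₀.2) := dist_nonneg
      have e4 : M ≤ 0 := not_lt.1 hle
      have e5 : F₁ q₀.1 = F₂ q₀.2 := dist_eq_zero.1 (by linarith)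
      have e6 : wm (F₁ '' Icc 0 q₀.1) = c / 4 := by
        have : |wm (F₁ '' Icc 0 q₀.1) - c / 4| = 0 := by linarith
        linarith [abs_eq_zero.1 this]
      have e7 : F₁ q₀.1 ∈ F₁ '' Icc 0 1 ∩ F₂ '' Icc 0 1 :=
        ⟨⟨_, hq₀.1, rfl⟩, e5 ▸ ⟨_, hq₀.2, rfl⟩⟩
      rw [hint] at e7
      have e8 : F₁ q₀.1 = F₁ 0 := by
        rw [h1.2.2.1]
        exact e7
      have e9 : q₀.1 = 0 := h1.2.1 hq₀.1 ⟨le_rfl, zero_le_one⟩ e8
      rw [e9, size_self] at e6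
      linarith
    obtain ⟨δ, hδ, hpp⟩ := hp (M / 20) (by positivity)
    refine ⟨δ, hδ, M / 20, by positivity, fun x' hx' y y' hy hy' hyy => ?_⟩
    obtain ⟨k, hk, -, hkf⟩ := hpp x' hx'
    obtain ⟨F, hF, b, hb, hyb, hw⟩ := hkf y hy
    obtain ⟨F', hF', b', hb', hyb', hw'⟩ := hkf y' hy'
    have hfar : ∀ b ∈ Icc (0 : ℝ) 1, ∀ b' ∈ Icc (0 : ℝ) 1,
        wm (k '' (F₁ '' Icc 0 b)) = c / 4 → wm (k '' (F₂ '' Icc 0 b')) = c / 4 →
        M / 20 ≤ dist (k (F₁ b)) (k (F₂ b')) := by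
      intro b hb b' hb' hw hw'
      have e1 := wm_image_close hk (F₁ '' Icc 0 b)
      have e2 := wm_image_close hk (F₂ '' Icc 0 b')
      rw [hw, abs_sub_comm] at e1
      rw [hw', abs_sub_comm] at e2
      have e3 := hM' b hb b' hb'
      have e4 := hk (F₁ b)
      have e5 := hk (F₂ b')
      have e6 : dist (F₁ b) (F₂ b') ≤ dist (k (F₁ b)) (F₁ b) + dist (k (F₁ b)) (k (F₂ b')) +
          dist (k (F₂ b')) (F₂ b') := by
        have e7 := dist_triangle4 (F₁ b) (k (F₁ b)) (k (F₂ b')) (F₂ b')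
        rw [dist_comm (F₁ b) (k (F₁ b))] at e7
        exact e7
      linarith
    rcases hF with rfl | rfl <;> rcases hF' with rfl | rfl
    · exact samey _ (Or.inl rfl) k b b' y y' hb hb' hyb hyb' hw hw'
    · exfalso
      have := hfar b hb b' hb' hw hw'
      rw [← hyb, ← hyb'] at this
      linarith
    · exfalso
      have := hfar b' hb' b hb hw' hw
      rw [← hyb, ← hyb', dist_comm] at this
      linarith
    · exact samey _ (Or.inr rfl) k b b' y y' hb hb' hyb hyb' hw hw'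

theorem st_inj (hom : Hom X) (hL : DL X Leg c η) :
    ∃ κ > 0, ∀ x y y' : X, (x, y) ∈ St Leg c → (x, y') ∈ St Leg c → dist y y' < κ → y = y' := by
  have h := isCompact_univ.eventually_forall_of_forall_eventually (x₀ := (0 : ℝ))
    (K := (univ : Set X)) (P := fun κ x' => ∀ y y' : X, (x', y) ∈ St Leg c →
      (x', y') ∈ St Leg c → dist y y' < κ → y = y') (by
    intro x _
    obtain ⟨δ, hδ, κ, hκ, hx⟩ := st_inj_loc hom hL x
    have h1 : ∀ᶠ z : ℝ × X in 𝓝 (0, x), z.1 < κ :=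
      (continuous_fst.tendsto ((0 : ℝ), x)).eventually (gt_mem_nhds hκ)
    have h2 : ∀ᶠ z : ℝ × X in 𝓝 (0, x), dist x z.2 < δ := by
      have h3 : Continuous fun z : ℝ × X => dist x z.2 := by fun_prop
      have h4 := (h3.tendsto ((0 : ℝ), x)).eventually
        (gt_mem_nhds (show dist x ((0 : ℝ), x).2 < δ by simpa using hδ))
      exact h4
    filter_upwards [h1, h2] with z hz1 hz2 y y' hy hy' hd
    exact hx z.2 hz2 y y' hy hy' (hd.trans hz1))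
  obtain ⟨κ, hκ, hκ0⟩ := ((h.filter_mono (nhdsWithin_le_nhds (s := Ioi 0))).and
    self_mem_nhdsWithin).exists
  exact ⟨κ, hκ0, fun x y y' hy hy' hd => hκ x (mem_univ x) y y' hy hy' hd⟩

theorem st_open (hom : Hom X) (hL : DL X Leg c η) {s : X × X} (hs : s ∈ St Leg c) {e : ℝ}
    (he : 0 < e) : ∃ δ > 0, ∀ x', dist s.1 x' < δ → ∃ y', (x', y') ∈ St Leg c ∧
      dist y' s.2 < e := by
  have hc := hL.c_pos
  have hη := hL.η_pos
  obtain ⟨f, hf, t₁, ht₁, hft, hw⟩ := st_par hL hs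
  have hf0 : f 0 = s.1 := hf.2.2.1
  obtain ⟨ε₁, hε₁, hcl⟩ := Metric.continuousOn_iff.1 hf.1 t₁ ht₁ (e / 2) (by positivity)
  obtain ⟨δ₁, hδ₁, hsz⟩ := size_close hf.1 hf.2.1 ht₁ hε₁
  set e' : ℝ := min (e / 2) (min η (min (c / 16) (δ₁ / 8))) with he'
  have he'0 : 0 < e' := lt_min (by positivity) (lt_min hη (lt_min (by positivity) (by positivity)))
  have b1 : e' ≤ e / 2 := min_le_left _ _
  have b2 : e' ≤ η := (min_le_right _ _).trans (min_le_left _ _)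
  have b3 : e' ≤ c / 16 := ((min_le_right _ _).trans (min_le_right _ _)).trans (min_le_left _ _)
  have b4 : e' ≤ δ₁ / 8 := ((min_le_right _ _).trans (min_le_right _ _)).trans (min_le_right _ _)
  obtain ⟨δ, hδ, heff⟩ := effros hom he'0
  refine ⟨δ, hδ, fun x' hx' => ?_⟩
  obtain ⟨k, hk, hkx⟩ := heff s.1 x' hx'
  have hkc : ContinuousOn (k ∘ f) (Icc 0 1) := k.continuous.comp_continuousOn hf.1
  have h1 : c / 4 ≤ wm ((k ∘ f) '' Icc 0 1) := by
    have h2 := wm_image_close hk (f '' Icc 0 1)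
    rw [hf.2.2.2.2, ← image_comp] at h2
    have h3 := (abs_le.1 h2).1
    linarith
  obtain ⟨b, hb, hwb⟩ := size_ivt hkc le_rfl zero_le_one (by positivity : (0 : ℝ) ≤ c / 4) h1
  have hb0 : 0 < b := by
    rcases lt_or_eq_of_le hb.1 with h | h
    · exact h
    · exfalso
      rw [← h, size_self] at hwb
      linarith
  have h2 := wm_image_close hk (f '' Icc 0 b)
  rw [← image_comp, hwb] at h2
  have h3 : |wm (f '' Icc 0 b) - wm (f '' Icc 0 t₁)| < δ₁ := by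
    rw [hw, abs_sub_comm]
    linarith
  have h4 := hsz b hb h3
  have h5 : dist (f b) (f t₁) < e / 2 := hcl b hb (by rw [Real.dist_eq]; exact h4)
  have h6 : wm (f '' Icc 0 b) ≤ c := by
    rw [← hf.2.2.2.2]
    exact size_le le_rfl hb.2
  have h7 := hL.hom k _ _ _ (hk.mono b2) (par_leg hL hf le_rfl hb0 hb.2) h6
  rw [hf0, hkx] at h7
  refine ⟨k (f b), ⟨k '' (f '' Icc 0 b), h7, ?_⟩, ?_⟩
  · rw [← image_comp]
    exact hwb
  · rw [← hft]
    have h8 := dist_triangle (k (f b)) (f b) (f t₁)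
    have h9 := hk (f b)
    linarith

end Pool.Agent.HDA
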