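import Mathlib
import Pool.Agent.HDA.State

/-!
# HDA module LIFT: lifting a small homeomorphism to the space of states (relational form)

See `Lf` in Defs. For a homeomorphism `h` and `Par Leg c x f` the function `h ∘ f` is continuous and
injective on `Icc 0 1`, so all lemmas of SIZE apply to it (`image_comp`).
* `lf_exists`: `st_par` gives `f, t₁`. `wm (h '' (f '' Icc 0 1)) ≥ c - 4 δ ≥ c / 4` (`wm_image_close`);
  `size_ivt` for `h ∘ f` gives `t₂` with `wm (h '' (f '' Icc 0 t₂)) = c / 4`, `t₂ > 0`. `f '' Icc 0 t₂` is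
  legal (`par_leg`), of size `≤ c`, so `hL.hom` gives `Leg (h x) (h '' ...) (h (f t₂))`, so
  `s' = (h x, h (f t₂)) ∈ St`.
* `lf_repr`: let `g, t₁', t₂'` be as in the definition of `Lf`; `f t₁ = s.2 = g t₁'`, `t₁, t₁' > 0`;
  `par_eq` gives `θ`; take `t₂ = θ t₂'` (`f 0 = g 0 = s.1`).
* `lf_unique`: by `lf_repr` with the `f, t₁` of the first one; `size_inj` for `h ∘ f`.
* `lf_symm`: `f, t₁, t₂` from the definition. `size_ivt`: `τ` with `wm (f '' Icc 0 τ) = 3c/4`;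
  `t₁ ≤ τ` and `t₂ ≤ τ` (`wm (f '' Icc 0 t₂) ≤ c/4 + 4 δ < 3c/4`; `size_lt`). `D = f '' Icc 0 τ`;
  `hL.hom`: `Leg (h s.1) (h '' D) (h (f τ))`, size `≤ 3c/4 + 4δ ≤ c`. `exists_par`: `g` with
  `Par Leg c (h s.1) g`, `h '' D = g '' Icc 0 v`. `reparam` (`g` in the role of `f`, `h ∘ f` on `Icc 0 τ` in
  the role of `g`) gives `θ`. Then `Lf Leg c h.symm s' s` with `g`, `θ t₂`, `θ t₁`:
  `g (θ t₂) = h (f t₂) = s'.2`, `wm (g '' Icc 0 (θ t₂)) = wm (h '' (f '' Icc 0 t₂)) = c/4`,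
  `h.symm (g 0) = s.1`, `h.symm (g (θ t₁)) = f t₁ = s.2`,
  `h.symm '' (g '' Icc 0 (θ t₁)) = f '' Icc 0 t₁`, of size `c / 4`.
* `lf_closed`: as in MVCL: `(s n, s' n) → (s, s')`, `x = s.1`, `pull` at `x`, `k j`; `f, t₁, t₂` for
  `Lf h (s (n j)) (s' (n j))`; `wm (f '' Icc 0 t₂) ≤ c/4 + 4δ ≤ 3c/4`; `a j = θ t₁`, `b j = θ t₂`,
  subsequence with `F` constant, `a j → a`, `b j → b`. `wm (F '' Icc 0 a) = c/4`, `F a = s.2`; `f t₂ =
  k (F (b j))` with `dist (f t₂) (F (b j)) < 1/(j+1)`, so `f t₂ → F b` and `h (F b) = lim s' = s'.2`;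
  `h (F 0) = h x = s'.1`; `wm (h '' (f '' Icc 0 t₂)) = wm ((h ∘ k) '' (F '' Icc 0 (b j)))` differs from
  `wm (h '' (F '' Icc 0 (b j)))` by at most `4 ω_j`, `ω_j = ` the modulus of continuity of `h` at
  `1/(j+1)`, tending to `0` (`wm_close`); by `size_cont` for `h ∘ F`, `wm (h '' (F '' Icc 0 b)) = c/4`.
  So `Lf h s s'` with `F, a, b`. `s ∈ St` by `st_closed`.
* `lf_small`: `diam_lt_of_wm` for `ε / 2` gives `ε'`; `size_unif` for `ε'` gives `δ₁`; `δ` smaller than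
  `δ₁ / 8`, `c / 64`, `ε / 4`. For `Lf h s s'` with `f, t₁, t₂`: `|wm (f '' Icc 0 t₂) - c/4| ≤ 4 δ`, so with
  `t = min t₁ t₂`, `t' = max t₁ t₂`, `size_unif` gives `wm (f '' Icc t t') < ε'`, so
  `dist (f t₁) (f t₂) < ε/2`, `dist (h (f t₂)) (f t₁) < ε / 2 + δ < ε` and `dist (h (f 0)) (f 0) < δ < ε`.
About 250 lines.
-/

set_option autoImplicit false

open Set Topology Filter Metric Pool.Agent.HDC Pool.Agent.Helper43

namespace Pool.Agent.HDA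

variable {X : Type*} [MetricSpace X] [CompactSpace X] [Nonempty X]
  [TopologicalSpace.SeparableSpace X] {Leg : X → Set X → X → Prop} {c η : ℝ}

private lemma pos_of_size (hc : 0 < c) {f : ℝ → X} {t : ℝ} (ht : 0 ≤ t)
    (h : wm (f '' Icc 0 t) = c / 4) : 0 < t := by
  rcases lt_or_eq_of_le ht with h' | h'
  · exact h'
  · exfalso
    rw [← h', size_self] at h
    linarith

theorem lf_exists (hL : DL X Leg c η) {h : X ≃ₜ X} {δ : ℝ} (hh : Sm h δ) (h1 : δ ≤ η)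
    (h2 : δ ≤ c / 64) {s : X × X} (hs : s ∈ St Leg c) : ∃ s' ∈ St Leg c, Lf Leg c h s s' := by
  have hc := hL.c_pos
  obtain ⟨f, hf, t₁, ht₁, hft, hwt⟩ := st_par hL hs
  have hcont : ContinuousOn (h ∘ f) (Icc 0 1) := h.continuous.comp_continuousOn hf.1
  have hw1 : c / 4 ≤ wm ((h ∘ f) '' Icc 0 1) := by
    have h3 := wm_image_close hh (f '' Icc 0 1)
    rw [← image_comp, hf.2.2.2.2, abs_le] at h3
    linarith [h3.1]
  obtain ⟨t₂, ht₂, hw₂⟩ := size_ivt hcont le_rfl zero_le_one (r := c / 4) (by positivity) hw1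
  have ht20 : 0 < t₂ := pos_of_size hc ht₂.1 hw₂
  have hleg := par_leg hL hf le_rfl ht20 ht₂.2
  have hsz : wm (f '' Icc 0 t₂) ≤ c := (size_le le_rfl ht₂.2).trans hf.2.2.2.2.le
  have hleg' := hL.hom h _ _ _ (hh.mono h1) hleg hsz
  refine ⟨(h s.1, h (f t₂)), ⟨h '' (f '' Icc 0 t₂), ?_, ?_⟩, f, hf, t₁, ht₁, t₂, ht₂, hft, hwt,
    ?_, rfl, ?_⟩
  · rw [hf.2.2.1] at hleg'
    exact hleg'
  · rw [← image_comp]
    exact hw₂
  · rw [hf.2.2.1]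
  · rw [← image_comp]
    exact hw₂

theorem lf_repr (hL : DL X Leg c η) {h : X ≃ₜ X} {s s' : X × X} (hl : Lf Leg c h s s')
    {f : ℝ → X} (hf : Par Leg c s.1 f) {t₁ : ℝ} (ht₁ : t₁ ∈ Icc (0 : ℝ) 1) (h1 : f t₁ = s.2)
    (h2 : wm (f '' Icc 0 t₁) = c / 4) :
    ∃ t₂ ∈ Icc (0 : ℝ) 1, s' = (h (f 0), h (f t₂)) ∧ wm (h '' (f '' Icc 0 t₂)) = c / 4 := by
  have hc := hL.c_pos
  obtain ⟨g, hg, t₁', ht₁', t₂', ht₂', hg1, hgw, hg0, hg2, hgw2⟩ := hl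
  have p1 : 0 < t₁ := pos_of_size hc ht₁.1 h2
  have p2 : 0 < t₁' := pos_of_size hc ht₁'.1 hgw
  obtain ⟨θ, hθm, hθ0, hθ1, hθmaps, hθf, hθim⟩ :=
    par_eq hL hf hg ⟨p1, ht₁.2⟩ ⟨p2, ht₁'.2⟩ (h1.trans hg1.symm)
  refine ⟨θ t₂', hθmaps ht₂', ?_, ?_⟩
  · refine Prod.ext ?_ ?_
    · change s'.1 = h (f 0)
      rw [hf.2.2.1, ← hg0, hg.2.2.1]
    · change s'.2 = h (f (θ t₂'))
      rw [← hθf _ ht₂', hg2]
  · have h3 := hθim 0 t₂' le_rfl ht₂'.1 ht₂'.2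
    rw [hθ0] at h3
    rw [← h3]
    exact hgw2

theorem lf_unique (hL : DL X Leg c η) {h : X ≃ₜ X} {s s' s'' : X × X} (hl : Lf Leg c h s s')
    (hl' : Lf Leg c h s s'') : s' = s'' := by
  obtain ⟨f, hf, t₁, ht₁, _, _, h1, hw1, _⟩ := id hl
  obtain ⟨a, ha, hsa, hwa⟩ := lf_repr hL hl hf ht₁ h1 hw1
  obtain ⟨b, hb, hsb, hwb⟩ := lf_repr hL hl' hf ht₁ h1 hw1
  have hab : a = b := by
    apply size_inj (h.continuous.comp_continuousOn hf.1) (h.injective.comp_injOn hf.2.1) le_rfl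
      ha hb
    rw [image_comp, image_comp, hwa, hwb]
  rw [hsa, hsb, hab]

theorem lf_symm (hL : DL X Leg c η) {h : X ≃ₜ X} {δ : ℝ} (hh : Sm h δ) (h1 : δ ≤ η)
    (h2 : δ ≤ c / 64) {s s' : X × X} (hl : Lf Leg c h s s') : Lf Leg c h.symm s' s := by
  have hc := hL.c_pos
  obtain ⟨f, hf, t₁, ht₁, t₂, ht₂, hf1, hw1, hs1, hs2, hw2⟩ := hl
  obtain ⟨τ, hτ, hτw⟩ := size_ivt hf.1 le_rfl zero_le_one (r := 3 * c / 4) (by positivity)
    (by rw [hf.2.2.2.2]; linarith)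
  have le_τ : ∀ t ∈ Icc (0 : ℝ) 1, wm (f '' Icc 0 t) < 3 * c / 4 → t ≤ τ := by
    intro t ht hlt
    by_contra hcon
    rw [not_le] at hcon
    have h3 := size_lt hf.1 hf.2.1 (a := 0) (b := t) (a' := 0) (b' := τ) le_rfl le_rfl hτ.1
      hcon.le ht.2 (Or.inr hcon)
    linarith
  have hw2' : wm (f '' Icc 0 t₂) < 3 * c / 4 := by
    have h3 := wm_image_close hh (f '' Icc 0 t₂)
    rw [hw2, abs_le] at h3
    linarith [h3.1, h3.2]
  have ht1τ := le_τ t₁ ht₁ (by rw [hw1]; linarith)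
  have ht2τ := le_τ t₂ ht₂ hw2'
  have hτ0 : 0 < τ := (pos_of_size hc ht₁.1 hw1).trans_le ht1τ
  have hD := par_leg hL hf le_rfl hτ0 hτ.2
  have hD' := hL.hom h _ _ _ (hh.mono h1) hD (by rw [hτw]; linarith)
  have hwD : wm (h '' (f '' Icc 0 τ)) ≤ c := by
    have h3 := wm_image_close hh (f '' Icc 0 τ)
    rw [hτw, abs_le] at h3
    linarith [h3.2]
  obtain ⟨g, hg, v, hv, hgim, hgv⟩ := exists_par hL hD' hwD
  rw [hs1] at hg
  obtain ⟨θ, -, hθm, hθ0, hθmaps, hθf, hθim⟩ := reparam (f := g) (g := h ∘ f) hg.1 hg.2.1 hτ.1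
    ((h.continuous.comp_continuousOn hf.1).mono (Icc_subset_Icc le_rfl hτ.2))
    ((h.injective.comp_injOn hf.2.1).mono (Icc_subset_Icc le_rfl hτ.2))
    (by
      rw [image_comp, hgim]
      exact image_mono (Icc_subset_Icc le_rfl hv.2))
    (by rw [Function.comp_apply, hs1, hg.2.2.1])
  refine ⟨g, hg, θ t₂, hθmaps ⟨ht₂.1, ht2τ⟩, θ t₁, hθmaps ⟨ht₁.1, ht1τ⟩, ?_, ?_, ?_, ?_, ?_⟩
  · rw [← hθf _ ⟨ht₂.1, ht2τ⟩]
    exact hs2
  · have h3 := hθim 0 t₂ le_rfl ht₂.1 ht2τ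
    rw [hθ0] at h3
    rw [← h3, image_comp]
    exact hw2
  · rw [hg.2.2.1, ← hs1, h.symm_apply_apply, hf.2.2.1]
  · rw [← hθf _ ⟨ht₁.1, ht1τ⟩, Function.comp_apply, h.symm_apply_apply]
    exact hf1
  · have h3 := hθim 0 t₁ le_rfl ht₁.1 ht1τ
    rw [hθ0] at h3
    rw [← h3, ← image_comp]
    have h4 : (h.symm : X → X) ∘ ((h : X → X) ∘ f) = f := by
      funext y
      exact h.symm_apply_apply _
    rw [h4]
    exact hw1

private lemma zero_of_small {G : ℝ × ℝ → ℝ} (hG : ContinuousOn G (Icc 0 1 ×ˢ Icc 0 1))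
    (h : ∀ p ∈ Icc (0 : ℝ) 1 ×ˢ Icc (0 : ℝ) 1, 0 < G p) :
    ∃ ε > 0, ∀ p ∈ Icc (0 : ℝ) 1 ×ˢ Icc (0 : ℝ) 1, ε ≤ G p := by
  obtain ⟨p, hp, hmin⟩ := (isCompact_Icc.prod isCompact_Icc).exists_isMinOn
    (⟨((0 : ℝ), (0 : ℝ)), ⟨⟨le_rfl, zero_le_one⟩, ⟨le_rfl, zero_le_one⟩⟩⟩ :
      (Icc (0 : ℝ) 1 ×ˢ Icc (0 : ℝ) 1).Nonempty) hG
  exact ⟨G p, h p hp, fun q hq => hmin hq⟩

private lemma wm_cont_zero {F : ℝ → X} (hF : ContinuousOn F (Icc 0 1)) :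
    ContinuousOn (fun b => wm (F '' Icc 0 b)) (Icc 0 1) := by
  have h := (size_cont hF).comp (s := Icc 0 1) (f := fun b => ((0 : ℝ), b))
    (continuous_const.prodMk continuous_id).continuousOn (fun b hb => ⟨le_rfl, hb.1, hb.2⟩)
  exact h

theorem lf_closed (hom : Hom X) (hL : DL X Leg c η) {h : X ≃ₜ X} {δ : ℝ} (hh : Sm h δ)
    (h1 : δ ≤ η) (h2 : δ ≤ c / 64) :
    IsClosed {q : (X × X) × (X × X) | q.1 ∈ St Leg c ∧ Lf Leg c h q.1 q.2} := by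
  have hc := hL.c_pos
  apply IsSeqClosed.isClosed
  intro q q₀ hq hlim
  have hst : q₀.1 ∈ St Leg c := (st_closed hom hL).isSeqClosed (fun n => (hq n).1)
    ((continuous_fst.tendsto q₀).comp hlim)
  refine ⟨hst, ?_⟩
  obtain ⟨F₁, F₂, hF₁, hF₂, -, hp⟩ := pull hom hL q₀.1.1
  -- the first coordinate
  have hfirst : h q₀.1.1 = q₀.2.1 := by
    have e1 : ∀ n, h (q n).1.1 = (q n).2.1 := by
      intro n
      obtain ⟨f, hf, t₁, -, t₂, -, -, -, h3, -⟩ := (hq n).2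
      rw [← h3, hf.2.2.1]
    have e2 : Tendsto (fun n => h (q n).1.1) atTop (𝓝 (h q₀.1.1)) :=
      ((h.continuous.comp (continuous_fst.comp continuous_fst)).tendsto q₀).comp hlim
    have e3 : Tendsto (fun n => (q n).2.1) atTop (𝓝 q₀.2.1) :=
      ((continuous_fst.comp continuous_snd).tendsto q₀).comp hlim
    simp only [e1] at e2
    exact tendsto_nhds_unique e2 e3
  -- approximate solutions
  have happ : ∀ ε > 0, ∃ F, (F = F₁ ∨ F = F₂) ∧ ∃ p ∈ Icc (0 : ℝ) 1 ×ˢ Icc (0 : ℝ) 1,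
      dist (F p.1) q₀.1.2 + |wm (F '' Icc 0 p.1) - c / 4| +
        (dist (h (F p.2)) q₀.2.2 + |wm ((h ∘ F) '' Icc 0 p.2) - c / 4|) < ε := by
    intro ε hε
    have hu := CompactSpace.uniformContinuous_of_continuous h.continuous
    rw [Metric.uniformContinuous_iff] at hu
    obtain ⟨δ', hδ', hu⟩ := hu (ε / 64) (by positivity)
    set e := min δ' (ε / 64) with he
    have he0 : 0 < e := lt_min hδ' (by positivity)
    have he1 : e ≤ δ' := min_le_left _ _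
    have he2 : e ≤ ε / 64 := min_le_right _ _
    obtain ⟨ρ, hρ, hpρ⟩ := hp e he0
    rw [Metric.tendsto_atTop] at hlim
    obtain ⟨N, hN⟩ := hlim (min ρ e) (lt_min hρ he0)
    have hN' := hN N le_rfl
    rw [lt_min_iff] at hN'
    have d1 : dist (q N).1 q₀.1 ≤ dist (q N) q₀ := le_max_left _ _
    have d2 : dist (q N).2 q₀.2 ≤ dist (q N) q₀ := le_max_right _ _
    have d11 : dist (q N).1.1 q₀.1.1 ≤ dist (q N).1 q₀.1 := le_max_left _ _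
    have d12 : dist (q N).1.2 q₀.1.2 ≤ dist (q N).1 q₀.1 := le_max_right _ _
    have d22 : dist (q N).2.2 q₀.2.2 ≤ dist (q N).2 q₀.2 := le_max_right _ _
    obtain ⟨k, hk, hkx, hkf⟩ := hpρ (q N).1.1 (by rw [dist_comm]; linarith [hN'.1])
    obtain ⟨f, hf, t₁, ht₁, t₂, ht₂, hf1, hw1, hs1, hs2, hw2⟩ := (hq N).2
    obtain ⟨F, hF, θ, hθ0, hθ⟩ := hkf f hf
    have hw2' : wm (f '' Icc 0 t₂) ≤ 3 * c / 4 := by
      have h3 := wm_image_close hh (f '' Icc 0 t₂)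
      rw [hw2, abs_le] at h3
      linarith [h3.1, h3.2]
    obtain ⟨a1, a2, a3⟩ := hθ t₁ ht₁ (by rw [hw1]; linarith)
    obtain ⟨b1, b2, b3⟩ := hθ t₂ ht₂ hw2'
    obtain ⟨-, a4⟩ := a3 0 ⟨le_rfl, ht₁.1⟩
    obtain ⟨-, b4⟩ := b3 0 ⟨le_rfl, ht₂.1⟩
    rw [hθ0] at a4 b4
    refine ⟨F, hF, (θ t₁, θ t₂), ⟨a1, b1⟩, ?_⟩
    change dist (F (θ t₁)) q₀.1.2 + |wm (F '' Icc 0 (θ t₁)) - c / 4| +
        (dist (h (F (θ t₂))) q₀.2.2 + |wm ((h ∘ F) '' Icc 0 (θ t₂)) - c / 4|) < ε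
    have g1 : dist (F (θ t₁)) q₀.1.2 ≤ ε / 16 := by
      have h3 := dist_triangle (F (θ t₁)) (k (F (θ t₁))) q₀.1.2
      have h4 := hk (F (θ t₁))
      rw [dist_comm] at h4
      rw [← a2, hf1] at h3 h4
      linarith [hN'.2]
    have g2 : |wm (F '' Icc 0 (θ t₁)) - c / 4| ≤ ε / 16 := by
      have h3 := wm_image_close hk (F '' Icc 0 (θ t₁))
      rw [← a4, hw1, abs_sub_comm] at h3
      linarith
    have hd : ∀ y, dist (h (k y)) (h y) < ε / 64 := fun y => hu ((hk y).trans_le he1)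
    have g3 : dist (h (F (θ t₂))) q₀.2.2 ≤ ε / 16 := by
      have h3 := dist_triangle (h (F (θ t₂))) (h (k (F (θ t₂)))) q₀.2.2
      have h4 := hd (F (θ t₂))
      rw [dist_comm] at h4
      rw [← b2, hs2] at h3 h4
      linarith [hN'.2]
    have g4 : |wm ((h ∘ F) '' Icc 0 (θ t₂)) - c / 4| ≤ ε / 16 := by
      have h3 := wm_close (g₁ := (h ∘ F)) (g₂ := h ∘ (k ∘ F)) (δ := ε / 64) (by positivity)
        (Z := Icc 0 (θ t₂)) (fun z _ => by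
          rw [dist_comm]
          exact (hd (F z)).le)
      rw [image_comp h (k ∘ F), image_comp k F, ← b4, hw2] at h3
      linarith
    linarith
  -- continuity
  have hcont : ∀ F, Par Leg c q₀.1.1 F → ContinuousOn (fun p : ℝ × ℝ =>
      dist (F p.1) q₀.1.2 + |wm (F '' Icc 0 p.1) - c / 4| +
        (dist (h (F p.2)) q₀.2.2 + |wm ((h ∘ F) '' Icc 0 p.2) - c / 4|))
      (Icc 0 1 ×ˢ Icc 0 1) := by
    intro F hF
    have m1 : MapsTo (Prod.fst : ℝ × ℝ → ℝ) (Icc (0 : ℝ) 1 ×ˢ Icc (0 : ℝ) 1) (Icc 0 1) :=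
      fun p hp => hp.1
    have m2 : MapsTo (Prod.snd : ℝ × ℝ → ℝ) (Icc (0 : ℝ) 1 ×ˢ Icc (0 : ℝ) 1) (Icc 0 1) :=
      fun p hp => hp.2
    have c1 : ContinuousOn (fun p : ℝ × ℝ => F p.1) (Icc 0 1 ×ˢ Icc 0 1) :=
      hF.1.comp continuousOn_fst m1
    have c2 : ContinuousOn (fun p : ℝ × ℝ => wm (F '' Icc 0 p.1)) (Icc 0 1 ×ˢ Icc 0 1) :=
      (wm_cont_zero hF.1).comp continuousOn_fst m1
    have hhF : ContinuousOn (h ∘ F) (Icc 0 1) := h.continuous.comp_continuousOn hF.1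
    have c3 : ContinuousOn (fun p : ℝ × ℝ => h (F p.2)) (Icc 0 1 ×ˢ Icc 0 1) :=
      hhF.comp continuousOn_snd m2
    have c4 : ContinuousOn (fun p : ℝ × ℝ => wm ((h ∘ F) '' Icc 0 p.2))
        (Icc 0 1 ×ˢ Icc 0 1) :=
      (wm_cont_zero hhF).comp continuousOn_snd m2
    have c5 : ContinuousOn (fun p : ℝ × ℝ => dist (F p.1) q₀.1.2) (Icc 0 1 ×ˢ Icc 0 1) :=
      (continuous_id.dist continuous_const).comp_continuousOn c1
    have c6 : ContinuousOn (fun p : ℝ × ℝ => dist (h (F p.2)) q₀.2.2) (Icc 0 1 ×ˢ Icc 0 1) :=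
      (continuous_id.dist continuous_const).comp_continuousOn c3
    exact (c5.add (c2.sub continuousOn_const).abs).add
      (c6.add (c4.sub continuousOn_const).abs)
  -- an exact solution
  have hex : ∃ F, (F = F₁ ∨ F = F₂) ∧ ∃ p ∈ Icc (0 : ℝ) 1 ×ˢ Icc (0 : ℝ) 1,
      dist (F p.1) q₀.1.2 + |wm (F '' Icc 0 p.1) - c / 4| +
        (dist (h (F p.2)) q₀.2.2 + |wm ((h ∘ F) '' Icc 0 p.2) - c / 4|) ≤ 0 := by
    by_contra hcon
    push Not at hcon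
    obtain ⟨ε₁, hε₁, hb₁⟩ := zero_of_small (hcont F₁ hF₁) (hcon F₁ (Or.inl rfl))
    obtain ⟨ε₂, hε₂, hb₂⟩ := zero_of_small (hcont F₂ hF₂) (hcon F₂ (Or.inr rfl))
    obtain ⟨F, hF, p, hp', hlt⟩ := happ (min ε₁ ε₂) (lt_min hε₁ hε₂)
    rcases hF with rfl | rfl
    · exact absurd (hlt.trans_le (min_le_left _ _)) (not_lt.2 (hb₁ p hp'))
    · exact absurd (hlt.trans_le (min_le_right _ _)) (not_lt.2 (hb₂ p hp'))
  obtain ⟨F, hF, p, hp', hle⟩ := hex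
  have hFP : Par Leg c q₀.1.1 F := by
    rcases hF with rfl | rfl
    · exact hF₁
    · exact hF₂
  have n1 := dist_nonneg (x := F p.1) (y := q₀.1.2)
  have n2 := abs_nonneg (wm (F '' Icc 0 p.1) - c / 4)
  have n3 := dist_nonneg (x := h (F p.2)) (y := q₀.2.2)
  have n4 := abs_nonneg (wm ((h ∘ F) '' Icc 0 p.2) - c / 4)
  refine ⟨F, hFP, p.1, hp'.1, p.2, hp'.2, ?_, ?_, ?_, ?_, ?_⟩
  · exact dist_le_zero.1 (by linarith)
  · exact sub_eq_zero.1 (abs_nonpos_iff.1 (by linarith))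
  · rw [hFP.2.2.1]
    exact hfirst
  · exact dist_le_zero.1 (by linarith)
  · rw [← image_comp]
    exact sub_eq_zero.1 (abs_nonpos_iff.1 (by linarith))

theorem lf_small (hom : Hom X) (hL : DL X Leg c η) {ε : ℝ} (hε : 0 < ε) :
    ∃ δ > 0, ∀ h : X ≃ₜ X, Sm h δ → ∀ s s' : X × X, Lf Leg c h s s' → dist s' s < ε := by
  have hc := hL.c_pos
  obtain ⟨ε', hε', hdiam⟩ := diam_lt_of_wm (X := X) (half_pos hε)
  obtain ⟨δ₁, hδ₁, hunif⟩ := size_unif hom hL hε'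
  set δ := min (δ₁ / 8) (min (c / 64) (ε / 4)) with hδ
  have hδ0 : 0 < δ := lt_min (by positivity) (lt_min (by positivity) (by positivity))
  have hd1 : δ ≤ δ₁ / 8 := min_le_left _ _
  have hd2 : δ ≤ c / 64 := (min_le_right _ _).trans (min_le_left _ _)
  have hd3 : δ ≤ ε / 4 := (min_le_right _ _).trans (min_le_right _ _)
  refine ⟨δ, hδ0, ?_⟩
  intro h hh s s' hl
  obtain ⟨f, hf, t₁, ht₁, t₂, ht₂, hf1, hw1, hs1, hs2, hw2⟩ := hl
  have h3 := wm_image_close hh (f '' Icc 0 t₂)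
  rw [hw2, abs_le] at h3
  have key : ∀ t t', 0 ≤ t → t ≤ t' → t' ≤ 1 → wm (f '' Icc 0 t') ≤ 3 * c / 4 →
      wm (f '' Icc 0 t') < wm (f '' Icc 0 t) + δ₁ → dist (f t) (f t') < ε / 2 := by
    intro t t' ht htt ht' hw hlt
    have h4 := hdiam _ (hunif _ f hf t t' ht htt ht' hw hlt)
    exact (dist_le_diam_of_mem (bdd_any _) (mem_image_of_mem f (left_mem_Icc.2 htt))
      (mem_image_of_mem f (right_mem_Icc.2 htt))).trans_lt h4
  have hdist : dist (f t₂) (f t₁) < ε / 2 := by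
    rcases le_total t₁ t₂ with hle | hle
    · rw [dist_comm]
      exact key t₁ t₂ ht₁.1 hle ht₂.2 (by linarith [h3.1]) (by rw [hw1]; linarith [h3.1])
    · exact key t₂ t₁ ht₂.1 hle ht₁.2 (by rw [hw1]; linarith) (by rw [hw1]; linarith [h3.2])
  rw [Prod.dist_eq, max_lt_iff]
  constructor
  · rw [← hs1, ← hf.2.2.1]
    linarith [hh (f 0)]
  · rw [← hs2, ← hf1]
    have h5 := dist_triangle (h (f t₂)) (f t₂) (f t₁)
    linarith [hh (f t₂)]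

end Pool.Agent.HDA
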