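import Mathlib
import Pool.Agent.HDA.State

/-!
# HDA module MVCORE: moving a state forward (relational form)

All facts are about `Mv Leg c s u s'` (see Defs). `c > 0` (`hL.c_pos`).
* `mv_core`: `b < e` since the size `c / 4` is positive (`size_self`), so `b < 1`. `f '' Icc b 1` is legal
  (`par_leg`) of size `≤ c` (`size_le`, `wm (f '' Icc 0 1) = c`), so `exists_par` gives `g` with
  `Par Leg c (f b) g` and `f '' Icc b 1 = g '' Icc 0 v`. `reparam` (with `g` in the role of `f`, and `f` on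
  `Icc b 1` in the role of `g`) gives `θ` with `θ b = 0`, `f r = g (θ r)`,
  `f '' Icc r r' = g '' Icc (θ r) (θ r')`. Take `t₁ = θ e`, `t₂ = θ b'`, `t₃ = θ e'` in the definition.
* `mv_mem`: `par_st`.
* `mv_repr`: let `g, t₁', t₂', t₃'` be as in the definition of `Mv`. `f t₁ = s.2 = g t₁'`, `t₁, t₁' > 0`
  (size `c / 4 > 0`), so `par_eq` gives `θ` with `g r = f (θ r)` and equal images. `b = θ t₂'`, `e = θ t₃'`.
* `mv_unique`: by `mv_repr` for both, with the `f`, `t₁` of the first; then `size_inj` twice.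
* `mv_exists`: `st_par` gives `f, t₁`; `size_ivt` gives `b` with `wm (f '' Icc 0 b) = u * (c / 4)`;
  `wm (f '' Icc b 1) ≥ c - u c / 4 ≥ c / 4` (`size_add`), `size_ivt` gives `e ∈ Icc b 1`.
* `mv_zero`: `t₂ = 0`, `t₃ = t₁`.
* `mv_repr₂`: `wm (f '' Icc b 1) ≥ c - c/4` by `size_add`; `size_ivt` gives `b'` with
  `wm (f '' Icc b b') = w * (c / 4)`; `wm (f '' Icc 0 b') ≤ c / 2`, so `wm (f '' Icc b' 1) ≥ c / 2` and
  `size_ivt` gives `e'`; `mv_core` and `mv_unique` give `s₂ = (f b', f e')`.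
* `mv_comp`: `f, t₁` from `st_par`; `mv_repr`: `s₁ = (f b₁, f e₁)`, `s₂ = (f b₂, f e₂)`; `b₁ ≤ b₂` by
  `size_lt` (otherwise `u < v`). `u' = wm (f '' Icc b₁ b₂) / (c / 4)`; `mv_core`. `u' ≤ u` by `size_le`;
  `0 < v → 0 < b₁ → u' < u` by `size_lt`; `v < u → b₁ < b₂ → 0 < u'` by `size_pos`. For `w ∈ Icc 0 u'`:
  `size_ivt` gives `b ∈ Icc b₁ 1` with `wm (f '' Icc b₁ b) = w * (c / 4)`, `b ≤ b₂` may be assumed
  (`size_lt`; if `b > b₂` then `w > u'`, or use the intermediate value theorem on `Icc b₁ b₂`), `e` with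
  `wm (f '' Icc b e) = c / 4`, `s₃ = (f b, f e)`, `w' = wm (f '' Icc 0 b) / (c / 4) ∈ Icc v u` (`size_le`),
  `mv_core` twice (for the second with `b = 0`, `e = t₁`).
* `mv_next`: `s₁ = (f b₁, f e₁)` with `wm (f '' Icc 0 b₁) = v * (c/4)`; `mv_repr₂` gives `s₃ = (f b, f e)`
  with `wm (f '' Icc b₁ b) = u * (c/4)`; `s₂ = (f b₂, f e₂)` with `wm (f '' Icc 0 b₂) = c / 4`. If `b ≤ b₂`:
  `w = wm (f '' Icc 0 b) / (c/4) ∈ Icc v 1`, `mv_core` with `0, t₁`. If `b₂ < b`: `b₁ ≤ b₂`,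
  `w = wm (f '' Icc b₂ b) / (c/4) ≤ u ≤ 1` (`size_le`), `mv_core` with `b₂, e₂`.
* `mv_ne`: `f t₂ = s'.1 = s.1 = f 0` gives `t₂ = 0` (injectivity), so `0 = u * (c / 4)`.
About 230 lines.
-/

set_option autoImplicit false

open Set Topology Filter Metric Pool.Agent.HDC Pool.Agent.Helper43

namespace Pool.Agent.HDA

variable {X : Type*} [MetricSpace X] [CompactSpace X] [Nonempty X]
  [TopologicalSpace.SeparableSpace X] {Leg : X → Set X → X → Prop} {c η : ℝ}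

theorem mvc_div (hL : DL X Leg c η) (a : ℝ) : a / (c / 4) * (c / 4) = a := by
  have := hL.c_pos
  field_simp

theorem mvc_pos_of (hL : DL X Leg c η) {f : ℝ → X} {a b : ℝ} (hab : a ≤ b)
    (h : wm (f '' Icc a b) = c / 4) : a < b := by
  rcases lt_or_eq_of_le hab with h' | h'
  · exact h'
  · exfalso
    rw [h', size_self] at h
    have := hL.c_pos
    linarith

theorem mv_core (hL : DL X Leg c η) {x : X} {f : ℝ → X} (hf : Par Leg c x f) {b e b' e' : ℝ}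
    (hb : 0 ≤ b) (hbe : b ≤ e) (he : e ≤ 1) (hbb : b ≤ b') (hbe' : b' ≤ e') (he' : e' ≤ 1)
    (h1 : wm (f '' Icc b e) = c / 4) (h2 : wm (f '' Icc b' e') = c / 4) :
    Mv Leg c (f b, f e) (wm (f '' Icc b b') / (c / 4)) (f b', f e') := by
  have hlt := mvc_pos_of hL hbe h1
  have hb1 : b < 1 := hlt.trans_le he
  obtain ⟨hfc, hfi, -, -, hfw⟩ := id hf
  have hleg := par_leg hL hf hb hb1 le_rfl
  have hsz : wm (f '' Icc b 1) ≤ c := by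
    rw [← hfw]
    exact size_le hb le_rfl
  obtain ⟨g, hg, v, hv, him, -⟩ := exists_par hL hleg hsz
  obtain ⟨hgc, hgi, hg0, -, -⟩ := id hg
  obtain ⟨θ, -, hθm, hθb, hθmaps, hθf, hθim⟩ := reparam (f := g) (g := f) hgc hgi hb1.le
    (hfc.mono (Icc_subset_Icc hb le_rfl)) (hfi.mono (Icc_subset_Icc hb le_rfl))
    (by rw [him]; exact image_mono (Icc_subset_Icc le_rfl hv.2)) (by rw [hg0])
  have me : e ∈ Icc b 1 := ⟨hbe, he⟩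
  have mb' : b' ∈ Icc b 1 := ⟨hbb, hbe'.trans he'⟩
  have me' : e' ∈ Icc b 1 := ⟨hbb.trans hbe', he'⟩
  refine ⟨g, hg, θ e, hθmaps me, θ b', hθmaps mb', θ e',
    ⟨hθm.monotoneOn mb' me' hbe', (hθmaps me').2⟩, (hθf e me).symm, ?_, (hθf b' mb').symm, ?_,
    (hθf e' me').symm, ?_⟩
  · rw [← hθb, ← hθim b e le_rfl hbe he]
    exact h1
  · rw [← hθb, ← hθim b b' le_rfl hbb (hbe'.trans he'), mvc_div hL]
  · rw [← hθim b' e' hbb hbe' he']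
    exact h2

theorem mv_mem (hL : DL X Leg c η) {s s' : X × X} {u : ℝ} (h : Mv Leg c s u s') :
    s' ∈ St Leg c := by
  obtain ⟨f, hf, t₁, ht₁, t₂, ht₂, t₃, ht₃, -, -, h3, -, h5, h6⟩ := h
  have := par_st hL hf ht₂.1 ht₃.1 ht₃.2 h6
  rw [h3, h5] at this
  exact this

theorem mv_repr (hL : DL X Leg c η) {s s' : X × X} {u : ℝ} (h : Mv Leg c s u s') {f : ℝ → X}
    (hf : Par Leg c s.1 f) {t₁ : ℝ} (ht₁ : t₁ ∈ Icc (0 : ℝ) 1) (h1 : f t₁ = s.2)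
    (h2 : wm (f '' Icc 0 t₁) = c / 4) :
    ∃ b ∈ Icc (0 : ℝ) 1, ∃ e ∈ Icc b 1, s' = (f b, f e) ∧ wm (f '' Icc 0 b) = u * (c / 4) ∧
      wm (f '' Icc b e) = c / 4 := by
  obtain ⟨g, hg, t₁', ht₁', t₂, ht₂, t₃, ht₃, g1, g2, g3, g4, g5, g6⟩ := h
  have p1 := mvc_pos_of hL ht₁.1 h2
  have p2 := mvc_pos_of hL ht₁'.1 g2
  obtain ⟨θ, hθm, hθ0, -, hθmaps, hθf, hθim⟩ := par_eq hL hf hg ⟨p1, ht₁.2⟩ ⟨p2, ht₁'.2⟩
    (by rw [h1, g1])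
  have ht₃' : t₃ ∈ Icc (0 : ℝ) 1 := ⟨ht₂.1.trans ht₃.1, ht₃.2⟩
  refine ⟨θ t₂, hθmaps ht₂, θ t₃, ⟨hθm.monotoneOn ht₂ ht₃' ht₃.1, (hθmaps ht₃').2⟩, ?_, ?_, ?_⟩
  · rw [← hθf t₂ ht₂, ← hθf t₃ ht₃', g3, g5]
  · rw [← g4, hθim 0 t₂ le_rfl ht₂.1 ht₂.2, hθ0]
  · rw [← g6, hθim t₂ t₃ ht₂.1 ht₃.1 ht₃.2]

theorem mv_unique (hL : DL X Leg c η) {s s' s'' : X × X} {u : ℝ} (h : Mv Leg c s u s')
    (h' : Mv Leg c s u s'') : s' = s'' := by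
  obtain ⟨f, hf, t₁, ht₁, t₂, ht₂, t₃, ht₃, g1, g2, g3, g4, g5, g6⟩ := h
  obtain ⟨b, hb, e, he, hs, k1, k2⟩ := mv_repr hL h' hf ht₁ g1 g2
  have e1 : t₂ = b := size_inj hf.1 hf.2.1 le_rfl ht₂ hb (by rw [g4, k1])
  subst e1
  have e2 : t₃ = e := size_inj hf.1 hf.2.1 ht₂.1 ht₃ he (by rw [g6, k2])
  subst e2
  rw [hs, g3, g5]

theorem mvc_end (hL : DL X Leg c η) {x : X} {f : ℝ → X} (hf : Par Leg c x f) {b : ℝ}
    (hb : b ∈ Icc (0 : ℝ) 1) (h : wm (f '' Icc 0 b) ≤ 3 * c / 4) :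
    ∃ e ∈ Icc b 1, wm (f '' Icc b e) = c / 4 := by
  have h1 := size_add (f := f) hb.1 hb.2
  rw [hf.2.2.2.2] at h1
  have := hL.c_pos
  exact size_ivt hf.1 hb.1 hb.2 (by positivity) (by linarith)

theorem mv_exists (hL : DL X Leg c η) {s : X × X} (hs : s ∈ St Leg c) {u : ℝ}
    (hu : u ∈ Icc (0 : ℝ) 1) : ∃ s', Mv Leg c s u s' := by
  have hc := hL.c_pos
  obtain ⟨f, hf, t₁, ht₁, h1, h2⟩ := st_par hL hs
  have hu4 : u * (c / 4) ≤ c / 4 := by nlinarith [hu.2]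
  obtain ⟨b, hb, hbw⟩ := size_ivt hf.1 le_rfl zero_le_one (r := u * (c / 4))
    (mul_nonneg hu.1 (by positivity)) (by rw [hf.2.2.2.2]; linarith)
  obtain ⟨e, he, hew⟩ := mvc_end hL hf hb (by rw [hbw]; linarith)
  exact ⟨(f b, f e), f, hf, t₁, ht₁, b, hb, e, he, h1, h2, rfl, hbw, rfl, hew⟩

theorem mv_zero (hL : DL X Leg c η) {s : X × X} (hs : s ∈ St Leg c) : Mv Leg c s 0 s := by
  obtain ⟨f, hf, t₁, ht₁, h1, h2⟩ := st_par hL hs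
  refine ⟨f, hf, t₁, ht₁, 0, ⟨le_rfl, zero_le_one⟩, t₁, ht₁, h1, h2, hf.2.2.1, ?_, h1, h2⟩
  rw [size_self, zero_mul]

theorem mv_repr₂ (hL : DL X Leg c η) {x : X} {f : ℝ → X} (hf : Par Leg c x f) {b e : ℝ}
    (hb : 0 ≤ b) (hbe : b ≤ e) (he : e ≤ 1) (h1 : wm (f '' Icc b e) = c / 4)
    (h0 : wm (f '' Icc 0 b) ≤ c / 4) {w : ℝ} (hw : w ∈ Icc (0 : ℝ) 1) {s₂ : X × X}
    (h : Mv Leg c (f b, f e) w s₂) :
    ∃ b' ∈ Icc b 1, ∃ e' ∈ Icc b' 1, s₂ = (f b', f e') ∧ wm (f '' Icc b b') = w * (c / 4) ∧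
      wm (f '' Icc b' e') = c / 4 := by
  have hc := hL.c_pos
  have hb1 : b ≤ 1 := hbe.trans he
  have h2 := size_add (f := f) hb hb1
  rw [hf.2.2.2.2] at h2
  have hw4 : w * (c / 4) ≤ c / 4 := by nlinarith [hw.2]
  obtain ⟨b', hb', hbw⟩ := size_ivt hf.1 hb hb1 (r := w * (c / 4))
    (mul_nonneg hw.1 (by positivity)) (by linarith)
  have h3 := size_add (f := f) hb hb'.1
  obtain ⟨e', he', hew⟩ := mvc_end hL hf (b := b') ⟨hb.trans hb'.1, hb'.2⟩ (by linarith)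
  refine ⟨b', hb', e', he', ?_, hbw, hew⟩
  have h4 := mv_core hL hf hb hbe he hb'.1 he'.1 he'.2 h1 hew
  rw [hbw, mul_div_cancel_right₀ _ (by positivity)] at h4
  exact mv_unique hL h h4

theorem mvc_le (hL : DL X Leg c η) {x : X} {f : ℝ → X} (hf : Par Leg c x f) {a b v u : ℝ}
    (ha : a ∈ Icc (0 : ℝ) 1) (hb : b ∈ Icc (0 : ℝ) 1) (h1 : wm (f '' Icc 0 a) = v * (c / 4))
    (h2 : wm (f '' Icc 0 b) = u * (c / 4)) (hvu : v ≤ u) : a ≤ b := by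
  by_contra hcon
  rw [not_le] at hcon
  have h3 := size_lt hf.1 hf.2.1 (a := 0) (b := a) (a' := 0) (b' := b) le_rfl le_rfl hb.1 hcon.le
    ha.2 (Or.inr hcon)
  rw [h1, h2] at h3
  have hc := hL.c_pos
  have := mul_le_mul_of_nonneg_right hvu (show 0 ≤ c / 4 by positivity)
  linarith

theorem mv_comp (hL : DL X Leg c η) {s s₁ s₂ : X × X} (hs : s ∈ St Leg c) {v u : ℝ}
    (hv : 0 ≤ v) (hvu : v ≤ u) (hu : u ≤ 1) (h1 : Mv Leg c s v s₁) (h2 : Mv Leg c s u s₂) :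
    ∃ u', 0 ≤ u' ∧ u' ≤ u ∧ Mv Leg c s₁ u' s₂ ∧ (0 < v → u' < u) ∧ (v < u → 0 < u') ∧
      ∀ w ∈ Icc 0 u', ∃ w' ∈ Icc v u, ∃ s₃, Mv Leg c s₁ w s₃ ∧ Mv Leg c s w' s₃ := by
  have hc := hL.c_pos
  have hc4 : 0 < c / 4 := by positivity
  obtain ⟨f, hf, t₁, ht₁, k1, k2⟩ := st_par hL hs
  obtain ⟨b₁, hb₁, e₁, he₁, hs₁, a1, a2⟩ := mv_repr hL h1 hf ht₁ k1 k2
  obtain ⟨b₂, hb₂, e₂, he₂, hs₂, a3, a4⟩ := mv_repr hL h2 hf ht₁ k1 k2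
  have hb12 : b₁ ≤ b₂ := mvc_le hL hf hb₁ hb₂ a1 a3 hvu
  have hu4 : u * (c / 4) ≤ c / 4 := by nlinarith
  have hs0 : s = (f 0, f t₁) := by rw [hf.2.2.1, k1]
  refine ⟨wm (f '' Icc b₁ b₂) / (c / 4), div_nonneg (wm_nonneg _) hc4.le, ?_, ?_, ?_, ?_, ?_⟩
  · rw [div_le_iff₀ hc4, ← a3]
    exact size_le hb₁.1 le_rfl
  · rw [hs₁, hs₂]
    exact mv_core hL hf hb₁.1 he₁.1 he₁.2 hb12 he₂.1 he₂.2 a2 a4
  · intro hv0
    rw [div_lt_iff₀ hc4, ← a3]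
    have hb0 : 0 < b₁ := by
      rcases lt_or_eq_of_le hb₁.1 with h | h
      · exact h
      · exfalso
        rw [← h, size_self] at a1
        have := mul_pos hv0 hc4
        linarith
    exact size_lt hf.1 hf.2.1 le_rfl hb₁.1 hb12 le_rfl hb₂.2 (Or.inl hb0)
  · intro hvu'
    refine div_pos (size_pos hf.1 hf.2.1 hb₁.1 ?_ hb₂.2) hc4
    rcases lt_or_eq_of_le hb12 with h | h
    · exact h
    · exfalso
      rw [h, a3] at a1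
      have := mul_lt_mul_of_pos_right hvu' hc4
      linarith
  · intro w hw
    have hw4 : w * (c / 4) ≤ wm (f '' Icc b₁ b₂) := by
      rw [← le_div_iff₀ hc4]
      exact hw.2
    obtain ⟨b, hb, hbw⟩ := size_ivt hf.1 hb₁.1 hb₁.2 (r := w * (c / 4))
      (mul_nonneg hw.1 hc4.le) (hw4.trans (size_le le_rfl hb₂.2))
    have hbb₂ : b ≤ b₂ := by
      by_contra hcon
      rw [not_le] at hcon
      have := size_lt hf.1 hf.2.1 (a := b₁) (b := b) (a' := b₁) (b' := b₂) hb₁.1 le_rfl hb12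
        hcon.le hb.2 (Or.inr hcon)
      linarith
    have hb01 : b ∈ Icc (0 : ℝ) 1 := ⟨hb₁.1.trans hb.1, hb.2⟩
    have m1 : wm (f '' Icc 0 b₁) ≤ wm (f '' Icc 0 b) := size_le le_rfl hb.1
    have m2 : wm (f '' Icc 0 b) ≤ wm (f '' Icc 0 b₂) := size_le le_rfl hbb₂
    obtain ⟨e, he, hew⟩ := mvc_end hL hf hb01 (by linarith)
    refine ⟨wm (f '' Icc 0 b) / (c / 4), ⟨?_, ?_⟩, (f b, f e), ?_, ?_⟩
    · rw [le_div_iff₀ hc4, ← a1]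
      exact m1
    · rw [div_le_iff₀ hc4, ← a3]
      exact m2
    · have h4 := mv_core hL hf hb₁.1 he₁.1 he₁.2 hb.1 he.1 he.2 a2 hew
      rw [hbw, mul_div_cancel_right₀ _ hc4.ne'] at h4
      rw [hs₁]
      exact h4
    · have h4 := mv_core hL hf le_rfl ht₁.1 ht₁.2 hb01.1 he.1 he.2 k2 hew
      rw [← hs0] at h4
      exact h4

theorem mv_next (hL : DL X Leg c η) {s s₁ s₂ s₃ : X × X} (hs : s ∈ St Leg c) {v u : ℝ}
    (hv : v ∈ Icc (0 : ℝ) 1) (hu : u ∈ Icc (0 : ℝ) 1) (h1 : Mv Leg c s v s₁)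
    (h2 : Mv Leg c s 1 s₂) (h3 : Mv Leg c s₁ u s₃) :
    (∃ w ∈ Icc v 1, Mv Leg c s w s₃) ∨ (∃ w ∈ Icc (0 : ℝ) 1, Mv Leg c s₂ w s₃) := by
  have hc := hL.c_pos
  have hc4 : 0 < c / 4 := by positivity
  obtain ⟨f, hf, t₁, ht₁, k1, k2⟩ := st_par hL hs
  obtain ⟨b₁, hb₁, e₁, he₁, hs₁, a1, a2⟩ := mv_repr hL h1 hf ht₁ k1 k2
  obtain ⟨b₂, hb₂, e₂, he₂, hs₂, a3, a4⟩ := mv_repr hL h2 hf ht₁ k1 k2
  have hs0 : s = (f 0, f t₁) := by rw [hf.2.2.1, k1]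
  have hb12 : b₁ ≤ b₂ := mvc_le hL hf hb₁ hb₂ a1 a3 hv.2
  have hv4 : v * (c / 4) ≤ c / 4 := by nlinarith [hv.2]
  rw [hs₁] at h3
  obtain ⟨b, hb, e, he, hs₃, a5, a6⟩ := mv_repr₂ hL hf hb₁.1 he₁.1 he₁.2 a2 (by rw [a1]; exact hv4)
    hu h3
  have hb0 : 0 ≤ b := hb₁.1.trans hb.1
  rcases le_or_gt b b₂ with hbb | hbb
  · left
    refine ⟨wm (f '' Icc 0 b) / (c / 4), ⟨?_, ?_⟩, ?_⟩
    · rw [le_div_iff₀ hc4, ← a1]
      exact size_le le_rfl hb.1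
    · rw [div_le_iff₀ hc4, ← a3]
      exact size_le le_rfl hbb
    · have h4 := mv_core hL hf le_rfl ht₁.1 ht₁.2 hb0 he.1 he.2 k2 a6
      rw [← hs0, ← hs₃] at h4
      exact h4
  · right
    refine ⟨wm (f '' Icc b₂ b) / (c / 4), ⟨div_nonneg (wm_nonneg _) hc4.le, ?_⟩, ?_⟩
    · rw [div_le_iff₀ hc4]
      have m1 : wm (f '' Icc b₂ b) ≤ wm (f '' Icc b₁ b) := size_le hb12 le_rfl
      have m2 : u * (c / 4) ≤ c / 4 := by nlinarith [hu.2]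
      linarith
    · rw [hs₂, hs₃]
      exact mv_core hL hf hb₂.1 he₂.1 he₂.2 hbb.le he.1 he.2 a4 a6

theorem mv_ne (hL : DL X Leg c η) {s s' : X × X} {u : ℝ} (hu : 0 < u) (h : Mv Leg c s u s') :
    s'.1 ≠ s.1 := by
  obtain ⟨f, hf, t₁, ht₁, t₂, ht₂, t₃, ht₃, g1, g2, g3, g4, g5, g6⟩ := h
  intro he
  have h1 : f t₂ = f 0 := by rw [g3, he, hf.2.2.1]
  have h2 : t₂ = 0 := hf.2.1 ht₂ ⟨le_rfl, zero_le_one⟩ h1
  rw [h2, size_self] at g4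
  have hc := hL.c_pos
  have := mul_pos hu (show 0 < c / 4 by positivity)
  linarith

end Pool.Agent.HDA
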