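import Mathlib
import Pool.Agent.HDA.MvCore
import Pool.Agent.HDA.Lift

/-!
# HDA module LIFTMV: lifts respect forward paths

PROOF. Let `δ₁` be given by `size_unif` for `ε' = c / 4` and `δ = min (min η (c / 64)) (δ₁ / 8)`. Let
`f, t₁, t₂` be as in the definition of `Lf h s s'` and `τ` with `wm (f '' Icc 0 τ) = 3c/4`; `t₂ ≤ τ` as
`wm (f '' Icc 0 t₂) ≤ c/4 + 4δ`. `D = f '' Icc 0 τ` is legal; `hL.hom` and `exists_par` give `g` with
`Par Leg c (h s.1) g` and `h '' D = g '' Icc 0 v`, and `reparam` gives `θ` on `Icc 0 τ` with `h (f r) = g (θ r)`,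
`h '' (f '' Icc r r') = g '' Icc (θ r) (θ r')` (as in the proof of `lf_symm`).
`wm (g '' Icc 0 v) ≥ 3c/4 - 4δ ≥ 11c/16`. `g (θ t₂) = s'.2` and `wm (g '' Icc 0 (θ t₂)) = c/4`, so `mv_repr`
for `Mv s' u r'` gives `r' = (g b₂, g e₂)` with `wm (g '' Icc 0 b₂) = u * (c/4)`, `wm (g '' Icc b₂ e₂) = c/4`.
`wm (g '' Icc 0 e₂) ≤ c/2 < 11c/16`, so `e₂ ≤ v` (`size_lt`) and `g b₂, g e₂ ∈ g '' Icc 0 v = h '' D`: there
are `b, e ∈ Icc 0 τ` with `b₂ = θ b`, `e₂ = θ e` (injectivity of `g`), `b ≤ e` (monotonicity of `θ`). So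
`r' = (h (f b), h (f e))`, `wm (h '' (f '' Icc b e)) = c/4`, `wm (h '' (f '' Icc 0 b)) = u * (c/4)`, and
`wm (f '' Icc 0 b) ≤ c/4 + 4δ` (`wm_image_close`).
CLAIM: `r = (f b, f e')` where `e' ∈ Icc b 1`, `wm (f '' Icc b e') = c/4` (`size_ivt`;
`wm (f '' Icc b 1) ≥ c - (c/4 + 4δ) ≥ c/4`). `r₀ = (f b, f e') ∈ St` (`par_st`). `Lf h r₀ r'`: `b < 1`;
`f '' Icc b 1` is legal of size `≤ c`; `exists_par`: `k` with `Par Leg c (f b) k`,
`f '' Icc b 1 = k '' Icc 0 v'`, `reparam`: `θ'` on `Icc b 1` with `f r = k (θ' r)`; use `k`, `θ' e'`, `θ' e` in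
the definition of `Lf` (`h '' (k '' Icc 0 (θ' e)) = h '' (f '' Icc b e)`). By `lf_symm` both
`Lf h.symm r' r₀` and `Lf h.symm r' r`, so `r = r₀` by `lf_unique`.
If `b ≤ t₁`: `mv_core` with `0, t₁, b, e'` gives `Mv s w r`, `w = wm (f '' Icc 0 b) / (c/4) ≤ 1` (`size_le`).
If `t₁ < b`: `wm (f '' Icc 0 b) < wm (f '' Icc 0 t₁) + δ₁`, so `wm (f '' Icc t₁ b) < c/4` (`size_unif`).
`size_ivt` gives `e₁ ∈ Icc t₁ 1` with `wm (f '' Icc t₁ e₁) = c/4`; `s₁ = (f t₁, f e₁)`; `mv_core` with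
`0, t₁, t₁, e₁` gives `Mv s 1 s₁` (`wm (f '' Icc 0 t₁) / (c/4) = 1`), and with `t₁, e₁, b, e'` it gives
`Mv s₁ w r`, `w = wm (f '' Icc t₁ b) / (c/4) ≤ 1`. About 140 lines.
-/

set_option autoImplicit false

open Set Topology Filter Metric Pool.Agent.HDC Pool.Agent.Helper43

namespace Pool.Agent.HDA

variable {X : Type*} [MetricSpace X] [CompactSpace X] [Nonempty X]
  [TopologicalSpace.SeparableSpace X] {Leg : X → Set X → X → Prop} {c η : ℝ}

theorem lf_mv (hom : Hom X) (hL : DL X Leg c η) :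
    ∃ δ > 0, ∀ h : X ≃ₜ X, Sm h δ → ∀ (s s' r' r : X × X) (u : ℝ), s ∈ St Leg c →
      Lf Leg c h s s' → u ∈ Icc (0 : ℝ) 1 → Mv Leg c s' u r' → Lf Leg c h r r' →
      (∃ w ∈ Icc (0 : ℝ) 1, Mv Leg c s w r) ∨
        (∃ s₁, Mv Leg c s 1 s₁ ∧ ∃ w ∈ Icc (0 : ℝ) 1, Mv Leg c s₁ w r) := by
  have hc := hL.c_pos
  have hη := hL.η_pos
  obtain ⟨δ₁, hδ₁, hunif⟩ := size_unif hom hL (ε' := c / 4) (by positivity)
  obtain ⟨δ, hδ⟩ : ∃ δ : ℝ, δ = min (min η (c / 64)) (δ₁ / 8) := ⟨_, rfl⟩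
  have hδ0 : 0 < δ := by
    rw [hδ]
    exact lt_min (lt_min hη (by positivity)) (by positivity)
  have hδη : δ ≤ η := by rw [hδ]; exact (min_le_left _ _).trans (min_le_left _ _)
  have hδc : δ ≤ c / 64 := by rw [hδ]; exact (min_le_left _ _).trans (min_le_right _ _)
  have hδ8 : δ ≤ δ₁ / 8 := by rw [hδ]; exact min_le_right _ _
  refine ⟨δ, hδ0, ?_⟩
  intro h hh s s' r' r u hs hl hu hm hlr
  have hclose : ∀ A : Set X, wm (h '' A) ≤ wm A + 4 * δ ∧ wm A ≤ wm (h '' A) + 4 * δ := by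
    intro A
    have := wm_image_close hh A
    rw [abs_le] at this
    constructor <;> linarith [this.1, this.2]
  obtain ⟨f, hf, t₁, ht₁, t₂, ht₂, f1, f2, f3, f4, f5⟩ := hl
  have hf' := hf
  obtain ⟨hfc, hfi, hf0, hfL, hfw⟩ := hf'
  have hs0 : (f 0, f t₁) = s := by rw [hf0, f1]
  obtain ⟨τ, hτ, hτw⟩ := size_ivt hfc (le_refl 0) zero_le_one (r := 3 * c / 4) (by positivity)
    (by rw [hfw]; linarith)
  have ht2τ : t₂ ≤ τ := by
    by_contra hcon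
    rw [not_le] at hcon
    have h1 := size_lt hfc hfi (a := 0) (b := t₂) (a' := 0) (b' := τ) le_rfl le_rfl hτ.1 hcon.le
      ht₂.2 (Or.inr hcon)
    have h2 := (hclose (f '' Icc 0 t₂)).2
    linarith
  have hτ0 : 0 < τ := by
    rcases lt_or_eq_of_le hτ.1 with h | h
    · exact h
    · exfalso
      rw [← h, size_self] at hτw
      linarith
  have hD := par_leg hL hf le_rfl hτ0 hτ.2
  have hD' := hL.hom h _ _ _ (hh.mono hδη) hD (by rw [hτw]; linarith)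
  rw [f3] at hD'
  have hDw := hclose (f '' Icc 0 τ)
  rw [hτw] at hDw
  obtain ⟨g, hg, v, hv, hDv, -⟩ := exists_par hL hD' (by linarith [hDw.1])
  have hg' := hg
  obtain ⟨hgc, hgi, hg0, hgL, hgw⟩ := hg'
  obtain ⟨θ, -, hθm, hθ0, hθmaps, hθf, hθim⟩ := reparam (f := g) (g := h ∘ f) hgc hgi hτ.1
    (h.continuous.comp_continuousOn (hfc.mono (Icc_subset_Icc le_rfl hτ.2)))
    (h.injective.comp_injOn (hfi.mono (Icc_subset_Icc le_rfl hτ.2)))
    (by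
      rw [image_comp, hDv]
      exact image_mono (Icc_subset_Icc le_rfl hv.2))
    (by rw [Function.comp_apply, f3, hg0])
  have ht2' : t₂ ∈ Icc 0 τ := ⟨ht₂.1, ht2τ⟩
  have g1 : g (θ t₂) = s'.2 := by rw [← hθf t₂ ht2', Function.comp_apply, f4]
  have g2 : wm (g '' Icc 0 (θ t₂)) = c / 4 := by
    have h1 := hθim 0 t₂ le_rfl ht₂.1 ht2τ
    rw [hθ0, image_comp] at h1
    rw [← h1, f5]
  obtain ⟨b₂, hb₂, e₂, he₂, hr', w1, w2⟩ := mv_repr hL hm hg (hθmaps ht2') g1 g2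
  have hu4 : u * (c / 4) ≤ c / 4 := mul_le_of_le_one_left (by positivity) hu.2
  have he₂0 : 0 ≤ e₂ := hb₂.1.trans he₂.1
  have he₂v : e₂ ≤ v := by
    by_contra hcon
    rw [not_le] at hcon
    have h1 := size_lt hgc hgi (a := 0) (b := e₂) (a' := 0) (b' := v) le_rfl le_rfl hv.1.le hcon.le
      he₂.2 (Or.inr hcon)
    have h2 := size_add (f := g) hb₂.1 he₂.1
    rw [w1, w2] at h2
    rw [← hDv] at h1
    linarith [hDw.2]
  have hpre : ∀ y ∈ Icc (0 : ℝ) v, ∃ b ∈ Icc (0 : ℝ) τ, θ b = y := by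
    intro y hy
    have h1 : g y ∈ h '' (f '' Icc 0 τ) := by
      rw [hDv]
      exact mem_image_of_mem g hy
    obtain ⟨_, ⟨b, hb, rfl⟩, h2⟩ := h1
    refine ⟨b, hb, ?_⟩
    have h3 := hθf b hb
    rw [Function.comp_apply] at h3
    exact hgi (hθmaps hb) ⟨hy.1, hy.2.trans hv.2⟩ (by rw [← h3, h2])
  obtain ⟨b, hb, hbθ⟩ := hpre b₂ ⟨hb₂.1, he₂.1.trans he₂v⟩
  obtain ⟨e, he, heθ⟩ := hpre e₂ ⟨he₂0, he₂v⟩
  have hbe : b ≤ e := by
    by_contra hcon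
    rw [not_le] at hcon
    have h1 := hθm he hb hcon
    rw [hbθ, heθ] at h1
    linarith [he₂.1]
  have hr1 : r' = (h (f b), h (f e)) := by
    rw [hr', ← hbθ, ← heθ, ← hθf b hb, ← hθf e he]
    rfl
  have w3 : wm (h '' (f '' Icc b e)) = c / 4 := by
    rw [← image_comp, hθim b e hb.1 hbe he.2, hbθ, heθ, w2]
  have w4 : wm (h '' (f '' Icc 0 b)) = u * (c / 4) := by
    rw [← image_comp, hθim 0 b le_rfl hb.1 hb.2, hbθ, hθ0, w1]
  have w5 : wm (f '' Icc 0 b) ≤ c / 4 + 4 * δ := by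
    have := (hclose (f '' Icc 0 b)).2
    rw [w4] at this
    linarith
  have hb1 : b ≤ 1 := hb.2.trans hτ.2
  have w6 := size_add (f := f) hb.1 hb1
  rw [hfw] at w6
  obtain ⟨e', he', he'w⟩ := size_ivt hfc hb.1 hb1 (r := c / 4) (by positivity) (by linarith)
  have hblt : b < 1 := by
    rcases lt_or_eq_of_le hb1 with h1 | h1
    · exact h1
    · exfalso
      rw [h1, hfw] at w5
      linarith
  -- the state `(f b, f e')` is `r`
  have hr0 : (f b, f e') = r := by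
    have hB := par_leg hL hf hb.1 hblt le_rfl
    obtain ⟨k, hk, v', hv', hBv, -⟩ := exists_par hL hB
      ((size_le hb.1 le_rfl).trans hfw.le)
    have hk' := hk
    obtain ⟨hkc, hki, hk0, hkL, hkw⟩ := hk'
    obtain ⟨θ', -, hθm', hθ0', hθmaps', hθf', hθim'⟩ := reparam (f := k) (g := f) hkc hki hb1
      (hfc.mono (Icc_subset_Icc hb.1 le_rfl))
      (hfi.mono (Icc_subset_Icc hb.1 le_rfl))
      (by
        rw [hBv]
        exact image_mono (Icc_subset_Icc le_rfl hv'.2))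
      hk0.symm
    have heb : e ∈ Icc b 1 := ⟨hbe, he.2.trans hτ.2⟩
    have hl0 : Lf Leg c h (f b, f e') r' := by
      refine ⟨k, hk, θ' e', hθmaps' he', θ' e, hθmaps' heb, (hθf' e' he').symm, ?_, ?_, ?_, ?_⟩
      · have h1 := hθim' b e' le_rfl he'.1 he'.2
        rw [hθ0'] at h1
        rw [← h1, he'w]
      · rw [hr1, hk0]
      · rw [hr1, hθf' e heb]
      · have h1 := hθim' b e le_rfl hbe heb.2
        rw [hθ0'] at h1
        rw [← h1, w3]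
    exact lf_unique hL (lf_symm hL hh hδη hδc hl0) (lf_symm hL hh hδη hδc hlr)
  rcases le_or_gt b t₁ with hbt | hbt
  · left
    refine ⟨wm (f '' Icc 0 b) / (c / 4), ⟨div_nonneg (wm_nonneg _) (by positivity), ?_⟩, ?_⟩
    · rw [div_le_one (by positivity), ← f2]
      exact size_le le_rfl hbt
    · rw [← hs0, ← hr0]
      exact mv_core hL hf le_rfl ht₁.1 ht₁.2 hb.1 he'.1 he'.2 f2 he'w
  · right
    have w7 := size_add (f := f) ht₁.1 ht₁.2
    rw [hfw, f2] at w7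
    obtain ⟨e₁, he₁, he₁w⟩ := size_ivt hfc ht₁.1 ht₁.2 (r := c / 4) (by positivity) (by linarith)
    have w8 : wm (f '' Icc t₁ b) < c / 4 := by
      refine hunif s.1 f hf t₁ b ht₁.1 hbt.le hb1 ?_ ?_
      · linarith
      · rw [f2]
        linarith
    refine ⟨(f t₁, f e₁), ?_, wm (f '' Icc t₁ b) / (c / 4),
      ⟨div_nonneg (wm_nonneg _) (by positivity), ?_⟩, ?_⟩
    · have h1 := mv_core hL hf le_rfl ht₁.1 ht₁.2 ht₁.1 he₁.1 he₁.2 f2 he₁w
      rw [f2, div_self (by positivity), hs0] at h1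
      exact h1
    · rw [div_le_one (by positivity)]
      exact w8.le
    · rw [← hr0]
      exact mv_core hL hf ht₁.1 he₁.1 he₁.2 hbt.le he'.1 he'.2 he₁w he'w

end Pool.Agent.HDA
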