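import Mathlib
import Pool.Agent.HDA.MvCore

/-!
# HDA module MVCL: the graph of the moves is closed

PROOF. Let `(s n, u n, s' n)` be in the set and converge to `(s, u, s')`. `s ∈ St` (`st_closed`),
`u ∈ Icc 0 1`. Let `x = s.1`, `F₁, F₂` from `pull` at `x`; `(s n).1 → x`. For `j : ℕ` let `δ_j` be the
number of `pull` for `e = 1/(j+1)`; choose `n j ≥ j` with `dist x (s (n j)).1 < δ_j`; get `k j` with
`Sm (k j) (1/(j+1))`, `k j x = (s (n j)).1`. Let `f, t₁, t₂, t₃` be as in the definition of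
`Mv (s (n j)) (u (n j)) (s' (n j))`. All of `wm (f '' Icc 0 t₁) = c/4`, `wm (f '' Icc 0 t₂) ≤ c/4`,
`wm (f '' Icc 0 t₃) ≤ c/2` (`size_add`) are `≤ 3c/4`, so `pull` gives `F ∈ {F₁, F₂}` and numbers
`a j = θ t₁`, `b j = θ t₂ ≤ e j = θ t₃` in `[0,1]` with `f t₁ = k (F a)`, ..., `θ 0 = 0`,
`f '' Icc 0 t₁ = k '' (F '' Icc 0 a)`, `f '' Icc 0 t₂ = k '' (F '' Icc 0 b)`,
`f '' Icc t₂ t₃ = k '' (F '' Icc b e)`. By `wm_image_close` the sizes `wm (F '' Icc 0 a)`,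
`wm (F '' Icc 0 b)`, `wm (F '' Icc b e)` differ from `c/4`, `u (n j) * (c/4)`, `c/4` by at most
`4/(j+1)`. Pass to a subsequence such that `F` is constant and `a j → a`, `b j → b`, `e j → e`
(compactness of `[0,1]³`). By `size_cont` the limits have sizes `c/4`, `u * (c/4)`, `c/4`, `b ≤ e`; and
`dist (f t₁) (F (a j)) < 1/(j+1)` etc. give `F a = s.2`, `F b = s'.1`, `F e = s'.2`. So `Mv s u s'` with
`f = F`, `t₁ = a`, `t₂ = b`, `t₃ = e`. About 120 lines.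
-/

set_option autoImplicit false

open Set Topology Filter Metric Pool.Agent.HDC Pool.Agent.Helper43

namespace Pool.Agent.HDA

variable {X : Type*} [MetricSpace X] [CompactSpace X] [Nonempty X]
  [TopologicalSpace.SeparableSpace X] {Leg : X → Set X → X → Prop} {c η : ℝ}

private theorem lim_close {α : Type*} [MetricSpace α] {x y : ℕ → α} {a b : α} {ε : ℕ → ℝ}
    (hx : Tendsto x atTop (𝓝 a)) (hy : Tendsto y atTop (𝓝 b)) (hε : Tendsto ε atTop (𝓝 0))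
    (h : ∀ n, dist (x n) (y n) ≤ ε n) : a = b := by
  have h1 : dist a b ≤ 0 := le_of_tendsto_of_tendsto' (hx.dist hy) hε h
  exact dist_le_zero.1 h1

private theorem mc_step {x : X} {F₁ F₂ : ℝ → X} {e δ : ℝ} (hc : 0 < c)
    (hp : ∀ x', dist x x' < δ → ∃ k : X ≃ₜ X, Sm k e ∧ k x = x' ∧
      ∀ f : ℝ → X, Par Leg c x' f → ∃ F, (F = F₁ ∨ F = F₂) ∧ ∃ θ : ℝ → ℝ, θ 0 = 0 ∧
        ∀ t ∈ Icc (0 : ℝ) 1, wm (f '' Icc 0 t) ≤ 3 * c / 4 →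
          θ t ∈ Icc (0 : ℝ) 1 ∧ f t = k (F (θ t)) ∧
          ∀ t' ∈ Icc 0 t, θ t' ≤ θ t ∧ f '' Icc t' t = k '' (F '' Icc (θ t') (θ t)))
    {s s' : X × X} {u : ℝ} (hu : u ∈ Icc (0 : ℝ) 1) (hd : dist x s.1 < δ)
    (hm : Mv Leg c s u s') :
    ∃ F, (F = F₁ ∨ F = F₂) ∧ ∃ a ∈ Icc (0 : ℝ) 1, ∃ b ∈ Icc (0 : ℝ) 1, ∃ d ∈ Icc b 1,
      dist (F a) s.2 ≤ e ∧ dist (F b) s'.1 ≤ e ∧ dist (F d) s'.2 ≤ e ∧
      dist (wm (F '' Icc 0 a)) (c / 4) ≤ 4 * e ∧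
      dist (wm (F '' Icc 0 b)) (u * (c / 4)) ≤ 4 * e ∧
      dist (wm (F '' Icc b d)) (c / 4) ≤ 4 * e := by
  obtain ⟨k, hk, -, hkf⟩ := hp s.1 hd
  obtain ⟨f, hf, t₁, ht₁, t₂, ht₂, t₃, ht₃, h1, h2, h3, h4, h5, h6⟩ := hm
  obtain ⟨F, hF, θ, hθ0, hθ⟩ := hkf f hf
  have hu4 : u * (c / 4) ≤ c / 4 := mul_le_of_le_one_left (by positivity) hu.2
  have g3 : t₃ ∈ Icc (0 : ℝ) 1 := ⟨ht₂.1.trans ht₃.1, ht₃.2⟩
  have g4 : wm (f '' Icc 0 t₃) ≤ 3 * c / 4 := by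
    have := size_add (f := f) ht₂.1 ht₃.1
    rw [h4, h6] at this
    linarith
  obtain ⟨a1, a2, a3⟩ := hθ t₁ ht₁ (by rw [h2]; linarith)
  obtain ⟨b1, b2, b3⟩ := hθ t₂ ht₂ (by rw [h4]; linarith)
  obtain ⟨d1, d2, d3⟩ := hθ t₃ g3 g4
  obtain ⟨-, a4⟩ := a3 0 ⟨le_rfl, ht₁.1⟩
  obtain ⟨-, b4⟩ := b3 0 ⟨le_rfl, ht₂.1⟩
  obtain ⟨d4, d5⟩ := d3 t₂ ⟨ht₂.1, ht₃.1⟩
  rw [hθ0] at a4 b4
  refine ⟨F, hF, θ t₁, a1, θ t₂, b1, θ t₃, ⟨d4, d1.2⟩, ?_, ?_, ?_, ?_, ?_, ?_⟩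
  · rw [← h1, a2, dist_comm]
    exact (hk _).le
  · rw [← h3, b2, dist_comm]
    exact (hk _).le
  · rw [← h5, d2, dist_comm]
    exact (hk _).le
  · rw [← h2, a4, dist_comm, Real.dist_eq]
    exact wm_image_close hk _
  · rw [← h4, b4, dist_comm, Real.dist_eq]
    exact wm_image_close hk _
  · rw [← h6, d5, dist_comm, Real.dist_eq]
    exact wm_image_close hk _

theorem mv_closed (hom : Hom X) (hL : DL X Leg c η) :
    IsClosed {q : (X × X) × ℝ × (X × X) | q.1 ∈ St Leg c ∧ q.2.1 ∈ Icc (0 : ℝ) 1 ∧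
      Mv Leg c q.1 q.2.1 q.2.2} := by
  have hc := hL.c_pos
  refine IsSeqClosed.isClosed ?_
  intro q p hq hlim
  have l1 : Tendsto (fun n => (q n).1) atTop (𝓝 p.1) := (continuous_fst.tendsto p).comp hlim
  have l2 : Tendsto (fun n => (q n).2.1) atTop (𝓝 p.2.1) :=
    ((continuous_fst.comp continuous_snd).tendsto p).comp hlim
  have l3 : Tendsto (fun n => (q n).2.2) atTop (𝓝 p.2.2) :=
    ((continuous_snd.comp continuous_snd).tendsto p).comp hlim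
  have l11 : Tendsto (fun n => (q n).1.1) atTop (𝓝 p.1.1) := (continuous_fst.tendsto p.1).comp l1
  have l12 : Tendsto (fun n => (q n).1.2) atTop (𝓝 p.1.2) := (continuous_snd.tendsto p.1).comp l1
  have l31 : Tendsto (fun n => (q n).2.2.1) atTop (𝓝 p.2.2.1) :=
    (continuous_fst.tendsto p.2.2).comp l3
  have l32 : Tendsto (fun n => (q n).2.2.2) atTop (𝓝 p.2.2.2) :=
    (continuous_snd.tendsto p.2.2).comp l3
  refine ⟨(st_closed hom hL).mem_of_tendsto l1 (Eventually.of_forall fun n => (hq n).1),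
    isClosed_Icc.mem_of_tendsto l2 (Eventually.of_forall fun n => (hq n).2.1), ?_⟩
  obtain ⟨F₁, F₂, hF₁, hF₂, -, hp⟩ := pull hom hL p.1.1
  have hstep : ∀ j : ℕ, ∃ n, j ≤ n ∧ ∃ F : ℝ → X, (F = F₁ ∨ F = F₂) ∧ ∃ a ∈ Icc (0 : ℝ) 1,
      ∃ b ∈ Icc (0 : ℝ) 1, ∃ d ∈ Icc b 1,
      dist (F a) (q n).1.2 ≤ 1 / ((j : ℝ) + 1) ∧ dist (F b) (q n).2.2.1 ≤ 1 / ((j : ℝ) + 1) ∧
      dist (F d) (q n).2.2.2 ≤ 1 / ((j : ℝ) + 1) ∧
      dist (wm (F '' Icc 0 a)) (c / 4) ≤ 4 * (1 / ((j : ℝ) + 1)) ∧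
      dist (wm (F '' Icc 0 b)) ((q n).2.1 * (c / 4)) ≤ 4 * (1 / ((j : ℝ) + 1)) ∧
      dist (wm (F '' Icc b d)) (c / 4) ≤ 4 * (1 / ((j : ℝ) + 1)) := by
    intro j
    have he : (0 : ℝ) < 1 / ((j : ℝ) + 1) := by positivity
    obtain ⟨δ, hδ, hp'⟩ := hp _ he
    have h1 : ∀ᶠ n in atTop, dist p.1.1 (q n).1.1 < δ := by
      have := l11 (ball_mem_nhds p.1.1 hδ)
      filter_upwards [this] with n hn
      rw [dist_comm]
      exact hn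
    obtain ⟨n, hn1, hn2⟩ := (h1.and (eventually_ge_atTop j)).exists
    obtain ⟨F, hF, h⟩ := mc_step hc hp' (hq n).2.1 hn1 (hq n).2.2
    exact ⟨n, hn2, F, hF, h⟩
  choose n hn F hF a ha b hb d hd k1 k2 k3 k4 k5 k6 using hstep
  -- the function is constant along a subsequence
  obtain ⟨F₀, hF₀, φ, hφ, hφF⟩ : ∃ F₀, Par Leg c p.1.1 F₀ ∧ ∃ φ : ℕ → ℕ, StrictMono φ ∧
      ∀ m, F (φ m) = F₀ := by
    have h1 : ∃ᶠ j in atTop, F j = F₁ ∨ F j = F₂ := Eventually.frequently (Eventually.of_forall hF)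
    rw [frequently_or_distrib] at h1
    rcases h1 with h1 | h1
    · obtain ⟨φ, hφ, h⟩ := extraction_of_frequently_atTop h1
      exact ⟨F₁, hF₁, φ, hφ, h⟩
    · obtain ⟨φ, hφ, h⟩ := extraction_of_frequently_atTop h1
      exact ⟨F₂, hF₂, φ, hφ, h⟩
  have hK : IsCompact ((Icc (0 : ℝ) 1) ×ˢ ((Icc (0 : ℝ) 1) ×ˢ (Icc (0 : ℝ) 1))) :=
    isCompact_Icc.prod (isCompact_Icc.prod isCompact_Icc)
  obtain ⟨⟨a₀, b₀, d₀⟩, hmem, ψ, hψ, hlimψ⟩ := hK.tendsto_subseq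
    (x := fun m => (a (φ m), b (φ m), d (φ m)))
    (fun m => ⟨ha _, hb _, (hb _).1.trans (hd _).1, (hd _).2⟩)
  obtain ⟨ma, mb, md⟩ := hmem
  simp only at ma mb md
  have hχ : StrictMono (φ ∘ ψ) := hφ.comp hψ
  have m1 : Tendsto (fun m => a (φ (ψ m))) atTop (𝓝 a₀) := (continuous_fst.tendsto _).comp hlimψ
  have m2 : Tendsto (fun m => b (φ (ψ m))) atTop (𝓝 b₀) :=
    ((continuous_fst.comp continuous_snd).tendsto (a₀, b₀, d₀)).comp hlimψ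
  have m3 : Tendsto (fun m => d (φ (ψ m))) atTop (𝓝 d₀) :=
    ((continuous_snd.comp continuous_snd).tendsto (a₀, b₀, d₀)).comp hlimψ
  have hbd : b₀ ≤ d₀ := le_of_tendsto_of_tendsto' m2 m3 fun m => (hd _).1
  have hε : Tendsto (fun m : ℕ => 1 / (((φ (ψ m) : ℕ) : ℝ) + 1)) atTop (𝓝 0) :=
    tendsto_one_div_add_atTop_nhds_zero_nat.comp hχ.tendsto_atTop
  have hε4 : Tendsto (fun m : ℕ => 4 * (1 / (((φ (ψ m) : ℕ) : ℝ) + 1))) atTop (𝓝 0) := by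
    have := hε.const_mul 4
    rwa [mul_zero] at this
  have hnn : Tendsto (fun m => n (φ (ψ m))) atTop atTop :=
    tendsto_atTop_mono (fun m => hn _) hχ.tendsto_atTop
  have hFc := hF₀.1
  -- continuity of F₀
  have cF : ∀ {y : ℕ → ℝ} {y₀ : ℝ}, Tendsto y atTop (𝓝 y₀) → (∀ m, y m ∈ Icc (0 : ℝ) 1) →
      y₀ ∈ Icc (0 : ℝ) 1 → Tendsto (fun m => F₀ (y m)) atTop (𝓝 (F₀ y₀)) := by
    intro y y₀ hy hm h0
    exact (hFc y₀ h0).tendsto.comp (tendsto_nhdsWithin_iff.2 ⟨hy, Eventually.of_forall hm⟩)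
  have cW : ∀ {y z : ℕ → ℝ} {y₀ z₀ : ℝ}, Tendsto y atTop (𝓝 y₀) → Tendsto z atTop (𝓝 z₀) →
      (∀ m, 0 ≤ y m ∧ y m ≤ z m ∧ z m ≤ 1) → (0 ≤ y₀ ∧ y₀ ≤ z₀ ∧ z₀ ≤ 1) →
      Tendsto (fun m => wm (F₀ '' Icc (y m) (z m))) atTop (𝓝 (wm (F₀ '' Icc y₀ z₀))) := by
    intro y z y₀ z₀ hy hz hm h0
    have h1 : Tendsto (fun q : ℝ × ℝ => wm (F₀ '' Icc q.1 q.2))
      (𝓝[{q : ℝ × ℝ | 0 ≤ q.1 ∧ q.1 ≤ q.2 ∧ q.2 ≤ 1}] (y₀, z₀))
      (𝓝 (wm (F₀ '' Icc y₀ z₀))) := size_cont hFc (y₀, z₀) h0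
    have h2 : Tendsto (fun m => (y m, z m)) atTop
        (𝓝[{q : ℝ × ℝ | 0 ≤ q.1 ∧ q.1 ≤ q.2 ∧ q.2 ≤ 1}] (y₀, z₀)) := by
      rw [tendsto_nhdsWithin_iff]
      exact ⟨hy.prodMk_nhds hz, Eventually.of_forall fun m => hm m⟩
    have h3 := h1.comp h2
    exact h3
  refine ⟨F₀, hF₀, a₀, ma, b₀, mb, d₀, ⟨hbd, md.2⟩, ?_, ?_, ?_, ?_, ?_, ?_⟩
  · refine lim_close (cF m1 (fun m => ha _) ma) (l12.comp hnn) hε fun m => ?_
    have hk := k1 (φ (ψ m))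
    rw [hφF (ψ m)] at hk
    exact hk
  · refine lim_close (cW tendsto_const_nhds m1 (fun m => ⟨le_rfl, ha _⟩) ⟨le_rfl, ma⟩)
      tendsto_const_nhds hε4 fun m => ?_
    have hk := k4 (φ (ψ m))
    rw [hφF (ψ m)] at hk
    exact hk
  · refine lim_close (cF m2 (fun m => hb _) mb) (l31.comp hnn) hε fun m => ?_
    have hk := k2 (φ (ψ m))
    rw [hφF (ψ m)] at hk
    exact hk
  · refine lim_close (cW tendsto_const_nhds m2 (fun m => ⟨le_rfl, hb _⟩) ⟨le_rfl, mb⟩)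
      ((l2.comp hnn).mul_const (c / 4)) hε4 fun m => ?_
    have hk := k5 (φ (ψ m))
    rw [hφF (ψ m)] at hk
    exact hk
  · refine lim_close (cF m3 (fun m => ⟨(hb _).1.trans (hd _).1, (hd _).2⟩) md) (l32.comp hnn) hε
      fun m => ?_
    have hk := k3 (φ (ψ m))
    rw [hφF (ψ m)] at hk
    exact hk
  · refine lim_close (cW m2 m3 (fun m => ⟨(hb _).1, hd _⟩) ⟨mb.1, hbd, md.2⟩)
      tendsto_const_nhds hε4 fun m => ?_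
    have hk := k6 (φ (ψ m))
    rw [hφF (ψ m)] at hk
    exact hk

end Pool.Agent.HDA
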