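import Mathlib
import Pool.Agent.HDA.MvCl
import Pool.Agent.HDA.LiftMv

/-!
# HDA module FLOW: the flow on the space of states

PROOF. `Y = ↥(St Leg c)` is compact (`st_closed`). `m s u = if h : u ∈ Icc 0 1 then ⟨s', _⟩ else s`, `s'` chosen
by `mv_exists` (`mv_mem`); characterised by `mv_unique`: for `u ∈ Icc 0 1`, `m s u = s'` iff
`Mv s u s'`. `κ` from `st_inj`. The fields of `FlowAx`:
* `p_cont`, `p_inj` (`dist s s' ≥ dist s.1.2 s'.1.2` in the product metric), `p_open` (`st_open`).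
* `m_cont`: the graph is closed (`mv_closed`) and `Y` is compact: if `q n → q` in `Y × Icc 0 1`, every
  cluster point of `m (q n)` is `m q`.
* `m_zero`: `mv_zero`; `m_comp`: `mv_comp`; `m_next`: `mv_next`; `m_ne`: `mv_ne`.
* `eff`: let `ε > 0`; `δ₁` from `lf_small` for `min ε κ / 2`, `δ₂` from `lf_mv`,
  `δ₀ = min (min δ₁ δ₂) (min η (c / 64))`, `δ_E` from `effros` for `δ₀`, `δ = min δ_E (κ / 2)`. Let
  `dist s s' < δ`; `dist s.1.1 s'.1.1 < δ_E`, so there is `h` with `Sm h δ₀`, `h s.1.1 = s'.1.1`. The lift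
  `g : Y ≃ₜ Y`: `g s` is the unique state with `Lf h s (g s)` (`lf_exists`, `lf_unique`), the inverse is
  the lift of `h.symm` (`Sm.symm`, `lf_symm`, `lf_unique`); both are continuous since their graphs are
  closed (`lf_closed`) in compact spaces. `Sm g ε` by `lf_small`. `g s = s'`: both have the first
  coordinate `s'.1.1` (by the definition of `Lf`, `(g s).1.1 = h (f 0) = h s.1.1`), and
  `dist (g s) s' < κ/2 + κ/2`: `p_inj`. If `Inv m M`: `g '' M` is closed, and for `s ∈ M`, `u ∈ Icc 0 1` let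
  `r' = m (g s) u`, `r = g.symm r'`; `lf_mv` gives `r = m s w` or `r = m (m s 1) w`, so `r ∈ M` and
  `r' = g r ∈ g '' M`. For `g.symm` the same argument with `h.symm`.
About 200 lines. (Closed graph: if `K` is compact, `G : Z → K` has a closed graph then it is
continuous; e.g. `IsClosed` preimages: for `C ⊆ K` closed, `G ⁻¹' C` is the projection of the closed set
`graph ∩ (Z × C)` along the compact factor `K`, `isClosedMap_fst_of_compactSpace`.)
-/

set_option autoImplicit false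

open Set Topology Filter Metric Pool.Agent.HDC Pool.Agent.Helper43

namespace Pool.Agent.HDA

variable {X : Type*} [MetricSpace X] [CompactSpace X] [Nonempty X]
  [TopologicalSpace.SeparableSpace X] {Leg : X → Set X → X → Prop} {c η : ℝ}

private lemma closed_graph {Z K : Type*} [TopologicalSpace Z] [TopologicalSpace K] [CompactSpace K]
    {G : Z → K} (hG : IsClosed {q : Z × K | q.2 = G q.1}) : Continuous G := by
  rw [continuous_iff_isClosed]
  intro C hC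
  have h1 : G ⁻¹' C = Prod.fst '' ({q : Z × K | q.2 = G q.1} ∩ Prod.snd ⁻¹' C) := by
    apply Subset.antisymm
    · intro z hz
      exact ⟨(z, G z), ⟨rfl, hz⟩, rfl⟩
    · rintro _ ⟨⟨z, y⟩, ⟨hq, hy⟩, rfl⟩
      change G z ∈ C
      have h2 : y = G z := hq
      rw [← h2]
      exact hy
  rw [h1]
  exact isClosedMap_fst_of_compactSpace _ (hG.inter (hC.preimage continuous_snd))

omit [CompactSpace X] in
private lemma dist_fst_le' (s s' : ↥(St (X := X) Leg c)) : dist s.1.1 s'.1.1 ≤ dist s s' := by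
  rw [Subtype.dist_eq, Prod.dist_eq]
  exact le_max_left _ _

omit [CompactSpace X] in
private lemma dist_snd_le' (s s' : ↥(St (X := X) Leg c)) : dist s.1.2 s'.1.2 ≤ dist s s' := by
  rw [Subtype.dist_eq, Prod.dist_eq]
  exact le_max_right _ _

private lemma inv_image (hL : DL X Leg c η) {m : ↥(St Leg c) → ℝ → ↥(St Leg c)}
    (hm : ∀ s : ↥(St Leg c), ∀ u ∈ Icc (0 : ℝ) 1, Mv Leg c s.1 u (m s u).1) {h : X ≃ₜ X}
    (hlf : ∀ (s s' r' r : X × X) (u : ℝ), s ∈ St Leg c →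
      Lf Leg c h s s' → u ∈ Icc (0 : ℝ) 1 → Mv Leg c s' u r' → Lf Leg c h r r' →
      (∃ w ∈ Icc (0 : ℝ) 1, Mv Leg c s w r) ∨
        (∃ s₁, Mv Leg c s 1 s₁ ∧ ∃ w ∈ Icc (0 : ℝ) 1, Mv Leg c s₁ w r))
    (g : ↥(St Leg c) ≃ₜ ↥(St Leg c)) (hg : ∀ s, Lf Leg c h s.1 (g s).1)
    (M : Set ↥(St Leg c)) (hM : Inv m M) : Inv m (g '' M) := by
  have h1 : (1 : ℝ) ∈ Icc (0 : ℝ) 1 := right_mem_Icc.2 zero_le_one
  refine ⟨g.isClosed_image.2 hM.1, ?_⟩
  rintro _ ⟨s, hs, rfl⟩ u hu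
  have h2 := hg (g.symm (m (g s) u))
  rw [g.apply_symm_apply] at h2
  refine ⟨g.symm (m (g s) u), ?_, g.apply_symm_apply _⟩
  rcases hlf s.1 (g s).1 (m (g s) u).1 (g.symm (m (g s) u)).1 u s.2 (hg s) hu (hm (g s) u hu) h2
    with ⟨w, hw, h3⟩ | ⟨s₁, h3, w, hw, h4⟩
  · have h5 : g.symm (m (g s) u) = m s w := Subtype.ext (mv_unique hL h3 (hm s w hw))
    rw [h5]
    exact hM.2 s hs w hw
  · have h5 : s₁ = (m s 1).1 := mv_unique hL h3 (hm s 1 h1)
    rw [h5] at h4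
    have h6 : g.symm (m (g s) u) = m (m s 1) w := Subtype.ext (mv_unique hL h4 (hm _ w hw))
    rw [h6]
    exact hM.2 _ (hM.2 s hs 1 h1) w hw

theorem exists_flow (hom : Hom X) (hL : DL X Leg c η) :
    ∃ (m : ↥(St Leg c) → ℝ → ↥(St Leg c)) (κ : ℝ),
      FlowAx X ↥(St Leg c) (fun s => s.1.1) m κ := by
  have hSc : IsClosed (St Leg c) := st_closed hom hL
  have : CompactSpace ↥(St Leg c) := isCompact_iff_compactSpace.1 hSc.isCompact
  have hm0 : ∀ (s : ↥(St Leg c)) (u : ℝ), ∃ s' : ↥(St Leg c),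
      u ∈ Icc (0 : ℝ) 1 → Mv Leg c s.1 u s'.1 := by
    intro s u
    by_cases hu : u ∈ Icc (0 : ℝ) 1
    · obtain ⟨s', hs'⟩ := mv_exists hL s.2 hu
      exact ⟨⟨s', mv_mem hL hs'⟩, fun _ => hs'⟩
    · exact ⟨s, fun h => absurd h hu⟩
  choose m hm' using hm0
  have hm : ∀ s : ↥(St Leg c), ∀ u ∈ Icc (0 : ℝ) 1, Mv Leg c s.1 u (m s u).1 := hm'
  have hmu : ∀ (s s' : ↥(St Leg c)) (u : ℝ), u ∈ Icc (0 : ℝ) 1 → Mv Leg c s.1 u s'.1 →
      s' = m s u := fun s s' u hu h => Subtype.ext (mv_unique hL h (hm s u hu))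
  obtain ⟨κ, hκ, hinj⟩ := st_inj hom hL
  have h0 : (0 : ℝ) ∈ Icc (0 : ℝ) 1 := left_mem_Icc.2 zero_le_one
  have h1 : (1 : ℝ) ∈ Icc (0 : ℝ) 1 := right_mem_Icc.2 zero_le_one
  have pinj : ∀ s s' : ↥(St Leg c), s.1.1 = s'.1.1 → dist s s' < κ → s = s' := by
    rintro ⟨⟨x, y⟩, hs⟩ ⟨⟨x', y'⟩, hs'⟩ hxx hd
    have hxx' : x = x' := hxx
    subst hxx'
    have h2 := dist_snd_le' (⟨(x, y), hs⟩ : ↥(St Leg c)) ⟨(x, y'), hs'⟩
    have h3 := hinj x y y' hs hs' (h2.trans_lt hd)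
    subst h3
    rfl
  refine ⟨m, κ, ?_⟩
  refine ⟨hκ, continuous_fst.comp continuous_subtype_val, ?_, pinj, ?_, ?_, ?_, ?_, ?_, ?_⟩
  · intro U hU
    rw [Metric.isOpen_iff]
    rintro _ ⟨s, hs, rfl⟩
    obtain ⟨e, he, hball⟩ := Metric.isOpen_iff.1 hU s hs
    obtain ⟨δ, hδ, hy⟩ := st_open hom hL s.2 he
    refine ⟨min δ e, lt_min hδ he, ?_⟩
    intro x' hx'
    rw [mem_ball] at hx'
    obtain ⟨y', hy', hd⟩ := hy x' (by rw [dist_comm]; exact hx'.trans_le (min_le_left _ _))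
    refine ⟨⟨(x', y'), hy'⟩, hball ?_, rfl⟩
    rw [mem_ball, Subtype.dist_eq, Prod.dist_eq]
    exact max_lt (hx'.trans_le (min_le_right _ _)) hd
  · rw [continuousOn_iff_continuous_domRestrict]
    apply closed_graph
    have h2 := mv_closed hom hL
    have h3 : Continuous (fun q : ↥((univ : Set ↥(St Leg c)) ×ˢ Icc (0 : ℝ) 1) × ↥(St Leg c) =>
        ((q.1.1.1.1, q.1.1.2, q.2.1) : (X × X) × ℝ × (X × X))) := by fun_prop
    have h4 : {q : ↥((univ : Set ↥(St Leg c)) ×ˢ Icc (0 : ℝ) 1) × ↥(St Leg c) |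
        q.2 = (((univ : Set ↥(St Leg c)) ×ˢ Icc (0 : ℝ) 1).domRestrict
          fun q : ↥(St Leg c) × ℝ => m q.1 q.2) q.1} =
        (fun q : ↥((univ : Set ↥(St Leg c)) ×ˢ Icc (0 : ℝ) 1) × ↥(St Leg c) =>
        ((q.1.1.1.1, q.1.1.2, q.2.1) : (X × X) × ℝ × (X × X))) ⁻¹'
        {q : (X × X) × ℝ × (X × X) | q.1 ∈ St Leg c ∧ q.2.1 ∈ Icc (0 : ℝ) 1 ∧
          Mv Leg c q.1 q.2.1 q.2.2} := by
      ext ⟨⟨⟨s, u⟩, hsu⟩, s'⟩
      have hu : u ∈ Icc (0 : ℝ) 1 := hsu.2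
      constructor
      · intro h
        have h5 : s' = m s u := h
        refine ⟨s.2, hu, ?_⟩
        change Mv Leg c s.1 u s'.1
        rw [h5]
        exact hm s u hu
      · rintro ⟨-, -, h⟩
        exact hmu s s' u hu h
    rw [h4]
    exact h2.preimage h3
  · intro s
    exact (hmu s s 0 h0 (mv_zero hL s.2)).symm
  · intro s v u hv hvu hu
    have hvI : v ∈ Icc (0 : ℝ) 1 := ⟨hv, hvu.trans hu⟩
    have huI : u ∈ Icc (0 : ℝ) 1 := ⟨hv.trans hvu, hu⟩
    obtain ⟨u', h2, h3, h4, h5, h6, h7⟩ := mv_comp hL s.2 hv hvu hu (hm s v hvI) (hm s u huI)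
    refine ⟨u', h2, h3, hmu _ _ u' ⟨h2, h3.trans hu⟩ h4, h5, h6, ?_⟩
    intro w hw
    obtain ⟨w', hw', s₃, h8, h9⟩ := h7 w hw
    refine ⟨w', hw', ?_⟩
    have h10 := mv_unique hL h8 (hm (m s v) w ⟨hw.1, hw.2.trans (h3.trans hu)⟩)
    have h11 := mv_unique hL h9 (hm s w' ⟨hv.trans hw'.1, hw'.2.trans hu⟩)
    exact Subtype.ext (h10.symm.trans h11)
  · intro s v hv u hu
    rcases mv_next hL s.2 hv hu (hm s v hv) (hm s 1 h1) (hm (m s v) u hu) with
      ⟨w, hw, h2⟩ | ⟨w, hw, h2⟩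
    · exact Or.inl ⟨w, hw, hmu _ _ w ⟨hv.1.trans hw.1, hw.2⟩ h2⟩
    · exact Or.inr ⟨w, hw, hmu _ _ w hw h2⟩
  · intro s u hu
    exact mv_ne hL hu.1 (hm s u ⟨hu.1.le, hu.2⟩)
  · intro ε hε
    obtain ⟨δ₁, hδ₁, hsmall⟩ := lf_small hom hL (half_pos (lt_min hε hκ))
    obtain ⟨δ₂, hδ₂, hlfmv⟩ := lf_mv hom hL
    set δ₀ : ℝ := min (min δ₁ δ₂) (min η (c / 64)) with hδ₀def
    have hδ₀ : 0 < δ₀ := lt_min (lt_min hδ₁ hδ₂)
      (lt_min hL.η_pos (by have := hL.c_pos; linarith))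
    have hle₁ : δ₀ ≤ δ₁ := (min_le_left _ _).trans (min_le_left _ _)
    have hle₂ : δ₀ ≤ δ₂ := (min_le_left _ _).trans (min_le_right _ _)
    have hleη : δ₀ ≤ η := (min_le_right _ _).trans (min_le_left _ _)
    have hlec : δ₀ ≤ c / 64 := (min_le_right _ _).trans (min_le_right _ _)
    obtain ⟨δE, hδE, heff⟩ := effros hom hδ₀
    refine ⟨min δE (κ / 2), lt_min hδE (half_pos hκ), ?_⟩
    intro s s' hss
    obtain ⟨h, hh, hhs⟩ := heff s.1.1 s'.1.1
      ((dist_fst_le' s s').trans_lt (hss.trans_le (min_le_left _ _)))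
    -- lifts
    have hex : ∀ k : X ≃ₜ X, Sm k δ₀ → ∃ G : ↥(St Leg c) → ↥(St Leg c),
        ∀ s, Lf Leg c k s.1 (G s).1 := by
      intro k hk
      have : ∀ s : ↥(St Leg c), ∃ s' : ↥(St Leg c), Lf Leg c k s.1 s'.1 := by
        intro s
        obtain ⟨s', hs', hl⟩ := lf_exists hL hk hleη hlec s.2
        exact ⟨⟨s', hs'⟩, hl⟩
      choose G hG using this
      exact ⟨G, hG⟩
    have hcont : ∀ k : X ≃ₜ X, Sm k δ₀ → ∀ G : ↥(St Leg c) → ↥(St Leg c),
        (∀ s, Lf Leg c k s.1 (G s).1) → Continuous G := by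
      intro k hk G hG
      apply closed_graph
      have h2 := lf_closed hom hL hk hleη hlec
      have h3 : Continuous (fun q : ↥(St Leg c) × ↥(St Leg c) =>
          ((q.1.1, q.2.1) : (X × X) × (X × X))) := by fun_prop
      have h4 : {q : ↥(St Leg c) × ↥(St Leg c) | q.2 = G q.1} =
          (fun q : ↥(St Leg c) × ↥(St Leg c) => ((q.1.1, q.2.1) : (X × X) × (X × X))) ⁻¹'
          {q : (X × X) × (X × X) | q.1 ∈ St Leg c ∧ Lf Leg c k q.1 q.2} := by
        ext ⟨a, b⟩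
        constructor
        · intro h
          have h5 : b = G a := h
          refine ⟨a.2, ?_⟩
          change Lf Leg c k a.1 b.1
          rw [h5]
          exact hG a
        · rintro ⟨-, h⟩
          exact Subtype.ext (lf_unique hL h (hG a))
      rw [h4]
      exact h2.preimage h3
    have hh' : Sm h.symm δ₀ := hh.symm
    obtain ⟨G, hG⟩ := hex h hh
    obtain ⟨G', hG'⟩ := hex h.symm hh'
    let g : ↥(St Leg c) ≃ₜ ↥(St Leg c) :=
      { toFun := G
        invFun := G'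
        left_inv := fun a => Subtype.ext
          (lf_unique hL (hG' (G a)) (lf_symm hL hh hleη hlec (hG a)))
        right_inv := fun a => Subtype.ext
          (lf_unique hL (hG (G' a)) (by
            have h2 := lf_symm hL hh' hleη hlec (hG' a)
            rwa [Homeomorph.symm_symm] at h2))
        continuous_toFun := hcont h hh G hG
        continuous_invFun := hcont h.symm hh' G' hG' }
    have hgs : ∀ a, Lf Leg c h a.1 (g a).1 := hG
    have hgs' : ∀ a, Lf Leg c h.symm a.1 (g.symm a).1 := hG'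
    have hd : ∀ a, dist (g a) a < min ε κ / 2 := by
      intro a
      have h2 := hsmall h (hh.mono hle₁) a.1 (g a).1 (hgs a)
      rwa [Subtype.dist_eq]
    refine ⟨g, ?_, ?_, inv_image hL hm (hlfmv h (hh.mono hle₂)) g hgs,
      inv_image hL hm (hlfmv h.symm (hh'.mono hle₂)) g.symm hgs'⟩
    · intro a
      have h2 := hd a
      have h3 : min ε κ ≤ ε := min_le_left _ _
      linarith
    · apply pinj
      · obtain ⟨f, hf, t₁, -, t₂, -, -, -, h5, -⟩ := hgs s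
        rw [← h5, hf.2.2.1]
        exact hhs
      · have h2 := hd s
        have h3 : min ε κ ≤ κ := min_le_right _ _
        have h4 := dist_triangle (g s) s s'
        have h5 : min δE (κ / 2) ≤ κ / 2 := min_le_right _ _
        linarith

end Pool.Agent.HDA
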