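import Mathlib
import Pool.Agent.HDA.ThickEx

/-!
# HDA module TYPEDICH: one direction, or arcs

PROOF. Suppose `¬ Type1 X s` for some `s > 0`: there are `x`, `Th s x B a`, `Th s x B' a'`, `b ∈ B`,
`b' ∈ B'`, `b ≠ x ≠ b'`, `¬ JoinedIn (ball x s \ {x}) b b'`. Since `B \ {x}` is path connected
(image of `(0,1]`) and contained in `ball x s \ {x}`, no point of `B \ {x}` is joined in
`ball x s \ {x}` to a point of `B' \ {x}` (*); in particular `B ∩ B' = {x}`.
Let `ε_B, ε_B'` be the thickness constants, `η > 0` with `3 η < min ε_B ε_B'` and `η ≤ s / 6`; Effros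
for `η` gives `δ`. Let `ε = min δ η`. Claim: `Near ε x w → w ∈ B ∪ B'`. `dist x w < δ`: let
`g x = w`, `Sm g η`, `h = g.symm`, `y = h x`. If `y = x` then `w = x ∈ B`. `Near (ε + 2η) x (h x)`
(`Near.image` of `Near ε w x` under `h`: `h w = x`), so `h '' B ∩ B ≠ ∅` and `h '' B' ∩ B' ≠ ∅`.
`h '' B ⊆ ball x s`: for `c ∈ B`, `dist (h c) x ≤ dist (h c) c + dist c x < η + s/3`. Let `y ≠ x`.
Suppose `x ∉ h '' B` and `x ∉ h '' B'`. Then `y` is joined in `ball x s \ {x}` to a point of `B \ {x}`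
(along `h '' B`, path connected, contains `y = h x`) and to a point of `B' \ {x}`: contradiction to
(*). So `x ∈ h '' B` or `x ∈ h '' B'`, i.e. `w = g x = h.symm x ∈ B ∪ B'`. So `LineAt x`.
Transport: if `LineAt x` and `k x = x'`, then `k '' B`, `k '' B'` and `δ` from `Near.of_homeo` for
`k.symm` show `LineAt x'` (`B ∩ B' = {x}` goes to `{x'}`).
`line_uniform`: for `x₀` with data `B, B', a, a', ε`; for `dist x x₀` small let `Sm h η`, `h x₀ = x`,
`2 η < ε / 2`, `4 η ≤ min (dist x₀ a) (dist x₀ a')`: `h '' B`, `h '' B'` work for `x` with `ε / 2`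
(`Near (ε/2) x w → Near ε x₀ (h.symm w)`), and `dist x (h a) ≥ dist x₀ a / 2`. Compactness. About 150
lines in total.
-/

set_option autoImplicit false

open Set Topology Filter Metric Pool.Agent.HDC Pool.Agent.Helper43

namespace Pool.Agent.HDA

private theorem arc_minus_joinedIn {X : Type*} [MetricSpace X] {B F : Set X} {x a u v : X}
    (hB : IsArc B x a) (hBF : B \ {x} ⊆ F) (hu : u ∈ B) (hux : u ≠ x) (hv : v ∈ B) (hvx : v ≠ x) :
    JoinedIn F u v := by
  obtain ⟨f, hc, hi, h0, h1, hA⟩ := hB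
  have hpc : IsPathConnected (f '' Ioc 0 1) := by
    refine IsPathConnected.image' ?_ (hc.mono Ioc_subset_Icc_self)
    exact (convex_Ioc (0 : ℝ) 1).isPathConnected ⟨1, by norm_num, le_rfl⟩
  have hmem : ∀ w ∈ B, w ≠ x → w ∈ f '' Ioc 0 1 := by
    intro w hw hwx
    rw [← hA] at hw
    obtain ⟨t, ht, rfl⟩ := hw
    refine ⟨t, ⟨lt_of_le_of_ne ht.1 ?_, ht.2⟩, rfl⟩
    rintro rfl
    exact hwx h0
  refine (hpc.joinedIn u (hmem u hu hux) v (hmem v hv hvx)).mono ?_
  rintro _ ⟨t, ht, rfl⟩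
  apply hBF
  refine ⟨?_, ?_⟩
  · rw [← hA]
    exact ⟨t, ⟨ht.1.le, ht.2⟩, rfl⟩
  · rintro (hx : f t = x)
    have : t = 0 := hi ⟨ht.1.le, ht.2⟩ ⟨le_rfl, zero_le_one⟩ (hx.trans h0.symm)
    exact absurd ht.1 (by rw [this]; exact lt_irrefl _)

private theorem lineAt_transport {X : Type*} [MetricSpace X] [CompactSpace X] {x x' : X}
    (h : LineAt x) (k : X ≃ₜ X) (hk : k x = x') : LineAt x' := by
  obtain ⟨B, B', a, a', ε, hε, hB, hB', hint, hw⟩ := h
  obtain ⟨δ, hδ, hδ'⟩ := Near.of_homeo k.symm hε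
  refine ⟨k '' B, k '' B', k a, k a', δ, hδ, hk ▸ hB.image k, hk ▸ hB'.image k, ?_, ?_⟩
  · rw [← image_inter k.injective, hint, image_singleton, hk]
  · intro w hw'
    have h1 := hδ' x' w hw'
    have h2 : k.symm x' = x := by rw [← hk, k.symm_apply_apply]
    rw [h2] at h1
    rcases hw _ h1 with h3 | h3
    · exact Or.inl ⟨_, h3, k.apply_symm_apply w⟩
    · exact Or.inr ⟨_, h3, k.apply_symm_apply w⟩

theorem type_dichotomy {X : Type*} [MetricSpace X] [CompactSpace X] (hom : Hom X) :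
    (∀ s > 0, Type1 X s) ∨ (∀ x : X, LineAt x) := by
  by_cases hT : ∀ s > 0, Type1 X s
  · exact Or.inl hT
  right
  push Not at hT
  obtain ⟨s, hs, hT⟩ := hT
  unfold Type1 at hT
  push Not at hT
  obtain ⟨x, B, a, B', a', hB, hB', b, hb, hbx, b', hb', hbx', hnj⟩ := hT
  suffices hL : LineAt x by
    intro x'
    obtain ⟨k, hk⟩ := hom x x'
    exact lineAt_transport hL k hk
  obtain ⟨hBa, hBs, εB, hεB, hBt⟩ := hB
  obtain ⟨hBa', hBs', εB', hεB', hBt'⟩ := hB'
  have hsub : ∀ C : Set X, C ⊆ ball x (s / 3) → C \ {x} ⊆ ball x s \ {x} := fun C hC c hc =>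
    ⟨ball_subset_ball (by linarith) (hC hc.1), hc.2⟩
  have hstar : ∀ u ∈ B, u ≠ x → ∀ u' ∈ B', u' ≠ x → ¬ JoinedIn (ball x s \ {x}) u u' := by
    intro u hu hux u' hu' hux' hj
    exact hnj (((arc_minus_joinedIn hBa (hsub B hBs) hb hbx hu hux).trans hj).trans
      (arc_minus_joinedIn hBa' (hsub B' hBs') hu' hux' hb' hbx'))
  set η : ℝ := min (min εB εB' / 4) (s / 6) with hη
  have hm : 0 < min εB εB' := lt_min hεB hεB'
  have hη0 : 0 < η := lt_min (by linarith) (by linarith)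
  have hη1 : η ≤ min εB εB' / 4 := min_le_left _ _
  have hη2 : η ≤ s / 6 := min_le_right _ _
  have hmB : min εB εB' ≤ εB := min_le_left _ _
  have hmB' : min εB εB' ≤ εB' := min_le_right _ _
  obtain ⟨δ, hδ, hE⟩ := effros hom hη0
  refine ⟨B, B', a, a', min δ η, lt_min hδ hη0, hBa, hBa', ?_, ?_⟩
  · apply Subset.antisymm
    · rintro c ⟨hc, hc'⟩
      by_contra hcx
      have hcx' : c ≠ x := hcx
      have hcs : c ∈ ball x s \ {x} := hsub B hBs ⟨hc, hcx⟩
      exact hstar c hc hcx' c hc' hcx' (JoinedIn.refl hcs)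
    · rintro c (rfl : c = x)
      exact ⟨hBa.left_mem, hBa'.left_mem⟩
  · intro w hw
    obtain ⟨g, hg, hgx⟩ := hE x w (hw.dist_lt.trans_le (min_le_left _ _))
    have hh : Sm g.symm η := hg.symm
    have hgw : g.symm w = x := by rw [← hgx, g.symm_apply_apply]
    have hn : Near (min δ η + 2 * η) x (g.symm x) := by
      have := hw.symm.image hh
      rwa [hgw] at this
    have hle : min δ η + 2 * η ≤ 3 * η := by linarith [min_le_right δ η]
    obtain ⟨p, hp1, hp2⟩ := hBt g.symm (hh.mono (by linarith)) (hn.mono (by linarith))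
    obtain ⟨p', hp1', hp2'⟩ := hBt' g.symm (hh.mono (by linarith)) (hn.mono (by linarith))
    by_contra hwB
    have hwB1 : w ∉ B := fun h => hwB (Or.inl h)
    have hwB2 : w ∉ B' := fun h => hwB (Or.inr h)
    have key : ∀ C : Set X, C ⊆ ball x (s / 3) → w ∉ C → g.symm '' C ⊆ ball x s \ {x} := by
      rintro C hC hwC _ ⟨c, hc, rfl⟩
      refine ⟨?_, ?_⟩
      · have h1 := hh c
        have h2 := hC hc
        rw [mem_ball] at h2 ⊢
        have h3 := dist_triangle (g.symm c) c x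
        linarith
      · rintro (hcx : g.symm c = x)
        apply hwC
        have : c = w := by rw [← hgx, ← hcx, g.apply_symm_apply]
        rwa [← this]
    have hx1 : ∀ C : Set X, C ⊆ ball x (s / 3) → w ∉ C → ∀ q ∈ g.symm '' C, q ≠ x :=
      fun C hC hwC q hq => (key C hC hwC hq).2
    have hj1 : JoinedIn (ball x s \ {x}) (g.symm x) p :=
      isArc_joinedIn (hBa.image g.symm) (key B hBs hwB1) ⟨x, hBa.left_mem, rfl⟩ hp1
    have hj2 : JoinedIn (ball x s \ {x}) (g.symm x) p' :=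
      isArc_joinedIn (hBa'.image g.symm) (key B' hBs' hwB2) ⟨x, hBa'.left_mem, rfl⟩ hp1'
    exact hstar p hp2 (hx1 B hBs hwB1 p hp1) p' hp2' (hx1 B' hBs' hwB2 p' hp1')
      (hj1.symm.trans hj2)

theorem line_uniform {X : Type*} [MetricSpace X] [CompactSpace X] (hom : Hom X)
    (hl : ∀ x : X, LineAt x) :
    ∃ ε > 0, ∀ x : X, ∃ (B B' : Set X) (a a' : X), IsArc B x a ∧ IsArc B' x a' ∧ B ∩ B' = {x} ∧
      (∀ w, Near ε x w → w ∈ B ∪ B') ∧ ε ≤ dist x a ∧ ε ≤ dist x a' := by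
  let G : ℝ → X → Prop := fun ε x => ∃ (B B' : Set X) (a a' : X), IsArc B x a ∧ IsArc B' x a' ∧
    B ∩ B' = {x} ∧ (∀ w, Near ε x w → w ∈ B ∪ B') ∧ ε ≤ dist x a ∧ ε ≤ dist x a'
  have hG : ∀ {ε ε' : ℝ} {x : X}, ε' ≤ ε → G ε x → G ε' x := by
    rintro ε ε' x hle ⟨B, B', a, a', hB, hB', hint, hw, h1, h2⟩
    exact ⟨B, B', a, a', hB, hB', hint, fun w hw' => hw w (hw'.mono hle), hle.trans h1,
      hle.trans h2⟩
  have main : ∃ ε > 0, ∀ x ∈ (univ : Set X), G ε x := by
    refine isCompact_univ.induction_on (p := fun s : Set X => ∃ ε > 0, ∀ x ∈ s, G ε x)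
      ⟨1, one_pos, fun x hx => absurd hx (notMem_empty x)⟩ ?_ ?_ ?_
    · rintro s t hst ⟨ε, hε, h⟩
      exact ⟨ε, hε, fun x hx => h x (hst hx)⟩
    · rintro s t ⟨ε, hε, h⟩ ⟨ε', hε', h'⟩
      refine ⟨min ε ε', lt_min hε hε', ?_⟩
      rintro x (hx | hx)
      · exact hG (min_le_left _ _) (h x hx)
      · exact hG (min_le_right _ _) (h' x hx)
    · intro x₀ _
      obtain ⟨B, B', a, a', ε, hε, hB, hB', hint, hw⟩ := hl x₀
      have ha : 0 < dist x₀ a := dist_pos.2 hB.ne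
      have ha' : 0 < dist x₀ a' := dist_pos.2 hB'.ne
      set η : ℝ := min (ε / 4) (min (dist x₀ a / 4) (dist x₀ a' / 4)) with hη
      have hη0 : 0 < η := lt_min (by linarith) (lt_min (by linarith) (by linarith))
      have hη1 : η ≤ ε / 4 := min_le_left _ _
      have hη2 : η ≤ dist x₀ a / 4 := (min_le_right _ _).trans (min_le_left _ _)
      have hη3 : η ≤ dist x₀ a' / 4 := (min_le_right _ _).trans (min_le_right _ _)
      obtain ⟨δ, hδ, hE⟩ := effros hom hη0
      refine ⟨ball x₀ δ, mem_nhdsWithin_of_mem_nhds (ball_mem_nhds x₀ hδ), 2 * η, by linarith, ?_⟩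
      intro x hx
      rw [mem_ball, dist_comm] at hx
      obtain ⟨h, hh, hhx⟩ := hE x₀ x hx
      have hdist : ∀ c : X, dist x₀ c - 2 * η ≤ dist x (h c) := by
        intro c
        have h1 := hh x₀
        have h2 := hh c
        have h3 := dist_triangle4 x₀ (h x₀) (h c) c
        rw [dist_comm x₀ (h x₀)] at h3
        rw [hhx] at h1 h3
        linarith
      refine ⟨h '' B, h '' B', h a, h a', hhx ▸ hB.image h, hhx ▸ hB'.image h, ?_, ?_, ?_, ?_⟩
      · rw [← image_inter h.injective, hint, image_singleton, hhx]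
      · intro w hw'
        have h1 := hw'.image hh.symm
        have h2 : h.symm x = x₀ := by rw [← hhx, h.symm_apply_apply]
        rw [h2] at h1
        rcases hw _ (h1.mono (by linarith)) with h3 | h3
        · exact Or.inl ⟨_, h3, h.apply_symm_apply w⟩
        · exact Or.inr ⟨_, h3, h.apply_symm_apply w⟩
      · linarith [hdist a]
      · linarith [hdist a']
  obtain ⟨ε, hε, h⟩ := main
  exact ⟨ε, hε, fun x => h x (mem_univ x)⟩

end Pool.Agent.HDA
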