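import Mathlib
import Pool.Agent.HDA.TypeDich
import Pool.Agent.HDA.Size
import Pool.Agent.HDA.Reparam

/-!
# HDA module LINEDL: directed arcs in the line case

PROOF. `line_uniform` gives `ε > 0` and for every `x` arcs `B` from `x` to `a`, `B'` from `x` to `a'` with
`B ∩ B' = {x}`, `Near ε x w → w ∈ B ∪ B'`, `ε ≤ dist x a`, `ε ≤ dist x a'`. Let
`Leg x A z := IsArc A x z ∧ diam A < ε`.
FACT: if `Leg x A z` then `A ⊆ B` or `A ⊆ B'`: `A ⊆ B ∪ B'` (`isArc_near`), and `A \ {x}` is connected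
(image of `Ioc 0 1`), contained in the disjoint sets `B \ {x}`, `B' \ {x}`, which are relatively closed in
the complement of `x` (`isPreconnected_closed_iff` or `IsPreconnected.subset_or_subset` with the open
sets `B'ᶜ`, `Bᶜ`). If `A ⊆ B` and `f` parametrises `B` (`f 0 = x`) then `A = f '' Icc 0 t`, `z = f t`
(`arc_in_arc`).
`diam_lt_of_wm` gives `δ₂` for `ε` (a set with `diam ≥ ε` has `wm ≥ δ₂`) and `δ₃` for `ε / 2`. Let
`c = min (δ₂ / 2) (δ₃ / 2)`, `η = ε / 8`.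
* `arc` clear; `subl`, `subr`: subarcs (`IsArc.split`, or `A` itself), with smaller diameter.
* `tri`: if `A, A' ⊆ B` then both are `f '' Icc 0 t`, `f '' Icc 0 t'`: nested. If `A ⊆ B`, `A' ⊆ B'` then
  `A ∩ A' ⊆ {x}`, and it contains `x`.
* `two`: two of the three arcs lie in the same arc `B` or `B'`; they are nested and contain points `≠ x`.
* `ex`: small subarc of `B` (continuity of the parametrisation at `0`; `isArc_of_Icc`).
* `ext`: `A = f '' Icc 0 t ⊆ B` say (or `B'`), `wm B ≥ δ₂ > c` as `diam B ≥ dist x a ≥ ε`; `size_ivt` gives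
  `t'` with `wm (f '' Icc 0 t') = c`; `t ≤ t'` or `wm A = c` (`size_lt`); `A' = f '' Icc 0 t'` is an arc
  (`isArc_of_Icc`) with `wm A' = c < δ₃`, so `diam A' < ε / 2`: legal.
* `hom`: `diam A < ε / 2` since `wm A ≤ c < δ₃`; `diam (h '' A) < ε / 2 + 2 η < ε` (`diam_image_lt`).
About 170 lines.
-/

set_option autoImplicit false

open Set Topology Filter Metric Pool.Agent.HDC Pool.Agent.Helper43

namespace Pool.Agent.HDA

private lemma sub_of_arc' {X : Type*} [MetricSpace X] {F : ℝ → X} (hc : ContinuousOn F (Icc 0 1))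
    (hi : InjOn F (Icc 0 1)) {A : Set X} {z : X} (hA : IsArc A (F 0) z) (hs : A ⊆ F '' Icc 0 1) :
    ∃ v ∈ Ioc (0 : ℝ) 1, A = F '' Icc 0 v ∧ F v = z := by
  obtain ⟨v, hv, hvz⟩ := hs hA.right_mem
  have hv0 : 0 < v := by
    rcases hv.1.eq_or_lt with h | h
    · exfalso
      apply hA.ne
      rw [← hvz, ← h]
    · exact h
  refine ⟨v, ⟨hv0, hv.2⟩, ?_, hvz⟩
  rw [← hvz] at hA
  exact arc_in_arc hc hi le_rfl hv0 hv.2 hA hs

private lemma arc_dich {X : Type*} [MetricSpace X] {A B B' : Set X} {x z : X} (hA : IsArc A x z)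
    (hB : IsClosed B) (hB' : IsClosed B') (hBB : B ∩ B' = {x}) (hs : A ⊆ B ∪ B') :
    A ⊆ B ∨ A ⊆ B' := by
  have hxx : x ∈ B ∩ B' := by rw [hBB]; rfl
  obtain ⟨g, hc, hi, h0, h1, hgA⟩ := hA
  have hpre : IsPreconnected (g '' Ioc 0 1) :=
    isPreconnected_Ioc.image g (hc.mono Ioc_subset_Icc_self)
  have hx : x ∉ g '' Ioc 0 1 := by
    rintro ⟨t, ht, htx⟩
    rw [← h0] at htx
    have := hi ⟨ht.1.le, ht.2⟩ (left_mem_Icc.2 zero_le_one) htx
    have := ht.1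
    linarith
  have hsub : g '' Ioc 0 1 ⊆ B ∪ B' :=
    (image_mono Ioc_subset_Icc_self).trans (by rw [hgA]; exact hs)
  have hA' : ∀ C : Set X, x ∈ C → g '' Ioc 0 1 ⊆ C → A ⊆ C := by
    intro C hxC hC y hy
    rw [← hgA] at hy
    obtain ⟨t, ht, rfl⟩ := hy
    rcases ht.1.eq_or_lt with h | h
    · rw [← h, h0]
      exact hxC
    · exact hC ⟨t, ⟨h, ht.2⟩, rfl⟩
  by_cases hBn : (g '' Ioc 0 1 ∩ B).Nonempty
  · by_cases hBn' : (g '' Ioc 0 1 ∩ B').Nonempty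
    · exfalso
      obtain ⟨y, hy, hy'⟩ := isPreconnected_closed_iff.1 hpre B B' hB hB' hsub hBn hBn'
      rw [hBB] at hy'
      rw [mem_singleton_iff.1 hy'] at hy
      exact hx hy
    · left
      apply hA' B hxx.1
      intro y hy
      rcases hsub hy with h | h
      · exact h
      · exact absurd ⟨y, hy, h⟩ hBn'
  · right
    apply hA' B' hxx.2
    intro y hy
    rcases hsub hy with h | h
    · exact absurd ⟨y, hy, h⟩ hBn
    · exact h

/-- `f` parametrises an arc from `x` to a point at distance `≥ ε` -/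
private def Pm {X : Type*} [MetricSpace X] (ε : ℝ) (x : X) (f : ℝ → X) : Prop :=
  ContinuousOn f (Icc 0 1) ∧ InjOn f (Icc 0 1) ∧ f 0 = x ∧ ε ≤ dist x (f 1)

/-- `A` is an initial arc of `f` ending in `z` -/
private def Ini {X : Type*} (f : ℝ → X) (A : Set X) (z : X) : Prop :=
  ∃ t ∈ Ioc (0 : ℝ) 1, A = f '' Icc 0 t ∧ f t = z

private lemma local_param {X : Type*} [MetricSpace X] [CompactSpace X] {ε : ℝ} {x : X}
    (h : ∃ (B B' : Set X) (a a' : X), IsArc B x a ∧ IsArc B' x a' ∧ B ∩ B' = {x} ∧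
      (∀ w, Near ε x w → w ∈ B ∪ B') ∧ ε ≤ dist x a ∧ ε ≤ dist x a') :
    ∃ f f' : ℝ → X, Pm ε x f ∧ Pm ε x f' ∧ f '' Icc 0 1 ∩ f' '' Icc 0 1 = {x} ∧
      ∀ A z, IsArc A x z → diam A < ε → Ini f A z ∨ Ini f' A z := by
  obtain ⟨B, B', a, a', hB, hB', hBB, hw, ha, ha'⟩ := h
  have hBc := hB.isClosed
  have hBc' := hB'.isClosed
  obtain ⟨f, hc, hi, h0, h1, hfB⟩ := hB
  obtain ⟨f', hc', hi', h0', h1', hfB'⟩ := hB'
  refine ⟨f, f', ⟨hc, hi, h0, by rw [h1]; exact ha⟩, ⟨hc', hi', h0', by rw [h1']; exact ha'⟩,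
    by rw [hfB, hfB']; exact hBB, ?_⟩
  intro A z hA hd
  have hs : A ⊆ B ∪ B' := fun y hy => hw y (isArc_near hA hA.left_mem hy hd)
  rcases arc_dich hA hBc hBc' hBB hs with h | h
  · left
    rw [← h0] at hA
    exact sub_of_arc' hc hi hA (by rw [hfB]; exact h)
  · right
    rw [← h0'] at hA
    exact sub_of_arc' hc' hi' hA (by rw [hfB']; exact h)

private lemma Ini.nested {X : Type*} {f : ℝ → X} {A A' : Set X} {z z' : X} (h : Ini f A z)
    (h' : Ini f A' z') : A ⊆ A' ∨ A' ⊆ A := by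
  obtain ⟨t, ht, rfl, -⟩ := h
  obtain ⟨t', ht', rfl, -⟩ := h'
  rcases le_total t t' with h | h
  · exact Or.inl (image_mono (Icc_subset_Icc le_rfl h))
  · exact Or.inr (image_mono (Icc_subset_Icc le_rfl h))

private lemma Ini.ne {X : Type*} [MetricSpace X] {ε : ℝ} {x : X} {f : ℝ → X} (hf : Pm ε x f)
    {A A' : Set X} {z z' : X} (h : Ini f A z) (h' : Ini f A' z') : A ∩ A' ≠ {x} := by
  obtain ⟨t, ht, rfl, -⟩ := h
  obtain ⟨t', ht', rfl, -⟩ := h'
  intro heq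
  have hm : 0 < min t t' := lt_min ht.1 ht'.1
  have h1 : f (min t t') ∈ f '' Icc 0 t ∩ f '' Icc 0 t' :=
    ⟨⟨_, ⟨hm.le, min_le_left _ _⟩, rfl⟩, ⟨_, ⟨hm.le, min_le_right _ _⟩, rfl⟩⟩
  rw [heq, mem_singleton_iff, ← hf.2.2.1] at h1
  have h2 := hf.2.1 ⟨hm.le, (min_le_left _ _).trans ht.2⟩ (left_mem_Icc.2 zero_le_one) h1
  linarith

private lemma Ini.inter {X : Type*} [MetricSpace X] {ε : ℝ} {x : X} {f f' : ℝ → X}
    (hf : Pm ε x f) (hf' : Pm ε x f') (hff : f '' Icc 0 1 ∩ f' '' Icc 0 1 = {x}) {A A' : Set X}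
    {z z' : X} (h : Ini f A z) (h' : Ini f' A' z') : A ∩ A' = {x} := by
  obtain ⟨t, ht, rfl, -⟩ := h
  obtain ⟨t', ht', rfl, -⟩ := h'
  apply Subset.antisymm
  · rw [← hff]
    exact inter_subset_inter (image_mono (Icc_subset_Icc le_rfl ht.2))
      (image_mono (Icc_subset_Icc le_rfl ht'.2))
  · rw [singleton_subset_iff]
    exact ⟨⟨0, ⟨le_rfl, ht.1.le⟩, hf.2.2.1⟩, ⟨0, ⟨le_rfl, ht'.1.le⟩, hf'.2.2.1⟩⟩

theorem line_dl {X : Type*} [MetricSpace X] [CompactSpace X] [Nonempty X]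
    [TopologicalSpace.SeparableSpace X] (hom : Hom X) (hl : ∀ x : X, LineAt x) :
    ∃ (Leg : X → Set X → X → Prop) (c η : ℝ), DL X Leg c η := by
  obtain ⟨ε, hε, hu⟩ := line_uniform hom hl
  obtain ⟨δ₂, hδ₂, h₂⟩ := diam_lt_of_wm (X := X) hε
  obtain ⟨δ₃, hδ₃, h₃⟩ := diam_lt_of_wm (X := X) (half_pos hε)
  set c : ℝ := min (δ₂ / 2) (δ₃ / 2) with hcdef
  have hc0 : 0 < c := lt_min (by linarith) (by linarith)
  have hc2 : c < δ₂ := (min_le_left _ _).trans_lt (by linarith)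
  have hc3 : c < δ₃ := (min_le_right _ _).trans_lt (by linarith)
  have hloc := fun x => local_param (hu x)
  have hbd : ∀ A : Set X, Bornology.IsBounded A := fun A => near_bdd A
  -- an initial arc of size `c`
  have hexc : ∀ (x : X) (f : ℝ → X), Pm ε x f → ∃ t ∈ Ioc (0 : ℝ) 1, wm (f '' Icc 0 t) = c := by
    rintro x f ⟨hfc, hfi, h0, h1⟩
    have hw : c ≤ wm (f '' Icc 0 1) := by
      by_contra hcon
      push Not at hcon
      have h4 := h₂ _ (hcon.trans hc2)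
      have h5 : dist (f 0) (f 1) ≤ diam (f '' Icc 0 1) :=
        dist_le_diam_of_mem (hbd _) (mem_image_of_mem f (left_mem_Icc.2 zero_le_one))
          (mem_image_of_mem f (right_mem_Icc.2 zero_le_one))
      rw [h0] at h5
      linarith
    obtain ⟨t, ht, htc⟩ := size_ivt hfc le_rfl zero_le_one hc0.le hw
    refine ⟨t, ⟨?_, ht.2⟩, htc⟩
    rcases ht.1.eq_or_lt with h | h
    · exfalso
      rw [← h, size_self] at htc
      linarith
    · exact h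
  have hleg : ∀ (x : X) (f : ℝ → X), Pm ε x f → ∀ t ∈ Ioc (0 : ℝ) 1, wm (f '' Icc 0 t) = c →
      IsArc (f '' Icc 0 t) x (f t) ∧ diam (f '' Icc 0 t) < ε := by
    rintro x f ⟨hfc, hfi, h0, h1⟩ t ht htc
    have hsub : Icc 0 t ⊆ Icc (0 : ℝ) 1 := Icc_subset_Icc le_rfl ht.2
    refine ⟨?_, ?_⟩
    · have h4 := isArc_of_Icc ht.1 (hfc.mono hsub) (hfi.mono hsub)
      rwa [h0] at h4
    · have h4 := h₃ (f '' Icc 0 t) (by rw [htc]; exact hc3)
      linarith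
  have hextf : ∀ (x : X) (f : ℝ → X), Pm ε x f → ∀ A z, Ini f A z → wm A ≤ c →
      ∃ A' z', (IsArc A' x z' ∧ diam A' < ε) ∧ A ⊆ A' ∧ wm A' = c := by
    rintro x f hf A z ⟨s, hs, rfl, -⟩ hwA
    obtain ⟨t, ht, htc⟩ := hexc x f hf
    refine ⟨f '' Icc 0 t, f t, hleg x f hf t ht htc, ?_, htc⟩
    have hst : s ≤ t := by
      by_contra hlt
      push Not at hlt
      have h4 := size_lt hf.1 hf.2.1 le_rfl le_rfl ht.1.le hlt.le hs.2 (Or.inr hlt)
      linarith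
    exact image_mono (Icc_subset_Icc le_rfl hst)
  refine ⟨fun x A z => IsArc A x z ∧ diam A < ε, c, ε / 8, ?_⟩
  refine ⟨hc0, by linarith, fun x A z h => h.1, ?_, ?_, ?_, ?_, ?_, ?_, ?_⟩
  · rintro x A z y ⟨hA, hd⟩ hy hyx
    obtain ⟨A', hsub, hA'⟩ := hA.sub hA.left_mem hy hyx.symm
    exact ⟨A', hsub, hA', (diam_mono hsub (hbd _)).trans_lt hd⟩
  · rintro x A z y ⟨hA, hd⟩ hy hyz
    obtain ⟨A', hsub, hA'⟩ := hA.sub hy hA.right_mem hyz
    exact ⟨A', hsub, hA', (diam_mono hsub (hbd _)).trans_lt hd⟩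
  · rintro x A z A' z' ⟨hA, hd⟩ ⟨hA', hd'⟩
    obtain ⟨f, f', hf, hf', hff, hini⟩ := hloc x
    rcases hini A z hA hd with h | h <;> rcases hini A' z' hA' hd' with h' | h'
    · rcases h.nested h' with h4 | h4
      · exact Or.inl h4
      · exact Or.inr (Or.inl h4)
    · exact Or.inr (Or.inr (Ini.inter hf hf' hff h h'))
    · refine Or.inr (Or.inr ?_)
      rw [inter_comm]
      exact Ini.inter hf hf' hff h' h
    · rcases h.nested h' with h4 | h4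
      · exact Or.inl h4
      · exact Or.inr (Or.inl h4)
  · rintro x A₁ z₁ A₂ z₂ A₃ z₃ ⟨hA₁, hd₁⟩ ⟨hA₂, hd₂⟩ ⟨hA₃, hd₃⟩
    obtain ⟨f, f', hf, hf', hff, hini⟩ := hloc x
    rcases hini A₁ z₁ hA₁ hd₁ with h₁ | h₁ <;> rcases hini A₂ z₂ hA₂ hd₂ with h₂ | h₂
    · exact Or.inl (Ini.ne hf h₁ h₂)
    · rcases hini A₃ z₃ hA₃ hd₃ with h₃ | h₃
      · exact Or.inr (Or.inl (Ini.ne hf h₁ h₃))
      · exact Or.inr (Or.inr (Ini.ne hf' h₂ h₃))
    · rcases hini A₃ z₃ hA₃ hd₃ with h₃ | h₃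
      · exact Or.inr (Or.inr (Ini.ne hf h₂ h₃))
      · exact Or.inr (Or.inl (Ini.ne hf' h₁ h₃))
    · exact Or.inl (Ini.ne hf' h₁ h₂)
  · intro x
    obtain ⟨f, f', hf, hf', hff, hini⟩ := hloc x
    obtain ⟨t, ht, htc⟩ := hexc x f hf
    exact ⟨f '' Icc 0 t, f t, hleg x f hf t ht htc⟩
  · rintro x A z ⟨hA, hd⟩ hwA
    obtain ⟨f, f', hf, hf', hff, hini⟩ := hloc x
    rcases hini A z hA hd with h | h
    · exact hextf x f hf A z h hwA
    · exact hextf x f' hf' A z h hwA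
  · rintro h x A z hh ⟨hA, hd⟩ hwA
    refine ⟨hA.image h, ?_⟩
    have h4 := diam_image_lt hh A ⟨x, hA.left_mem⟩
    have h5 := h₃ A (hwA.trans_lt hc3)
    linarith

end Pool.Agent.HDA
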