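import Mathlib
import Pool.Agent.HDA.Near

/-!
# HDA module SUCC: successors of a point

`x` is below `z`: `Dn s z x`. Note `Dn s z x → x ∉ Up s z`, `hT.comp : Near ε z x → Dn s z x → z ∈ Up s x`.
BASIC REMARK (R): if `u ∈ Up s z` and `JoinedIn (ball z s \ {z}) v u` then `v ∈ Up s z`
(`JoinedIn.trans`).

PROOF of `succ_tri`. `Near ε z z'` (`Near.trans`, `Near.symm`).
CASE 1: `z' ∈ Up s z`. If `A` is path connected, `A ⊆ ball z s`, `x, z' ∈ A`, `z ∉ A`, then
`JoinedIn (ball z s \ {z}) x z'`, so `x ∈ Up s z` by (R), contradiction. So `z ∈ A` for all such `A`. In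
this case also `Dn s z' z`: `z ≠ z'`; `z ∈ pathComponentIn (ball z' s) z'` (`Near.mem_comp`);
suppose `z ∈ Up s z'`. Let `A` be an arc from `x` to `z'`, `diam A < ε / 2` (`Near.exists_isArc`;
`x ≠ z'`). `A ⊆ ball z s` (`ε < s`), so `z ∈ A`; `z ≠ x`, `z ≠ z'`; `IsArc.split` gives a subarc `A₁` from
`x` to `z` with `z' ∉ A₁`, and `A₁ ⊆ A ⊆ ball z' s`. So `JoinedIn (ball z' s \ {z'}) x z` and
`x ∈ Up s z'` by (R), contradicting `Dn s z' x`.
CASE 2: `z' ∉ Up s z`. Then `Dn s z z'`, and by `hT.comp` (`Near ε z z'`) `z ∈ Up s z'`: CASE 1 with `z`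
and `z'` exchanged gives the second alternative.

PROOF of `succ_trans`. `x ∈ pathComponentIn (ball w s) w` by nearness. Suppose `x ∈ Up s w`. `z ∉ Up s w`.
Let `A` be an arc from `x` to `z` with `diam A < ε / 2`, so `A ⊆ ball w s ∩ ball z s`. If `w ∉ A` then
`JoinedIn (ball w s \ {w}) z x`, so `z ∈ Up s w` by (R), contradiction. So `w ∈ A`, `w ≠ x`, `w ≠ z`; the
subarc from `x` to `w` avoids `z`, so `JoinedIn (ball z s \ {z}) x w`. By `hT.comp`
(`Near ε w z`, `Dn s w z`) `w ∈ Up s z`, so `x ∈ Up s z` by (R), contradicting `Dn s z x`.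
About 100 lines.
-/

set_option autoImplicit false

open Set Topology Filter Metric Pool.Agent.HDC Pool.Agent.Helper43

namespace Pool.Agent.HDA

private theorem succ_R {X : Type*} [MetricSpace X] {s : ℝ} {z u v : X} (hu : u ∈ Up s z)
    (h : JoinedIn (ball z s \ {z}) v u) : v ∈ Up s z := by
  obtain ⟨B, a, hB, b, hb, hbz, hj⟩ := hu
  exact ⟨B, a, hB, b, hb, hbz, h.trans hj⟩

private theorem succ_case {X : Type*} [MetricSpace X] [CompactSpace X] {s ε : ℝ}
    (hT : TreeAx X s ε) {x z z' : X} (h1 : Near (ε / 2) x z) (h2 : Near (ε / 2) x z')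
    (hz : Dn s z x) (hz' : Dn s z' x) (hne : z ≠ z') (hup : z' ∈ Up s z) :
    (∀ A : Set X, IsPathConnected A → A ⊆ ball z s → x ∈ A → z' ∈ A → z ∈ A) ∧ Dn s z' z := by
  have hε := hT.pos
  have hs := hT.small
  have hεs : ε < s := by linarith
  have hfirst : ∀ A : Set X, IsPathConnected A → A ⊆ ball z s → x ∈ A → z' ∈ A → z ∈ A := by
    intro A hA hAs hx hz'A
    by_contra hzA
    apply hz.2.2
    apply succ_R hup
    refine (hA.joinedIn x hx z' hz'A).mono ?_
    intro y hy
    refine ⟨hAs hy, ?_⟩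
    rintro rfl
    exact hzA hy
  refine ⟨hfirst, hne, ?_, ?_⟩
  · apply Near.mem_comp
    have h3 := h2.symm.trans h1
    exact h3.mono (by linarith)
  · intro hzup
    obtain ⟨A, hA, hAd⟩ := h2.exists_isArc hz'.1
    have hAz : A ⊆ ball z s := by
      intro y hy
      rw [mem_ball]
      have e1 : dist y x ≤ diam A := dist_le_diam_of_mem (near_bdd A) hy hA.left_mem
      have e2 := h1.dist_lt
      have e3 := dist_triangle y x z
      linarith
    have hzA : z ∈ A := hfirst A (isArc_isPathConnected hA) hAz hA.left_mem hA.right_mem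
    obtain ⟨A₁, A₂, hA₁, _, _, hun, hz'A₁, _⟩ := hA.split hzA hz.1.symm hne
    have hA₁A : A₁ ⊆ A := by
      rw [← hun]
      exact subset_union_left
    apply hz'.2.2
    apply succ_R hzup
    refine ((isArc_isPathConnected hA₁).joinedIn x hA₁.left_mem z hA₁.right_mem).mono ?_
    intro y hy
    refine ⟨subset_ball_of_diam hA.right_mem (by linarith) (hA₁A hy), ?_⟩
    rintro rfl
    exact hz'A₁ hy

theorem succ_tri {X : Type*} [MetricSpace X] [CompactSpace X] {s ε : ℝ} (hT : TreeAx X s ε)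
    {x z z' : X} (h1 : Near (ε / 2) x z) (h2 : Near (ε / 2) x z') (hz : Dn s z x)
    (hz' : Dn s z' x) (hne : z ≠ z') :
    ((∀ A : Set X, IsPathConnected A → A ⊆ ball z s → x ∈ A → z' ∈ A → z ∈ A) ∧ Dn s z' z) ∨
    ((∀ A : Set X, IsPathConnected A → A ⊆ ball z' s → x ∈ A → z ∈ A → z' ∈ A) ∧
      Dn s z z') := by
  have hε := hT.pos
  have hs := hT.small
  by_cases hup : z' ∈ Up s z
  · exact Or.inl (succ_case hT h1 h2 hz hz' hne hup)
  · right
    have h3 : Near ε z z' := (h1.symm.trans h2).mono (by linarith)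
    have hdn : Dn s z z' := ⟨hne.symm, (h3.mono (by linarith)).mem_comp, hup⟩
    exact succ_case hT h2 h1 hz' hz hne.symm (hT.comp z z' h3 hdn)

theorem succ_trans {X : Type*} [MetricSpace X] [CompactSpace X] {s ε : ℝ} (hT : TreeAx X s ε)
    {x z w : X} (h1 : Near (ε / 2) x z) (h2 : Near (ε / 2) z w) (hz : Dn s z x) (hw : Dn s w z)
    (hne : x ≠ w) : Dn s w x := by
  have hε := hT.pos
  have hs := hT.small
  have hεs : ε < s := by linarith
  refine ⟨hne, ?_, ?_⟩
  · apply Near.mem_comp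
    exact (h2.symm.trans h1.symm).mono (by linarith)
  · intro hup
    obtain ⟨A, hA, hAd⟩ := h1.exists_isArc hz.1
    have hAw : A ⊆ ball w s := by
      intro y hy
      rw [mem_ball]
      have e1 : dist y z ≤ diam A := dist_le_diam_of_mem (near_bdd A) hy hA.right_mem
      have e2 := h2.dist_lt
      have e3 := dist_triangle y z w
      linarith
    have hwA : w ∈ A := by
      by_contra hwA
      apply hw.2.2
      apply succ_R hup
      refine ((isArc_isPathConnected hA).joinedIn z hA.right_mem x hA.left_mem).mono ?_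
      intro y hy
      refine ⟨hAw hy, ?_⟩
      rintro rfl
      exact hwA hy
    obtain ⟨A₁, A₂, hA₁, _, _, hun, hzA₁, _⟩ := hA.split hwA hne.symm hw.1.symm
    have hA₁A : A₁ ⊆ A := by
      rw [← hun]
      exact subset_union_left
    have hwup : w ∈ Up s z := hT.comp w z (h2.symm.mono (by linarith)) hw
    apply hz.2.2
    apply succ_R hwup
    refine ((isArc_isPathConnected hA₁).joinedIn x hA₁.left_mem w hA₁.right_mem).mono ?_
    intro y hy
    refine ⟨subset_ball_of_diam hA.right_mem (by linarith) (hA₁A hy), ?_⟩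
    rintro rfl
    exact hzA₁ hy

end Pool.Agent.HDA
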