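import Mathlib
import Pool.Agent.HDA.Succ

/-!
# HDA module SEG: small arcs from a point up to a successor

PROOF of `seg_between`. Let `f` parametrise `A`, `f 0 = x`, `f 1 = z`, `c = f t`. All points of `A` are
`Near (ε/4)` each other (`isArc_near`).
(1) `Dn s z (f t)` for `t < 1`: `f t ≠ z`; if `f t ∈ Up s z`, then `x` is joined to `f t` by
    `f '' Icc 0 t ⊆ ball z s \ {z}`, so `x ∈ Up s z`, contradicting `hz`.
(2) `z ∈ Up s (f t)` for `t < 1` by `hT.comp` and (1).
(3) For `0 < t < 1`: `x ∈ Up s (f t)` implies `JoinedIn (ball (f t) s \ {f t}) x z`: by (2) `z` is joined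
    to some `b₁ ≠ f t` of a thick arc at `f t`, and `x` to some `b₂ ≠ f t` of another thick arc, and
    `b₁`, `b₂` are joined by `hT.type1`. Conversely, by (2), `JoinedIn (ball (f t) s \ {f t}) x z` implies
    `x ∈ Up s (f t)`.
(4) The set `{t ∈ Ioo 0 1 | x ∈ Up s (f t)}` is open: by (3) take a path `γ` from `x` to `z` in
    `ball (f t) s \ {f t}`; its image `K` is compact; for `t'` near `t`, `K ⊆ ball (f t') s \ {f t'}`
    (`K ⊆ closedBall (f t) r` with `r < s`, and `f t` has positive distance to `K`), so by (3)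
    `x ∈ Up s (f t')`.
(5) Let `S = {t ∈ Icc 0 1 | t = 0 ∨ t = 1 ∨ x ∉ Up s (f t)}`; closed by (4) (its complement in `Icc 0 1`
    is the open set of (4)). CLAIM: for `t ∈ S`, `t < 1` and `u > t` there is `t' ∈ S ∩ Ioc t u`. Let
    `c = f t`; `Dn s z c` by (1). Choose `δ' > 0` with `δ' ≤ ε / 4`, `δ' ≤ dist c z` and such that
    `t' ∈ Icc 0 1`, `dist c (f t') < δ'` imply `t' < u` (`f` is injective and continuous on a compact
    interval). `hT.below` gives `w` with `Near δ' c w`, `Dn s w c`; `w ≠ c`; `w ≠ z` as `dist c w < δ'`.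
    `succ_tri` for `c`, `w`, `z`: (second alternative) every path connected `A' ⊆ ball z s` containing `c`
    and `w` contains `z`: impossible, take `A'` of diameter `< δ'` from `Near δ' c w` (it lies in
    `closedBall c δ'`-type sets; `z ∈ A'` would give `dist c z < δ'`). (first alternative) the set
    `f '' Icc t 1 ⊆ ball w s` contains `c` and `z`, so it contains `w = f t'`, `t' > t`, `t' < u`,
    `t' < 1` (`w ≠ z`). If `t = 0`: `c = x`, `Dn s w x`. If `t > 0`: `x ∉ Up s c`, so `Dn s c x`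
    (`Near.mem_comp`, `c ≠ x`), and `succ_trans` gives `Dn s w x` (`x ≠ w`). In both cases
    `x ∉ Up s (f t')`, `t' ∈ S`.
(6) `IsClosed.Icc_subset_of_forall_exists_gt`: `Icc 0 1 ⊆ S`. So for `y = f t`, `0 < t < 1`: `Dn s y x`, and
    `Dn s z y` is (1).

PROOF of `seg_unique`. Let `c ∈ A'`; we show `c ∈ A` (clear for `c = x`, `c = z`). By `seg_between` for `A'`:
`Dn s c x`, `Dn s z c`, so `z ∈ Up s c` (`hT.comp`). If `c ∉ A` then `A ⊆ ball c s \ {c}` joins `x` and `z`, so
`x ∈ Up s c`, contradiction. So `A' ⊆ A`, and `A ⊆ A'` by symmetry. About 170 lines.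
-/

set_option autoImplicit false

open Set Topology Filter Metric Pool.Agent.HDC Pool.Agent.Helper43

namespace Pool.Agent.HDA

private theorem seg_joined {X : Type*} [TopologicalSpace X] {f : ℝ → X}
    (hc : ContinuousOn f (Icc 0 1)) {a b p q : ℝ} (ha : 0 ≤ a) (hb : b ≤ 1) (hp : p ∈ Icc a b)
    (hq : q ∈ Icc a b) {F : Set X} (hF : f '' Icc a b ⊆ F) : JoinedIn F (f p) (f q) := by
  have h1 : IsPathConnected (f '' Icc a b) :=
    IsPathConnected.image' ((convex_Icc a b).isPathConnected ⟨p, hp⟩)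
      (hc.mono (Icc_subset_Icc ha hb))
  exact (h1.joinedIn _ (mem_image_of_mem f hp) _ (mem_image_of_mem f hq)).mono hF

/-- a point joined to a point of `Up s c` is in `Up s c` -/
private theorem up_of_joined {X : Type*} [MetricSpace X] {s : ℝ} {c u v : X} (hu : u ∈ Up s c)
    (hj : JoinedIn (ball c s \ {c}) v u) : v ∈ Up s c := by
  obtain ⟨B, a, hT, b, hb, hbc, hj'⟩ := hu
  exact ⟨B, a, hT, b, hb, hbc, hj.trans hj'⟩

/-- two points of `Up s c` are joined -/
private theorem joined_of_up {X : Type*} [MetricSpace X] {s : ℝ} (h1 : Type1 X s) {c u v : X}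
    (hu : u ∈ Up s c) (hv : v ∈ Up s c) : JoinedIn (ball c s \ {c}) u v := by
  obtain ⟨B, a, hT, b, hb, hbc, hj⟩ := hu
  obtain ⟨B', a', hT', b', hb', hbc', hj'⟩ := hv
  exact (hj.trans (h1 c B a B' a' hT hT' b hb hbc b' hb' hbc')).trans hj'.symm

/-- avoiding a point is an open condition -/
private theorem joined_open {X : Type*} [MetricSpace X] {s : ℝ} {c x z : X}
    (hj : JoinedIn (ball c s \ {c}) x z) :
    ∃ δ > 0, ∀ c', dist c' c < δ → JoinedIn (ball c' s \ {c'}) x z := by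
  obtain ⟨γ, hγ⟩ := hj
  have hcont : Continuous fun u : unitInterval => dist (γ u) c := by fun_prop
  obtain ⟨u1, -, h1⟩ := isCompact_univ.exists_isMaxOn (⟨0, mem_univ _⟩ : (univ : Set unitInterval).Nonempty)
    hcont.continuousOn
  obtain ⟨u2, -, h2⟩ := isCompact_univ.exists_isMinOn (⟨0, mem_univ _⟩ : (univ : Set unitInterval).Nonempty)
    hcont.continuousOn
  have hM : dist (γ u1) c < s := (hγ u1).1
  have hm : 0 < dist (γ u2) c := dist_pos.2 (hγ u2).2
  refine ⟨min (dist (γ u2) c) (s - dist (γ u1) c), lt_min hm (sub_pos.2 hM), fun c' hc' => ?_⟩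
  have e1 := hc'.trans_le (min_le_left _ _)
  have e2 := hc'.trans_le (min_le_right _ _)
  refine ⟨γ, fun u => ⟨?_, ?_⟩⟩
  · rw [mem_ball]
    have h3 : dist (γ u) c ≤ dist (γ u1) c := h1 (mem_univ u)
    have h4 := dist_triangle_right (γ u) c' c
    linarith
  · rw [mem_singleton_iff]
    intro h
    have h3 : dist (γ u2) c ≤ dist (γ u) c := h2 (mem_univ u)
    rw [h] at h3
    linarith

theorem seg_between {X : Type*} [MetricSpace X] [CompactSpace X] {s ε : ℝ} (hT : TreeAx X s ε)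
    {A : Set X} {x z : X} (hA : IsArc A x z) (hd : diam A < ε / 4) (hz : Dn s z x) {y : X}
    (hy : y ∈ A) (hyx : y ≠ x) (hyz : y ≠ z) : Dn s y x ∧ Dn s z y := by
  have hε := hT.pos
  have hεs := hT.small
  obtain ⟨f, hc, hi, h0, h1, hfA⟩ := id hA
  have i0 : (0 : ℝ) ∈ Icc (0 : ℝ) 1 := by simp
  have i1 : (1 : ℝ) ∈ Icc (0 : ℝ) 1 := by simp
  have hmem : ∀ t ∈ Icc (0 : ℝ) 1, f t ∈ A := fun t ht => hfA ▸ mem_image_of_mem f ht
  have hxA : x ∈ A := hA.left_mem
  have hzA : z ∈ A := hA.right_mem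
  have hnear : ∀ a ∈ A, ∀ b ∈ A, Near (ε / 4) a b := fun a ha b hb => isArc_near hA ha hb hd
  have hball : ∀ c ∈ A, A ⊆ ball c s := fun c hc => subset_ball_of_diam hc (by linarith)
  -- (1)
  have k1 : ∀ t ∈ Ico (0 : ℝ) 1, Dn s z (f t) := by
    intro t ht
    have ht' : t ∈ Icc (0 : ℝ) 1 := ⟨ht.1, ht.2.le⟩
    have hne : f t ≠ z := by
      rw [← h1]
      intro h
      have := hi ht' i1 h
      exact absurd this ht.2.ne
    refine ⟨hne, Near.mem_comp ((hnear z hzA _ (hmem t ht')).mono (by linarith)), fun hup => ?_⟩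
    apply hz.2.2
    apply up_of_joined hup
    have h3 := seg_joined hc (a := 0) (b := t) le_rfl ht.2.le (p := 0) (q := t) ⟨le_rfl, ht.1⟩
      ⟨ht.1, le_rfl⟩ (F := ball z s \ {z}) (by
        rintro _ ⟨r, hr, rfl⟩
        have hr' : r ∈ Icc (0 : ℝ) 1 := ⟨hr.1, hr.2.trans ht.2.le⟩
        refine ⟨hball z hzA (hmem r hr'), ?_⟩
        rw [mem_singleton_iff, ← h1]
        intro h
        have := hi hr' i1 h
        have h5 := hr.2
        have h6 := ht.2
        linarith)
    rwa [h0] at h3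
  -- (2)
  have k2 : ∀ t ∈ Ico (0 : ℝ) 1, z ∈ Up s (f t) := by
    intro t ht
    exact hT.comp z (f t) ((hnear z hzA _ (hmem t ⟨ht.1, ht.2.le⟩)).mono (by linarith)) (k1 t ht)
  -- (3)
  have k3 : ∀ t ∈ Ico (0 : ℝ) 1, x ∈ Up s (f t) ↔ JoinedIn (ball (f t) s \ {f t}) x z := by
    intro t ht
    exact ⟨fun h => joined_of_up hT.type1 h (k2 t ht), fun h => up_of_joined (k2 t ht) h⟩
  -- (4)
  set S : Set ℝ := {t | t = 0 ∨ t = 1 ∨ x ∉ Up s (f t)} with hS
  have hclosed : IsClosed (S ∩ Icc 0 1) := by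
    rw [← isOpen_compl_iff, Metric.isOpen_iff]
    intro t ht
    by_cases htI : t ∈ Icc (0 : ℝ) 1
    · have hnS : t ∉ S := fun h => ht ⟨h, htI⟩
      simp only [hS, mem_ofPred_eq, not_or, not_not] at hnS
      obtain ⟨ht0, ht1, hup⟩ := hnS
      have hto : t ∈ Ioo (0 : ℝ) 1 :=
        ⟨lt_of_le_of_ne htI.1 (Ne.symm ht0), lt_of_le_of_ne htI.2 ht1⟩
      obtain ⟨δ, hδ, hδ'⟩ := joined_open ((k3 t ⟨hto.1.le, hto.2⟩).1 hup)
      have hca : ContinuousAt f t := hc.continuousAt (Icc_mem_nhds hto.1 hto.2)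
      have hev : ∀ᶠ t' in 𝓝 t, dist (f t') (f t) < δ ∧ t' ∈ Ioo (0 : ℝ) 1 :=
        (Metric.tendsto_nhds.1 hca δ hδ).and (Ioo_mem_nhds hto.1 hto.2)
      obtain ⟨η, hη, hη'⟩ := Metric.eventually_nhds_iff_ball.1 hev
      refine ⟨η, hη, fun t' ht' hbad => ?_⟩
      obtain ⟨hd1, hd2⟩ := hη' t' ht'
      have hup' : x ∈ Up s (f t') := (k3 t' ⟨hd2.1.le, hd2.2⟩).2 (hδ' (f t') hd1)
      rcases hbad.1 with h | h | h
      · exact hd2.1.ne' h
      · exact hd2.2.ne h
      · exact h hup'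
    · obtain ⟨η, hη, hη'⟩ := Metric.isOpen_iff.1 (isClosed_Icc (a := (0 : ℝ)) (b := 1)).isOpen_compl
        t htI
      exact ⟨η, hη, fun t' ht' hbad => hη' ht' hbad.2⟩
  -- (5)
  have hstep : ∀ t ∈ S ∩ Ico 0 1, ∀ u ∈ Ioi t, (S ∩ Ioc t u).Nonempty := by
    rintro t ⟨htS, htI⟩ u hu
    rw [mem_Ioi] at hu
    have ht' : t ∈ Icc (0 : ℝ) 1 := ⟨htI.1, htI.2.le⟩
    have hcA := hmem t ht'
    have hdn := k1 t htI
    have hcz : 0 < dist (f t) z := dist_pos.2 hdn.1
    have hsub : Icc u 1 ⊆ Icc (0 : ℝ) 1 := Icc_subset_Icc (htI.1.trans hu.le) le_rfl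
    have hK : IsClosed (f '' Icc u 1) := (isCompact_Icc.image_of_continuousOn (hc.mono hsub)).isClosed
    have hcK : f t ∈ (f '' Icc u 1)ᶜ := by
      rintro ⟨r, hr, hrt⟩
      have := hi (hsub hr) ht' hrt
      have h5 := hr.1
      linarith
    obtain ⟨δ₁, hδ₁, hδ₁'⟩ := Metric.isOpen_iff.1 hK.isOpen_compl _ hcK
    obtain ⟨w, hw1, hw2⟩ := hT.below (f t) (min (ε / 4) (min (dist (f t) z) δ₁))
      (lt_min (by linarith) (lt_min hcz hδ₁))
    have hwd := hw1.dist_lt
    have m1 : min (ε / 4) (min (dist (f t) z) δ₁) ≤ ε / 4 := min_le_left _ _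
    have m2 : min (ε / 4) (min (dist (f t) z) δ₁) ≤ dist (f t) z :=
      (min_le_right _ _).trans (min_le_left _ _)
    have m3 : min (ε / 4) (min (dist (f t) z) δ₁) ≤ δ₁ :=
      (min_le_right _ _).trans (min_le_right _ _)
    have hwz : w ≠ z := by
      rintro rfl
      linarith
    have hncz : Near (ε / 4) (f t) z := hnear _ hcA z hzA
    have hw : w ∈ f '' Icc t 1 := by
      rcases succ_tri hT (hw1.mono (by linarith)) (hncz.mono (by linarith)) hw2 hdn hwz with h | h
      · apply h.1 (f '' Icc t 1)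
        · exact IsPathConnected.image' ((convex_Icc t 1).isPathConnected ⟨t, le_rfl, htI.2.le⟩)
            (hc.mono (Icc_subset_Icc htI.1 le_rfl))
        · rintro _ ⟨r, hr, rfl⟩
          rw [mem_ball]
          have h5 := (hnear _ (hmem r ⟨htI.1.trans hr.1, hr.2⟩) _ hcA).dist_lt
          have h6 := dist_triangle (f r) (f t) w
          linarith
        · exact ⟨t, ⟨le_rfl, htI.2.le⟩, rfl⟩
        · exact ⟨1, ⟨htI.2.le, le_rfl⟩, h1⟩
      · exfalso
        obtain ⟨A', p1, p2, p3, p4⟩ := hw1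
        have hzA' : z ∈ A' := by
          apply h.1 A' p1 _ p2 p3
          intro y hy'
          rw [mem_ball]
          have h5 : dist y (f t) ≤ diam A' := dist_le_diam_of_mem (near_bdd A') hy' p2
          have h6 := dist_triangle y (f t) z
          have h7 := hncz.dist_lt
          linarith
        have h5 : dist (f t) z ≤ diam A' := dist_le_diam_of_mem (near_bdd A') p2 hzA'
        linarith
    obtain ⟨t', ht1, rfl⟩ := hw
    have htt' : t < t' := by
      refine lt_of_le_of_ne ht1.1 ?_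
      rintro rfl
      exact hw2.1 rfl
    have ht'u : t' < u := by
      by_contra hcon
      rw [not_lt] at hcon
      have hb : f t' ∈ ball (f t) δ₁ := by
        rw [mem_ball, dist_comm]
        linarith
      exact hδ₁' hb ⟨t', ⟨hcon, ht1.2⟩, rfl⟩
    refine ⟨t', Or.inr (Or.inr ?_), htt', ht'u.le⟩
    rcases eq_or_ne t 0 with ht0 | ht0
    · subst ht0
      rw [h0] at hw2
      exact hw2.2.2
    · have hxup : x ∉ Up s (f t) := by
        rcases htS with h | h | h
        · exact absurd h ht0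
        · exact absurd h htI.2.ne
        · exact h
      have hxc : x ≠ f t := by
        rw [← h0]
        intro h
        exact ht0 (hi i0 ht' h).symm
      have hdcx : Dn s (f t) x :=
        ⟨hxc, Near.mem_comp ((hnear _ hcA x hxA).mono (by linarith)), hxup⟩
      have hxw : x ≠ f t' := by
        rw [← h0]
        intro h
        have := hi i0 ⟨htI.1.trans ht1.1, ht1.2⟩ h
        have h5 := htI.1
        linarith
      exact (succ_trans hT ((hnear x hxA _ hcA).mono (by linarith)) (hw1.mono (by linarith)) hdcx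
        hw2 hxw).2.2
  have hall := hclosed.Icc_subset_of_forall_exists_gt (Or.inl rfl) hstep
  -- (6)
  rw [← hfA] at hy
  obtain ⟨t, ht, rfl⟩ := hy
  have ht0 : t ≠ 0 := by
    rintro rfl
    exact hyx h0
  have ht1 : t ≠ 1 := by
    rintro rfl
    exact hyz h1
  refine ⟨⟨hyx.symm, Near.mem_comp ((hnear _ (hmem t ht) x hxA).mono (by linarith)), ?_⟩,
    k1 t ⟨ht.1, lt_of_le_of_ne ht.2 ht1⟩⟩
  rcases hall ht with h | h | h
  · exact absurd h ht0
  · exact absurd h ht1
  · exact h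

private theorem seg_sub {X : Type*} [MetricSpace X] [CompactSpace X] {s ε : ℝ} (hT : TreeAx X s ε)
    {A A' : Set X} {x z : X} (hA : IsArc A x z) (hd : diam A < ε / 4) (hA' : IsArc A' x z)
    (hd' : diam A' < ε / 4) (hz : Dn s z x) : A' ⊆ A := by
  have hε := hT.pos
  have hεs := hT.small
  intro c hc
  by_contra hcA
  have hcx : c ≠ x := by
    rintro rfl
    exact hcA hA.left_mem
  have hcz : c ≠ z := by
    rintro rfl
    exact hcA hA.right_mem
  obtain ⟨h1, h2⟩ := seg_between hT hA' hd' hz hc hcx hcz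
  have h3 : z ∈ Up s c :=
    hT.comp z c ((isArc_near hA' hA'.right_mem hc hd').mono (by linarith)) h2
  apply h1.2.2
  apply up_of_joined h3
  refine isArc_joinedIn hA ?_ hA.left_mem hA.right_mem
  intro y hy
  refine ⟨?_, fun h => hcA (by rw [mem_singleton_iff] at h; rwa [← h])⟩
  rw [mem_ball]
  have h5 := (isArc_near hA hy hA.left_mem hd).dist_lt
  have h6 := (isArc_near hA' hA'.left_mem hc hd').dist_lt
  have h7 := dist_triangle y x c
  linarith

theorem seg_unique {X : Type*} [MetricSpace X] [CompactSpace X] {s ε : ℝ} (hT : TreeAx X s ε)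
    {A A' : Set X} {x z : X} (hA : IsArc A x z) (hd : diam A < ε / 4) (hA' : IsArc A' x z)
    (hd' : diam A' < ε / 4) (hz : Dn s z x) : A = A' :=
  Subset.antisymm (seg_sub hT hA' hd' hA hd hz) (seg_sub hT hA hd hA' hd' hz)

private theorem seg_nest {X : Type*} [MetricSpace X] [CompactSpace X] {s ε : ℝ} (hT : TreeAx X s ε)
    {A A' : Set X} {x z z' : X} (hA : IsArc A x z) (hd : diam A < ε / 4) (hA' : IsArc A' x z')
    (hd' : diam A' < ε / 4) (hz : Dn s z x) (hne : z ≠ z')
    (h : ∀ A' : Set X, IsPathConnected A' → A' ⊆ ball z s → x ∈ A' → z' ∈ A' → z ∈ A') :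
    A ⊆ A' := by
  have hε := hT.pos
  have hεs := hT.small
  have hzA' : z ∈ A' := by
    apply h A' (isArc_isPathConnected hA') _ hA'.left_mem hA'.right_mem
    intro y hy
    rw [mem_ball]
    have h5 := (isArc_near hA' hy hA'.left_mem hd').dist_lt
    have h6 := (isArc_near hA hA.left_mem hA.right_mem hd).dist_lt
    have h7 := dist_triangle y x z
    linarith
  obtain ⟨A₁, A₂, hA₁, -, -, hu, -, -⟩ := hA'.split hzA' hz.1.symm hne
  have hsub : A₁ ⊆ A' := hu ▸ subset_union_left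
  have hd₁ : diam A₁ < ε / 4 := (diam_mono hsub (near_bdd A')).trans_lt hd'
  rw [seg_unique hT hA hd hA₁ hd₁ hz]
  exact hsub

/-- two small arcs from `x` to successors of `x` are nested -/
theorem seg_nested {X : Type*} [MetricSpace X] [CompactSpace X] {s ε : ℝ} (hT : TreeAx X s ε)
    {A A' : Set X} {x z z' : X} (hA : IsArc A x z) (hd : diam A < ε / 4) (hA' : IsArc A' x z')
    (hd' : diam A' < ε / 4) (hz : Dn s z x) (hz' : Dn s z' x) : A ⊆ A' ∨ A' ⊆ A := by
  have hε := hT.pos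
  have hεs := hT.small
  rcases eq_or_ne z z' with hzz | hne
  · subst hzz
    exact Or.inl (seg_unique hT hA hd hA' hd' hz).subset
  · have n1 := (isArc_near hA hA.left_mem hA.right_mem hd).mono (by linarith : ε / 4 ≤ ε / 2)
    have n2 := (isArc_near hA' hA'.left_mem hA'.right_mem hd').mono (by linarith : ε / 4 ≤ ε / 2)
    rcases succ_tri hT n1 n2 hz hz' hne with h | h
    · exact Or.inl (seg_nest hT hA hd hA' hd' hz hne h.1)
    · exact Or.inr (seg_nest hT hA' hd' hA hd hz' hne.symm h.1)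

end Pool.Agent.HDA
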