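import Mathlib
import Pool.Agent.HDA.Seg
import Pool.Agent.HDA.Comp
import Pool.Agent.HDC.Effros

/-!
# HDA module SCALE: independence of the scale and invariance under small homeomorphisms

* `up_mono`: `Th s' z B a → Th s z B a` (`ball z (s'/3) ⊆ ball z (s/3)`), `ball z s' ⊆ ball z s`.
* `dn_mono`: by `up_mono`.
* `exists_size`: let `s₊ = (s + r₀) / 2`, `hT s₊`: `TreeAx X s₊ ε₊`. For `y₀ : X` there is (`below`) `z₀` with
  `Near t y₀ z₀`, `Dn s₊ z₀ y₀` where `t = min (ε' / 2) (s / 4)`; let `d = dist y₀ z₀ > 0` and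
  `η = min (d / 8) (min ((s₊ - s) / 6) (min (ε' / 8) (s / 8)))`, `δ` from `effros` for `η`. For
  `dist y₀ y < δ` take `h y₀ = y`, `Sm h η`, `z = h z₀`: `Near (t + 2η) y z` (`Near.image`), so
  `Near ε' y z` and `Near s z y`, so `y ∈ pathComponentIn (ball z s) z` (`Near.mem_comp`) and `Dn s z y`
  by `dn_image` (`s + 6η ≤ s₊`); `dist y z ≥ d - 2 η ≥ d / 2`; the arc from `Near.exists_isArc` (`Near ε' y z`,
  `y ≠ z`). Compactness of `X` (finitely many `y₀`) gives a uniform `c`.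
* `dn_scale`: let `ε₁`, `ε₂` be the constants of `TreeAx` at the scales `s'`, `s`,
  `ε' = min (ε₁ / 4) (min (ε₂ / 4) (s' / 4))`; `exists_size` at the scale `s` gives `c` (for this `ε'`);
  let `c' = min c ε'`. Suppose `Near c' w y`, `Dn s' w y`. Let `z, A` be as in `exists_size` for `y`:
  `IsArc A y z`, `diam A < ε'`, `Dn s z y`, `c ≤ dist y z`. `Dn s' z y` (`dn_mono`, `Near s' z y` by
  `isArc_near`). `w ≠ z` since `dist w y < c`. `succ_tri` at the scale `s'` for `y`, `w`, `z`: SECOND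
  alternative (all path connected `A'' ⊆ ball z s'` containing `y`, `w` contain `z`): the set from
  `Near c' w y` has diameter `< c`, contains `y` but not `z` (`c ≤ dist y z`), and lies in `ball z s'`
  (its points are within `c' + ε' < s'` of `z`): contradiction. So FIRST alternative: `A` (path connected,
  `A ⊆ ball w s'`, `y, z ∈ A`) contains `w`; `w ≠ y`, `w ≠ z`; `seg_between` at the scale `s` for `A`:
  `Dn s w y`.
* `dn_invariant`: `dn_scale` for `s' = s / 2` gives `c₁`. Let `c = min (c₁ / 2) (s / 8)`,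
  `η = min (s / 12) (c₁ / 8)`-small (`2η ≤ c₁ / 2`, `2 η ≤ s / 8`, `6 η ≤ s / 2`). `Near c w y`, `Dn s w y`,
  `Sm h η`: `Near c₁ (h w) (h y)` (`Near.image`); `Dn (s/2) (h w) (h y)` by `dn_image`
  (`s/2 + 6 η ≤ s`; `h y ∈ pathComponentIn (ball (h w) (s/2)) (h w)` by `Near.mem_comp`); `dn_scale`.
About 150 lines.
-/

set_option autoImplicit false

open Set Topology Filter Metric Pool.Agent.HDC Pool.Agent.Helper43

namespace Pool.Agent.HDA

variable {X : Type*} [MetricSpace X] [CompactSpace X]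

theorem up_mono {s' s : ℝ} (h : s' ≤ s) (z : X) : Up s' z ⊆ Up s z := by
  rintro y ⟨B, a, ⟨h1, h2, h3⟩, b, hb, hbz, hj⟩
  exact ⟨B, a, ⟨h1, h2.trans (ball_subset_ball (by linarith)), h3⟩, b, hb, hbz,
    hj.mono (diff_subset_diff_left (ball_subset_ball h))⟩

theorem dn_mono {s' s : ℝ} (h : s' ≤ s) {z x : X} (hd : Dn s z x)
    (hm : x ∈ pathComponentIn (ball z s') z) : Dn s' z x := by
  exact ⟨hd.1, hm, fun h1 => hd.2.2 (up_mono h z h1)⟩

theorem exists_size [Nonempty X] (hom : Hom X) {r₀ : ℝ}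
    (hT : ∀ s > 0, s < r₀ → ∃ ε, TreeAx X s ε) {s : ℝ} (hs : 0 < s) (hsr : s < r₀) {ε' : ℝ}
    (hε : 0 < ε') :
    ∃ c > 0, ∀ y : X, ∃ (z : X) (A : Set X), IsArc A y z ∧ diam A < ε' ∧ Dn s z y ∧
      c ≤ dist y z := by
  have hs1 : 0 < (s + r₀) / 2 := by linarith
  obtain ⟨ε₁, hT₁⟩ := hT ((s + r₀) / 2) hs1 (by linarith)
  have key : ∀ y₀ : X, ∃ δ : ℝ, 0 < δ ∧ ∃ c : ℝ, 0 < c ∧ ∀ y : X, dist y₀ y < δ →
      ∃ (z : X) (A : Set X), IsArc A y z ∧ diam A < ε' ∧ Dn s z y ∧ c ≤ dist y z := by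
    intro y₀
    obtain ⟨z₀, hn, hd⟩ := hT₁.below y₀ (min (ε' / 2) (s / 4)) (lt_min (by positivity) (by positivity))
    have hd0 : 0 < dist y₀ z₀ := dist_pos.2 hd.1
    obtain ⟨η, hη⟩ : ∃ η : ℝ, η = min (dist y₀ z₀ / 8) (min (((s + r₀) / 2 - s) / 6)
      (min (ε' / 8) (s / 8))) := ⟨_, rfl⟩
    have hη0 : 0 < η := by
      rw [hη]
      exact lt_min (by positivity) (lt_min (by linarith) (lt_min (by positivity) (by positivity)))
    have hη1 : η ≤ dist y₀ z₀ / 8 := by rw [hη]; exact min_le_left _ _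
    have hη2 : η ≤ ((s + r₀) / 2 - s) / 6 := by
      rw [hη]; exact (min_le_right _ _).trans (min_le_left _ _)
    have hη3 : η ≤ ε' / 8 := by
      rw [hη]; exact ((min_le_right _ _).trans (min_le_right _ _)).trans (min_le_left _ _)
    have hη4 : η ≤ s / 8 := by
      rw [hη]; exact ((min_le_right _ _).trans (min_le_right _ _)).trans (min_le_right _ _)
    obtain ⟨δ, hδ, heff⟩ := effros hom hη0
    refine ⟨δ, hδ, dist y₀ z₀ / 2, by positivity, fun y hy => ?_⟩
    obtain ⟨h, hh, rfl⟩ := heff y₀ y hy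
    have hn2 := hn.image hh
    have ht1 : min (ε' / 2) (s / 4) ≤ ε' / 2 := min_le_left _ _
    have ht2 : min (ε' / 2) (s / 4) ≤ s / 4 := min_le_right _ _
    have hn3 : Near ε' (h y₀) (h z₀) := hn2.mono (by linarith)
    have hn4 : Near s (h z₀) (h y₀) := hn2.symm.mono (by linarith)
    have hD : Dn s (h z₀) (h y₀) := dn_image hh (by linarith) hd hn4.mem_comp
    obtain ⟨A, hA, hAd⟩ := hn3.exists_isArc hD.1
    refine ⟨h z₀, A, hA, hAd, hD, ?_⟩
    have e1 := dist_triangle4 y₀ (h y₀) (h z₀) z₀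
    have e2 := hh y₀
    have e3 := hh z₀
    rw [dist_comm] at e2
    linarith
  choose δ hδ c hc hk using key
  obtain ⟨t, -, ht⟩ := isCompact_univ.elim_nhds_subcover (fun y : X => ball y (δ y))
    fun y _ => ball_mem_nhds y (hδ y)
  have htn : t.Nonempty := by
    by_contra hcon
    rw [Finset.not_nonempty_iff_eq_empty] at hcon
    obtain ⟨x⟩ := ‹Nonempty X›
    have := ht (mem_univ x)
    rw [hcon] at this
    simp at this
  obtain ⟨y₁, -, hy₁⟩ := t.exists_min_image c htn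
  refine ⟨c y₁, hc y₁, fun y => ?_⟩
  obtain ⟨y₀, hy₀, hy⟩ := mem_iUnion₂.1 (ht (mem_univ y))
  rw [mem_ball, dist_comm] at hy
  obtain ⟨z, A, h1, h2, h3, h4⟩ := hk y₀ y hy
  exact ⟨z, A, h1, h2, h3, (hy₁ y₀ hy₀).trans h4⟩

theorem dn_scale [Nonempty X] (hom : Hom X) {r₀ : ℝ}
    (hT : ∀ s > 0, s < r₀ → ∃ ε, TreeAx X s ε) {s' s : ℝ} (hs' : 0 < s') (hss : s' < s)
    (hsr : s < r₀) : ∃ c > 0, ∀ w y : X, Near c w y → Dn s' w y → Dn s w y := by
  obtain ⟨ε₁, hT₁⟩ := hT s' hs' (hss.trans hsr)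
  obtain ⟨ε₂, hT₂⟩ := hT s (hs'.trans hss) hsr
  have p1 := hT₁.pos
  have p2 := hT₂.pos
  obtain ⟨ε', hε'⟩ : ∃ ε' : ℝ, ε' = min (ε₁ / 4) (min (ε₂ / 4) (s' / 4)) := ⟨_, rfl⟩
  have hε0 : 0 < ε' := by
    rw [hε']
    exact lt_min (by positivity) (lt_min (by positivity) (by positivity))
  have he1 : ε' ≤ ε₁ / 4 := by rw [hε']; exact min_le_left _ _
  have he2 : ε' ≤ ε₂ / 4 := by rw [hε']; exact (min_le_right _ _).trans (min_le_left _ _)
  have he3 : ε' ≤ s' / 4 := by rw [hε']; exact (min_le_right _ _).trans (min_le_right _ _)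
  obtain ⟨c, hc, hsize⟩ := exists_size hom hT (hs'.trans hss) hsr hε0
  have c1 : min c ε' ≤ c := min_le_left _ _
  have c2 : min c ε' ≤ ε' := min_le_right _ _
  refine ⟨min c ε', lt_min hc hε0, fun w y hn hd => ?_⟩
  obtain ⟨z, A, hA, hAd, hDz, hcz⟩ := hsize y
  have hyz : Near ε' y z := isArc_near hA hA.left_mem hA.right_mem hAd
  have hDz' : Dn s' z y := dn_mono hss.le hDz (hyz.symm.mono (by linarith) : Near s' z y).mem_comp
  have hwy : dist w y < min c ε' := hn.dist_lt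
  have hwz : w ≠ z := by
    rintro rfl
    rw [dist_comm] at hcz
    linarith
  have hyw : Near (ε₁ / 2) y w := hn.symm.mono (by linarith)
  rcases succ_tri hT₁ hyw (hyz.mono (by linarith)) hd hDz' hwz with ⟨h1, -⟩ | ⟨h1, -⟩
  · have hwA : w ∈ A := by
      refine h1 A (isArc_isPathConnected hA) ?_ hA.left_mem hA.right_mem
      intro a ha
      rw [mem_ball]
      have e1 : dist a y ≤ diam A := dist_le_diam_of_mem (near_bdd A) ha hA.left_mem
      have e2 := dist_triangle a y w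
      rw [dist_comm y w] at e2
      linarith
    exact (seg_between hT₂ hA (by linarith) hDz hwA hd.1.symm hwz).1
  · exfalso
    obtain ⟨M, m1, m2, m3, m4⟩ := hn
    have hzM : z ∈ M := by
      refine h1 M m1 ?_ m3 m2
      intro a ha
      rw [mem_ball]
      have e1 : dist a y ≤ diam M := dist_le_diam_of_mem (near_bdd M) ha m3
      have e2 := dist_triangle a y z
      have e3 := hyz.dist_lt
      linarith
    have e1 : dist y z ≤ diam M := dist_le_diam_of_mem (near_bdd M) m3 hzM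
    linarith

theorem dn_invariant [Nonempty X] (hom : Hom X) {r₀ : ℝ}
    (hT : ∀ s > 0, s < r₀ → ∃ ε, TreeAx X s ε) {s : ℝ} (hs : 0 < s) (hsr : s < r₀) :
    ∃ c > 0, ∃ η > 0, ∀ h : X ≃ₜ X, Sm h η → ∀ w y : X, Near c w y → Dn s w y →
      Dn s (h w) (h y) := by
  obtain ⟨c₁, hc₁, hsc⟩ := dn_scale hom hT (half_pos hs) (half_lt_self hs) hsr
  have a1 : min (c₁ / 2) (s / 8) ≤ c₁ / 2 := min_le_left _ _
  have a2 : min (c₁ / 2) (s / 8) ≤ s / 8 := min_le_right _ _
  have b1 : min (s / 16) (c₁ / 8) ≤ s / 16 := min_le_left _ _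
  have b2 : min (s / 16) (c₁ / 8) ≤ c₁ / 8 := min_le_right _ _
  refine ⟨min (c₁ / 2) (s / 8), lt_min (by positivity) (by positivity), min (s / 16) (c₁ / 8),
    lt_min (by positivity) (by positivity), fun h hh w y hn hd => ?_⟩
  have hn2 := hn.image hh
  have hn3 : Near (s / 2) (h w) (h y) := hn2.mono (by linarith)
  exact hsc _ _ (hn2.mono (by linarith)) (dn_image hh (by linarith) hd hn3.mem_comp)

end Pool.Agent.HDA
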