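import Mathlib
import Pool.Agent.HDA.Scale
import Pool.Agent.HDA.Size
import Pool.Agent.HDA.Reparam

/-!
# HDA module TREEDL: directed arcs in the tree case

PROOF. Let `s = r₀ / 2`, `TreeAx X s ε`, `c₁, η₁` from `dn_invariant`. Let `ε₁ = min (ε / 4) c₁`,
`Leg x A z := IsArc A x z ∧ diam A < ε₁ ∧ Dn s z x`. `exists_size` (for `ε' = ε₁`) gives `c₂ > 0`;
`diam_lt_of_wm` for `c₂` gives `δ₂` (a set with `diam ≥ c₂` has `wm ≥ δ₂`), and for `ε₁ / 2` it gives
`δ₃`. Let `c = min (δ₂ / 2) (δ₃ / 2)` and `η = min η₁ (ε₁ / 8)`.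
* `arc`: clear. `subl`: if `y = z` take `A`; otherwise `IsArc.split` gives the subarc from `x` to `y`, its
  diameter is at most `diam A`, and `Dn s y x` by `seg_between`. `subr`: the same (`Dn s z y`).
* `tri`: `seg_nested`. `two`: `A₁ ⊆ A₂` or `A₂ ⊆ A₁` by `seg_nested`, and each contains a point `≠ x`, so
  `A₁ ∩ A₂ ≠ {x}`.
* `ex`: `exists_size`.
* `ext`: let `Leg x A z`, `wm A ≤ c`, and `Leg x A₁ z₁` from `exists_size` with `c₂ ≤ dist x z₁`, so
  `wm A₁ ≥ δ₂ > c` (`dist_le_diam_of_mem`). By `seg_nested` `A ⊆ A₁` (`A₁ ⊆ A` would give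
  `wm A₁ ≤ wm A ≤ c`). Let `f` parametrise `A₁`, `f 0 = x`; `z = f t`, `A = f '' Icc 0 t`
  (`arc_in_arc`); `size_ivt` gives `t'` with `wm (f '' Icc 0 t') = c`, and `t ≤ t'` or `wm A = c` (then take
  `t' = t`; use `size_lt`). `A' = f '' Icc 0 t'` is legal by `subl`.
* `hom`: `Leg x A z`, `wm A ≤ c < δ₃`, so `diam A < ε₁ / 2`; `h '' A` is an arc from `h x` to `h z`
  (`IsArc.image`), `diam (h '' A) < ε₁ / 2 + 2 η < ε₁` (`diam_image_lt`), and `Dn s (h z) (h x)` by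
  `dn_invariant` (`Near c₁ z x` by `isArc_near`).
About 130 lines.
-/

set_option autoImplicit false

open Set Topology Filter Metric Pool.Agent.HDC Pool.Agent.Helper43

namespace Pool.Agent.HDA

theorem tree_dl {X : Type*} [MetricSpace X] [CompactSpace X] [Nonempty X]
    [TopologicalSpace.SeparableSpace X] (hom : Hom X) {r₀ : ℝ} (hr : 0 < r₀)
    (hT : ∀ s > 0, s < r₀ → ∃ ε, TreeAx X s ε) :
    ∃ (Leg : X → Set X → X → Prop) (c η : ℝ), DL X Leg c η := by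
  set s : ℝ := r₀ / 2 with hs_def
  have hs : 0 < s := by positivity
  have hsr : s < r₀ := by rw [hs_def]; linarith
  obtain ⟨ε, hTs⟩ := hT s hs hsr
  have hε : 0 < ε := hTs.pos
  obtain ⟨c₁, hc₁, η₁, hη₁, hinv⟩ := dn_invariant hom hT hs hsr
  set ε₁ : ℝ := min (ε / 4) c₁ with hε₁_def
  have hε₁ : 0 < ε₁ := lt_min (by positivity) hc₁
  have hle1 : ε₁ ≤ ε / 4 := min_le_left _ _
  have hle2 : ε₁ ≤ c₁ := min_le_right _ _
  obtain ⟨c₂, hc₂, hsz⟩ := exists_size hom hT hs hsr hε₁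
  obtain ⟨δ₂, hδ₂, hd2⟩ := diam_lt_of_wm (X := X) hc₂
  obtain ⟨δ₃, hδ₃, hd3⟩ := diam_lt_of_wm (X := X) (half_pos hε₁)
  have key : ∀ (x : X) (A : Set X) (z : X) (y : X), (IsArc A x z ∧ diam A < ε₁ ∧ Dn s z x) →
      y ∈ A → y ≠ x → ∃ A' ⊆ A, IsArc A' x y ∧ diam A' < ε₁ ∧ Dn s y x := by
    rintro x A z y ⟨h1, h2, h3⟩ hy hyx
    by_cases hyz : y = z
    · subst hyz
      exact ⟨A, Subset.rfl, h1, h2, h3⟩
    · obtain ⟨A', hA', h4⟩ := h1.sub h1.left_mem hy hyx.symm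
      exact ⟨A', hA', h4, (diam_mono hA' (near_bdd A)).trans_lt h2,
        (seg_between hTs h1 (h2.trans_le hle1) h3 hy hyx hyz).1⟩
  have nest : ∀ (x : X) (A : Set X) (z : X) (A' : Set X) (z' : X),
      (IsArc A x z ∧ diam A < ε₁ ∧ Dn s z x) → (IsArc A' x z' ∧ diam A' < ε₁ ∧ Dn s z' x) →
      A ⊆ A' ∨ A' ⊆ A := by
    rintro x A z A' z' ⟨h1, h2, h3⟩ ⟨g1, g2, g3⟩
    exact seg_nested hTs h1 (h2.trans_le hle1) g1 (g2.trans_le hle1) h3 g3
  refine ⟨fun x A z => IsArc A x z ∧ diam A < ε₁ ∧ Dn s z x, min (δ₂ / 2) (δ₃ / 2),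
    min η₁ (ε₁ / 8), ?_⟩
  set c : ℝ := min (δ₂ / 2) (δ₃ / 2) with hc_def
  have hc : 0 < c := lt_min (half_pos hδ₂) (half_pos hδ₃)
  have hcδ₂ : c < δ₂ := (min_le_left _ _).trans_lt (half_lt_self hδ₂)
  have hcδ₃ : c < δ₃ := (min_le_right _ _).trans_lt (half_lt_self hδ₃)
  refine
    { c_pos := hc
      η_pos := lt_min hη₁ (by positivity)
      arc := fun x A z h => h.1
      subl := key
      subr := ?_
      tri := ?_
      two := ?_
      ex := ?_
      ext := ?_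
      hom := ?_ }
  · rintro x A z y ⟨h1, h2, h3⟩ hy hyz
    by_cases hyx : y = x
    · subst hyx
      exact ⟨A, Subset.rfl, h1, h2, h3⟩
    · obtain ⟨A', hA', h4⟩ := h1.sub hy h1.right_mem hyz
      exact ⟨A', hA', h4, (diam_mono hA' (near_bdd A)).trans_lt h2,
        (seg_between hTs h1 (h2.trans_le hle1) h3 hy hyx hyz).2⟩
  · intro x A z A' z' h h'
    rcases nest x A z A' z' h h' with h1 | h1
    · exact Or.inl h1
    · exact Or.inr (Or.inl h1)
  · intro x A₁ z₁ A₂ z₂ A₃ z₃ h h' _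
    left
    intro he
    rcases nest x A₁ z₁ A₂ z₂ h h' with h1 | h1
    · have h2 : z₁ ∈ A₁ ∩ A₂ := ⟨h.1.right_mem, h1 h.1.right_mem⟩
      rw [he] at h2
      exact h.1.ne (mem_singleton_iff.1 h2).symm
    · have h2 : z₂ ∈ A₁ ∩ A₂ := ⟨h1 h'.1.right_mem, h'.1.right_mem⟩
      rw [he] at h2
      exact h'.1.ne (mem_singleton_iff.1 h2).symm
  · intro x
    obtain ⟨z, A, h1, h2, h3, h4⟩ := hsz x
    exact ⟨A, z, h1, h2, h3⟩
  · intro x A z h hwA
    obtain ⟨z₁, A₁, g1, g2, g3, g4⟩ := hsz x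
    have hw1 : δ₂ ≤ wm A₁ := by
      by_contra hcon
      have h5 := hd2 A₁ (not_le.1 hcon)
      have h6 : dist x z₁ ≤ diam A₁ := dist_le_diam_of_mem (near_bdd A₁) g1.left_mem g1.right_mem
      linarith
    have hsub : A ⊆ A₁ := by
      rcases nest x A z A₁ z₁ h ⟨g1, g2, g3⟩ with h1 | h1
      · exact h1
      · have := wm_mono h1
        linarith
    obtain ⟨f, fc, fi, f0, f1, fA⟩ := id g1
    obtain ⟨t, ht, hft⟩ : z ∈ f '' Icc 0 1 := by
      rw [fA]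
      exact hsub h.1.right_mem
    have ht0 : 0 < t := by
      refine lt_of_le_of_ne ht.1 fun h0 => ?_
      rw [← h0, f0] at hft
      exact h.1.ne hft
    have hAe : A = f '' Icc 0 t := by
      refine arc_in_arc fc fi le_rfl ht0 ht.2 ?_ (by rw [fA]; exact hsub)
      rw [f0, hft]
      exact h.1
    obtain ⟨t', ht', hwt'⟩ := size_ivt fc le_rfl zero_le_one (r := c) hc.le (by
      rw [fA]
      linarith)
    by_cases htt : t ≤ t'
    · have ht'0 : f t' ≠ x := by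
        intro h5
        rw [← f0] at h5
        have h6 := fi ht' ⟨le_rfl, zero_le_one⟩ h5
        linarith
      have hmem : f t' ∈ A₁ := by
        rw [← fA]
        exact mem_image_of_mem f ht'
      obtain ⟨A', hA', h7⟩ := key x A₁ z₁ (f t') ⟨g1, g2, g3⟩ hmem ht'0
      have hA'e : A' = f '' Icc 0 t' := by
        refine arc_in_arc fc fi le_rfl (ht0.trans_le htt) ht'.2 ?_ (by rw [fA]; exact hA')
        rw [f0]
        exact h7.1
      refine ⟨A', f t', h7, ?_, ?_⟩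
      · rw [hAe, hA'e]
        exact image_mono (Icc_subset_Icc_right htt)
      · rw [hA'e]
        exact hwt'
    · push Not at htt
      have h5 := size_lt fc fi le_rfl le_rfl ht'.1 htt.le ht.2 (Or.inr htt)
      rw [← hAe, hwt'] at h5
      exact absurd hwA (not_le.2 h5)
  · rintro h x A z hh ⟨h1, h2, h3⟩ hwA
    have hh1 : Sm h η₁ := fun y => (hh y).trans_le (min_le_left _ _)
    have hh2 : Sm h (ε₁ / 8) := fun y => (hh y).trans_le (min_le_right _ _)
    have hdA : diam A < ε₁ / 2 := hd3 A (hwA.trans_lt hcδ₃)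
    have h4 := diam_image_lt hh2 A ⟨x, h1.left_mem⟩
    refine ⟨h1.image h, by linarith, hinv h hh1 z x ?_ h3⟩
    exact (isArc_near h1 h1.right_mem h1.left_mem (h2.trans_le hle2))

end Pool.Agent.HDA
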