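import Mathlib
import Pool.Agent.HDA.CutEx
import Pool.Agent.HDA.CutUnif
import Pool.Agent.HDA.Comp

/-!
# HDA module TREEEX: the tree axioms hold at all small scales

PROOF. `exists_cut` and `exists_cut_uniform` give `r₀ > 0`. For `0 < s < r₀`: `comp_up` at scale `s` gives
`ε`; `below_ex` with `s' = r₀` (`hcut` from `exists_cut_uniform` with `r = r₀`) gives the field `below`.
-/

set_option autoImplicit false

open Set Topology Filter Metric Pool.Agent.HDC Pool.Agent.Helper43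

namespace Pool.Agent.HDA

theorem exists_treeAx {X : Type*} [MetricSpace X] [CompactSpace X] [Nonempty X] (hom : Hom X)
    (hnd : ¬ ∃ Y : Set X, Ctm Y ∧ Y.Nontrivial ∧ Indec Y)
    (harc : ∃ (A : Set X) (a b : X), IsArc A a b) (h1 : ∀ s > 0, Type1 X s) :
    ∃ r₀ > 0, ∀ s > 0, s < r₀ → ∃ ε, TreeAx X s ε := by
  obtain ⟨r₀, hr₀, hcut⟩ := exists_cut_uniform hom (exists_cut hnd harc)
  refine ⟨r₀, hr₀, fun s hs hsr => ?_⟩
  obtain ⟨ε, hε, hεs, hcomp⟩ := comp_up hom hnd harc hs (h1 s hs)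
  exact ⟨ε, ⟨hε, hεs, h1 s hs, hcomp, fun x t ht =>
    below_ex hom hs hsr (h1 r₀ hr₀) (hcut r₀ hr₀ le_rfl) x ht⟩⟩

end Pool.Agent.HDA
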