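import Mathlib
import Pool.Agent.HDC.Main
import Pool.Agent.HDA.TreeEx
import Pool.Agent.HDA.TreeDL
import Pool.Agent.HDA.LineDL
import Pool.Agent.HDA.Flow
import Pool.Agent.HDA.Compon
import Pool.Agent.HDA.FinalW

/-!
# HDA: the main theorem
-/

set_option autoImplicit false

open Set Topology Filter Metric Pool.Agent.HDC Pool.Agent.Helper43

namespace Pool.Agent.HDA

/-- a nondegenerate homogeneous hereditarily decomposable continuum with two distinct points joined
by a path is a circle -/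
theorem main {X : Type*} [MetricSpace X] [CompactSpace X] [ConnectedSpace X] [Nontrivial X]
    (hom : ∀ x y : X, ∃ h : X ≃ₜ X, h x = y)
    (hd : ∀ K : Set X, IsClosed K → IsConnected K → K.Nontrivial →
      ∃ A B : Set X, IsClosed A ∧ IsConnected A ∧ IsClosed B ∧ IsConnected B ∧
        A ⊂ K ∧ B ⊂ K ∧ A ∪ B = K)
    {x y : X} (hxy : x ≠ y) (hj : Joined x y) : Nonempty (X ≃ₜ Circle) := by
  have hnd : ¬ ∃ Y : Set X, Ctm Y ∧ Y.Nontrivial ∧ Indec Y := by
    rintro ⟨Y, hY, hYn, hYi⟩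
    obtain ⟨A, B, hA, hA', hB, hB', hAY, hBY, hAB⟩ := hd Y hY.1 hY.2 hYn
    rcases hYi A B ⟨hA, hA'⟩ ⟨hB, hB'⟩ hAB with h | h
    · exact hAY.ne h
    · exact hBY.ne h
  have harc : ∃ (A : Set X) (a b : X), IsArc A a b := by
    have hpc : IsPathConnected (pathComponent x) := isPathConnected_pathComponent
    obtain ⟨A, -, hA⟩ := exists_isArc_sub hpc (mem_pathComponent_self x) hj hxy
    exact ⟨A, x, y, hA⟩
  obtain ⟨Leg, c, η, hL⟩ : ∃ (Leg : X → Set X → X → Prop) (c η : ℝ), DL X Leg c η := by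
    rcases type_dichotomy hom with h1 | hl
    · obtain ⟨r₀, hr, hT⟩ := exists_treeAx hom hnd harc h1
      exact tree_dl hom hr hT
    · exact line_dl hom hl
  obtain ⟨m, κ, hf⟩ := exists_flow hom hL
  have hc : IsClosed (St Leg c) := st_closed hom hL
  haveI : CompactSpace ↥(St Leg c) := isCompact_iff_compactSpace.1 hc.isCompact
  haveI : Nonempty ↥(St Leg c) := by
    obtain ⟨y', hy'⟩ := st_surj hL x
    exact ⟨⟨(x, y'), hy'⟩⟩
  obtain ⟨Y₀, m', hY₀, hY₀c, hf'⟩ := exists_component hf (by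
    rintro ⟨⟨x₁, y₁⟩, h₁⟩ ⟨⟨x₂, y₂⟩, h₂⟩ ⟨⟨x₃, y₃⟩, h₃⟩ h h'
    simp only at h h'
    subst h
    subst h'
    rcases st_two hL h₁ h₂ h₃ with rfl | rfl | rfl
    · exact Or.inl rfl
    · exact Or.inr (Or.inl rfl)
    · exact Or.inr (Or.inr rfl))
  haveI : CompactSpace ↥Y₀ := isCompact_iff_compactSpace.1 hY₀.isCompact
  haveI : ConnectedSpace ↥Y₀ := isConnected_iff_connectedSpace.1 hY₀c
  obtain ⟨z, hz⟩ := exists_interior hnd hf'
  rcases Pool.Agent.HDC.main hom hd with h | ⟨-, h, -⟩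
  · exact h
  · exact absurd ((h z).mono interior_subset) (not_isMeagre_of_isOpen isOpen_interior hz)

end Pool.Agent.HDA
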